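import Mathlib

/-! Basic facts on the exponential maps `z ↦ c exp z` (helper102, MP_3a87b6_an). -/

set_option autoImplicit false

open Set Filter Topology Metric

namespace Run7.h102

/-- the exponential map with parameter `c` -/
noncomputable def ex (c z : ℂ) : ℂ := c * Complex.exp z

/-- normality of the iterates on `U`, in the form of the frozen statement -/
def Nrm (f : ℂ → ℂ) (U : Set ℂ) : Prop :=
  ∀ φ : ℕ → ℕ, StrictMono φ → ∃ ψ : ℕ → ℕ, StrictMono ψ ∧
    ((∃ g : ℂ → ℂ, TendstoLocallyUniformlyOn (fun k : ℕ => f^[φ (ψ k)]) g atTop U) ∨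
     (∀ K : Set ℂ, K ⊆ U → IsCompact K → ∀ R : ℝ, ∀ᶠ k in atTop, ∀ x ∈ K, R < ‖f^[φ (ψ k)] x‖))

/-- the Julia set of `ex c` -/
def Jul (c : ℂ) : Set ℂ := {z | ¬ ∃ U ∈ 𝓝 z, Nrm (ex c) U}

/-- the product of the values along the orbit, that is the derivative of the iterate -/
noncomputable def D (c : ℂ) (n : ℕ) (z : ℂ) : ℂ := ∏ j ∈ Finset.range n, (ex c)^[j + 1] z

theorem D_zero (c z : ℂ) : D c 0 z = 1 := by simp [D]

theorem D_succ (c : ℂ) (n : ℕ) (z : ℂ) : D c (n + 1) z = ex c z * D c n (ex c z) := by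
  simp only [D]
  rw [Finset.prod_range_succ']
  simp only [Function.iterate_succ, Function.comp_apply, Function.iterate_zero, id_eq]
  ring

theorem D_succ' (c : ℂ) (n : ℕ) (z : ℂ) : D c (n + 1) z = D c n z * (ex c)^[n + 1] z := by
  simp only [D]
  rw [Finset.prod_range_succ]

theorem D_add (c : ℂ) (m n : ℕ) (z : ℂ) : D c (m + n) z = D c m z * D c n ((ex c)^[m] z) := by
  induction m generalizing z with
  | zero => simp [D_zero]
  | succ m ih =>
    rw [show m + 1 + n = (m + n) + 1 by ring, D_succ, ih, D_succ, Function.iterate_succ_apply]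
    ring

theorem ex_ne_zero {c : ℂ} (hc : c ≠ 0) (z : ℂ) : ex c z ≠ 0 :=
  mul_ne_zero hc (Complex.exp_ne_zero z)

theorem iter_ne_zero {c : ℂ} (hc : c ≠ 0) (n : ℕ) (z : ℂ) : (ex c)^[n + 1] z ≠ 0 := by
  rw [Function.iterate_succ_apply']
  exact ex_ne_zero hc _

theorem D_ne_zero {c : ℂ} (hc : c ≠ 0) (n : ℕ) (z : ℂ) : D c n z ≠ 0 :=
  Finset.prod_ne_zero_iff.2 fun _ _ => iter_ne_zero hc _ _

theorem ex_diff (c : ℂ) : Differentiable ℂ (ex c) :=
  (differentiable_const c).mul Complex.differentiable_exp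

theorem ex_cont (c : ℂ) : Continuous (ex c) := (ex_diff c).continuous

theorem ex_hasDerivAt (c z : ℂ) : HasDerivAt (ex c) (ex c z) z :=
  (Complex.hasDerivAt_exp z).const_mul c

theorem iter_diff (c : ℂ) (n : ℕ) : Differentiable ℂ (ex c)^[n] := by
  induction n with
  | zero => exact differentiable_id
  | succ n ih => rw [Function.iterate_succ]; exact ih.comp (ex_diff c)

theorem iter_cont (c : ℂ) (n : ℕ) : Continuous (ex c)^[n] := (iter_diff c n).continuous

theorem iter_hasDerivAt (c : ℂ) (n : ℕ) (z : ℂ) : HasDerivAt (ex c)^[n] (D c n z) z := by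
  induction n generalizing z with
  | zero => simpa [D_zero] using hasDerivAt_id z
  | succ n ih =>
    rw [Function.iterate_succ, D_succ, mul_comm]
    exact (ih (ex c z)).comp z (ex_hasDerivAt c z)

theorem deriv_iter (c : ℂ) (n : ℕ) (z : ℂ) : deriv (ex c)^[n] z = D c n z :=
  (iter_hasDerivAt c n z).deriv

theorem norm_ex (c z : ℂ) : ‖ex c z‖ = ‖c‖ * Real.exp z.re := by
  rw [ex, norm_mul, Complex.norm_exp]

theorem ex_add_period (c z : ℂ) (k : ℤ) : ex c (z + k * (2 * Real.pi * Complex.I)) = ex c z := by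
  rw [ex, ex, Complex.exp_add, (Complex.exp_eq_one_iff.2 ⟨k, rfl⟩), mul_one]

theorem ex_eq_iff {c : ℂ} (hc : c ≠ 0) {z w : ℂ} :
    ex c z = ex c w ↔ ∃ k : ℤ, z = w + k * (2 * Real.pi * Complex.I) := by
  unfold ex
  rw [mul_right_inj' hc, Complex.exp_eq_exp_iff_exists_int]

theorem iter_add_period (c z : ℂ) (k : ℤ) (n : ℕ) :
    (ex c)^[n + 1] (z + k * (2 * Real.pi * Complex.I)) = (ex c)^[n + 1] z := by
  rw [Function.iterate_succ_apply, Function.iterate_succ_apply, ex_add_period]

theorem D_add_period (c z : ℂ) (k : ℤ) (n : ℕ) :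
    D c n (z + k * (2 * Real.pi * Complex.I)) = D c n z := by
  simp only [D]
  exact Finset.prod_congr rfl fun j _ => iter_add_period c z k j

/-- joint continuity of the iterates in the parameter and the point -/
theorem iter_cont₂ (n : ℕ) : Continuous fun p : ℂ × ℂ => (ex p.1)^[n] p.2 := by
  induction n with
  | zero => exact continuous_snd
  | succ n ih =>
    simp only [Function.iterate_succ_apply']
    unfold ex at ih ⊢
    exact continuous_fst.mul (Complex.continuous_exp.comp ih)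

theorem D_cont₂ (n : ℕ) : Continuous fun p : ℂ × ℂ => D p.1 n p.2 := by
  simp only [D]
  exact continuous_finsetProd _ fun j _ => iter_cont₂ (j + 1)

theorem D_cont (c : ℂ) (n : ℕ) : Continuous (D c n) :=
  (D_cont₂ n).comp (Continuous.prodMk_right c)

end Run7.h102
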