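import Mathlib
import Pool.Agent.Run7.h102.Base
import Pool.Agent.H792R2.SS.KB

/-! Inverse branches of the iterates and the Koebe bounds (helper102, MP_3a87b6_an). -/

set_option autoImplicit false

open Set Filter Topology Metric

namespace Run7.h102

/-- Koebe's one-quarter theorem, centre form (from the bound of the second coefficient;
the proof follows `Pool.Agent.H713R5.QJ.kb_omit`) -/
theorem kb_omit {Z : ℂ → ℂ} {p : ℂ} {A : ℝ} (hA : 0 < A) (hd : DifferentiableOn ℂ Z (ball p A))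
    (hi : InjOn Z (ball p A)) {u : ℂ} (hu : ∀ w ∈ ball p A, Z w ≠ u) :
    A * ‖deriv Z p‖ ≤ 4 * ‖Z p - u‖ := by
  have h0 : p ∈ ball p A := mem_ball_self hA
  obtain ⟨hZ1, hZ2⟩ := Pool.Agent.H792R2.SS.t_KB Z p A hA hd hi
  have hne : ∀ w ∈ ball p A, Z w - u ≠ 0 := fun w hw => sub_ne_zero.2 (hu w hw)
  have hgd : DifferentiableOn ℂ (fun w => (Z w - u)⁻¹) (ball p A) := (hd.sub_const u).inv hne
  have hgi : InjOn (fun w => (Z w - u)⁻¹) (ball p A) := by
    intro w hw w' hw' h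
    have h1 : Z w - u = Z w' - u := inv_injective h
    exact hi hw hw' (sub_left_injective h1)
  obtain ⟨hg1, hg2⟩ := Pool.Agent.H792R2.SS.t_KB (fun w => (Z w - u)⁻¹) p A hA hgd hgi
  have hd1 : ∀ w ∈ ball p A,
      HasDerivAt (fun w => (Z w - u)⁻¹) (-(deriv Z w) / (Z w - u) ^ 2) w := by
    intro w hw
    have h1 := ((hd.differentiableAt (isOpen_ball.mem_nhds hw)).hasDerivAt.sub_const u)
    exact h1.inv (hne w hw)
  have hd2 : deriv (fun w => (Z w - u)⁻¹) =ᶠ[𝓝 p] fun w => -(deriv Z w) / (Z w - u) ^ 2 := by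
    filter_upwards [isOpen_ball.mem_nhds h0] with w hw using (hd1 w hw).deriv
  have hZ0 : HasDerivAt Z (deriv Z p) p :=
    (hd.differentiableAt (isOpen_ball.mem_nhds h0)).hasDerivAt
  have hZ'' : HasDerivAt (deriv Z) (deriv (deriv Z) p) p :=
    ((hd.deriv isOpen_ball).differentiableAt (isOpen_ball.mem_nhds h0)).hasDerivAt
  have hq : Z p - u ≠ 0 := hne p h0
  have hd3 : HasDerivAt (fun w => -(deriv Z w) / (Z w - u) ^ 2)
      ((-(deriv (deriv Z) p) * (Z p - u) ^ 2 -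
        -(deriv Z p) * ((2 : ℕ) * (Z p - u) ^ (2 - 1) * deriv Z p)) / ((Z p - u) ^ 2) ^ 2) p :=
    hZ''.neg.div ((hZ0.sub_const u).pow 2) (pow_ne_zero 2 hq)
  have e1 : deriv (deriv (fun w => (Z w - u)⁻¹)) p =
      (2 * deriv Z p ^ 2 - deriv (deriv Z) p * (Z p - u)) / (Z p - u) ^ 3 := by
    rw [hd2.deriv_eq, hd3.deriv]
    field_simp
    push_cast
    ring
  have e2 : deriv (fun w => (Z w - u)⁻¹) p = -(deriv Z p) / (Z p - u) ^ 2 := (hd1 p h0).deriv
  rw [e1, e2, norm_div, norm_div, norm_neg, norm_pow, norm_pow] at hg2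
  have hqn : 0 < ‖Z p - u‖ := norm_pos_iff.2 hq
  have hzn : 0 < ‖deriv Z p‖ := norm_pos_iff.2 hZ1
  have h3 : A * ‖2 * deriv Z p ^ 2 - deriv (deriv Z) p * (Z p - u)‖ ≤
      4 * ‖deriv Z p‖ * ‖Z p - u‖ := by
    have h4 := mul_le_mul_of_nonneg_right hg2 (pow_nonneg hqn.le 3)
    have e3 : A * (‖2 * deriv Z p ^ 2 - deriv (deriv Z) p * (Z p - u)‖ / ‖Z p - u‖ ^ 3) *
        ‖Z p - u‖ ^ 3 = A * ‖2 * deriv Z p ^ 2 - deriv (deriv Z) p * (Z p - u)‖ := by
      field_simp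
    have e4 : 4 * (‖deriv Z p‖ / ‖Z p - u‖ ^ 2) * ‖Z p - u‖ ^ 3 =
        4 * ‖deriv Z p‖ * ‖Z p - u‖ := by
      field_simp
    rwa [e3, e4] at h4
  have h5 : 2 * ‖deriv Z p‖ ^ 2 ≤ ‖2 * deriv Z p ^ 2 - deriv (deriv Z) p * (Z p - u)‖ +
      ‖deriv (deriv Z) p‖ * ‖Z p - u‖ := by
    have h6 := norm_add_le (2 * deriv Z p ^ 2 - deriv (deriv Z) p * (Z p - u))
      (deriv (deriv Z) p * (Z p - u))
    rw [sub_add_cancel, norm_mul, norm_pow, norm_mul (deriv (deriv Z) p)] at h6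
    simpa using h6
  have h7 : A * (2 * ‖deriv Z p‖ ^ 2) ≤ 8 * ‖deriv Z p‖ * ‖Z p - u‖ := by
    have h8 := mul_le_mul_of_nonneg_left h5 hA.le
    have h9 := mul_le_mul_of_nonneg_right hZ2 hqn.le
    nlinarith
  have h10 : (A * ‖deriv Z p‖) * ‖deriv Z p‖ ≤ (4 * ‖Z p - u‖) * ‖deriv Z p‖ := by nlinarith
  exact le_of_mul_le_mul_right h10 hzn

/-- a branch of the logarithm of a nonvanishing holomorphic function on a disc -/
theorem log_ball {g : ℂ → ℂ} {p : ℂ} {r : ℝ} (hr : 0 < r) (hg : DifferentiableOn ℂ g (ball p r))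
    (h0 : ∀ w ∈ ball p r, g w ≠ 0) (y : ℂ) (hy : Complex.exp y = g p) :
    ∃ L : ℂ → ℂ, DifferentiableOn ℂ L (ball p r) ∧ L p = y ∧
      ∀ w ∈ ball p r, Complex.exp (L w) = g w := by
  have hp : p ∈ ball p r := mem_ball_self hr
  have hq : DifferentiableOn ℂ (fun w => deriv g w / g w) (ball p r) :=
    (hg.deriv isOpen_ball).div hg h0
  obtain ⟨L, hL0, hL⟩ := hq.isExactOn_ball.with_val_at p y
  have hLd : DifferentiableOn ℂ L (ball p r) := fun w hw =>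
    (hL w hw).differentiableAt.differentiableWithinAt
  refine ⟨L, hLd, hL0, ?_⟩
  have hF : ∀ w ∈ ball p r, HasDerivAt (fun w => Complex.exp (-L w) * g w) 0 w := by
    intro w hw
    have h1 : HasDerivAt g (deriv g w) w :=
      (hg.differentiableAt (isOpen_ball.mem_nhds hw)).hasDerivAt
    have h2 : HasDerivAt (fun w => Complex.exp (-L w)) (Complex.exp (-L w) * -(deriv g w / g w)) w :=
      (hL w hw).neg.cexp
    have h3 := h2.mul h1
    have e : Complex.exp (-L w) * -(deriv g w / g w) * g w + Complex.exp (-L w) * deriv g w = 0 := by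
      have := h0 w hw
      field_simp
      ring
    rw [e] at h3
    exact h3
  have hFd : DifferentiableOn ℂ (fun w => Complex.exp (-L w) * g w) (ball p r) := fun w hw =>
    (hF w hw).differentiableAt.differentiableWithinAt
  have hconst : ∀ w ∈ ball p r, Complex.exp (-L w) * g w = Complex.exp (-L p) * g p := by
    intro w hw
    exact isOpen_ball.is_const_of_deriv_eq_zero (convex_ball p r).isPreconnected hFd
      (fun x hx => (hF x hx).deriv) hw hp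
  intro w hw
  have h4 := hconst w hw
  rw [hL0, ← hy, ← Complex.exp_add, neg_add_cancel, Complex.exp_zero] at h4
  have h5 : Complex.exp (L w) * (Complex.exp (-L w) * g w) = Complex.exp (L w) * 1 := by rw [h4]
  rw [← mul_assoc, ← Complex.exp_add, add_neg_cancel, Complex.exp_zero, one_mul, mul_one] at h5
  exact h5.symm

/-- inverse branches of the iterates -/
theorem inv_branch {c : ℂ} (hc : c ≠ 0) (n : ℕ) (z : ℂ) {r : ℝ} (hr : 0 < r)
    (h : ∀ j < n, (ex c)^[j] 0 ∉ ball ((ex c)^[n] z) r) :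
    ∃ φ : ℂ → ℂ, DifferentiableOn ℂ φ (ball ((ex c)^[n] z) r) ∧ φ ((ex c)^[n] z) = z ∧
      ∀ w ∈ ball ((ex c)^[n] z) r, (ex c)^[n] (φ w) = w := by
  induction n generalizing z with
  | zero => exact ⟨id, differentiableOn_id, rfl, fun w _ => rfl⟩
  | succ n ih =>
    obtain ⟨φ, hφd, hφ0, hφ⟩ := ih (ex c z) (fun j hj => by
      rw [← Function.iterate_succ_apply]; exact h j (by omega))
    rw [← Function.iterate_succ_apply] at hφd hφ0 hφ
    have hp : (ex c)^[n + 1] z ∈ ball ((ex c)^[n + 1] z) r := mem_ball_self hr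
    have hne : ∀ w ∈ ball ((ex c)^[n + 1] z) r, φ w ≠ 0 := by
      intro w hw h0
      have h1 := hφ w hw
      rw [h0] at h1
      exact h n (by omega) (h1 ▸ hw)
    obtain ⟨L, hLd, hL0, hL⟩ := log_ball (g := fun w => φ w / c) hr (hφd.div_const c)
      (fun w hw => div_ne_zero (hne w hw) hc) z (by
        rw [hφ0, ex, mul_div_cancel_left₀ _ hc])
    refine ⟨L, hLd, hL0, fun w hw => ?_⟩
    rw [Function.iterate_succ_apply]
    have h2 : ex c (L w) = φ w := by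
      rw [ex, hL w hw, mul_div_cancel₀ _ hc]
    rw [h2]
    exact hφ w hw

theorem inv_injOn {c : ℂ} {n : ℕ} {z : ℂ} {r : ℝ} {φ : ℂ → ℂ}
    (hφ : ∀ w ∈ ball ((ex c)^[n] z) r, (ex c)^[n] (φ w) = w) :
    InjOn φ (ball ((ex c)^[n] z) r) := by
  intro w hw w' hw' h
  rw [← hφ w hw, ← hφ w' hw', h]

theorem inv_deriv {c : ℂ} (hc : c ≠ 0) {n : ℕ} {z : ℂ} {r : ℝ} (hr : 0 < r) {φ : ℂ → ℂ}
    (hφd : DifferentiableOn ℂ φ (ball ((ex c)^[n] z) r)) (hφ0 : φ ((ex c)^[n] z) = z)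
    (hφ : ∀ w ∈ ball ((ex c)^[n] z) r, (ex c)^[n] (φ w) = w) :
    deriv φ ((ex c)^[n] z) = (D c n z)⁻¹ := by
  have hp : (ex c)^[n] z ∈ ball ((ex c)^[n] z) r := mem_ball_self hr
  have h1 : HasDerivAt φ (deriv φ ((ex c)^[n] z)) ((ex c)^[n] z) :=
    (hφd.differentiableAt (isOpen_ball.mem_nhds hp)).hasDerivAt
  have h2 : HasDerivAt (ex c)^[n] (D c n z) (φ ((ex c)^[n] z)) := by
    rw [hφ0]; exact iter_hasDerivAt c n z
  have h3 := h2.comp _ h1
  have h4 : HasDerivAt (fun w : ℂ => w) (1 : ℂ) ((ex c)^[n] z) := hasDerivAt_id _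
  have h5 : ((ex c)^[n] ∘ φ) =ᶠ[𝓝 ((ex c)^[n] z)] fun w => w := by
    filter_upwards [isOpen_ball.mem_nhds hp] with w hw using hφ w hw
  have h6 := (h3.congr_of_eventuallyEq h5.symm).unique h4
  exact eq_inv_of_mul_eq_one_right h6

/-- Koebe lower bound for the derivative -/
theorem koebe_lower {c : ℂ} (hc : c ≠ 0) {n : ℕ} (hn : 1 ≤ n) (z : ℂ) {r : ℝ} (hr : 0 < r)
    (h : ∀ j < n, (ex c)^[j] 0 ∉ ball ((ex c)^[n] z) r) : r ≤ 8 * Real.pi * ‖D c n z‖ := by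
  obtain ⟨φ, hφd, hφ0, hφ⟩ := inv_branch hc n z hr h
  obtain ⟨m, rfl⟩ : ∃ m, n = m + 1 := ⟨n - 1, by omega⟩
  have hD : 0 < ‖D c (m + 1) z‖ := norm_pos_iff.2 (D_ne_zero hc _ _)
  have h1 := kb_omit hr hφd (inv_injOn hφ) (u := z + (1 : ℤ) * (2 * Real.pi * Complex.I)) (by
    intro w hw h2
    have h3 := hφ w hw
    rw [h2, iter_add_period] at h3
    rw [← h3, hφ0] at h2
    have h4 : (2 * Real.pi * Complex.I : ℂ) = 0 := by
      have : z + (1 : ℤ) * (2 * Real.pi * Complex.I) - z = 0 := by rw [← h2, sub_self]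
      simpa using this
    exact Complex.two_pi_I_ne_zero h4)
  rw [inv_deriv hc hr hφd hφ0 hφ, hφ0, norm_inv] at h1
  have h2 : ‖z - (z + (1 : ℤ) * (2 * Real.pi * Complex.I))‖ = 2 * Real.pi := by
    have : z - (z + (1 : ℤ) * (2 * Real.pi * Complex.I)) = -(2 * Real.pi * Complex.I) := by
      push_cast; ring
    rw [this, norm_neg, norm_mul, norm_mul, Complex.norm_I, mul_one, Complex.norm_real,
      Complex.norm_ofNat, Real.norm_of_nonneg Real.pi_pos.le]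
  rw [h2] at h1
  have h3 : r * ‖D c (m + 1) z‖⁻¹ * ‖D c (m + 1) z‖ ≤ 4 * (2 * Real.pi) * ‖D c (m + 1) z‖ :=
    mul_le_mul_of_nonneg_right h1 hD.le
  rw [mul_assoc, inv_mul_cancel₀ hD.ne', mul_one] at h3
  linarith

/-- Koebe covering: a disc of radius `r / (4 ‖D‖)` about `z` is mapped into the disc -/
theorem koebe_cover {c : ℂ} (hc : c ≠ 0) {n : ℕ} (z : ℂ) {r : ℝ} (hr : 0 < r)
    (h : ∀ j < n, (ex c)^[j] 0 ∉ ball ((ex c)^[n] z) r) {u : ℂ}
    (hu : 4 * ‖D c n z‖ * ‖u - z‖ < r) : (ex c)^[n] u ∈ ball ((ex c)^[n] z) r := by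
  obtain ⟨φ, hφd, hφ0, hφ⟩ := inv_branch hc n z hr h
  have hD : 0 < ‖D c n z‖ := norm_pos_iff.2 (D_ne_zero hc _ _)
  by_contra hcon
  have h1 := kb_omit hr hφd (inv_injOn hφ) (u := u) (by
    intro w hw h2
    apply hcon
    rw [← h2, hφ w hw]
    exact hw)
  rw [inv_deriv hc hr hφd hφ0 hφ, hφ0, norm_inv] at h1
  have h3 : r * ‖D c n z‖⁻¹ * ‖D c n z‖ ≤ 4 * ‖z - u‖ * ‖D c n z‖ :=
    mul_le_mul_of_nonneg_right h1 hD.le
  rw [mul_assoc, inv_mul_cancel₀ hD.ne', mul_one, norm_sub_rev] at h3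
  linarith

end Run7.h102
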