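import Mathlib
import Pool.Agent.Run7.h102.Base
import Pool.Agent.Run7.h102.Inv
import Pool.Agent.Helper113.Gorin.Schottky
import Pool.Agent.Helper114.MontelSol

/-! Hyperbolic exponential maps: trapping compact sets, growth of derivatives, the Julia set
(helper102, MP_3a87b6_an). -/

set_option autoImplicit false

open Set Filter Topology Metric

namespace Run7.h102

/-- a compact set mapped into its interior, with the singular value in the interior -/
structure Trap (c : ℂ) (K : Set ℂ) : Prop where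
  cpt : IsCompact K
  zero : (0 : ℂ) ∈ interior K
  map : ∀ z ∈ K, ex c z ∈ interior K

/-- the points whose orbits never meet `K` -/
def Esc (c : ℂ) (K : Set ℂ) : Set ℂ := {z | ∀ n, (ex c)^[n] z ∉ K}

variable {c : ℂ} {K : Set ℂ}

theorem Trap.fwd (h : Trap c K) {z : ℂ} (hz : z ∈ K) (n : ℕ) : (ex c)^[n] z ∈ K := by
  induction n with
  | zero => exact hz
  | succ n ih => rw [Function.iterate_succ_apply']; exact interior_subset (h.map _ ih)

theorem Trap.surv (h : Trap c K) {z : ℂ} {n j : ℕ} (hj : j ≤ n) (hn : (ex c)^[n] z ∉ K) :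
    (ex c)^[j] z ∉ K := by
  intro hz
  apply hn
  obtain ⟨k, rfl⟩ := Nat.exists_eq_add_of_le hj
  rw [Nat.add_comm, Function.iterate_add_apply]
  exact h.fwd hz k

theorem Esc.fwd {z : ℂ} (hz : z ∈ Esc c K) (n : ℕ) : (ex c)^[n] z ∈ Esc c K := by
  intro m
  rw [← Function.iterate_add_apply]
  exact hz _

/-- the critical compact set `{0} ∪ f(K)` has positive distance from the complement of `K` -/
theorem Trap.delta (h : Trap c K) :
    ∃ δ : ℝ, 0 < δ ∧ ∀ w, w ∉ interior K → δ ≤ dist w 0 ∧ ∀ y ∈ K, δ ≤ dist w (ex c y) := by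
  have hK : IsCompact ({0} ∪ ex c '' K) :=
    isCompact_singleton.union (h.cpt.image (ex_cont c))
  have hsub : {0} ∪ ex c '' K ⊆ interior K := by
    rintro x (hx | ⟨y, hy, rfl⟩)
    · rw [mem_singleton_iff.1 hx]; exact h.zero
    · exact h.map y hy
  obtain ⟨δ, hδ, hd⟩ := hK.exists_thickening_subset_open isOpen_interior hsub
  refine ⟨δ, hδ, fun w hw => ⟨?_, fun y hy => ?_⟩⟩
  · by_contra hcon
    exact hw (hd (mem_thickening_iff.2 ⟨0, Or.inl rfl, not_le.1 hcon⟩))
  · by_contra hcon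
    exact hw (hd (mem_thickening_iff.2 ⟨ex c y, Or.inr ⟨y, hy, rfl⟩, not_le.1 hcon⟩))

/-- the orbit of the singular value avoids a disc of radius `δ` about points outside `K` -/
theorem Trap.orbit (h : Trap c K) {δ : ℝ}
    (hδ : ∀ w, w ∉ interior K → δ ≤ dist w 0 ∧ ∀ y ∈ K, δ ≤ dist w (ex c y))
    {w : ℂ} (hw : w ∉ K) (j : ℕ) : (ex c)^[j] 0 ∉ ball w δ := by
  have hw' : w ∉ interior K := fun h' => hw (interior_subset h')
  intro hj
  rw [mem_ball, dist_comm] at hj
  cases j with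
  | zero => exact absurd (hδ w hw').1 (not_le.2 hj)
  | succ j =>
    rw [Function.iterate_succ_apply'] at hj
    exact absurd ((hδ w hw').2 _ (h.fwd (interior_subset h.zero) j)) (not_le.2 hj)

theorem Trap.isClosed_Esc (h : Trap c K) : IsClosed (Esc c K) := by
  rw [← isOpen_compl_iff, isOpen_iff_mem_nhds]
  intro z hz
  simp only [Esc, mem_compl_iff, mem_setOf_eq, not_forall, not_not] at hz
  obtain ⟨n, hn⟩ := hz
  have h1 : (ex c)^[n + 1] z ∈ interior K := by
    rw [Function.iterate_succ_apply']; exact h.map _ hn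
  filter_upwards [(iter_cont c (n + 1)).continuousAt.preimage_mem_nhds
    (isOpen_interior.mem_nhds h1)] with w hw hcon
  exact hcon (n + 1) (interior_subset hw)

/-- lower bound of the derivatives at surviving points -/
theorem Trap.lower (hc : c ≠ 0) (h : Trap c K) :
    ∃ c0 : ℝ, 0 < c0 ∧ c0 ≤ 1 ∧ ∀ n z, (n = 0 ∨ (ex c)^[n] z ∉ K) → c0 ≤ ‖D c n z‖ := by
  obtain ⟨δ, hδ, hd⟩ := h.delta
  have hpi := Real.pi_pos
  refine ⟨min 1 (δ / (8 * Real.pi)), by positivity, min_le_left _ _, fun n z hn => ?_⟩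
  rcases Nat.eq_zero_or_pos n with rfl | hn0
  · rw [D_zero, norm_one]; exact min_le_left _ _
  · have hn' : (ex c)^[n] z ∉ K := hn.resolve_left (by omega)
    have h1 := koebe_lower hc hn0 z hδ (fun j _ => h.orbit hd hn' j)
    refine (min_le_right _ _).trans ?_
    rw [div_le_iff₀ (by positivity)]
    linarith

/-- covering at surviving points -/
theorem Trap.cover (hc : c ≠ 0) (h : Trap c K) {δ : ℝ} (hδ0 : 0 < δ)
    (hδ : ∀ w, w ∉ interior K → δ ≤ dist w 0 ∧ ∀ y ∈ K, δ ≤ dist w (ex c y))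
    {n : ℕ} {z u : ℂ} (hn : (ex c)^[n + 1] z ∉ K) (hu : 4 * ‖D c (n + 1) z‖ * ‖u - z‖ < δ) :
    (ex c)^[n] u ∉ K := by
  intro hcon
  have h1 := koebe_cover hc z hδ0 (fun j _ => h.orbit hδ hn j) hu
  rw [Function.iterate_succ_apply' _ _ u, mem_ball, dist_comm] at h1
  exact absurd ((hδ _ (fun h' => hn (interior_subset h'))).2 _ hcon) (not_le.2 h1)

/-- a far left half plane falls into `K` -/
theorem Trap.left (h : Trap c K) : ∃ M : ℝ, 0 < M ∧ ∀ z : ℂ, z.re ≤ -M → ex c z ∈ K := by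
  obtain ⟨ρ, hρ, hb⟩ := Metric.isOpen_iff.1 isOpen_interior 0 h.zero
  have ht : Tendsto (fun x : ℝ => ‖c‖ * Real.exp x) atBot (𝓝 (‖c‖ * 0)) :=
    Real.tendsto_exp_atBot.const_mul _
  rw [mul_zero] at ht
  obtain ⟨M, hM⟩ := (ht.eventually (gt_mem_nhds hρ)).exists_forall_of_atBot
  refine ⟨max 1 (-M), by positivity, fun z hz => interior_subset (hb ?_)⟩
  rw [mem_ball, dist_zero_right, norm_ex]
  apply hM
  have := le_max_right 1 (-M)
  linarith

/-- `E` has points of the complement within a bounded distance -/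
theorem Trap.noDisc (hc : c ≠ 0) (h : Trap c K) :
    ∃ R : ℝ, 0 < R ∧ ∀ v : ℂ, ∃ w, dist w v < R ∧ w ∉ Esc c K := by
  obtain ⟨M, hM, hl⟩ := h.left
  have hcn : 0 < ‖c‖ := norm_pos_iff.2 hc
  obtain ⟨T, hT0, hT⟩ : ∃ T : ℝ, 0 < T ∧ ∀ x, T ≤ x → M ≤ ‖c‖ * Real.exp x := by
    have ht : Tendsto (fun x : ℝ => ‖c‖ * Real.exp x) atTop atTop :=
      Real.tendsto_exp_atTop.const_mul_atTop hcn
    obtain ⟨T, hT⟩ := (ht.eventually_ge_atTop M).exists_forall_of_atTop
    exact ⟨max 1 T, by positivity, fun x hx => hT x ((le_max_right _ _).trans hx)⟩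
  have hpi := Real.pi_pos
  refine ⟨2 * Real.pi + T + M + 1, by positivity, fun v => ?_⟩
  by_cases hv : v.re ≤ T
  · refine ⟨v - ((T + M : ℝ) : ℂ), ?_, fun hcon => ?_⟩
    · rw [dist_eq_norm, sub_sub_cancel_left, norm_neg, Complex.norm_real,
        Real.norm_of_nonneg (by positivity)]
      linarith
    · refine hcon 1 ?_
      rw [Function.iterate_one]
      apply hl
      simp only [Complex.sub_re, Complex.ofReal_re]
      linarith
  · refine ⟨v + ((Real.pi - (ex c v).arg : ℝ) : ℂ) * Complex.I, ?_, fun hcon => ?_⟩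
    · rw [dist_eq_norm, add_sub_cancel_left, norm_mul, Complex.norm_I, mul_one, Complex.norm_real,
        Real.norm_of_nonneg (sub_nonneg.2 (Complex.arg_le_pi _))]
      have := Complex.neg_pi_lt_arg (ex c v)
      linarith
    · refine hcon 2 ?_
      rw [Function.iterate_succ_apply, Function.iterate_one]
      apply hl
      have e : ex c (v + ((Real.pi - (ex c v).arg : ℝ) : ℂ) * Complex.I) = ((-‖ex c v‖ : ℝ) : ℂ) := by
        have e1 : ex c (v + ((Real.pi - (ex c v).arg : ℝ) : ℂ) * Complex.I) =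
            ex c v * Complex.exp (((Real.pi - (ex c v).arg : ℝ) : ℂ) * Complex.I) := by
          rw [ex, ex, Complex.exp_add, mul_assoc]
        rw [e1]
        conv_lhs => rw [← Complex.norm_mul_exp_arg_mul_I (ex c v)]
        rw [mul_assoc, ← Complex.exp_add, Complex.ofReal_sub, sub_mul, Complex.norm_mul_exp_arg_mul_I,
          add_sub_cancel, Complex.exp_pi_mul_I]
        push_cast
        ring
      rw [e, Complex.ofReal_re, norm_ex]
      have := hT v.re (not_le.1 hv).le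
      linarith

/-- bounded derivatives on discs inside `E` -/
theorem Trap.int_bdd (hc : c ≠ 0) (h : Trap c K) :
    ∃ A : ℝ, 0 < A ∧ ∀ z r, 0 < r → ball z r ⊆ Esc c K → ∀ n, ‖D c n z‖ ≤ A / r := by
  obtain ⟨R, hR, hv⟩ := h.noDisc hc
  refine ⟨384 * R, by positivity, fun z r hr hb n => ?_⟩
  have hg : DifferentiableOn ℂ (fun ζ : ℂ => (ex c)^[n] (z + r * ζ)) (ball 0 1) :=
    ((iter_diff c n).comp ((differentiable_const z).add
      ((differentiable_const (r : ℂ)).mul differentiable_id))).differentiableOn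
  have hmem : ∀ ζ : ℂ, ζ ∈ ball (0 : ℂ) 1 → z + r * ζ ∈ ball z r := by
    intro ζ hζ
    rw [mem_ball, dist_eq_norm, add_sub_cancel_left, norm_mul, Complex.norm_real,
      Real.norm_of_nonneg hr.le]
    rw [mem_ball_zero_iff] at hζ
    nlinarith
  have hom : ∀ v : ℂ, ∃ w, dist w v < R ∧
      ∀ ζ ∈ ball (0 : ℂ) 1, (ex c)^[n] (z + r * ζ) ≠ w := by
    intro v
    obtain ⟨w, hw1, hw2⟩ := hv v
    exact ⟨w, hw1, fun ζ hζ h' => hw2 (h' ▸ (Esc.fwd (hb (hmem ζ hζ)) n))⟩
  have key : ∀ u ∈ sphere z (r / 2), ‖(ex c)^[n] u - (ex c)^[n] z‖ ≤ 192 * R := by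
    intro u hu
    rw [mem_sphere, dist_eq_norm] at hu
    have hrc : (r : ℂ) ≠ 0 := by exact_mod_cast hr.ne'
    have hζ : ‖(u - z) / r‖ = 1 / 2 := by
      rw [norm_div, hu, Complex.norm_real, Real.norm_of_nonneg hr.le]
      field_simp
    have h1 := H113G.J_schottky.bloch hg hR hom (z := (u - z) / r) (by
      rw [mem_ball_zero_iff, hζ]; norm_num)
    have e1 : z + r * ((u - z) / r) = u := by field_simp; ring
    simp only [e1, mul_zero, add_zero] at h1
    rw [hζ] at h1
    refine h1.trans (le_of_eq ?_)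
    ring
  have h2 := Complex.norm_deriv_le_of_forall_mem_sphere_norm_le (c := z) (R := r / 2)
    (f := fun u => (ex c)^[n] u - (ex c)^[n] z) (C := 192 * R) (by positivity)
    ((iter_diff c n).sub_const _).diffContOnCl key
  rw [deriv_sub_const, deriv_iter] at h2
  refine h2.trans (le_of_eq ?_)
  field_simp
  ring

/-- bounded orbits on discs inside `E` -/
theorem Trap.int_orbit (hc : c ≠ 0) (h : Trap c K) :
    ∃ A : ℝ, 0 < A ∧ ∀ z r, 0 < r → ball z r ⊆ Esc c K → ∀ n, ‖(ex c)^[n + 1] z‖ ≤ A / r := by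
  obtain ⟨A, hA, hb⟩ := h.int_bdd hc
  obtain ⟨c0, hc0, _, hlow⟩ := h.lower hc
  refine ⟨A / c0, by positivity, fun z r hr hz n => ?_⟩
  have h1 := hb z r hr hz (n + 1)
  rw [D_succ', norm_mul] at h1
  have h2 := hlow n z (Or.inr (hz (mem_ball_self hr) n))
  have h3 : c0 * ‖(ex c)^[n + 1] z‖ ≤ A / r :=
    (mul_le_mul_of_nonneg_right h2 (norm_nonneg _)).trans h1
  rw [div_div, le_div_iff₀ (by positivity)]
  rw [le_div_iff₀ hr] at h3
  linarith

end Run7.h102
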