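import Mathlib
import Pool.Agent.Run7.h102.Hyp

/-! The escaping-from-`K` set has empty interior; exponential growth; the Julia set
(helper102, MP_3a87b6_an). -/

set_option autoImplicit false

open Set Filter Topology Metric

namespace Run7.h102

variable {c : ℂ} {K : Set ℂ}

/-- normal limits on discs inside `E` -/
theorem Trap.montel_int (hc : c ≠ 0) (h : Trap c K) {w : ℂ} {R R' : ℝ} (hR : R' < R)
    (hb : ball w R ⊆ Esc c K) (m : ℕ → ℕ) (𝒰 : Ultrafilter ℕ) :
    ∃ Φ : ℂ → ℂ, DifferentiableOn ℂ Φ (ball w R') ∧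
      TendstoLocallyUniformlyOn (fun k => (ex c)^[m k]) Φ (𝒰 : Filter ℕ) (ball w R') := by
  obtain ⟨A, hA, hAb⟩ := h.int_orbit hc
  refine Pool.Agent.Helper114.Montel.montel isOpen_ball (fun k => (ex c)^[m k])
    (fun k => (iter_diff c (m k)).differentiableOn) (max (A / (R - R')) (‖w‖ + R')) ?_ 𝒰
  intro k z hz
  rcases Nat.eq_zero_or_pos (m k) with h0 | h0
  · rw [h0]
    refine le_trans ?_ (le_max_right _ _)
    rw [mem_ball, dist_eq_norm] at hz
    have := norm_add_le (z - w) w
    rw [sub_add_cancel] at this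
    simp only [Function.iterate_zero, id_eq]
    linarith
  · obtain ⟨n, hn⟩ : ∃ n, m k = n + 1 := ⟨m k - 1, by omega⟩
    rw [hn]
    refine le_trans (hAb z (R - R') (by linarith) (fun u hu => hb ?_) n) (le_max_left _ _)
    rw [mem_ball] at hu hz ⊢
    linarith [dist_triangle u z w]

theorem Trap.int_empty (hc : c ≠ 0) (h : Trap c K) : interior (Esc c K) = ∅ := by
  by_contra hne
  obtain ⟨z0, hz0⟩ := nonempty_iff_ne_empty.2 hne
  obtain ⟨r2, hr2, hb2⟩ := Metric.isOpen_iff.1 isOpen_interior z0 hz0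
  have hb2' : ball z0 r2 ⊆ Esc c K := hb2.trans interior_subset
  set r := r2 / 2 with hrdef
  have hr : 0 < r := by positivity
  obtain ⟨A, hA, hAb⟩ := h.int_bdd hc
  obtain ⟨c0, hc0, hc01, hlow⟩ := h.lower hc
  obtain ⟨δ, hδ, hd⟩ := h.delta
  obtain ⟨Φ, hΦd, hΦ⟩ := h.montel_int hc (show r < r2 by linarith) hb2' id (hyperfilter ℕ)
  simp only [id_eq] at hΦ
  have hΦu : TendstoUniformlyOn (fun k => (ex c)^[k]) Φ (hyperfilter ℕ : Filter ℕ)
      (closedBall z0 (r / 2)) :=
    (tendstoLocallyUniformlyOn_iff_forall_isCompact isOpen_ball).1 hΦ _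
      (closedBall_subset_ball (by linarith)) (isCompact_closedBall _ _)
  rw [Metric.tendstoUniformlyOn_iff] at hΦu
  obtain ⟨ν, hνm, hν⟩ := extraction_forall_of_frequently
    (P := fun k n => ∀ z ∈ closedBall z0 (r / 2), dist (Φ z) ((ex c)^[n] z) < 1 / ((k : ℝ) + 1))
    (fun k => ((hΦu (1 / ((k : ℝ) + 1)) (by positivity)).frequently.filter_mono
      Nat.hyperfilter_le_atTop))
  set N : ℕ → ℕ := fun k => ν (k ^ 2) with hN
  have hNlim : ∀ z ∈ closedBall z0 (r / 2), Tendsto (fun k => (ex c)^[N k] z) atTop (𝓝 (Φ z)) := by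
    intro z hz
    rw [tendsto_iff_dist_tendsto_zero]
    refine squeeze_zero (fun _ => dist_nonneg) (fun k => ?_) tendsto_one_div_add_atTop_nhds_zero_nat
    rw [dist_comm]
    refine (hν (k ^ 2) z hz).le.trans ?_
    refine one_div_le_one_div_of_le (by positivity) ?_
    have : (k : ℝ) ≤ ((k ^ 2 : ℕ) : ℝ) := by exact_mod_cast Nat.le_self_pow (by norm_num) k
    linarith
  have hgap : ∀ k, N k + (2 * k + 1) ≤ N (k + 1) := by
    intro k
    have h1 : ∀ a b : ℕ, ν a + b ≤ ν (a + b) := by
      intro a b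
      induction b with
      | zero => simp
      | succ b ih =>
        have := hνm (show a + b < a + (b + 1) by omega)
        omega
    have := h1 (k ^ 2) (2 * k + 1)
    have e : k ^ 2 + (2 * k + 1) = (k + 1) ^ 2 := by ring
    rw [e] at this
    exact this
  set m : ℕ → ℕ := fun k => N (k + 1) - N k with hm
  have hmN : ∀ k, m k + N k = N (k + 1) := fun k => by
    have := hgap k
    simp only [hm]
    omega
  have hmk : ∀ k, k + 1 ≤ m k := fun k => by
    have := hgap k
    simp only [hm]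
    omega
  set S : Set ℂ := {w | ∀ᶠ u in 𝓝 w, u ∈ Esc c K ∧
    Tendsto (fun k => (ex c)^[m k] u) (hyperfilter ℕ : Filter ℕ) (𝓝 u)} with hS
  -- the values of the limit function lie in S
  have hz0S : Φ z0 ∈ S := by
    have hz0b : z0 ∈ ball z0 r := mem_ball_self hr
    have hder : Tendsto (fun k : ℕ => D c k z0) (hyperfilter ℕ : Filter ℕ) (𝓝 (deriv Φ z0)) := by
      have h1 := (hΦ.deriv (Eventually.of_forall fun k => (iter_diff c k).differentiableOn)
        isOpen_ball).tendsto_at hz0b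
      simpa only [Function.comp_def, deriv_iter] using h1
    have hne0 : deriv Φ z0 ≠ 0 := by
      intro h0
      rw [h0] at hder
      have h1 : c0 ≤ ‖(0 : ℂ)‖ := ge_of_tendsto' hder.norm fun k =>
        hlow k z0 (Or.inr (hb2' (mem_ball_self hr2) k))
      rw [norm_zero] at h1
      linarith
    have hstrict : HasStrictDerivAt Φ (deriv Φ z0) z0 :=
      (hΦd.analyticAt (isOpen_ball.mem_nhds hz0b)).hasStrictDerivAt
    have hmap := hstrict.map_nhds_eq hne0
    show ∀ᶠ u in 𝓝 (Φ z0), _
    rw [← hmap, eventually_map]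
    have hcl : ∀ z ∈ closedBall z0 (r / 2), Φ z ∈ Esc c K := fun z hz =>
      h.isClosed_Esc.mem_of_tendsto (hNlim z hz) (Eventually.of_forall fun k =>
        Esc.fwd (hb2' (closedBall_subset_ball (by linarith) hz)) _)
    have hnear : ∀ᶠ z in 𝓝 z0, z ∈ closedBall z0 (r / 2) := closedBall_mem_nhds _ (by positivity)
    have hint : Φ z0 ∈ interior (Esc c K) := by
      rw [mem_interior_iff_mem_nhds, ← hmap, mem_map]
      filter_upwards [hnear] with z hz using hcl z hz
    have hnear2 : ∀ᶠ z in 𝓝 z0, Φ z ∈ interior (Esc c K) :=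
      (hΦd.differentiableAt (isOpen_ball.mem_nhds hz0b)).continuousAt.preimage_mem_nhds
        (isOpen_interior.mem_nhds hint)
    filter_upwards [hnear, hnear2] with z hz hzi
    refine ⟨hcl z hz, ?_⟩
    obtain ⟨s, hs, hsb⟩ := Metric.isOpen_iff.1 isOpen_interior (Φ z) hzi
    have hsb' : ball (Φ z) s ⊆ Esc c K := hsb.trans interior_subset
    refine Tendsto.mono_left ?_ Nat.hyperfilter_le_atTop
    have h1 := hNlim z hz
    have h2 : Tendsto (fun k => (ex c)^[m k] ((ex c)^[N k] z)) atTop (𝓝 (Φ z)) := by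
      have h3 := h1.comp (tendsto_add_atTop_nat 1)
      refine h3.congr fun k => ?_
      rw [← Function.iterate_add_apply, hmN]
      rfl
    have h4 : Tendsto (fun k => (ex c)^[m k] ((ex c)^[N k] z) - (ex c)^[m k] (Φ z)) atTop
        (𝓝 0) := by
      have h5 : ∀ᶠ k in atTop, ‖(ex c)^[m k] ((ex c)^[N k] z) - (ex c)^[m k] (Φ z)‖ ≤
          A / (s / 2) * ‖(ex c)^[N k] z - Φ z‖ := by
        filter_upwards [h1.eventually (ball_mem_nhds _ (show 0 < s / 2 by positivity))] with k hk
        refine (convex_ball (Φ z) (s / 2)).norm_image_sub_le_of_norm_deriv_le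
          (fun u _ => (iter_diff c (m k)).differentiableAt) (fun u hu => ?_)
          (mem_ball_self (by positivity)) hk
        rw [deriv_iter]
        refine hAb u (s / 2) (by positivity) (fun v hv => hsb' ?_) _
        rw [mem_ball] at hu hv ⊢
        linarith [dist_triangle v u (Φ z)]
      have h6 : Tendsto (fun k => A / (s / 2) * ‖(ex c)^[N k] z - Φ z‖) atTop (𝓝 0) := by
        have h7 : Tendsto (fun k => ‖(ex c)^[N k] z - Φ z‖) atTop (𝓝 0) := by
          have := (h1.sub_const (Φ z)).norm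
          rwa [sub_self, norm_zero] at this
        simpa using h7.const_mul (A / (s / 2))
      exact squeeze_zero_norm' h5 h6
    have h8 := h2.sub h4
    simpa using h8
  -- uniform openness
  have hstep : ∀ w ∈ S, ball w (δ / 8) ⊆ S := by
    intro w hw
    obtain ⟨ρ, hρ, hρb⟩ := Metric.eventually_nhds_iff_ball.1 hw
    obtain ⟨Ψ, hΨd, hΨ⟩ := h.montel_int hc (show ρ / 2 < ρ by linarith)
      (fun u hu => (hρb u hu).1) m (hyperfilter ℕ)
    have hwb : w ∈ ball w (ρ / 2) := mem_ball_self (by positivity)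
    have hΨid : ∀ u ∈ ball w (ρ / 2), Ψ u = u := fun u hu =>
      tendsto_nhds_unique (hΨ.tendsto_at hu)
        (hρb u (ball_subset_ball (by linarith) hu)).2
    have hder : Tendsto (fun k : ℕ => D c (m k) w) (hyperfilter ℕ : Filter ℕ) (𝓝 1) := by
      have h1 := (hΨ.deriv (Eventually.of_forall fun k => (iter_diff c (m k)).differentiableOn)
        isOpen_ball).tendsto_at hwb
      have h2 : deriv Ψ w = 1 := by
        have h3 : Ψ =ᶠ[𝓝 w] fun u => u := by
          filter_upwards [isOpen_ball.mem_nhds hwb] with u hu using hΨid u hu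
        rw [h3.deriv_eq]
        exact deriv_id w
      rw [h2] at h1
      simpa only [Function.comp_def, deriv_iter] using h1
    have hsmall : ∀ᶠ k in (hyperfilter ℕ : Filter ℕ), ‖D c (m k) w‖ < 2 :=
      hder.norm.eventually (gt_mem_nhds (by rw [norm_one]; norm_num))
    have hwE : w ∈ Esc c K := (hρb w (mem_ball_self hρ)).1
    have hsub : ball w (δ / 8) ⊆ Esc c K := by
      intro u hu j
      have hlarge : ∀ᶠ k in (hyperfilter ℕ : Filter ℕ), j ≤ k :=
        Nat.hyperfilter_le_atTop (eventually_ge_atTop j)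
      obtain ⟨k, hk1, hk2⟩ := (hsmall.and hlarge).exists
      obtain ⟨n', hn'⟩ : ∃ n', m k = n' + 1 := ⟨m k - 1, by have := hmk k; omega⟩
      have hjn : j ≤ n' := by have := hmk k; omega
      refine h.surv hjn (h.cover hc hδ hd (hwE (n' + 1)) ?_)
      rw [← hn']
      rw [mem_ball, dist_eq_norm] at hu
      have hn0 : 0 ≤ ‖u - w‖ := norm_nonneg _
      have hn1 : 0 ≤ ‖D c (m k) w‖ := norm_nonneg _
      nlinarith
    intro u hu
    obtain ⟨R', hR1, hR2⟩ := exists_between (mem_ball.1 hu)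
    obtain ⟨Θ, hΘd, hΘ⟩ := h.montel_int hc hR2 hsub m (hyperfilter ℕ)
    have hR'0 : 0 < R' := lt_of_le_of_lt dist_nonneg hR1
    have hΘnear : Θ =ᶠ[𝓝 w] fun u => u := by
      filter_upwards [isOpen_ball.mem_nhds (mem_ball_self (x := w) hR'0),
        isOpen_ball.mem_nhds (mem_ball_self (x := w) hρ)] with v hv1 hv2
      exact tendsto_nhds_unique (hΘ.tendsto_at hv1) (hρb v hv2).2
    have hΘid : EqOn Θ (fun u => u) (ball w R') :=
      (hΘd.analyticOnNhd isOpen_ball).eqOn_of_preconnected_of_eventuallyEq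
        (differentiable_id.differentiableOn.analyticOnNhd isOpen_ball)
        (convex_ball w R').isPreconnected (mem_ball_self hR'0) hΘnear
    show ∀ᶠ v in 𝓝 u, _
    filter_upwards [isOpen_ball.mem_nhds (show u ∈ ball w R' from hR1)] with v hv
    refine ⟨hsub (ball_subset_ball hR2.le hv), ?_⟩
    have h1 := hΘ.tendsto_at hv
    rwa [hΘid hv] at h1
  have hSo : IsOpen S := by
    rw [Metric.isOpen_iff]
    exact fun w hw => ⟨δ / 8, by positivity, hstep w hw⟩
  have hSc : IsClosed S := by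
    rw [← closure_subset_iff_isClosed]
    intro w hw
    obtain ⟨s, hs, hds⟩ := Metric.mem_closure_iff.1 hw (δ / 8) (by positivity)
    exact hstep s hs hds
  have hSu : S = univ := IsClopen.eq_univ ⟨hSc, hSo⟩ ⟨_, hz0S⟩
  have h0 : (0 : ℂ) ∈ S := hSu ▸ mem_univ _
  have h1 : (0 : ℂ) ∈ Esc c K := (Filter.Eventually.self_of_nhds (show ∀ᶠ u in 𝓝 (0:ℂ), _ from h0)).1
  exact h1 0 (interior_subset h.zero)

/-- uniform growth of the derivatives at surviving points -/
theorem Trap.growth (hc : c ≠ 0) (h : Trap c K) (M : ℝ) :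
    ∃ N, ∀ n, N ≤ n → ∀ z, (ex c)^[n] z ∉ K → M ≤ ‖D c n z‖ := by
  by_contra hcon
  push Not at hcon
  obtain ⟨c0, hc0, hc01, hlow⟩ := h.lower hc
  obtain ⟨δ, hδ, hd⟩ := h.delta
  have hcn : 0 < ‖c‖ := norm_pos_iff.2 hc
  have hcon' : ∀ N : ℕ, ∃ z : ℂ, ∃ n, N + 2 ≤ n ∧ (ex c)^[n] z ∉ K ∧ ‖D c n z‖ < M ∧
      z ∈ Icc (Real.log (δ / ‖c‖)) (Real.log (M / (c0 * ‖c‖))) ×ℂ Icc 0 (2 * Real.pi) := by
    intro N
    obtain ⟨n, hn, z, hz, hM⟩ := hcon (N + 2)
    have hpi : (0 : ℝ) < 2 * Real.pi := by have := Real.pi_pos; positivity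
    obtain ⟨n', rfl⟩ : ∃ n', n = n' + 1 := ⟨n - 1, by omega⟩
    set k : ℤ := -⌊z.im / (2 * Real.pi)⌋ with hk
    refine ⟨z + k * (2 * Real.pi * Complex.I), n' + 1, hn, ?_, ?_, ?_⟩
    · rwa [iter_add_period]
    · rwa [D_add_period]
    · have hfz : ex c z ∉ K := by
        have := h.surv (show 1 ≤ n' + 1 by omega) hz
        rwa [Function.iterate_one] at this
      have h1 : δ ≤ ‖ex c z‖ := by
        have := (hd (ex c z) (fun h' => hfz (interior_subset h'))).1
        rwa [dist_zero_right] at this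
      have h2 : ‖ex c z‖ * c0 ≤ M := by
        rw [D_succ, norm_mul] at hM
        have h3 := hlow n' (ex c z) (Or.inr (by rwa [← Function.iterate_succ_apply]))
        exact (mul_le_mul_of_nonneg_left h3 (norm_nonneg _)).trans hM.le
      rw [norm_ex] at h1 h2
      rw [Complex.mem_reProdIm]
      constructor
      · have hre : (z + k * (2 * Real.pi * Complex.I)).re = z.re := by simp
        rw [hre, mem_Icc]
        have hM0 : 0 < M := by
          have := Real.exp_pos z.re
          exact lt_of_lt_of_le (by positivity) h2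
        constructor
        · rw [Real.log_le_iff_le_exp (by positivity), div_le_iff₀ hcn]
          linarith
        · rw [Real.le_log_iff_exp_le (by positivity), le_div_iff₀ (by positivity)]
          linarith
      · have him : (z + k * (2 * Real.pi * Complex.I)).im = z.im + k * (2 * Real.pi) := by simp
        rw [him, mem_Icc, hk]
        push_cast
        have h4 := Int.floor_le (z.im / (2 * Real.pi))
        have h5 := Int.lt_floor_add_one (z.im / (2 * Real.pi))
        rw [le_div_iff₀ hpi] at h4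
        rw [div_lt_iff₀ hpi] at h5
        constructor <;> nlinarith
  choose z n hn hzK hzM hzc using hcon'
  have hM0 : 0 < M := lt_of_le_of_lt (norm_nonneg _) (hzM 0)
  have hcpt : IsCompact (Icc (Real.log (δ / ‖c‖)) (Real.log (M / (c0 * ‖c‖))) ×ℂ
      Icc 0 (2 * Real.pi)) := isCompact_Icc.reProdIm isCompact_Icc
  obtain ⟨a, -, ψ, hψ, hlim⟩ := hcpt.tendsto_subseq hzc
  have hsub : ball a (δ / (8 * M)) ⊆ Esc c K := by
    intro u hu j
    have h1 : ∀ᶠ k in atTop, dist (z (ψ k)) a < δ / (8 * M) :=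
      hlim.eventually (ball_mem_nhds _ (by positivity))
    obtain ⟨k, hk1, hk2⟩ := (h1.and (eventually_ge_atTop j)).exists
    have hk3 : k ≤ ψ k := hψ.id_le k
    obtain ⟨n', hn'⟩ : ∃ n', n (ψ k) = n' + 1 := ⟨n (ψ k) - 1, by have := hn (ψ k); omega⟩
    have hjn : j ≤ n' := by have := hn (ψ k); omega
    have hzK' := hzK (ψ k)
    have hzM' := hzM (ψ k)
    rw [hn'] at hzK' hzM'
    refine h.surv hjn (h.cover hc hδ hd hzK' ?_)
    rw [mem_ball] at hu
    have h2 : ‖u - z (ψ k)‖ < δ / (4 * M) := by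
      rw [← dist_eq_norm]
      have h3 := dist_triangle u a (z (ψ k))
      rw [dist_comm a] at h3
      have h4 : δ / (4 * M) = δ / (8 * M) + δ / (8 * M) := by field_simp; ring
      linarith
    rw [lt_div_iff₀ (by positivity)] at h2
    have h5 : 0 ≤ ‖u - z (ψ k)‖ := norm_nonneg _
    have h6 : 0 ≤ ‖D c (n' + 1) (z (ψ k))‖ := norm_nonneg _
    nlinarith
  have h1 : a ∈ interior (Esc c K) :=
    mem_interior.2 ⟨_, hsub, isOpen_ball, mem_ball_self (by positivity)⟩
  rw [h.int_empty hc] at h1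
  exact h1

/-- exponential growth of the derivatives at surviving points -/
theorem Trap.expand (hc : c ≠ 0) (h : Trap c K) :
    ∃ κ c1 : ℝ, 1 < κ ∧ 0 < c1 ∧ c1 ≤ 1 ∧
      ∀ n z, (n = 0 ∨ (ex c)^[n] z ∉ K) → c1 * κ ^ n ≤ ‖D c n z‖ := by
  obtain ⟨c0, hc0, hc01, hlow⟩ := h.lower hc
  obtain ⟨N, hN⟩ := h.growth hc 2
  set P := N + 1 with hP
  have hPpos : (0 : ℝ) < (P : ℝ) := by positivity
  set κ : ℝ := (2 : ℝ) ^ ((1 : ℝ) / (P : ℝ)) with hκ
  have hκ1 : 1 < κ := Real.one_lt_rpow (by norm_num) (by positivity)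
  have hκP : κ ^ P = 2 := by
    rw [hκ, ← Real.rpow_natCast, ← Real.rpow_mul (by norm_num), one_div,
      inv_mul_cancel₀ hPpos.ne', Real.rpow_one]
  refine ⟨κ, c0 / 2, hκ1, by positivity, by linarith, fun n => ?_⟩
  induction n using Nat.strong_induction_on with
  | _ n ih =>
    intro z hz
    by_cases hn : n < P
    · have h1 : κ ^ n ≤ 2 := by
        rw [← hκP]
        exact pow_le_pow_right₀ hκ1.le hn.le
      have h2 := hlow n z hz
      nlinarith
    · obtain ⟨k, rfl⟩ := Nat.exists_eq_add_of_le (not_lt.1 hn)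
      have hz' : (ex c)^[P + k] z ∉ K := hz.resolve_left (by omega)
      have hPK : (ex c)^[P] z ∉ K := h.surv (by omega) hz'
      rw [D_add, norm_mul, pow_add, hκP]
      have h1 := hN P (by omega) z hPK
      have h2 := ih k (by omega) ((ex c)^[P] z) (Or.inr (by
        rwa [← Function.iterate_add_apply, Nat.add_comm]))
      have h3 : 0 ≤ c0 / 2 * κ ^ k := by positivity
      nlinarith

/-- the Julia set of a map with a trap -/
theorem Trap.jul (hc : c ≠ 0) (h : Trap c K) : Jul c = Esc c K := by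
  obtain ⟨κ, c1, hκ, hc1, -, hexp⟩ := h.expand hc
  obtain ⟨M, hM⟩ := h.cpt.isBounded.exists_norm_le
  ext z
  constructor
  · intro hz
    by_contra hcon
    apply hz
    simp only [Esc, mem_ofPred_eq, not_forall, not_not] at hcon
    obtain ⟨n, hn⟩ := hcon
    have h1 : (ex c)^[n + 1] z ∈ interior K := by
      rw [Function.iterate_succ_apply']; exact h.map _ hn
    obtain ⟨r, hr, hb⟩ := Metric.mem_nhds_iff.1 ((iter_cont c (n + 1)).continuousAt.preimage_mem_nhds
      (isOpen_interior.mem_nhds h1))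
    have hK : ∀ m, n + 1 ≤ m → ∀ u ∈ ball z r, (ex c)^[m] u ∈ K := by
      intro m hm u hu
      obtain ⟨k, rfl⟩ := Nat.exists_eq_add_of_le hm
      rw [Nat.add_comm, Function.iterate_add_apply]
      exact h.fwd (interior_subset (hb hu)) k
    refine ⟨closedBall z (r / 2), closedBall_mem_nhds _ (by positivity), ?_⟩
    intro φ hφ
    obtain ⟨g, hgd, hg⟩ := Pool.Agent.Helper114.Montel.montel (W := ball z r) isOpen_ball
      (fun k => (ex c)^[φ (k + (n + 1))]) (fun k => (iter_diff c _).differentiableOn) M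
      (fun k u hu => hM _ (hK _ ((Nat.le_add_left _ _).trans (hφ.id_le _)) u hu)) (hyperfilter ℕ)
    have hgu : TendstoUniformlyOn (fun k => (ex c)^[φ (k + (n + 1))]) g
        (hyperfilter ℕ : Filter ℕ) (closedBall z (r / 2)) :=
      (tendstoLocallyUniformlyOn_iff_forall_isCompact isOpen_ball).1 hg _
        (closedBall_subset_ball (by linarith)) (isCompact_closedBall _ _)
    rw [Metric.tendstoUniformlyOn_iff] at hgu
    obtain ⟨ν, hνm, hν⟩ := extraction_forall_of_frequently
      (P := fun k i => ∀ u ∈ closedBall z (r / 2),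
        dist (g u) ((ex c)^[φ (i + (n + 1))] u) < 1 / ((k : ℝ) + 1))
      (fun k => ((hgu (1 / ((k : ℝ) + 1)) (by positivity)).frequently.filter_mono
        Nat.hyperfilter_le_atTop))
    refine ⟨fun k => ν k + (n + 1), fun a b hab => Nat.add_lt_add_right (hνm hab) _, Or.inl ⟨g, ?_⟩⟩
    apply TendstoUniformlyOn.tendstoLocallyUniformlyOn
    rw [Metric.tendstoUniformlyOn_iff]
    intro ε hε
    obtain ⟨k0, hk0⟩ := exists_nat_one_div_lt hε
    filter_upwards [eventually_ge_atTop k0] with k hk u hu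
    refine (hν k u hu).trans (lt_of_le_of_lt ?_ hk0)
    exact one_div_le_one_div_of_le (by positivity) (by
      have : (k0 : ℝ) ≤ k := by exact_mod_cast hk
      linarith)
  · intro hz hcon
    obtain ⟨U, hU, hnrm⟩ := hcon
    obtain ⟨r, hr, hrU⟩ := Metric.mem_nhds_iff.1 hU
    obtain ⟨ψ, hψ, hor⟩ := hnrm id strictMono_id
    have hψt : Tendsto ψ atTop atTop := hψ.tendsto_atTop
    rcases hor with ⟨g, hg⟩ | hesc
    · have hg' := hg.mono hrU
      have h1 := ((hg'.deriv (Eventually.of_forall fun k => (iter_diff c _).differentiableOn)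
        isOpen_ball).tendsto_at (mem_ball_self hr)).norm
      simp only [Function.comp_def, deriv_iter, id_eq] at h1
      have h2 : Tendsto (fun k => c1 * κ ^ (ψ k)) atTop atTop :=
        ((tendsto_pow_atTop_atTop_of_one_lt hκ).comp hψt).const_mul_atTop hc1
      have h3 : Tendsto (fun k => ‖D c (ψ k) z‖) atTop atTop :=
        tendsto_atTop_mono (fun k => hexp (ψ k) z (Or.inr (hz _))) h2
      exact not_tendsto_nhds_of_tendsto_atTop h3 _ h1
    · have h1 : z ∉ interior (Esc c K) := by rw [h.int_empty hc]; exact fun h => h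
      rw [mem_interior_iff_mem_nhds] at h1
      have h2 : ¬ (ball z r ⊆ Esc c K) := fun h3 => h1 (mem_of_superset (ball_mem_nhds z hr) h3)
      rw [not_subset] at h2
      obtain ⟨u, hu, huE⟩ := h2
      simp only [Esc, mem_ofPred_eq, not_forall, not_not] at huE
      obtain ⟨n, hn⟩ := huE
      have h3 := hesc {u} (singleton_subset_iff.2 (hrU hu)) isCompact_singleton M
      obtain ⟨k, hk1, hk2⟩ := (h3.and (hψt.eventually_ge_atTop n)).exists
      have h4 := hk1 u rfl
      obtain ⟨j, hj⟩ := Nat.exists_eq_add_of_le hk2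
      simp only [id_eq] at h4
      rw [hj, Nat.add_comm, Function.iterate_add_apply] at h4
      exact absurd (hM _ (h.fwd hn j)) (not_le.2 h4)

end Run7.h102
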