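import Mathlib
import Pool.Agent.Run7.h102.Hyp2

/-! Attracting cycles give traps (helper102, MP_3a87b6_an). -/

set_option autoImplicit false

open Set Filter Topology Metric

namespace Run7.h102

theorem contract {c a : ℂ} {p : ℕ} (hfix : (ex c)^[p] a = a) (hm : ‖D c p a‖ < 1) :
    ∃ r q : ℝ, 0 < r ∧ 0 ≤ q ∧ q < 1 ∧
      ∀ z ∈ closedBall a r, ‖(ex c)^[p] z - a‖ ≤ q * ‖z - a‖ := by
  obtain ⟨q, hq1, hq2⟩ := exists_between hm
  have h1 := (iter_hasDerivAt c p a).isLittleO.def (show 0 < q - ‖D c p a‖ by linarith)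
  obtain ⟨s, hs, hb⟩ := Metric.eventually_nhds_iff_ball.1 h1
  refine ⟨s / 2, q, by positivity, (norm_nonneg _).trans hq1.le, hq2, fun z hz => ?_⟩
  have h2 := hb z (closedBall_subset_ball (by linarith) hz)
  rw [hfix] at h2
  have e : (ex c)^[p] z - a = ((ex c)^[p] z - a - (z - a) • D c p a) + (z - a) • D c p a := by
    ring
  rw [e]
  refine (norm_add_le _ _).trans ?_
  rw [norm_smul]
  nlinarith [norm_nonneg (z - a)]

theorem chain_set {f : ℂ → ℂ} (hf : Continuous f) (N : ℕ) : ∀ X U : Set ℂ, IsCompact X →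
    IsOpen U → (∀ x ∈ X, f^[N + 1] x ∈ U) → ∃ K, IsCompact K ∧
      (∀ x ∈ X, f x ∈ interior K ∪ U) ∧ (∀ x ∈ K, f x ∈ interior K ∪ U) ∧
      (∀ x ∈ K, ∃ n, f^[n] x ∈ U) := by
  induction N with
  | zero =>
    intro X U _ _ h
    exact ⟨∅, isCompact_empty, fun x hx => Or.inr (h x hx), fun x hx => hx.elim,
      fun x hx => hx.elim⟩
  | succ N ih =>
    intro X U hX hU h
    have hX' : IsCompact (f '' X) := hX.image hf
    have hV : IsOpen (f^[N + 1] ⁻¹' U) := hU.preimage (hf.iterate _)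
    obtain ⟨X'', hc, h1, h2⟩ := exists_compact_between hX' hV (by
      rintro _ ⟨x, hx, rfl⟩
      rw [mem_preimage, ← Function.iterate_succ_apply]
      exact h x hx)
    obtain ⟨K', hK', h3, h4, h5⟩ := ih X'' U hc hU (fun x hx => h2 hx)
    refine ⟨X'' ∪ K', hc.union hK', ?_, ?_, ?_⟩
    · intro x hx
      exact Or.inl (interior_mono subset_union_left (h1 ⟨x, hx, rfl⟩))
    · rintro x (hx | hx)
      · rcases h3 x hx with h | h
        · exact Or.inl (interior_mono subset_union_right h)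
        · exact Or.inr h
      · rcases h4 x hx with h | h
        · exact Or.inl (interior_mono subset_union_right h)
        · exact Or.inr h
    · rintro x (hx | hx)
      · exact ⟨N + 1, h2 hx⟩
      · exact h5 x hx

theorem chain_pt {f : ℂ → ℂ} (hf : Continuous f) {K1 : Set ℂ} (hK1 : IsCompact K1)
    (h1 : ∀ x ∈ K1, f x ∈ interior K1) (N : ℕ) : ∀ x, f^[N] x ∈ interior K1 →
      ∃ K, IsCompact K ∧ K1 ⊆ K ∧ (∀ y ∈ K, f y ∈ interior K) ∧ x ∈ interior K ∧
        ∀ y ∈ K, ∃ n, f^[n] y ∈ K1 := by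
  induction N with
  | zero =>
    intro x hx
    exact ⟨K1, hK1, subset_rfl, h1, hx, fun y hy => ⟨0, hy⟩⟩
  | succ N ih =>
    intro x hx
    obtain ⟨K', hc, hs, hm, hx', hy'⟩ := ih (f x) (by rwa [← Function.iterate_succ_apply])
    obtain ⟨B, hB, hB1, hB2⟩ := exists_compact_between (isCompact_singleton (x := x))
      (isOpen_interior.preimage hf) (by
        rintro y hy
        rw [mem_singleton_iff.1 hy]
        exact hx')
    refine ⟨K' ∪ B, hc.union hB, hs.trans subset_union_left, ?_, ?_, ?_⟩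
    · rintro y (hy | hy)
      · exact interior_mono subset_union_left (hm y hy)
      · exact interior_mono subset_union_left (hB2 hy)
    · exact interior_mono subset_union_right (hB1 rfl)
    · rintro y (hy | hy)
      · exact hy' y hy
      · obtain ⟨n, hn⟩ := hy' (f y) (interior_subset (hB2 hy))
        exact ⟨n + 1, by rwa [Function.iterate_succ_apply]⟩

theorem iter_mul {c a : ℂ} {p : ℕ} (hfix : (ex c)^[p] a = a) (m : ℕ) :
    (ex c)^[p * m] a = a ∧ D c (p * m) a = D c p a ^ m := by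
  induction m with
  | zero => simp [D_zero]
  | succ m ih =>
    rw [Nat.mul_succ]
    constructor
    · rw [Function.iterate_add_apply, hfix, ih.1]
    · rw [D_add, ih.1, ih.2, pow_succ]

/-- an attracting cycle gives a trap; every point of the trap is attracted -/
theorem exists_trap {c a : ℂ} {p : ℕ} (hc : c ≠ 0) (hp : 0 < p) (hfix : (ex c)^[p] a = a)
    (hm : ‖D c p a‖ < 1) : ∃ (K : Set ℂ) (r q : ℝ), Trap c K ∧ 0 < r ∧ 0 ≤ q ∧ q < 1 ∧
      (∀ z ∈ closedBall a r, ‖(ex c)^[p] z - a‖ ≤ q * ‖z - a‖) ∧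
      closedBall a r ⊆ K ∧ ∀ z ∈ K, ∃ n, (ex c)^[n] z ∈ ball a r := by
  obtain ⟨r, q, hr, hq0, hq1, hcon⟩ := contract hfix hm
  have hmap : ∀ z ∈ closedBall a r, (ex c)^[p] z ∈ ball a r := by
    intro z hz
    have h1 := hcon z hz
    rw [mem_closedBall, dist_eq_norm] at hz
    rw [mem_ball, dist_eq_norm]
    nlinarith
  obtain ⟨N, rfl⟩ : ∃ N, p = N + 1 := ⟨p - 1, by omega⟩
  obtain ⟨K', hK'c, h1, h2, h3⟩ := chain_set (ex_cont c) N (closedBall a r) (ball a r)
    (isCompact_closedBall a r) isOpen_ball hmap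
  set K1 := closedBall a r ∪ K' with hK1
  have hK1c : IsCompact K1 := (isCompact_closedBall a r).union hK'c
  have hball : ball a r ⊆ interior K1 :=
    interior_maximal (ball_subset_closedBall.trans subset_union_left) isOpen_ball
  have hsub : interior K' ∪ ball a r ⊆ interior K1 :=
    union_subset (interior_mono subset_union_right) hball
  have hK1m : ∀ x ∈ K1, ex c x ∈ interior K1 := by
    rintro x (hx | hx)
    · exact hsub (h1 x hx)
    · exact hsub (h2 x hx)
  have hK1a : ∀ x ∈ K1, ∃ n, (ex c)^[n] x ∈ ball a r := by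
    rintro x (hx | hx)
    · exact ⟨N + 1, hmap x hx⟩
    · exact h3 x hx
  obtain ⟨M, hM⟩ : ∃ M, (ex c)^[M] 0 ∈ interior K1 := by
    by_contra hcon0
    push Not at hcon0
    have hbd : ∀ m : ℕ, r ≤ 8 * Real.pi * ‖D c (N + 1) a‖ ^ (m + 1) := by
      intro m
      obtain ⟨e1, e2⟩ := iter_mul hfix (m + 1)
      have h4 := koebe_lower hc (n := (N + 1) * (m + 1)) (by
        exact Nat.succ_le_of_lt (Nat.mul_pos (Nat.succ_pos _) (Nat.succ_pos _))) a hr (by
        intro j _
        rw [e1]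
        exact fun h5 => hcon0 j (hball h5))
      rwa [e2, norm_pow] at h4
    have hlim : Tendsto (fun m : ℕ => 8 * Real.pi * ‖D c (N + 1) a‖ ^ (m + 1)) atTop (𝓝 0) := by
      have h5 : Tendsto (fun m : ℕ => 8 * Real.pi * ‖D c (N + 1) a‖ ^ (m + 1)) atTop
          (𝓝 (8 * Real.pi * 0)) :=
        ((tendsto_pow_atTop_nhds_zero_of_lt_one (norm_nonneg _) hm).comp
          (tendsto_add_atTop_nat 1)).const_mul _
      rwa [mul_zero] at h5
    have := ge_of_tendsto' hlim hbd
    linarith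
  obtain ⟨K, hKc, hKs, hKm, hK0, hKa⟩ := chain_pt (ex_cont c) hK1c hK1m M 0 hM
  refine ⟨K, r, q, ⟨hKc, hK0, hKm⟩, hr, hq0, hq1, hcon, subset_union_left.trans hKs, ?_⟩
  intro z hz
  obtain ⟨n, hn⟩ := hKa z hz
  obtain ⟨m, hm'⟩ := hK1a _ hn
  exact ⟨m + n, by rwa [Function.iterate_add_apply]⟩

end Run7.h102
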