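import Mathlib
import Pool.Agent.Helper188_Cone.Model
import Pool.Agent.N491.HP.Jan

/-! Separation of the plane by closed sets in terms of logarithms on the one point
compactification (helper102, MP_3a87b6_an). -/

set_option autoImplicit false

open Set Filter Topology Metric
open Pool.Agent.Helper188_Cone

namespace Run7.h102

/-- every connected set containing `x` and `y` meets `X` -/
def Sp (X : Set ℂ) (x y : ℂ) : Prop :=
  ∀ D : Set ℂ, IsPreconnected D → x ∈ D → y ∈ D → (D ∩ X).Nonempty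

theorem punct_ball (b : ℂ) {r : ℝ} (hr : 0 < r) : IsPreconnected (ball b r \ {b}) := by
  have h1 : IsPreconnected ((fun z : ℂ => b + Complex.exp z) '' {z : ℂ | z.re < Real.log r}) :=
    (convex_halfSpace_re_lt _).isPreconnected.image _
      (continuous_const.add Complex.continuous_exp).continuousOn
  convert h1 using 1
  ext w
  constructor
  · rintro ⟨hw1, hw2⟩
    have hw0 : w - b ≠ 0 := sub_ne_zero.2 hw2
    refine ⟨Complex.log (w - b), ?_, ?_⟩
    · show (Complex.log (w - b)).re < Real.log r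
      rw [Complex.log_re]
      rw [mem_ball, dist_eq_norm] at hw1
      exact Real.log_lt_log (norm_pos_iff.2 hw0) hw1
    · simp only
      rw [Complex.exp_log hw0]
      ring
  · rintro ⟨z, hz, rfl⟩
    have hz' : z.re < Real.log r := hz
    constructor
    · rw [mem_ball, dist_eq_norm, add_sub_cancel_left, Complex.norm_exp]
      exact (Real.lt_log_iff_exp_lt hr).1 hz'
    · intro h
      have : b + Complex.exp z = b := h
      exact Complex.exp_ne_zero z (by linear_combination this)

/-- an open connected set stays connected when a point is removed -/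
theorem punct {U : Set ℂ} (hU : IsOpen U) (hc : IsPreconnected U) (b : ℂ) :
    IsPreconnected (U \ {b}) := by
  by_cases hb : b ∈ U
  swap
  · rwa [sdiff_singleton_eq_self hb]
  obtain ⟨r, hr, hrU⟩ := Metric.isOpen_iff.1 hU b hb
  have hsub : ball b r \ {b} ⊆ U \ {b} := fun x hx => ⟨hrU hx.1, hx.2⟩
  have key : ∀ P R : Set ℂ, IsOpen P → IsOpen R → U \ {b} ⊆ P ∪ R → (U \ {b}) ∩ (P ∩ R) = ∅ →
      ball b r \ {b} ⊆ P → U \ {b} ⊆ P := by
    intro P R hP hR hcov hdis hbP
    have h1 : U ⊆ P ∪ ball b r := by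
      have h2 := (isPreconnected_iff_subset_of_disjoint.1 hc) (P ∪ ball b r) (R \ {b})
        (hP.union isOpen_ball) (hR.sdiff isClosed_singleton) (by
          intro x hx
          by_cases hxb : x = b
          · exact Or.inl (Or.inr (hxb ▸ mem_ball_self hr))
          · rcases hcov ⟨hx, hxb⟩ with h | h
            · exact Or.inl (Or.inl h)
            · exact Or.inr ⟨h, hxb⟩) (by
          rw [eq_empty_iff_forall_notMem]
          rintro x ⟨hx, hx1, hx2, hx3⟩
          have hxP : x ∈ P := by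
            rcases hx1 with h | h
            · exact h
            · exact hbP ⟨h, hx3⟩
          have : x ∈ (U \ {b}) ∩ (P ∩ R) := ⟨⟨hx, hx3⟩, hxP, hx2⟩
          rw [hdis] at this
          exact this)
      rcases h2 with h | h
      · exact h
      · exact absurd rfl (h hb).2
    rintro x ⟨hx, hxb⟩
    rcases h1 hx with h | h
    · exact h
    · exact hbP ⟨h, hxb⟩
  rw [isPreconnected_iff_subset_of_disjoint]
  intro P R hP hR hcov hdis
  have hB := (isPreconnected_iff_subset_of_disjoint.1 (punct_ball b hr)) P R hP hR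
    (hsub.trans hcov) (by
      rw [eq_empty_iff_forall_notMem] at hdis ⊢
      exact fun x hx => hdis x ⟨hsub hx.1, hx.2⟩)
  rcases hB with h | h
  · exact Or.inl (key P R hP hR hcov hdis h)
  · refine Or.inr (key R P hR hP (by rwa [union_comm]) (by rwa [inter_comm R P]) h)

/-- the inversion of `X ∪ {∞}` -/
noncomputable def Q (X : Set ℂ) (p : ℂ) (t : OnePoint X) : ℂ :=
  t.elim 0 (fun x => 1 / ((x : ℂ) - p))

/-- the function `(z - a) / (z - p)` on `X ∪ {∞}` -/
noncomputable def G (X : Set ℂ) (a p : ℂ) (t : OnePoint X) : ℂ :=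
  t.elim 1 (fun x => ((x : ℂ) - a) / ((x : ℂ) - p))

variable {X : Set ℂ}

theorem Q_infty (p : ℂ) : Q X p OnePoint.infty = 0 := rfl

theorem Q_coe (p : ℂ) (x : X) : Q X p (x : OnePoint X) = 1 / ((x : ℂ) - p) := rfl

theorem G_infty (a p : ℂ) : G X a p OnePoint.infty = 1 := rfl

theorem G_coe (a p : ℂ) (x : X) : G X a p (x : OnePoint X) = ((x : ℂ) - a) / ((x : ℂ) - p) := rfl

theorem Q_cont (hX : IsClosed X) {p : ℂ} (hp : p ∉ X) : Continuous (Q X p) := by
  have hne : ∀ x : X, (x : ℂ) - p ≠ 0 := fun x h => hp (by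
    have : (x : ℂ) = p := sub_eq_zero.1 h
    exact this ▸ x.2)
  rw [OnePoint.continuous_iff]
  constructor
  · have h1 : Tendsto (Subtype.val : X → ℂ) (coclosedCompact X) (Bornology.cobounded ℂ) := by
      rw [coclosedCompact_eq_cocompact, Metric.cobounded_eq_cocompact]
      exact hX.isClosedEmbedding_subtypeVal.tendsto_cocompact
    have h2 : Tendsto (fun z : ℂ => 1 / (z - p)) (Bornology.cobounded ℂ) (𝓝 0) := by
      have h3 : Tendsto (fun z : ℂ => z - p) (Bornology.cobounded ℂ) (Bornology.cobounded ℂ) := by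
        rw [← tendsto_norm_atTop_iff_cobounded]
        refine tendsto_atTop_mono (fun z => ?_)
          (tendsto_atTop_add_const_right _ (-‖p‖) (tendsto_norm_cobounded_atTop (E := ℂ)))
        have := norm_sub_norm_le z p
        linarith
      simpa only [one_div, Function.comp_def] using tendsto_inv₀_cobounded.comp h3
    exact h2.comp h1
  · exact continuous_const.div (continuous_subtype_val.sub continuous_const) hne

theorem Q_inj {p : ℂ} (hp : p ∉ X) : Function.Injective (Q X p) := by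
  have hne : ∀ x : X, (x : ℂ) - p ≠ 0 := fun x h => hp (by
    have : (x : ℂ) = p := sub_eq_zero.1 h
    exact this ▸ x.2)
  intro s t hst
  induction s using OnePoint.rec with
  | infty =>
    induction t using OnePoint.rec with
    | infty => rfl
    | coe y =>
      rw [Q_infty, Q_coe] at hst
      exact absurd hst.symm (one_div_ne_zero (hne y))
  | coe x =>
    induction t using OnePoint.rec with
    | infty =>
      rw [Q_infty, Q_coe] at hst
      exact absurd hst (one_div_ne_zero (hne x))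
    | coe y =>
      rw [Q_coe, Q_coe, one_div, one_div] at hst
      have h1 : (x : ℂ) - p = y - p := inv_injective hst
      have h2 : (x : ℂ) = y := sub_left_injective h1
      rw [Subtype.ext h2]

theorem G_eq {a p : ℂ} (hp : p ∉ X) (t : OnePoint X) : G X a p t = 1 + (p - a) * Q X p t := by
  induction t using OnePoint.rec with
  | infty => rw [G_infty, Q_infty, mul_zero, add_zero]
  | coe x =>
    have hne : (x : ℂ) - p ≠ 0 := fun h => hp (by
      have : (x : ℂ) = p := sub_eq_zero.1 h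
      exact this ▸ x.2)
    rw [G_coe, Q_coe]
    field_simp
    ring

theorem G_eq' {a p : ℂ} (hp : p ∉ X) (hap : a ≠ p) (t : OnePoint X) :
    G X a p t = (p - a) * (Q X p t - 1 / (a - p)) := by
  have h1 : a - p ≠ 0 := sub_ne_zero.2 hap
  rw [G_eq hp]
  field_simp
  ring

theorem G_cont (hX : IsClosed X) {a p : ℂ} (hp : p ∉ X) : Continuous (G X a p) := by
  have : G X a p = fun t => 1 + (p - a) * Q X p t := funext fun t => G_eq hp t
  rw [this]
  exact continuous_const.add (continuous_const.mul (Q_cont hX hp))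

theorem G_ne {a p : ℂ} (ha : a ∉ X) (hp : p ∉ X) (t : OnePoint X) : G X a p t ≠ 0 := by
  induction t using OnePoint.rec with
  | infty => rw [G_infty]; exact one_ne_zero
  | coe x =>
    rw [G_coe]
    refine div_ne_zero (fun h => ha ?_) (fun h => hp ?_)
    · have : (x : ℂ) = a := sub_eq_zero.1 h
      exact this ▸ x.2
    · have : (x : ℂ) = p := sub_eq_zero.1 h
      exact this ▸ x.2

theorem G_trans {a b p : ℂ} (hb : b ∉ X) (t : OnePoint X) :
    G X a p t = G X a b t * G X b p t := by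
  induction t using OnePoint.rec with
  | infty => simp [G_infty]
  | coe x =>
    have hne : (x : ℂ) - b ≠ 0 := fun h => hb (by
      have : (x : ℂ) = b := sub_eq_zero.1 h
      exact this ▸ x.2)
    rw [G_coe, G_coe, G_coe, div_mul_div_cancel₀ hne]

theorem G_self {a : ℂ} (ha : a ∉ X) (t : OnePoint X) : G X a a t = 1 := by
  rw [G_eq ha, sub_self, zero_mul, add_zero]

theorem range_Q (p : ℂ) : range (Q X p) = {0} ∪ (fun x : ℂ => 1 / (x - p)) '' X := by
  ext y
  constructor
  · rintro ⟨t, rfl⟩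
    induction t using OnePoint.rec with
    | infty => exact Or.inl rfl
    | coe x => exact Or.inr ⟨x, x.2, rfl⟩
  · rintro (h | ⟨x, hx, rfl⟩)
    · exact ⟨OnePoint.infty, (mem_singleton_iff.1 h).symm⟩
    · exact ⟨((⟨x, hx⟩ : X) : OnePoint X), rfl⟩

theorem not_mem_range_Q {a p : ℂ} (ha : a ∉ X) (hap : a ≠ p) : 1 / (a - p) ∉ range (Q X p) := by
  rw [range_Q]
  have h1 : a - p ≠ 0 := sub_ne_zero.2 hap
  rintro (h | ⟨x, hx, hxa⟩)
  · exact one_div_ne_zero h1 h
  · simp only [one_div] at hxa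
    have h2 : x - p = a - p := inv_injective hxa
    have h3 : x = a := sub_left_injective h2
    exact ha (h3 ▸ hx)

theorem not_sep_iff {x y : ℂ} : ¬ Sp X x y ↔ ∃ D : Set ℂ, IsPreconnected D ∧ x ∈ D ∧ y ∈ D ∧
    Disjoint D X := by
  simp only [Sp, not_forall, not_nonempty_iff_eq_empty, ← disjoint_iff_inter_eq_empty]
  constructor
  · rintro ⟨D, h1, h2, h3, h4⟩
    exact ⟨D, h1, h2, h3, h4⟩
  · rintro ⟨D, h1, h2, h3, h4⟩
    exact ⟨D, h1, h2, h3, h4⟩

theorem sep_irrefl {x : ℂ} (hx : x ∉ X) : ¬ Sp X x x :=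
  not_sep_iff.2 ⟨{x}, isPreconnected_singleton, rfl, rfl, disjoint_singleton_left.2 hx⟩

theorem sep_symm {x y : ℂ} (h : Sp X x y) : Sp X y x := fun D hD hx hy => h D hD hy hx

theorem not_sep_trans {x y z : ℂ} (h1 : ¬ Sp X x y) (h2 : ¬ Sp X y z) : ¬ Sp X x z := by
  rw [not_sep_iff] at *
  obtain ⟨D, hD, a1, a2, a3⟩ := h1
  obtain ⟨D', hD', b1, b2, b3⟩ := h2
  exact ⟨D ∪ D', hD.union y a2 b1 hD', Or.inl a1, Or.inr b2, a3.union_left b3⟩

theorem sep_ne {x y : ℂ} (hx : x ∉ X) (h : Sp X x y) : x ≠ y := by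
  rintro rfl
  exact sep_irrefl hx h

/-- points which are not separated give functions with a logarithm -/
theorem G_log (hX : IsClosed X) {a b : ℂ} (ha : a ∉ X) (hb : b ∉ X) (h : ¬ Sp X a b) :
    HasLog (G X a b) := by
  by_cases hab : a = b
  · subst hab
    exact (HasLog.const one_ne_zero).congr (G_self ha)
  obtain ⟨D, hD, haD, hbD, hdis⟩ := not_sep_iff.1 h
  set U := connectedComponentIn Xᶜ a with hU
  have hUo : IsOpen U := hX.isOpen_compl.connectedComponentIn
  have hDU : D ⊆ U := hD.subset_connectedComponentIn haD (fun x hx hxX =>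
    hdis.le_bot ⟨hx, hxX⟩)
  have hbU : b ∈ U := hDU hbD
  have hUX : U ⊆ Xᶜ := connectedComponentIn_subset _ _
  have hP : IsPreconnected (U \ {b}) := punct hUo isPreconnected_connectedComponentIn b
  have hV : IsPreconnected ((fun x : ℂ => 1 / (x - b)) '' (U \ {b})) := by
    refine hP.image _ (continuousOn_const.div (continuousOn_id.sub continuousOn_const) ?_)
    intro x hx
    exact sub_ne_zero.2 hx.2
  have hVr : (fun x : ℂ => 1 / (x - b)) '' (U \ {b}) ⊆ (range (Q X b))ᶜ := by
    rintro _ ⟨x, hx, rfl⟩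
    exact not_mem_range_Q (hUX hx.1) hx.2
  have haV : 1 / (a - b) ∈ (fun x : ℂ => 1 / (x - b)) '' (U \ {b}) :=
    ⟨a, ⟨hDU haD, hab⟩, rfl⟩
  have hsub := hV.subset_connectedComponentIn haV hVr
  have hunb : ¬ Bornology.IsBounded (connectedComponentIn (range (Q X b))ᶜ (1 / (a - b))) := by
    intro hbd
    obtain ⟨R, hR⟩ := (hbd.subset hsub).exists_norm_le
    obtain ⟨r, hr, hrU⟩ := Metric.isOpen_iff.1 hUo b hbU
    have hR0 : 0 ≤ R := (norm_nonneg _).trans (hR _ haV)
    set s := min (r / 2) (1 / (R + 1)) with hs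
    have hs0 : 0 < s := by positivity
    have hs1 : s ≤ 1 / (R + 1) := min_le_right _ _
    have hxU : b + (s : ℂ) ∈ U \ {b} := by
      constructor
      · apply hrU
        rw [mem_ball, dist_eq_norm, add_sub_cancel_left, Complex.norm_real,
          Real.norm_of_nonneg hs0.le]
        have : s ≤ r / 2 := min_le_left _ _
        linarith
      · intro h
        have h1 : b + (s : ℂ) = b := h
        have h2 : (s : ℂ) = 0 := by linear_combination h1
        exact hs0.ne' (by exact_mod_cast h2)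
    have h3 := hR _ ⟨_, hxU, rfl⟩
    simp only [add_sub_cancel_left, norm_div, norm_one, Complex.norm_real,
      Real.norm_of_nonneg hs0.le] at h3
    rw [div_le_iff₀ hs0] at h3
    rw [le_div_iff₀ (by positivity)] at hs1
    nlinarith
  have h1 := hasLog_unbounded (Q X b) (Q_cont hX hb) (not_mem_range_Q ha hab) hunb
  have h2 : b - a ≠ 0 := sub_ne_zero.2 (Ne.symm hab)
  exact ((HasLog.const h2).mul h1).congr (fun t => G_eq' hb hab t)

theorem comp_Q {a p u : ℂ} (ha : a ∉ X) (hap : a ≠ p)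
    (hu : u ∈ connectedComponentIn (range (Q X p))ᶜ (1 / (a - p))) :
    ¬ Sp X a (p + 1 / u) := by
  set C := connectedComponentIn (range (Q X p))ᶜ (1 / (a - p)) with hC
  have hCr : C ⊆ (range (Q X p))ᶜ := connectedComponentIn_subset _ _
  have h0 : ∀ x ∈ C, x ≠ 0 := by
    intro x hx h
    apply hCr hx
    rw [range_Q]
    exact Or.inl h
  have haC : 1 / (a - p) ∈ C := mem_connectedComponentIn (not_mem_range_Q ha hap)
  have h1 : a - p ≠ 0 := sub_ne_zero.2 hap
  refine not_sep_iff.2 ⟨(fun x : ℂ => p + 1 / x) '' C, ?_, ⟨_, haC, ?_⟩, ⟨u, hu, rfl⟩, ?_⟩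
  · exact isPreconnected_connectedComponentIn.image _
      (continuousOn_const.add (continuousOn_const.div continuousOn_id h0))
  · simp
  · rw [Set.disjoint_left]
    rintro _ ⟨x, hx, rfl⟩ hxX
    apply hCr hx
    rw [range_Q]
    exact Or.inr ⟨_, hxX, by simp⟩

theorem comp_Q_bdd {a p : ℂ} (ha : a ∉ X) (hp : p ∉ X) (hap : Sp X a p) :
    Bornology.IsBounded (connectedComponentIn (range (Q X p))ᶜ (1 / (a - p))) := by
  have hne : a ≠ p := sep_ne ha hap
  by_contra hunb
  set C := connectedComponentIn (range (Q X p))ᶜ (1 / (a - p)) with hC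
  have hCr : C ⊆ (range (Q X p))ᶜ := connectedComponentIn_subset _ _
  have h0 : ∀ x ∈ C, x ≠ 0 := by
    intro x hx h
    apply hCr hx
    rw [range_Q]
    exact Or.inl h
  have haC : 1 / (a - p) ∈ C := mem_connectedComponentIn (not_mem_range_Q ha hne)
  have h1 : a - p ≠ 0 := sub_ne_zero.2 hne
  have hpre : IsPreconnected ((fun x : ℂ => p + 1 / x) '' C) :=
    isPreconnected_connectedComponentIn.image _
      (continuousOn_const.add (continuousOn_const.div continuousOn_id h0))
  have hpcl : p ∈ closure ((fun x : ℂ => p + 1 / x) '' C) := by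
    rw [Metric.mem_closure_iff]
    intro ε hε
    have : ∃ x ∈ C, 1 / ε < ‖x‖ := by
      by_contra h
      push Not at h
      exact hunb (isBounded_iff_forall_norm_le.mpr ⟨1 / ε, h⟩)
    obtain ⟨x, hx, hxε⟩ := this
    refine ⟨_, ⟨x, hx, rfl⟩, ?_⟩
    have hxn : 0 < ‖x‖ := lt_trans (by positivity) hxε
    rw [dist_comm, dist_eq_norm, add_sub_cancel_left, norm_div, norm_one, div_lt_iff₀ hxn]
    rw [div_lt_iff₀ hε] at hxε
    linarith
  apply not_sep_iff.2 ⟨insert p ((fun x : ℂ => p + 1 / x) '' C), ?_, ?_, Or.inl rfl, ?_⟩ hap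
  · refine hpre.subset_closure (subset_insert _ _) ?_
    rintro x (rfl | hx)
    · exact hpcl
    · exact subset_closure hx
  · exact Or.inr ⟨_, haC, by simp⟩
  · rw [Set.disjoint_left]
    rintro _ (rfl | ⟨x, hx, rfl⟩) hxX
    · exact hp hxX
    · apply hCr hx
      rw [range_Q]
      exact Or.inr ⟨_, hxX, by simp⟩

open Classical in
/-- logarithms detect separation -/
theorem weight_zero (hX : IsClosed X) {p : ℂ} (hp : p ∉ X) {ι : Type*} (s : Finset ι)
    (a : ι → ℂ) (w : ι → ℤ) (ha : ∀ i ∈ s, a i ∉ X) (hap : ∀ i ∈ s, a i ≠ p)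
    (hlog : HasLog (fun t => ∏ i ∈ s, G X (a i) p t ^ (w i))) {i₀ : ι} (hi₀ : i₀ ∈ s)
    (hsp : Sp X (a i₀) p) (hsi : ∀ i ∈ s, i ≠ i₀ → Sp X (a i₀) (a i)) : w i₀ = 0 := by
  have h1 : HasLog (fun t => ∏ i ∈ s, (Q X p t - 1 / (a i - p)) ^ (w i)) := by
    have hk : HasLog (fun _ : OnePoint X => ∏ i ∈ s, (p - a i) ^ (w i)) := by
      refine HasLog.const (Finset.prod_ne_zero_iff.2 fun i hi => zpow_ne_zero _ ?_)
      exact sub_ne_zero.2 (hap i hi).symm
    refine (hlog.mul hk.inv).congr fun t => ?_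
    have e : ∏ i ∈ s, G X (a i) p t ^ (w i) =
        (∏ i ∈ s, (p - a i) ^ (w i)) * ∏ i ∈ s, (Q X p t - 1 / (a i - p)) ^ (w i) := by
      rw [← Finset.prod_mul_distrib]
      refine Finset.prod_congr rfl fun i hi => ?_
      rw [G_eq' hp (hap i hi), mul_zpow]
    rw [e]
    have hne : ∏ i ∈ s, (p - a i) ^ (w i) ≠ 0 :=
      Finset.prod_ne_zero_iff.2 fun i hi => zpow_ne_zero _ (sub_ne_zero.2 (hap i hi).symm)
    field_simp
  have h2 := borsuk_index (Q X p) (Q_cont hX hp) (Q_inj hp) s (fun i => 1 / (a i - p)) w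
    (fun i hi => not_mem_range_Q (ha i hi) (hap i hi)) h1
    (not_mem_range_Q (ha i₀ hi₀) (hap i₀ hi₀)) (comp_Q_bdd (ha i₀ hi₀) hp hsp)
  have h3 : s.filter (fun i => 1 / (a i - p) ∈
      connectedComponentIn (range (Q X p))ᶜ (1 / (a i₀ - p))) = {i₀} := by
    ext i
    rw [Finset.mem_filter, Finset.mem_singleton]
    constructor
    · rintro ⟨hi, hic⟩
      by_contra hne
      have h4 := comp_Q (ha i₀ hi₀) (hap i₀ hi₀) hic
      have e : p + 1 / (1 / (a i - p)) = a i := by simp
      rw [e] at h4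
      exact h4 (hsi i hi hne)
    · rintro rfl
      exact ⟨hi₀, mem_connectedComponentIn (not_mem_range_Q (ha _ hi₀) (hap _ hi₀))⟩
  rw [h3, Finset.sum_singleton] at h2
  exact h2

/-- if `(z-a)/(z-p)` has a logarithm then `a` and `p` are not separated -/
theorem not_sep_of_log (hX : IsClosed X) {a p : ℂ} (ha : a ∉ X) (hp : p ∉ X)
    (hlog : HasLog (G X a p)) : ¬ Sp X a p := by
  intro hs
  have := weight_zero hX hp ({0} : Finset ℕ) (fun _ => a) (fun _ => 1) (fun _ _ => ha)
    (fun _ _ => sep_ne ha hs) (hlog.congr fun t => by simp) (Finset.mem_singleton_self 0) hs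
    (fun i hi hne => absurd (Finset.mem_singleton.1 hi) hne)
  exact one_ne_zero this

/-- independence of two classes -/
theorem two_zero (hX : IsClosed X) {a b p : ℂ} (ha : a ∉ X) (hb : b ∉ X) (hp : p ∉ X)
    (h1 : Sp X a p) (h2 : Sp X b p) (h3 : Sp X a b) {m n : ℤ}
    (hlog : HasLog (fun t => G X a p t ^ m * G X b p t ^ n)) : m = 0 ∧ n = 0 := by
  set A : Bool → ℂ := fun i => if i then a else b with hA
  set W : Bool → ℤ := fun i => if i then m else n with hW
  have hprod : HasLog (fun t => ∏ i ∈ (Finset.univ : Finset Bool), G X (A i) p t ^ (W i)) := by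
    refine hlog.congr fun t => ?_
    rw [Fintype.prod_bool]
    simp [hA, hW]
  have hA1 : ∀ i ∈ (Finset.univ : Finset Bool), A i ∉ X := by
    intro i _
    cases i
    · simpa [hA] using hb
    · simpa [hA] using ha
  have hA2 : ∀ i ∈ (Finset.univ : Finset Bool), A i ≠ p := by
    intro i _
    cases i
    · simpa [hA] using sep_ne hb h2
    · simpa [hA] using sep_ne ha h1
  constructor
  · have := weight_zero hX hp Finset.univ A W hA1 hA2 hprod (Finset.mem_univ true)
      (by simpa [hA] using h1) (by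
        intro i _ hi
        cases i
        · simpa [hA] using h3
        · exact absurd rfl hi)
    simpa [hW] using this
  · have := weight_zero hX hp Finset.univ A W hA1 hA2 hprod (Finset.mem_univ false)
      (by simpa [hA] using h2) (by
        intro i _ hi
        cases i
        · exact absurd rfl hi
        · simpa [hA] using sep_symm h3)
    simpa [hW] using this

/-- Eilenberg's representation -/
theorem eil (hX : IsClosed X) {p : ℂ} (hp : p ∉ X) (φ : OnePoint X → ℂ) (hφ : Continuous φ)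
    (h0 : ∀ t, φ t ≠ 0) : ∃ (s : Finset (ℕ × ℕ)) (a : ℕ × ℕ → ℂ) (w : ℕ × ℕ → ℤ)
      (h : OnePoint X → ℂ), (∀ i ∈ s, a i ∉ X) ∧ Continuous h ∧
      ∀ t, φ t = (∏ i ∈ s, G X (a i) p t ^ (w i)) * Complex.exp (h t) := by
  obtain ⟨s, a', w, h, h1, h2, h3⟩ := eilenberg' (Q X p) (Q_cont hX hp) (Q_inj hp) φ hφ h0
  have hr0 : (0 : ℂ) ∈ range (Q X p) := ⟨OnePoint.infty, rfl⟩
  have ha0 : ∀ i ∈ s, a' i ≠ 0 := fun i hi h => h1 i hi (h ▸ hr0)
  set a : ℕ × ℕ → ℂ := fun i => p + 1 / a' i with ha
  have haX : ∀ i ∈ s, a i ∉ X := by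
    intro i hi hX'
    apply h1 i hi
    rw [range_Q]
    exact Or.inr ⟨_, hX', by simp [ha]⟩
  have hap : ∀ i ∈ s, a i ≠ p := by
    intro i hi h
    have : 1 / a' i = 0 := by
      have h4 : p + 1 / a' i = p := h
      linear_combination h4
    exact one_div_ne_zero (ha0 i hi) this
  have hkne : ∏ i ∈ s, (p - a i) ^ (w i) ≠ 0 :=
    Finset.prod_ne_zero_iff.2 fun i hi => zpow_ne_zero _ (sub_ne_zero.2 (hap i hi).symm)
  refine ⟨s, a, w, fun t => h t - Complex.log (∏ i ∈ s, (p - a i) ^ (w i)), haX,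
    h2.sub continuous_const, fun t => ?_⟩
  rw [Complex.exp_sub, Complex.exp_log hkne]
  have e : ∏ i ∈ s, G X (a i) p t ^ (w i) =
      (∏ i ∈ s, (p - a i) ^ (w i)) * ∏ i ∈ s, (Q X p t - a' i) ^ (w i) := by
    rw [← Finset.prod_mul_distrib]
    refine Finset.prod_congr rfl fun i hi => ?_
    rw [G_eq' hp (hap i hi), mul_zpow]
    simp [ha]
  rw [e, h3]
  field_simp

end Run7.h102
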