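import Mathlib
import Pool.Agent.Run7.h102.Bor1

/-! Transfer of separation properties under homeomorphisms of closed plane sets
(helper102, MP_3a87b6_an). -/

set_option autoImplicit false

open Set Filter Topology Metric
open Pool.Agent.Helper188_Cone

namespace Run7.h102

variable {X Y : Set ℂ}

/-- the pull back of a function of `Y ∪ {∞}` -/
theorem pull_cont (h : X ≃ₜ Y) {φ : OnePoint Y → ℂ} (hφ : Continuous φ) :
    Continuous fun t => φ (h.onePointCongr t) :=
  hφ.comp h.onePointCongr.continuous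

theorem pull_log (h : X ≃ₜ Y) {φ : OnePoint Y → ℂ}
    (hlog : HasLog fun t => φ (h.onePointCongr t)) : HasLog φ := by
  refine (hlog.comp h.onePointCongr.symm.continuous).congr fun t => ?_
  exact (congrArg φ (h.onePointCongr.apply_symm_apply t)).symm

/-- connectedness of the complement is a topological property of closed sets of the plane -/
theorem tr0 (hX : IsClosed X) (hY : IsClosed Y) (h : X ≃ₜ Y) {p : ℂ} (hp : p ∉ X)
    (hs : ∀ u, u ∉ X → ∀ v, v ∉ X → ¬ Sp X u v) : ∀ u, u ∉ Y → ∀ v, v ∉ Y → ¬ Sp Y u v := by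
  intro u hu v hv
  obtain ⟨s, a, w, k, ha, hk, hrep⟩ := eil hX hp (fun t => G Y u v (h.onePointCongr t))
    (pull_cont h (G_cont hY hv)) (fun t => G_ne hu hv _)
  refine not_sep_of_log hY hu hv (pull_log h ?_)
  have h1 : HasLog (fun t => ∏ i ∈ s, G X (a i) p t ^ (w i)) :=
    HasLog.prod s _ fun i hi => (G_log hX (ha i hi) hp (hs _ (ha i hi) _ hp)).zpow _
  have h2 : HasLog (fun t => Complex.exp (k t)) := ⟨k, hk, fun _ => rfl⟩
  exact (h1.mul h2).congr hrep

/-- at most two complementary components -/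
def Two (X : Set ℂ) : Prop :=
  ∀ x y z, x ∉ X → y ∉ X → z ∉ X → Sp X x y → Sp X y z → ¬ Sp X x z

theorem two_rep (hX : IsClosed X) {p : ℂ} (hp : p ∉ X) (h2 : Two X) {a : ℂ} (ha : a ∉ X)
    (hap : Sp X a p) (φ : OnePoint X → ℂ) (hφ : Continuous φ) (h0 : ∀ t, φ t ≠ 0) :
    ∃ (M : ℤ) (L : OnePoint X → ℂ), HasLog L ∧ ∀ t, φ t = L t * G X a p t ^ M := by
  classical
  obtain ⟨s, b, w, k, hb, hk, hrep⟩ := eil hX hp φ hφ h0
  have h1 : ∀ i, ∃ (m : ℤ) (L : OnePoint X → ℂ), i ∈ s → HasLog L ∧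
      ∀ t, G X (b i) p t ^ (w i) = L t * G X a p t ^ m := by
    intro i
    by_cases hi : i ∈ s
    · by_cases hsp : Sp X (b i) p
      · have h3 : ¬ Sp X (b i) a := h2 _ p a (hb i hi) hp ha hsp (sep_symm hap)
        refine ⟨w i, fun t => G X (b i) a t ^ (w i), fun _ =>
          ⟨(G_log hX (hb i hi) ha h3).zpow _, fun t => ?_⟩⟩
        rw [← mul_zpow, ← G_trans ha]
      · refine ⟨0, fun t => G X (b i) p t ^ (w i), fun _ =>
          ⟨(G_log hX (hb i hi) hp hsp).zpow _, fun t => ?_⟩⟩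
        simp
    · exact ⟨0, fun _ => 1, fun h => absurd h hi⟩
  choose m L hmL using h1
  refine ⟨∑ i ∈ s, m i, fun t => (∏ i ∈ s, L i t) * Complex.exp (k t), ?_, fun t => ?_⟩
  · exact (HasLog.prod s _ fun i hi => (hmL i hi).1).mul ⟨k, hk, fun _ => rfl⟩
  · have e : ∏ i ∈ s, G X (b i) p t ^ (w i) = (∏ i ∈ s, L i t) * G X a p t ^ (∑ i ∈ s, m i) := by
      rw [Finset.prod_congr rfl fun i hi => (hmL i hi).2 t, Finset.prod_mul_distrib,
        zpow_sum s m (G_ne ha hp t)]
    rw [hrep, e]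
    ring

/-- having at most two complementary components is a topological property -/
theorem tr2 (hX : IsClosed X) (hY : IsClosed Y) (h : X ≃ₜ Y) {p : ℂ} (hp : p ∉ X)
    (h2 : Two X) : Two Y := by
  intro u v w hu hv hw huv hvw huw
  by_cases hall : ∀ a, a ∉ X → ¬ Sp X a p
  · exact tr0 hX hY h hp (fun x hx y hy => not_sep_trans (hall x hx)
      (fun h' => hall y hy (sep_symm h'))) u hu v hv huv
  · push Not at hall
    obtain ⟨a, ha, hap⟩ := hall
    obtain ⟨M1, L1, hL1, e1⟩ := two_rep hX hp h2 ha hap (fun t => G Y u w (h.onePointCongr t))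
      (pull_cont h (G_cont hY hw)) (fun t => G_ne hu hw _)
    obtain ⟨M2, L2, hL2, e2⟩ := two_rep hX hp h2 ha hap (fun t => G Y v w (h.onePointCongr t))
      (pull_cont h (G_cont hY hw)) (fun t => G_ne hv hw _)
    have h3 : HasLog (fun t => G Y u w t ^ M2 * G Y v w t ^ (-M1)) := by
      apply pull_log h
      refine ((hL1.zpow M2).mul (hL2.zpow (-M1))).congr fun t => ?_
      rw [e1, e2, mul_zpow, mul_zpow, ← zpow_mul, ← zpow_mul]
      have hg := G_ne (X := X) ha hp t
      have : G X a p t ^ (M1 * M2) * G X a p t ^ (M2 * -M1) = 1 := by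
        rw [← zpow_add₀ hg]
        have : M1 * M2 + M2 * -M1 = 0 := by ring
        rw [this, zpow_zero]
      calc L1 t ^ M2 * G X a p t ^ (M1 * M2) * (L2 t ^ (-M1) * G X a p t ^ (M2 * -M1))
          = L1 t ^ M2 * L2 t ^ (-M1) * (G X a p t ^ (M1 * M2) * G X a p t ^ (M2 * -M1)) := by ring
        _ = L1 t ^ M2 * L2 t ^ (-M1) := by rw [this, mul_one]
    obtain ⟨h4, h5⟩ := two_zero hY hu hv hw huw hvw huv h3
    have hM1 : M1 = 0 := by omega
    refine not_sep_of_log hY hu hw (pull_log h ?_) huw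
    refine hL1.congr fun t => ?_
    rw [e1, hM1, zpow_zero, mul_one]

/-- `C` is a component of `X` -/
def Cmp (X C : Set ℂ) : Prop := ∃ c ∈ X, C = connectedComponentIn X c

theorem Cmp.sub {C : Set ℂ} (h : Cmp X C) : C ⊆ X := by
  obtain ⟨c, -, rfl⟩ := h
  exact connectedComponentIn_subset _ _

theorem Cmp.pre {C : Set ℂ} (h : Cmp X C) : IsPreconnected C := by
  obtain ⟨c, -, rfl⟩ := h
  exact isPreconnected_connectedComponentIn

theorem Cmp.nonempty {C : Set ℂ} (h : Cmp X C) : C.Nonempty := by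
  obtain ⟨c, hc, rfl⟩ := h
  exact ⟨c, mem_connectedComponentIn hc⟩

theorem Cmp.max {C D : Set ℂ} (h : Cmp X C) (hD : IsPreconnected D) (hDX : D ⊆ X)
    (hne : (D ∩ C).Nonempty) : D ⊆ C := by
  obtain ⟨c, hc, rfl⟩ := h
  obtain ⟨x, hx1, hx2⟩ := hne
  rw [connectedComponentIn_eq hx2]
  exact hD.subset_connectedComponentIn hx1 hDX

theorem Cmp.eq {C C' : Set ℂ} (h : Cmp X C) (h' : Cmp X C') (hne : (C ∩ C').Nonempty) :
    C = C' := by
  refine Subset.antisymm (h'.max h.pre h.sub hne) (h.max h'.pre h'.sub ?_)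
  rwa [inter_comm]

theorem Cmp.closed {C : Set ℂ} (hX : IsClosed X) (h : Cmp X C) : IsClosed C := by
  rw [← closure_subset_iff_isClosed]
  exact h.max h.pre.closure (closure_minimal h.sub hX) (by
    obtain ⟨c, hc⟩ := h.nonempty
    exact ⟨c, subset_closure hc, hc⟩)

theorem cmp_of_mem {x : ℂ} (hx : x ∈ X) : Cmp X (connectedComponentIn X x) := ⟨x, hx, rfl⟩

/-- only finitely many components separate two given points of the complement -/
def FS (X : Set ℂ) : Prop := ∀ x y, x ∉ X → y ∉ X → {C | Cmp X C ∧ Sp C x y}.Finite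

/-- the set corresponding to `C` under the homeomorphism -/
def img (h : X ≃ₜ Y) (C : Set ℂ) : Set ℂ := {y | ∃ x, ∃ hx : x ∈ X, x ∈ C ∧ y = h ⟨x, hx⟩}

theorem img_pre (h : X ≃ₜ Y) {C : Set ℂ} (hC : IsPreconnected C) (hCX : C ⊆ X) :
    IsPreconnected (img h C) := by
  have h1 : IsPreconnected ((Subtype.val : X → ℂ) ⁻¹' C) := by
    rw [← Topology.IsInducing.subtypeVal.isPreconnected_image, Subtype.image_preimage_coe,
      inter_eq_right.2 hCX]
    exact hC
  have h2 := h1.image (fun x : X => (h x : ℂ)) (continuous_subtype_val.comp h.continuous).continuousOn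
  convert h2 using 1
  ext y
  constructor
  · rintro ⟨x, hx, hxC, rfl⟩
    exact ⟨⟨x, hx⟩, hxC, rfl⟩
  · rintro ⟨x, hx, rfl⟩
    exact ⟨x, x.2, hx, rfl⟩

theorem img_sub (h : X ≃ₜ Y) (C : Set ℂ) : img h C ⊆ Y := by
  rintro y ⟨x, hx, -, rfl⟩
  exact (h ⟨x, hx⟩).2

theorem img_img (h : X ≃ₜ Y) {C : Set ℂ} (hC : C ⊆ X) : img h.symm (img h C) = C := by
  ext x
  constructor
  · rintro ⟨y, hy, ⟨x', hx', hxC, rfl⟩, rfl⟩
    have : h.symm ⟨(h ⟨x', hx'⟩ : ℂ), hy⟩ = ⟨x', hx'⟩ := by
      rw [Homeomorph.symm_apply_eq]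
    rw [this]
    exact hxC
  · intro hx
    refine ⟨h ⟨x, hC hx⟩, (h ⟨x, hC hx⟩).2, ⟨x, hC hx, hx, rfl⟩, ?_⟩
    simp

theorem img_cmp (h : X ≃ₜ Y) {C : Set ℂ} (hC : Cmp X C) : Cmp Y (img h C) := by
  obtain ⟨c, hc⟩ := hC.nonempty
  have hcX := hC.sub hc
  set y : ℂ := ((h ⟨c, hcX⟩ : Y) : ℂ) with hy
  have hyY : y ∈ Y := (h ⟨c, hcX⟩).2
  have hyi : y ∈ img h C := ⟨c, hcX, hc, rfl⟩
  refine ⟨y, hyY, Subset.antisymm ((img_pre h hC.pre hC.sub).subset_connectedComponentIn hyi
    (img_sub h C)) ?_⟩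
  have hD : Cmp Y (connectedComponentIn Y y) := cmp_of_mem hyY
  have h1 : img h.symm (connectedComponentIn Y y) ⊆ C := by
    refine hC.max (img_pre h.symm hD.pre hD.sub) (img_sub _ _) ⟨c, ?_, hc⟩
    exact ⟨y, hyY, mem_connectedComponentIn hyY, by simp [hy]⟩
  intro z hz
  have hzY := hD.sub hz
  have h2 : (h.symm ⟨z, hzY⟩ : ℂ) ∈ C := h1 ⟨z, hzY, hz, rfl⟩
  exact ⟨h.symm ⟨z, hzY⟩, (h.symm ⟨z, hzY⟩).2, h2, by simp⟩

/-- the restricted homeomorphism -/
noncomputable def resH (h : X ≃ₜ Y) {C : Set ℂ} (hC : C ⊆ X) : C ≃ₜ img h C where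
  toFun x := ⟨h ⟨x, hC x.2⟩, x, hC x.2, x.2, rfl⟩
  invFun y := ⟨h.symm ⟨y, img_sub h C y.2⟩, by
    obtain ⟨x, hx, hxC, hy⟩ := y.2
    have : (⟨(y : ℂ), img_sub h C y.2⟩ : Y) = h ⟨x, hx⟩ := Subtype.ext hy
    rw [this, Homeomorph.symm_apply_apply]
    exact hxC⟩
  left_inv x := by
    apply Subtype.ext
    show ((h.symm ⟨(h ⟨x, hC x.2⟩ : ℂ), _⟩ : X) : ℂ) = x
    have : (⟨(h ⟨x, hC x.2⟩ : ℂ), (h ⟨x, hC x.2⟩).2⟩ : Y) = h ⟨x, hC x.2⟩ := rfl
    rw [this, Homeomorph.symm_apply_apply]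
  right_inv y := by
    apply Subtype.ext
    show ((h ⟨(h.symm ⟨(y : ℂ), img_sub h C y.2⟩ : X), _⟩ : Y) : ℂ) = y
    have : (⟨((h.symm ⟨(y : ℂ), img_sub h C y.2⟩ : X) : ℂ),
        (h.symm ⟨(y : ℂ), img_sub h C y.2⟩).2⟩ : X) = h.symm ⟨(y : ℂ), img_sub h C y.2⟩ := rfl
    rw [this, Homeomorph.apply_symm_apply]
  continuous_toFun := by
    refine Continuous.subtype_mk ?_ _
    exact continuous_subtype_val.comp (h.continuous.comp
      (Continuous.subtype_mk continuous_subtype_val _))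
  continuous_invFun := by
    refine Continuous.subtype_mk ?_ _
    exact continuous_subtype_val.comp (h.symm.continuous.comp
      (Continuous.subtype_mk continuous_subtype_val _))

/-- the inclusion of the one point compactifications -/
theorem incl_cont (hX : IsClosed X) {C : Set ℂ} (hC : IsClosed C) (hCX : C ⊆ X) :
    Continuous (OnePoint.map (Set.inclusion hCX)) := by
  have hemb : IsClosedEmbedding (Set.inclusion hCX) := by
    refine Topology.IsClosedEmbedding.inclusion hCX ?_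
    exact hC.preimage continuous_subtype_val
  refine OnePoint.continuous_map hemb.continuous ?_
  rw [coclosedCompact_eq_cocompact, coclosedCompact_eq_cocompact]
  exact hemb.tendsto_cocompact

/-- the finiteness property is a topological property of closed sets -/
theorem tr1 (hX : IsClosed X) (hY : IsClosed Y) (h : X ≃ₜ Y) {p : ℂ} (hp : p ∉ X)
    (hfs : FS X) : FS Y := by
  classical
  intro u v hu hv
  obtain ⟨s, a, w, k, ha, hk, hrep⟩ := eil hX hp (fun t => G Y u v (h.onePointCongr t))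
    (pull_cont h (G_cont hY hv)) (fun t => G_ne hu hv _)
  have hfin : (⋃ i ∈ s, {C | Cmp X C ∧ Sp C (a i) p}).Finite :=
    s.finite_toSet.biUnion fun i hi => hfs _ _ (ha i hi) hp
  have himg : img h.symm '' {C | Cmp Y C ∧ Sp C u v} ⊆ ⋃ i ∈ s, {C | Cmp X C ∧ Sp C (a i) p} := by
    rintro _ ⟨C', ⟨hC', hsp⟩, rfl⟩
    set C := img h.symm C' with hCdef
    have hC : Cmp X C := img_cmp h.symm hC'
    have hCC : img h C = C' := by
      have := img_img h.symm hC'.sub
      simpa using this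
    by_contra hcon
    simp only [mem_iUnion, not_exists, mem_ofPred_eq, not_and] at hcon
    have hcon' : ∀ i ∈ s, ¬ Sp C (a i) p := fun i hi => hcon i hi hC
    have hCcl := hC.closed hX
    have hpC : p ∉ C := fun h' => hp (hC.sub h')
    have hlogs : HasLog (fun t : OnePoint C => ∏ i ∈ s, G C (a i) p t ^ (w i)) :=
      HasLog.prod s _ fun i hi => (G_log hCcl (fun h' => ha i hi (hC.sub h')) hpC
        (hcon' i hi)).zpow _
    have hic := incl_cont hX hCcl hC.sub
    have h2 : HasLog (fun t : OnePoint C => Complex.exp (k (OnePoint.map (Set.inclusion hC.sub) t))) :=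
      ⟨fun t => k (OnePoint.map (Set.inclusion hC.sub) t), hk.comp hic, fun _ => rfl⟩
    have h3 : HasLog (fun t : OnePoint C => G Y u v (h.onePointCongr
        (OnePoint.map (Set.inclusion hC.sub) t))) := by
      refine (hlogs.mul h2).congr fun t => ?_
      rw [hrep]
      congr 1
      refine Finset.prod_congr rfl fun i _ => ?_
      congr 1
      induction t using OnePoint.rec with
      | infty => rfl
      | coe x => rfl
    have h4 : HasLog (G (img h C) u v) := by
      apply pull_log (resH h hC.sub)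
      refine h3.congr fun t => ?_
      induction t using OnePoint.rec with
      | infty => rfl
      | coe x => rfl
    rw [hCC] at h4
    exact not_sep_of_log (hC'.closed hY) (fun h' => hu (hC'.sub h')) (fun h' => hv (hC'.sub h'))
      h4 hsp
  refine Set.Finite.of_finite_image (hfin.subset himg) ?_
  rintro C1 ⟨hC1, -⟩ C2 ⟨hC2, -⟩ heq
  have e1 := img_img h.symm hC1.sub
  have e2 := img_img h.symm hC2.sub
  rw [← e1, ← e2, heq]

/-- the two sides property of the components is a topological property of closed sets -/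
theorem tr2' (hX : IsClosed X) (hY : IsClosed Y) (h : X ≃ₜ Y) {p : ℂ} (hp : p ∉ X)
    (h2 : ∀ C, Cmp X C → Two C) : ∀ C, Cmp Y C → Two C := by
  intro C' hC'
  have hC : Cmp X (img h.symm C') := img_cmp h.symm hC'
  have hCC : img h (img h.symm C') = C' := by
    have := img_img h.symm hC'.sub
    simpa using this
  have h3 := tr2 (hC.closed hX) (by rw [hCC]; exact hC'.closed hY) (resH h hC.sub)
    (fun h' => hp (hC.sub h')) (h2 _ hC)
  rwa [hCC] at h3

end Run7.h102
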