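import Mathlib
import Pool.Agent.Run7.h102.Bor2
import Pool.Agent.N491.HP.Jan

/-! The separation tree of the Julia set and a cycle (helper102, MP_3a87b6_an). -/

set_option autoImplicit false

open Set Filter Topology Metric

namespace Run7.h102

variable {J : Set ℂ}

/-- Janiszewski: separation by a closed set is done by a component -/
theorem sep_cmp {A : Set ℂ} (hA : IsClosed A) (hAJ : A ⊆ J) {x y : ℂ} (hx : x ∉ A) (hy : y ∉ A)
    (h : Sp A x y) : ∃ Z, Cmp J Z ∧ Sp Z x y ∧ (Z ∩ A).Nonempty := by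
  obtain ⟨C, hCA, hCc, hCp, hCs⟩ := Pool.Agent.N491.HP.janis hA hx hy (show _ from h)
  have hne : (univ ∩ C).Nonempty := hCs univ isPreconnected_univ (mem_univ _) (mem_univ _)
  obtain ⟨z, -, hz⟩ := hne
  have hzJ := hAJ (hCA hz)
  refine ⟨_, cmp_of_mem hzJ, ?_, z, mem_connectedComponentIn hzJ, hCA hz⟩
  intro D hD hxD hyD
  obtain ⟨w, hw1, hw2⟩ := hCs D hD hxD hyD
  exact ⟨w, hw1, hCp.subset_connectedComponentIn hz (hCA.trans hAJ) hw2⟩

/-- laminarity -/
theorem lam {Z Z' : Set ℂ} (hZ : IsClosed Z) (hZp : IsPreconnected Z) (hZ'p : IsPreconnected Z')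
    (hdis : Disjoint Z Z') {z z' x : ℂ} (hz : z ∈ Z) (hz' : z' ∈ Z') (hx : x ∉ Z)
    (h : Sp Z x z') : ¬ Sp Z' x z := by
  set V := connectedComponentIn Zᶜ x with hV
  have hVZ : V ⊆ Zᶜ := connectedComponentIn_subset _ _
  have hVp : IsPreconnected V := isPreconnected_connectedComponentIn
  have hxV : x ∈ V := mem_connectedComponentIn hx
  have hVZ' : ∀ y ∈ V, y ∉ Z' := by
    intro y hyV hyZ'
    have h1 : IsPreconnected (V ∪ Z') := hVp.union y hyV hyZ' hZ'p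
    obtain ⟨w, hw1, hw2⟩ := h _ h1 (Or.inl hxV) (Or.inr hz')
    rcases hw1 with hw1 | hw1
    · exact hVZ hw1 hw2
    · exact hdis.le_bot ⟨hw2, hw1⟩
  obtain ⟨t, ht⟩ := Pool.Agent.N491.HP.frontier_comp_nonempty (O := Zᶜ) (b := x) hx
    ⟨z, by simpa using hz⟩
  have htZ : t ∈ Z := by
    have := Pool.Agent.N491.HP.frontier_comp hZ.isOpen_compl ht
    simpa using this
  have h2 : IsPreconnected (V ∪ {t} ∪ Z) := by
    refine IsPreconnected.union t (Or.inr rfl) htZ ?_ hZp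
    exact Pool.Agent.N491.HP.comp_union_frontier (by rintro x rfl; exact ht)
  refine not_sep_iff.2 ⟨V ∪ {t} ∪ Z, h2, Or.inl (Or.inl hxV), Or.inr hz, ?_⟩
  rw [Set.disjoint_left]
  rintro y ((hy | hy) | hy) hyZ'
  · exact hVZ' y hy hyZ'
  · rw [mem_singleton_iff.1 hy] at hyZ'
    exact hdis.le_bot ⟨htZ, hyZ'⟩
  · exact hdis.le_bot ⟨hy, hyZ'⟩

/-- a small disc is not separated by a closed set -/
theorem near_not_sep {Z : Set ℂ} (hZ : IsClosed Z) {x : ℂ} (hx : x ∉ Z) :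
    ∀ᶠ y in 𝓝 x, y ∉ Z ∧ ¬ Sp Z x y := by
  obtain ⟨r, hr, hb⟩ := Metric.isOpen_iff.1 hZ.isOpen_compl x hx
  filter_upwards [ball_mem_nhds x hr] with y hy
  refine ⟨hb hy, not_sep_iff.2 ⟨ball x r, (convex_ball x r).isPreconnected, mem_ball_self hr, hy, ?_⟩⟩
  rw [Set.disjoint_left]
  exact fun w hw hwZ => hb hw hwZ

/-- the data -/
structure TD (f : ℂ → ℂ) (J : Set ℂ) (a : ℕ → ℂ) (n : ℕ) : Prop where
  fc : Continuous f
  Jc : IsClosed J
  inv : ∀ z, f z ∈ J ↔ z ∈ J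
  n0 : 0 < n
  aJ : ∀ i, a i ∉ J
  step : ∀ i, f (a i) = a (i + 1)
  per : ∀ i, a (i + n) = a i
  cls : ∀ b k, b ∉ J → ¬ Sp J b (f^[k] b) → n ∣ k
  fs : FS J
  two : ∀ C, Cmp J C → Two C

open Classical in
/-- the number of cycle points separated from `x` -/
noncomputable def cnt (a : ℕ → ℂ) (n : ℕ) (Z : Set ℂ) (x : ℂ) : ℕ :=
  ((Finset.range n).filter fun i => Sp Z x (a i)).card

/-- the good points for `Z` -/
def good (a : ℕ → ℂ) (n k : ℕ) (Z : Set ℂ) (x : ℂ) : Prop :=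
  2 * cnt a n Z x < n ∨ (2 * cnt a n Z x = n ∧ ¬ Sp Z x (a k))

namespace TD

variable {f : ℂ → ℂ} {a : ℕ → ℂ} {n : ℕ}

theorem aZ (h : TD f J a n) {Z : Set ℂ} (hZ : Cmp J Z) (i : ℕ) : a i ∉ Z :=
  fun h' => h.aJ i (hZ.sub h')

end TD

theorem sp_congr {Z : Set ℂ} {x y : ℂ} (hxy : ¬ Sp Z x y) (t : ℂ) : Sp Z x t ↔ Sp Z y t := by
  constructor
  · exact fun h1 => by_contra fun h2 => not_sep_trans hxy h2 h1
  · exact fun h1 => by_contra fun h2 =>
      not_sep_trans (fun h3 => hxy (sep_symm h3)) h2 h1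

theorem cnt_same (a : ℕ → ℂ) (n : ℕ) {Z : Set ℂ} {x y : ℂ} (hxy : ¬ Sp Z x y) :
    cnt a n Z x = cnt a n Z y := by
  classical
  unfold cnt
  congr 1
  apply Finset.filter_congr
  intro i _
  exact sp_congr hxy (a i)

theorem cnt_opp (a : ℕ → ℂ) (n : ℕ) {Z : Set ℂ} (h2 : Two Z) (ha : ∀ i, a i ∉ Z) {x y : ℂ}
    (hx : x ∉ Z) (hy : y ∉ Z) (hxy : Sp Z x y) : cnt a n Z x + cnt a n Z y = n := by
  classical
  unfold cnt
  have e : (Finset.range n).filter (fun i => Sp Z y (a i)) =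
      (Finset.range n).filter (fun i => ¬ Sp Z x (a i)) := by
    apply Finset.filter_congr
    intro i _
    constructor
    · exact fun h1 h3 => h2 x (a i) y hx (ha i) hy h3 (sep_symm h1) hxy
    · exact fun h1 => by_contra fun h3 => not_sep_trans h1 (fun h4 => h3 (sep_symm h4)) hxy
  rw [e]
  have := Finset.card_filter_add_card_filter_not (s := Finset.range n) (fun i => Sp Z x (a i))
  rwa [Finset.card_range] at this

theorem cnt_pos {a : ℕ → ℂ} {n : ℕ} {Z : Set ℂ} {x : ℂ} (h : cnt a n Z x ≠ 0) :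
    ∃ i, i < n ∧ Sp Z x (a i) := by
  classical
  unfold cnt at h
  obtain ⟨i, hi⟩ := Finset.card_pos.1 (Nat.pos_of_ne_zero h)
  rw [Finset.mem_filter, Finset.mem_range] at hi
  exact ⟨i, hi⟩

theorem cnt_lt {a : ℕ → ℂ} {n : ℕ} {Z : Set ℂ} {x : ℂ} (h : cnt a n Z x < n) :
    ∃ i, i < n ∧ ¬ Sp Z x (a i) := by
  classical
  by_contra hcon
  push Not at hcon
  unfold cnt at h
  rw [Finset.filter_true_of_mem (fun i hi => hcon i (Finset.mem_range.1 hi)),
    Finset.card_range] at h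
  exact lt_irrefl _ h

theorem good_congr (a : ℕ → ℂ) (n k : ℕ) {Z : Set ℂ} {x y : ℂ} (hxy : ¬ Sp Z x y) :
    good a n k Z x ↔ good a n k Z y := by
  unfold good
  rw [cnt_same a n hxy, sp_congr hxy]

theorem good_unique {a : ℕ → ℂ} {n k : ℕ} {Z : Set ℂ} (h2 : Two Z) (ha : ∀ i, a i ∉ Z) {x y : ℂ}
    (hx : x ∉ Z) (hy : y ∉ Z) (h1 : good a n k Z x) (h3 : good a n k Z y) : ¬ Sp Z x y := by
  intro hxy
  have h4 := cnt_opp a n h2 ha hx hy hxy
  rcases h1 with h1 | ⟨h1, h1'⟩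
  · rcases h3 with h3 | ⟨h3, h3'⟩ <;> omega
  · rcases h3 with h3 | ⟨h3, h3'⟩
    · omega
    · exact not_sep_trans h1' (fun h5 => h3' (sep_symm h5)) hxy

/-- the set of good cycle points -/
theorem good_cycle {a : ℕ → ℂ} {n : ℕ} (k : ℕ) {Z : Set ℂ} (h2 : Two Z) (ha : ∀ i, a i ∉ Z)
    (hn : 0 < n) : (∃ i, good a n k Z (a i) ∧ 2 * cnt a n Z (a i) < n) ∨
      (∀ x, x ∉ Z → 2 * cnt a n Z x = n) := by
  by_cases hb : 2 * cnt a n Z (a 0) = n
  · refine Or.inr fun x hx => ?_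
    by_cases hs : Sp Z (a 0) x
    · have := cnt_opp a n h2 ha (ha 0) hx hs
      omega
    · rw [← cnt_same a n hs]
      exact hb
  · left
    by_cases h3 : 2 * cnt a n Z (a 0) < n
    · exact ⟨0, Or.inl h3, h3⟩
    · obtain ⟨i, hi, hs⟩ := cnt_pos (a := a) (n := n) (Z := Z) (x := a 0) (by omega)
      have := cnt_opp a n h2 ha (ha 0) (ha i) hs
      have h4 : 2 * cnt a n Z (a i) < n := by omega
      exact ⟨i, Or.inl h4, h4⟩

theorem good_exists {a : ℕ → ℂ} {n : ℕ} (k : ℕ) {Z : Set ℂ} (h2 : Two Z) (ha : ∀ i, a i ∉ Z)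
    (hn : 0 < n) : ∃ i, good a n k Z (a i) := by
  rcases good_cycle k h2 ha hn with ⟨i, hi, -⟩ | h
  · exact ⟨i, hi⟩
  · exact ⟨k, Or.inr ⟨h _ (ha k), sep_irrefl (ha k)⟩⟩

open Classical in
/-- the good sets of two components contain a common cycle point -/
theorem good_common {a : ℕ → ℂ} {n : ℕ} (k : ℕ) (hper : ∀ i, a (i + n) = a i) {Z Z' : Set ℂ}
    (h2 : Two Z) (h2' : Two Z')
    (ha : ∀ i, a i ∉ Z) (ha' : ∀ i, a i ∉ Z') (hn : 0 < n) :
    ∃ i, good a n k Z (a i) ∧ good a n k Z' (a i) := by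
  -- the number of good cycle points
  have key : ∀ W : Set ℂ, Two W → (∀ i, a i ∉ W) → ∀ i0, good a n k W (a i0) →
      ((Finset.range n).filter fun i => good a n k W (a i)).card = n - cnt a n W (a i0) := by
    intro W hW haW i0 hi0
    have e : (Finset.range n).filter (fun i => good a n k W (a i)) =
        (Finset.range n).filter (fun i => ¬ Sp W (a i0) (a i)) := by
      apply Finset.filter_congr
      intro i _
      constructor
      · exact fun h3 => good_unique hW haW (haW i0) (haW i) hi0 h3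
      · exact fun h3 => (good_congr a n k h3).1 hi0
    rw [e]
    have h4 := Finset.card_filter_add_card_filter_not (s := Finset.range n)
      (fun i => Sp W (a i0) (a i))
    rw [Finset.card_range] at h4
    unfold cnt
    omega
  have hcle : ∀ W x, cnt a n W x ≤ n := by
    intro W x
    unfold cnt
    exact (Finset.card_filter_le _ _).trans (by rw [Finset.card_range])
  rcases good_cycle k h2 ha hn with ⟨i, hi, hilt⟩ | hb
  · obtain ⟨j, hj⟩ := good_exists k h2' ha' hn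
    have c1 := key Z h2 ha i hi
    have c2 := key Z' h2' ha' j hj
    have c3 : 2 * cnt a n Z' (a j) ≤ n := by
      rcases hj with h | ⟨h, -⟩ <;> omega
    have c4 := hcle Z (a i)
    by_contra hcon
    push Not at hcon
    have hdis : Disjoint ((Finset.range n).filter fun i => good a n k Z (a i))
        ((Finset.range n).filter fun i => good a n k Z' (a i)) := by
      rw [Finset.disjoint_left]
      intro x hx1 hx2
      rw [Finset.mem_filter] at hx1 hx2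
      exact hcon x hx1.2 hx2.2
    have h3 := Finset.card_union_of_disjoint hdis
    have h4 : ((Finset.range n).filter (fun i => good a n k Z (a i)) ∪
        (Finset.range n).filter fun i => good a n k Z' (a i)).card ≤ n := by
      refine (Finset.card_le_card (Finset.union_subset (Finset.filter_subset _ _)
        (Finset.filter_subset _ _))).trans ?_
      rw [Finset.card_range]
    omega
  · rcases good_cycle k h2' ha' hn with ⟨i, hi, hilt⟩ | hb'
    · have hkZ : good a n k Z (a k) := Or.inr ⟨hb _ (ha k), sep_irrefl (ha k)⟩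
      have c1 := key Z h2 ha k hkZ
      have c2 := key Z' h2' ha' i hi
      have c3 := hb _ (ha k)
      have c4 := hcle Z' (a i)
      by_contra hcon
      push Not at hcon
      have hdis : Disjoint ((Finset.range n).filter fun i => good a n k Z (a i))
          ((Finset.range n).filter fun i => good a n k Z' (a i)) := by
        rw [Finset.disjoint_left]
        intro x hx1 hx2
        rw [Finset.mem_filter] at hx1 hx2
        exact hcon x hx1.2 hx2.2
      have h3 := Finset.card_union_of_disjoint hdis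
      have h4 : ((Finset.range n).filter (fun i => good a n k Z (a i)) ∪
          (Finset.range n).filter fun i => good a n k Z' (a i)).card ≤ n := by
        refine (Finset.card_le_card (Finset.union_subset (Finset.filter_subset _ _)
          (Finset.filter_subset _ _))).trans ?_
        rw [Finset.card_range]
      omega
    · exact ⟨k, Or.inr ⟨hb _ (ha k), sep_irrefl (ha k)⟩, Or.inr ⟨hb' _ (ha' k), sep_irrefl (ha' k)⟩⟩

/-- the bad side of `Z` -/
def Bad (a : ℕ → ℂ) (n k : ℕ) (Z : Set ℂ) : Set ℂ := {x | x ∉ Z ∧ ¬ good a n k Z x}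

theorem bad_open (a : ℕ → ℂ) (n k : ℕ) {Z : Set ℂ} (hZ : IsClosed Z) : IsOpen (Bad a n k Z) := by
  rw [isOpen_iff_mem_nhds]
  rintro x ⟨hx1, hx2⟩
  filter_upwards [near_not_sep hZ hx1] with y hy
  exact ⟨hy.1, fun h => hx2 ((good_congr a n k hy.2).2 h)⟩

theorem goodside_open (a : ℕ → ℂ) (n k : ℕ) {Z : Set ℂ} (hZ : IsClosed Z) :
    IsOpen {x | x ∉ Z ∧ good a n k Z x} := by
  rw [isOpen_iff_mem_nhds]
  rintro x ⟨hx1, hx2⟩
  filter_upwards [near_not_sep hZ hx1] with y hy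
  exact ⟨hy.1, (good_congr a n k hy.2).1 hx2⟩

namespace TD

variable {f : ℂ → ℂ} {a : ℕ → ℂ} {n : ℕ}

/-- a bad point is separated from the good cycle points -/
theorem bad_sep {k : ℕ} {Z : Set ℂ} {x : ℂ} {i : ℕ}
    (hx : x ∈ Bad a n k Z) (hi : good a n k Z (a i)) : Sp Z x (a i) := by
  by_contra hcon
  exact hx.2 ((good_congr a n k hcon).2 hi)

/-- two bad points of the same component are not separated by it -/
theorem bad_bad (h : TD f J a n) {k : ℕ} {Z : Set ℂ} (hZ : Cmp J Z) {x y : ℂ}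
    (hx : x ∈ Bad a n k Z) (hy : y ∈ Bad a n k Z) : ¬ Sp Z x y := by
  obtain ⟨i, hi⟩ := good_exists k (h.two Z hZ) (h.aZ hZ) h.n0
  exact h.two Z hZ x (a i) y hx.1 (h.aZ hZ i) hy.1 (bad_sep hx hi) (sep_symm (bad_sep hy hi))

theorem disj (_h : TD f J a n) {Z Z' : Set ℂ} (hZ : Cmp J Z) (hZ' : Cmp J Z') (hne : Z ≠ Z') :
    Disjoint Z Z' := by
  rw [disjoint_iff_inter_eq_empty, ← not_nonempty_iff_eq_empty]
  exact fun h' => hne (hZ.eq hZ' h')

/-- if some point of `Z'` lies on the good side of `Z`, then the bad side of `Z` lies in one side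
of `Z'` together with `Z` -/
theorem nest1 (h : TD f J a n) {k : ℕ} {Z Z' : Set ℂ} (hZ : Cmp J Z) (hZ' : Cmp J Z')
    (hne : Z ≠ Z') {z z' : ℂ} (hz : z ∈ Z) (hz' : z' ∈ Z') (hg : good a n k Z z') {x : ℂ}
    (hx : x ∈ Bad a n k Z) : ¬ Sp Z' x z := by
  have hd := h.disj hZ hZ' hne
  have hz'Z : z' ∉ Z := fun h' => hd.le_bot ⟨h', hz'⟩
  refine lam (hZ.closed h.Jc) hZ.pre hZ'.pre hd hz hz' hx.1 ?_
  by_contra hcon
  exact hx.2 ((good_congr a n k hcon).2 hg)

/-- the bad sides of two components that meet are nested -/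
theorem nest2 (h : TD f J a n) {k : ℕ} {Z Z' : Set ℂ} (hZ : Cmp J Z) (hZ' : Cmp J Z')
    (hne : Z ≠ Z') {b : ℂ} (hb : b ∈ Bad a n k Z) (hb' : b ∈ Bad a n k Z') :
    Bad a n k Z ∪ Z ⊆ Bad a n k Z' ∨ Bad a n k Z' ∪ Z' ⊆ Bad a n k Z := by
  have hd := h.disj hZ hZ' hne
  obtain ⟨z, hz⟩ := hZ.nonempty
  obtain ⟨z', hz'⟩ := hZ'.nonempty
  have hz'Z : z' ∉ Z := fun h' => hd.le_bot ⟨h', hz'⟩
  have hzZ' : z ∉ Z' := fun h' => hd.le_bot ⟨hz, h'⟩
  -- the first case, for arbitrary pairs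
  have first : ∀ {W W' : Set ℂ}, Cmp J W → Cmp J W' → W ≠ W' → ∀ {w'}, w' ∈ W' →
      b ∈ Bad a n k W → b ∈ Bad a n k W' → good a n k W w' → Bad a n k W ∪ W ⊆ Bad a n k W' := by
    intro W W' hW hW' hWW' w' hw' hbW hbW' hg
    have hd' := h.disj hW hW' hWW'
    have h1 : ∀ w ∈ W, w ∈ Bad a n k W' := by
      intro w hw
      have h2 : ¬ Sp W' b w := h.nest1 hW hW' hWW' hw hw' hg hbW
      exact ⟨fun h' => hd'.le_bot ⟨hw, h'⟩, fun h3 => hbW'.2 ((good_congr a n k h2).2 h3)⟩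
    rintro x (hx | hx)
    · obtain ⟨w, hw⟩ := hW.nonempty
      have h2 : ¬ Sp W' x w := h.nest1 hW hW' hWW' hw hw' hg hx
      have hxW' : x ∉ W' := by
        intro hxW'
        have h4 : ¬ Sp W w' x := by
          refine not_sep_iff.2 ⟨W', hW'.pre, hw', hxW', hd'.symm⟩
        exact hx.2 ((good_congr a n k h4).1 hg)
      exact ⟨hxW', fun h3 => (h1 w hw).2 ((good_congr a n k h2).1 h3)⟩
    · exact h1 x hx
  by_cases hg : good a n k Z z'
  · exact Or.inl (first hZ hZ' hne hz' hb hb' hg)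
  · right
    refine first hZ' hZ (Ne.symm hne) hz hb' hb ?_
    obtain ⟨i, hi, hi'⟩ := good_common k h.per (h.two Z hZ) (h.two Z' hZ') (h.aZ hZ) (h.aZ hZ') h.n0
    have h1 : Sp Z (a i) z' := sep_symm (bad_sep ⟨hz'Z, hg⟩ hi)
    have h2 : ¬ Sp Z' (a i) z := lam (hZ.closed h.Jc) hZ.pre hZ'.pre hd hz hz' (h.aZ hZ i) h1
    exact (good_congr a n k h2).1 hi'

/-- maximal bad sides -/
def MaxZ (J : Set ℂ) (a : ℕ → ℂ) (n k : ℕ) (Z : Set ℂ) : Prop :=
  Cmp J Z ∧ (Bad a n k Z).Nonempty ∧ ∀ Z', Cmp J Z' → Z' ≠ Z → ¬ (Bad a n k Z ∪ Z ⊆ Bad a n k Z')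

theorem exists_max (h : TD f J a n) (k : ℕ) {b : ℂ} (hb : b ∉ J) {Z : Set ℂ} (hZ : Cmp J Z)
    (hbZ : b ∈ Bad a n k Z) : ∃ W, MaxZ J a n k W ∧ b ∈ Bad a n k W := by
  set S : Set (Set ℂ) := {W | Cmp J W ∧ b ∈ Bad a n k W} with hS
  have hfin : S.Finite := by
    have h1 : (⋃ i ∈ (Finset.range n : Finset ℕ), {C | Cmp J C ∧ Sp C b (a i)}).Finite :=
      (Finset.range n).finite_toSet.biUnion fun i _ => h.fs _ _ hb (h.aJ i)
    refine h1.subset ?_
    rintro W ⟨hW, hbW⟩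
    simp only [mem_iUnion]
    obtain ⟨i, hi⟩ := good_exists k (h.two W hW) (h.aZ hW) h.n0
    have hper : a i = a (i % n) := by
      have h2 : ∀ m j, a (j + n * m) = a j := by
        intro m
        induction m with
        | zero => intro j; simp
        | succ m ih => intro j; rw [Nat.mul_succ, ← Nat.add_assoc, h.per, ih]
      conv_lhs => rw [← Nat.mod_add_div i n]
      exact h2 _ _
    exact ⟨i % n, Finset.mem_range.2 (Nat.mod_lt _ h.n0), hW, by
      rw [← hper]; exact bad_sep hbW hi⟩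
  obtain ⟨W, hW, hmax⟩ := hfin.exists_maximalFor (fun W => Bad a n k W) S ⟨Z, hZ, hbZ⟩
  refine ⟨W, ⟨hW.1, ⟨b, hW.2⟩, fun Z' hZ' hne hsub => ?_⟩, hW.2⟩
  have hbZ' : b ∈ Bad a n k Z' := hsub (Or.inl hW.2)
  have h2 : Bad a n k Z' ≤ Bad a n k W := hmax ⟨hZ', hbZ'⟩ (subset_union_left.trans hsub)
  obtain ⟨w, hw⟩ := hW.1.nonempty
  exact (h2 (hsub (Or.inr hw))).1 hw

theorem max_disj (h : TD f J a n) {k : ℕ} {Z Z' : Set ℂ} (hZ : MaxZ J a n k Z)
    (hZ' : MaxZ J a n k Z') (hne : Z ≠ Z') : Disjoint (Bad a n k Z) (Bad a n k Z') ∧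
      Disjoint Z (Bad a n k Z') := by
  have hd := h.disj hZ.1 hZ'.1 hne
  constructor
  · rw [Set.disjoint_left]
    intro x hx hx'
    rcases h.nest2 hZ.1 hZ'.1 hne hx hx' with h1 | h1
    · exact hZ.2.2 Z' hZ'.1 (Ne.symm hne) h1
    · exact hZ'.2.2 Z hZ.1 hne h1
  · rw [Set.disjoint_left]
    intro z hz hz2
    apply hZ.2.2 Z' hZ'.1 (Ne.symm hne)
    obtain ⟨z', hz'⟩ := hZ'.1.nonempty
    have hz'Z : z' ∉ Z := fun h' => hd.le_bot ⟨h', hz'⟩
    obtain ⟨i, hi, hi'⟩ := good_common k h.per (h.two Z hZ.1) (h.two Z' hZ'.1) (h.aZ hZ.1)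
      (h.aZ hZ'.1) h.n0
    have h1 : ¬ Sp Z (a i) z' := by
      intro hs
      have h2 := lam (hZ.1.closed h.Jc) hZ.1.pre hZ'.1.pre hd hz hz' (h.aZ hZ.1 i) hs
      exact hz2.2 ((good_congr a n k h2).1 hi')
    have hg : good a n k Z z' := (good_congr a n k h1).1 hi
    rintro x (hx | hx)
    · have h2 := h.nest1 hZ.1 hZ'.1 hne hz hz' hg hx
      have hxZ' : x ∉ Z' := by
        intro hxZ'
        have h4 : ¬ Sp Z z' x := not_sep_iff.2 ⟨Z', hZ'.1.pre, hz', hxZ', hd.symm⟩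
        exact hx.2 ((good_congr a n k h4).1 hg)
      exact ⟨hxZ', fun h3 => hz2.2 ((good_congr a n k h2).1 h3)⟩
    · have h5 : ¬ Sp Z' z x := not_sep_iff.2 ⟨Z, hZ.1.pre, hz, hx, hd⟩
      exact ⟨fun h' => hd.le_bot ⟨hx, h'⟩, fun h3 => hz2.2 ((good_congr a n k h5).2 h3)⟩

/-- existence of a point of the Fatou set good for all components -/
theorem exists_good (h : TD f J a n) (k : ℕ) : ∃ b, b ∉ J ∧ ∀ Z, Cmp J Z → good a n k Z b := by
  by_contra hcon
  push Not at hcon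
  set B : Set ℂ := ⋃ Z ∈ {Z | MaxZ J a n k Z}, Bad a n k Z with hB
  have hcov : ∀ b, b ∉ J → ∃ W, MaxZ J a n k W ∧ b ∈ Bad a n k W := by
    intro b hb
    obtain ⟨Z, hZ, hbZ⟩ := hcon b hb
    exact h.exists_max k hb hZ ⟨fun h' => hb (hZ.sub h'), hbZ⟩
  have hBo : IsOpen B := isOpen_biUnion fun Z hZ => bad_open a n k (hZ.1.closed h.Jc)
  have hAJ : Bᶜ ⊆ J := by
    intro x hx
    by_contra hxJ
    obtain ⟨W, hW, hxW⟩ := hcov x hxJ
    exact hx (mem_biUnion (show W ∈ {Z | MaxZ J a n k Z} from hW) hxW)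
  have hZA : ∀ Z, MaxZ J a n k Z → Z ⊆ Bᶜ := by
    intro Z hZ z hz hzB
    simp only [hB, mem_iUnion] at hzB
    obtain ⟨W, hW, hzW⟩ := hzB
    by_cases hne : Z = W
    · rw [← hne] at hzW
      exact hzW.1 hz
    · exact (h.max_disj hZ hW hne).2.le_bot ⟨hz, hzW⟩
  have hApre : IsPreconnected Bᶜ := by
    rw [isPreconnected_closed_iff]
    intro t t' ht ht' hcover ⟨p, hpA, hpt⟩ ⟨r, hrA, hrt'⟩
    by_contra hemp
    rw [not_nonempty_iff_eq_empty] at hemp
    have hemp' : ∀ x, x ∈ Bᶜ → x ∈ t → x ∈ t' → False := by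
      intro x h1 h2 h3
      have : x ∈ Bᶜ ∩ (t ∩ t') := ⟨h1, h2, h3⟩
      rw [hemp] at this
      exact this
    -- the sets P' and R'
    have hAc : IsClosed Bᶜ := hBo.isClosed_compl
    have hsplit : ∀ Z, MaxZ J a n k Z → Z ⊆ t ∨ Z ⊆ t' := by
      intro Z hZ
      have h1 := (isPreconnected_closed_iff.1 hZ.1.pre) (Bᶜ ∩ t) (Bᶜ ∩ t') (hAc.inter ht)
        (hAc.inter ht') (fun z hz => by
          rcases hcover (hZA Z hZ hz) with h | h
          · exact Or.inl ⟨hZA Z hZ hz, h⟩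
          · exact Or.inr ⟨hZA Z hZ hz, h⟩)
      by_contra hno
      rw [not_or, not_subset, not_subset] at hno
      obtain ⟨⟨z1, hz1, hz1'⟩, ⟨z2, hz2, hz2'⟩⟩ := hno
      obtain ⟨z, -, ⟨hzA, hzt⟩, ⟨-, hzt'⟩⟩ := h1
        ⟨z2, hz2, hZA Z hZ hz2, (hcover (hZA Z hZ hz2)).resolve_right hz2'⟩
        ⟨z1, hz1, hZA Z hZ hz1, (hcover (hZA Z hZ hz1)).resolve_left hz1'⟩
      exact hemp' z hzA hzt hzt'
    -- closedness
    have hclosed : ∀ T T' : Set ℂ, IsClosed T → IsClosed T' → Bᶜ ⊆ T ∪ T' →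
        (∀ x, x ∈ Bᶜ → x ∈ T → x ∈ T' → False) → (∀ Z, MaxZ J a n k Z → Z ⊆ T ∨ Z ⊆ T') →
        IsClosed ((Bᶜ ∩ T) ∪ ⋃ Z ∈ {Z | MaxZ J a n k Z ∧ Z ⊆ T}, Bad a n k Z) := by
      intro T T' hT hT' hTT hTd hTs
      rw [← closure_subset_iff_isClosed]
      intro x hx
      by_contra hxn
      rw [mem_union, not_or] at hxn
      obtain ⟨hx1, hx2⟩ := hxn
      by_cases hxB : x ∈ B
      · simp only [hB, mem_iUnion] at hxB
        obtain ⟨W, hW, hxW⟩ := hxB
        have hWT : ¬ W ⊆ T := by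
          intro hWT
          exact hx2 (mem_biUnion (show W ∈ {Z | MaxZ J a n k Z ∧ Z ⊆ T} from ⟨hW, hWT⟩) hxW)
        obtain ⟨y, hyW, hy⟩ := mem_closure_iff.1 hx _ (bad_open a n k (hW.1.closed h.Jc)) hxW
        rcases hy with hy | hy
        · exact hy.1 (mem_biUnion (show W ∈ {Z | MaxZ J a n k Z} from hW) hyW)
        · simp only [mem_iUnion] at hy
          obtain ⟨V, ⟨hV, hVT⟩, hyV⟩ := hy
          by_cases hne : W = V
          · exact hWT (hne ▸ hVT)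
          · exact (h.max_disj hW hV hne).1.le_bot ⟨hyW, hyV⟩
      · have hxT : x ∉ T := fun h' => hx1 ⟨hxB, h'⟩
        obtain ⟨ε, hε, hεb⟩ := Metric.isOpen_iff.1 hT.isOpen_compl x hxT
        obtain ⟨y, hyb, hy⟩ := mem_closure_iff.1 hx _ isOpen_ball (mem_ball_self hε)
        rcases hy with hy | hy
        · exact hεb hyb hy.2
        · simp only [mem_iUnion] at hy
          obtain ⟨V, ⟨hV, hVT⟩, hyV⟩ := hy
          have hVc := hV.1.closed h.Jc
          have hballV : ∀ w ∈ ball x ε, w ∉ V := fun w hw hwV => hεb hw (hVT hwV)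
          have h1 := (convex_ball x ε).isPreconnected.subset_left_of_subset_union
            (bad_open a n k hVc) (goodside_open a n k hVc) (by
              rw [Set.disjoint_left]
              exact fun w hw hw' => hw.2 hw'.2) (fun w hw => by
              by_cases hg : good a n k V w
              · exact Or.inr ⟨hballV w hw, hg⟩
              · exact Or.inl ⟨hballV w hw, hg⟩) ⟨y, hyb, hyV⟩
          exact hxB (mem_biUnion (show V ∈ {Z | MaxZ J a n k Z} from hV) (h1 (mem_ball_self hε)))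
    have hP := hclosed t t' ht ht' hcover hemp' hsplit
    have hR := hclosed t' t ht' ht (by rwa [union_comm]) (fun x h1 h2 h3 => hemp' x h1 h3 h2)
      (fun Z hZ => (hsplit Z hZ).symm)
    have h2 := (isPreconnected_closed_iff.1 (isPreconnected_univ (α := ℂ))) _ _ hP hR (by
      intro x _
      by_cases hxB : x ∈ B
      · simp only [hB, mem_iUnion] at hxB
        obtain ⟨W, hW, hxW⟩ := hxB
        rcases hsplit W hW with h' | h'
        · exact Or.inl (Or.inr (mem_biUnion (show W ∈ {Z | MaxZ J a n k Z ∧ Z ⊆ t} from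
            ⟨hW, h'⟩) hxW))
        · exact Or.inr (Or.inr (mem_biUnion (show W ∈ {Z | MaxZ J a n k Z ∧ Z ⊆ t'} from
            ⟨hW, h'⟩) hxW))
      · rcases hcover hxB with h' | h'
        · exact Or.inl (Or.inl ⟨hxB, h'⟩)
        · exact Or.inr (Or.inl ⟨hxB, h'⟩)) ⟨p, mem_univ _, Or.inl ⟨hpA, hpt⟩⟩
      ⟨r, mem_univ _, Or.inl ⟨hrA, hrt'⟩⟩
    obtain ⟨x, -, hxP, hxR⟩ := h2
    have hpart : ∀ T Z, MaxZ J a n k Z → Z ⊆ T → (∀ x, x ∈ Bᶜ → x ∈ t → x ∈ t' → False) → True :=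
      fun _ _ _ _ _ => trivial
    rcases hxP with hxP | hxP
    · rcases hxR with hxR | hxR
      · exact hemp' x hxP.1 hxP.2 hxR.2
      · simp only [mem_iUnion] at hxR
        obtain ⟨V, ⟨hV, -⟩, hxV⟩ := hxR
        exact hxP.1 (mem_biUnion (show V ∈ {Z | MaxZ J a n k Z} from hV) hxV)
    · simp only [mem_iUnion] at hxP
      obtain ⟨V, ⟨hV, hVt⟩, hxV⟩ := hxP
      rcases hxR with hxR | hxR
      · exact hxR.1 (mem_biUnion (show V ∈ {Z | MaxZ J a n k Z} from hV) hxV)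
      · simp only [mem_iUnion] at hxR
        obtain ⟨W, ⟨hW, hWt⟩, hxW⟩ := hxR
        by_cases hne : V = W
        · obtain ⟨v, hv⟩ := hV.1.nonempty
          exact hemp' v (hZA V hV hv) (hVt hv) (hWt (hne ▸ hv))
        · exact (h.max_disj hV hW hne).1.le_bot ⟨hxV, hxW⟩
  obtain ⟨W, hW, -⟩ := hcov (a 0) (h.aJ 0)
  obtain ⟨i, hi⟩ := good_exists k (h.two W hW.1) (h.aZ hW.1) h.n0
  obtain ⟨V, hV, hiV⟩ := hcov (a i) (h.aJ i)
  obtain ⟨w, hw⟩ := hW.1.nonempty
  have h1 : Bᶜ ⊆ W := hW.1.max hApre hAJ ⟨w, hZA W hW hw, hw⟩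
  have h2 : V ⊆ W := (hZA V hV).trans h1
  have h3 : V = W := hV.1.eq hW.1 (by
    obtain ⟨v, hv⟩ := hV.1.nonempty
    exact ⟨v, hv, h2 hv⟩)
  rw [h3] at hiV
  exact hiV.2 hi

end TD

end Run7.h102
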