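import Mathlib
import Pool.Agent.Run7.h102.Tree

/-! The action on the separation tree; the period divides two (helper102, MP_3a87b6_an). -/

set_option autoImplicit false

open Set Filter Topology Metric

namespace Run7.h102

namespace TD

variable {J : Set ℂ} {f : ℂ → ℂ} {a : ℕ → ℂ} {n : ℕ}

theorem per_mul (h : TD f J a n) (i m : ℕ) : a (i + n * m) = a i := by
  induction m with
  | zero => simp
  | succ m ih => rw [Nat.mul_succ, ← Nat.add_assoc, h.per, ih]

theorem per_mod (h : TD f J a n) (i : ℕ) : a i = a (i % n) := by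
  conv_lhs => rw [← Nat.mod_add_div i n]
  exact h.per_mul _ _

/-- `Z` is mapped into `Z'` -/
def Rl (f : ℂ → ℂ) (Z Z' : Set ℂ) : Prop := ∀ z ∈ Z, f z ∈ Z'

theorem d1 (h : TD f J a n) {Z' : Set ℂ} (hZ' : Cmp J Z') {x y : ℂ} (hx : x ∉ J) (hy : y ∉ J)
    (hs : Sp Z' (f x) (f y)) : ∃ Z, Cmp J Z ∧ Sp Z x y ∧ Rl f Z Z' := by
  have hAc : IsClosed (f ⁻¹' Z') := (hZ'.closed h.Jc).preimage h.fc
  have hAJ : f ⁻¹' Z' ⊆ J := fun z hz => (h.inv z).1 (hZ'.sub hz)
  obtain ⟨Z, hZ, hZs, hZA⟩ := sep_cmp hAc hAJ (fun h' => hx (hAJ h')) (fun h' => hy (hAJ h')) (by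
    intro D hD hxD hyD
    obtain ⟨w, ⟨z, hz, rfl⟩, hw⟩ := hs (f '' D) (hD.image f h.fc.continuousOn) ⟨x, hxD, rfl⟩
      ⟨y, hyD, rfl⟩
    exact ⟨z, hz, hw⟩)
  refine ⟨Z, hZ, hZs, ?_⟩
  have h1 : f '' Z ⊆ Z' := by
    refine hZ'.max (hZ.pre.image f h.fc.continuousOn) ?_ ?_
    · rintro _ ⟨z, hz, rfl⟩
      exact (h.inv z).2 (hZ.sub hz)
    · obtain ⟨z, hz, hzA⟩ := hZA
      exact ⟨f z, ⟨z, hz, rfl⟩, hzA⟩
  exact fun z hz => h1 ⟨z, hz, rfl⟩

/-- the components separating two points of the cycle -/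
def SS (J : Set ℂ) (a : ℕ → ℂ) : Set (Set ℂ) := {Z | Cmp J Z ∧ ∃ i j, Sp Z (a i) (a j)}

theorem ss_fin (h : TD f J a n) : (SS J a).Finite := by
  have h1 : (⋃ i ∈ (Finset.range n : Finset ℕ), ⋃ j ∈ (Finset.range n : Finset ℕ),
      {C | Cmp J C ∧ Sp C (a i) (a j)}).Finite :=
    (Finset.range n).finite_toSet.biUnion fun i _ =>
      (Finset.range n).finite_toSet.biUnion fun j _ => h.fs _ _ (h.aJ i) (h.aJ j)
  refine h1.subset ?_
  rintro Z ⟨hZ, i, j, hij⟩
  simp only [mem_iUnion]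
  refine ⟨i % n, Finset.mem_range.2 (Nat.mod_lt _ h.n0), j % n,
    Finset.mem_range.2 (Nat.mod_lt _ h.n0), hZ, ?_⟩
  rwa [← h.per_mod, ← h.per_mod]

theorem rl_unique {Z Z' Z'' : Set ℂ} (hZ : Cmp J Z) (hZ' : Cmp J Z')
    (hZ'' : Cmp J Z'') (h1 : Rl f Z Z') (h2 : Rl f Z Z'') : Z' = Z'' := by
  obtain ⟨z, hz⟩ := hZ.nonempty
  exact hZ'.eq hZ'' ⟨f z, h1 z hz, h2 z hz⟩

theorem ss_pre (h : TD f J a n) {Z' : Set ℂ} (hZ' : Cmp J Z') {i j : ℕ}
    (hs : Sp Z' (a (i + 1)) (a (j + 1))) : ∃ Z ∈ SS J a, Sp Z (a i) (a j) ∧ Rl f Z Z' := by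
  rw [← h.step, ← h.step] at hs
  obtain ⟨Z, hZ, hs', hr⟩ := h.d1 hZ' (h.aJ i) (h.aJ j) hs
  exact ⟨Z, ⟨hZ, i, j, hs'⟩, hs', hr⟩

theorem ss_surj (h : TD f J a n) {Z' : Set ℂ} (hZ' : Z' ∈ SS J a) :
    ∃ Z ∈ SS J a, Rl f Z Z' := by
  obtain ⟨hC, i, j, hs⟩ := hZ'
  have e : ∀ i, a i = a (i + (n - 1) + 1) := by
    intro i
    have : i + (n - 1) + 1 = i + n := by have := h.n0; omega
    rw [this, h.per]
  rw [e i, e j] at hs
  obtain ⟨Z, hZ, -, hr⟩ := h.ss_pre hC hs
  exact ⟨Z, hZ, hr⟩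

/-- two members of `SS` with the same image are equal, and the image is in `SS` -/
theorem ss_inj (h : TD f J a n) {Z1 Z2 Z' : Set ℂ} (h1 : Z1 ∈ SS J a) (h2 : Z2 ∈ SS J a)
    (hZ' : Cmp J Z') (r1 : Rl f Z1 Z') (r2 : Rl f Z2 Z') : Z1 = Z2 ∧ Z' ∈ SS J a := by
  classical
  -- the image component
  have himg : ∀ Z : Set ℂ, ∃ W : Set ℂ, Cmp J Z → Cmp J W ∧ Rl f Z W := by
    intro Z
    by_cases hZ : Cmp J Z
    · obtain ⟨z, hz⟩ := hZ.nonempty
      have hfz : f z ∈ J := (h.inv z).2 (hZ.sub hz)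
      refine ⟨connectedComponentIn J (f z), fun _ => ⟨cmp_of_mem hfz, fun w hw => ?_⟩⟩
      have h3 := (cmp_of_mem hfz).max (hZ.pre.image f h.fc.continuousOn) (by
        rintro _ ⟨w, hw, rfl⟩
        exact (h.inv w).2 (hZ.sub hw)) ⟨f z, ⟨z, hz, rfl⟩, mem_connectedComponentIn hfz⟩
      exact h3 ⟨w, hw, rfl⟩
    · exact ⟨∅, fun h' => absurd h' hZ⟩
  choose F hF using himg
  have hsub : SS J a ⊆ F '' SS J a := by
    intro W hW
    obtain ⟨Z, hZ, hr⟩ := h.ss_surj hW
    exact ⟨Z, hZ, rl_unique hZ.1 (hF Z hZ.1).1 hW.1 (hF Z hZ.1).2 hr⟩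
  have hfin := h.ss_fin
  have hle : (F '' SS J a).ncard ≤ (SS J a).ncard := Set.ncard_image_le hfin
  have heq : SS J a = F '' SS J a := Set.eq_of_subset_of_ncard_le hsub hle (hfin.image F)
  have hinj : InjOn F (SS J a) := Set.injOn_of_ncard_image_eq (by rw [← heq]) hfin
  have e1 : F Z1 = Z' := rl_unique h1.1 (hF Z1 h1.1).1 hZ' (hF Z1 h1.1).2 r1
  have e2 : F Z2 = Z' := rl_unique h2.1 (hF Z2 h2.1).1 hZ' (hF Z2 h2.1).2 r2
  refine ⟨hinj h1 h2 (e1.trans e2.symm), ?_⟩
  rw [← e1, heq]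
  exact ⟨Z1, h1, rfl⟩

open Classical in
theorem cnt_shift (h : TD f J a n) (Z : Set ℂ) (x : ℂ) :
    ((Finset.range n).filter fun i => Sp Z x (a (i + 1))).card = cnt a n Z x := by
  have h1 : ∀ (p : ℕ → Prop), ((Finset.range n).filter p).card =
      ∑ i ∈ Finset.range n, if p i then 1 else 0 := by
    intro p
    rw [Finset.card_filter]
  unfold cnt
  rw [h1, h1]
  have h2 := Finset.sum_range_succ' (fun i => if Sp Z x (a i) then 1 else 0) n
  have h3 := Finset.sum_range_succ (fun i => if Sp Z x (a i) then 1 else 0) n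
  have h4 : a n = a 0 := by have := h.per 0; rwa [Nat.zero_add] at this
  rw [h4] at h3
  omega

/-- the good points are mapped to good points -/
theorem good_step (h : TD f J a n) {k : ℕ} {b : ℂ} (hb : b ∉ J)
    (hg : ∀ Z, Cmp J Z → good a n k Z b) : ∀ Z, Cmp J Z → good a n (k + 1) Z (f b) := by
  classical
  intro Z' hZ'
  have hn := h.n0
  -- every separation comes from a member of SS
  have hsep : ∀ i, Sp Z' (f b) (a (i + 1)) → ∃ Z ∈ SS J a, Sp Z b (a i) ∧ Rl f Z Z' := by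
    intro i hs
    rw [← h.step] at hs
    obtain ⟨Z, hZ, hs', hr⟩ := h.d1 hZ' hb (h.aJ i) hs
    have h1 : cnt a n Z b < n := by
      rcases hg Z hZ with h2 | ⟨h2, -⟩ <;> omega
    obtain ⟨j, -, hj⟩ := cnt_lt h1
    exact ⟨Z, ⟨hZ, j, i, (sp_congr hj (a i)).1 hs'⟩, hs', hr⟩
  by_cases hc0 : cnt a n Z' (f b) = 0
  · left
    omega
  · obtain ⟨i, -, hi⟩ := cnt_pos hc0
    have e : a i = a (i + (n - 1) + 1) := by
      have : i + (n - 1) + 1 = i + n := by omega
      rw [this, h.per]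
    rw [e] at hi
    obtain ⟨Z, hZ, -, hr⟩ := hsep _ hi
    have hsep' : ∀ i, Sp Z' (f b) (a (i + 1)) → Sp Z b (a i) := by
      intro i hs
      obtain ⟨W, hW, hs', hr'⟩ := hsep i hs
      rw [(h.ss_inj hZ hW hZ' hr hr').1]
      exact hs'
    have hle : cnt a n Z' (f b) ≤ cnt a n Z b := by
      rw [← h.cnt_shift]
      unfold cnt
      exact Finset.card_le_card (fun i hi => by
        rw [Finset.mem_filter] at hi ⊢
        exact ⟨hi.1, hsep' i hi.2⟩)
    rcases hg Z hZ.1 with h1 | ⟨h1, h2⟩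
    · left
      omega
    · by_cases h3 : 2 * cnt a n Z' (f b) < n
      · exact Or.inl h3
      · exact Or.inr ⟨by omega, fun h4 => h2 (hsep' k h4)⟩

/-- a balanced component does not separate `a 0` from `a 2` -/
theorem bal (h : TD f J a n) {Z : Set ℂ} (hZ : Cmp J Z) (hb : 2 * cnt a n Z (a 0) = n) :
    ¬ Sp Z (a 0) (a 2) := by
  classical
  have hn := h.n0
  have hZ2 := h.two Z hZ
  have haZ := h.aZ hZ
  have hball : ∀ x, x ∉ Z → 2 * cnt a n Z x = n := by
    intro x hx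
    by_cases hs : Sp Z (a 0) x
    · have := cnt_opp a n hZ2 haZ (haZ 0) hx hs
      omega
    · rw [← cnt_same a n hs]; exact hb
  have hZS : Z ∈ SS J a := by
    obtain ⟨i, -, hi⟩ := cnt_pos (a := a) (n := n) (Z := Z) (x := a 0) (by omega)
    exact ⟨hZ, 0, i, hi⟩
  obtain ⟨W, hW, hr⟩ := h.ss_surj hZS
  have hsh : ∀ i j, Sp Z (a (i + 1)) (a (j + 1)) → Sp W (a i) (a j) := by
    intro i j hs
    obtain ⟨V, hV, hs', hr'⟩ := h.ss_pre hZ hs
    rw [(h.ss_inj hW hV hZ hr hr').1]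
    exact hs'
  have hW2 := h.two W hW.1
  have haW := h.aZ hW.1
  have hcW : ∀ j, n ≤ 2 * cnt a n W (a j) := by
    intro j
    have h1 : cnt a n Z (a (j + 1)) ≤ cnt a n W (a j) := by
      rw [← h.cnt_shift]
      unfold cnt
      exact Finset.card_le_card (fun i hi => by
        rw [Finset.mem_filter] at hi ⊢
        exact ⟨hi.1, hsh j i hi.2⟩)
    have h2 := hball _ (haZ (j + 1))
    omega
  have hbW : ∀ x, x ∉ W → 2 * cnt a n W x = n := by
    obtain ⟨j, -, hj⟩ := cnt_pos (a := a) (n := n) (Z := W) (x := a 0) (by have := hcW 0; omega)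
    have h1 := cnt_opp a n hW2 haW (haW 0) (haW j) hj
    have h2 := hcW 0
    have h3 := hcW j
    intro x hx
    by_cases hs : Sp W (a 0) x
    · have := cnt_opp a n hW2 haW (haW 0) hx hs
      omega
    · rw [← cnt_same a n hs]; omega
  -- the two components induce the same partition
  have hpart : ∀ i j, Sp W (a i) (a j) → Sp Z (a i) (a j) := by
    by_cases hne : Z = W
    · rw [hne]; exact fun i j h' => h'
    · have hd := h.disj hZ hW.1 hne
      obtain ⟨z, hz⟩ := hZ.nonempty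
      obtain ⟨w, hw⟩ := hW.1.nonempty
      have hzW : z ∉ W := fun h' => hd.le_bot ⟨hz, h'⟩
      have hwZ : w ∉ Z := fun h' => hd.le_bot ⟨h', hw⟩
      have h1 : ∀ i, Sp Z w (a i) → ¬ Sp W z (a i) := by
        intro i hs hs'
        exact lam (hZ.closed h.Jc) hZ.pre hW.1.pre hd hz hw (haZ i) (sep_symm hs) (sep_symm hs')
      have c1 := hball w hwZ
      have c2 := hbW z hzW
      have h2 : ∀ i < n, ¬ Sp W z (a i) → Sp Z w (a i) := by
        by_contra hcon
        push Not at hcon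
        obtain ⟨i, hi, h3, h4⟩ := hcon
        have hdis : Disjoint ((Finset.range n).filter fun i => Sp Z w (a i))
            ((Finset.range n).filter fun i => Sp W z (a i)) := by
          rw [Finset.disjoint_left]
          intro x hx1 hx2
          rw [Finset.mem_filter] at hx1 hx2
          exact h1 x hx1.2 hx2.2
        have h5 := Finset.card_union_of_disjoint hdis
        have h6 : ((Finset.range n).filter (fun i => Sp Z w (a i)) ∪
            (Finset.range n).filter fun i => Sp W z (a i)) ⊆ (Finset.range n).erase i := by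
          intro x hx
          rw [Finset.mem_union, Finset.mem_filter, Finset.mem_filter] at hx
          rw [Finset.mem_erase]
          rcases hx with hx | hx
          · exact ⟨fun he => h4 (he ▸ hx.2), hx.1⟩
          · exact ⟨fun he => h3 (he ▸ hx.2), hx.1⟩
        have h7 := Finset.card_le_card h6
        rw [Finset.card_erase_of_mem (Finset.mem_range.2 hi), Finset.card_range] at h7
        unfold cnt at c1 c2
        omega
      have h2' : ∀ i, ¬ Sp W z (a i) → Sp Z w (a i) := by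
        intro i hi
        rw [h.per_mod i] at hi ⊢
        exact h2 _ (Nat.mod_lt _ hn) hi
      intro i j hs
      by_cases hi : Sp W z (a i)
      · by_cases hj : Sp W z (a j)
        · exact absurd hs (hW2 _ z _ (haW i) hzW (haW j) (sep_symm hi) hj)
        · have h3 := h2' j hj
          have h4 : ¬ Sp Z w (a i) := fun h5 => h1 i h5 hi
          exact by_contra fun h5 => not_sep_trans h4 h5 h3
      · by_cases hj : Sp W z (a j)
        · have h3 := h2' i hi
          have h4 : ¬ Sp Z w (a j) := fun h5 => h1 j h5 hj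
          exact by_contra fun h5 => not_sep_trans h4 (fun h6 => h5 (sep_symm h6)) h3
        · exact absurd hs (not_sep_trans (fun h' => hi (sep_symm h')) hj)
  have hshift : ∀ i j, Sp Z (a (i + 1)) (a (j + 1)) → Sp Z (a i) (a j) :=
    fun i j hs => hpart i j (hsh i j hs)
  have hshift' : ∀ m i j, Sp Z (a (i + m)) (a (j + m)) → Sp Z (a i) (a j) := by
    intro m
    induction m with
    | zero => exact fun i j hs => hs
    | succ m ih => exact fun i j hs => ih i j (hshift _ _ hs)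
  have h01 : Sp Z (a 0) (a 1) := by
    by_contra hcon
    have h1 : ∀ i, ¬ Sp Z (a 0) (a i) := by
      intro i
      induction i with
      | zero => exact sep_irrefl (haZ 0)
      | succ i ih =>
        refine not_sep_trans ih (fun h2 => hcon (hshift' i 0 1 ?_))
        rw [Nat.zero_add, Nat.add_comm 1 i]
        exact h2
    obtain ⟨i, -, hi⟩ := cnt_pos (a := a) (n := n) (Z := Z) (x := a 0) (by omega)
    exact h1 i hi
  have h12 : Sp Z (a 1) (a 2) := by
    have h2 : Sp Z (a (1 + (n - 1))) (a (2 + (n - 1))) := by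
      have e1 : a (1 + (n - 1)) = a 0 := by
        have : 1 + (n - 1) = 0 + n := by omega
        rw [this, h.per]
      have e2 : a (2 + (n - 1)) = a 1 := by
        have : 2 + (n - 1) = 1 + n := by omega
        rw [this, h.per]
      rw [e1, e2]
      exact h01
    exact hshift' (n - 1) 1 2 h2
  exact hZ2 _ _ _ (haZ 0) (haZ 1) (haZ 2) h01 h12

/-- the period divides two -/
theorem dvd_two (h : TD f J a n) : n ∣ 2 := by
  obtain ⟨b, hb, hg⟩ := h.exists_good 0
  have hfb : f b ∉ J := fun h' => hb ((h.inv b).1 h')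
  have hffb : f (f b) ∉ J := fun h' => hfb ((h.inv (f b)).1 h')
  have hg1 := h.good_step hb hg
  have hg2 := h.good_step hfb hg1
  apply h.cls b 2 hb
  show ¬ Sp J b (f (f b))
  intro hs
  obtain ⟨Z, hZ, hZs, -⟩ := sep_cmp h.Jc subset_rfl hb hffb hs
  have hbZ : b ∉ Z := fun h' => hb (hZ.sub h')
  have hffZ : f (f b) ∉ Z := fun h' => hffb (hZ.sub h')
  have hg0 : good a n 2 Z b := by
    rcases hg Z hZ with h1 | ⟨h1, h2⟩
    · exact Or.inl h1
    · refine Or.inr ⟨h1, not_sep_trans h2 (h.bal hZ ?_)⟩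
      rw [← cnt_same a n h2]
      exact h1
  exact good_unique (h.two Z hZ) (h.aZ hZ) hbZ hffZ hg0 (hg2 Z hZ) hZs

end TD

end Run7.h102
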