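import Mathlib
import Pool.Agent.Run7.h102.Attr
import Pool.Agent.Run7.h102.Tree2

/-! The basin of an attracting cycle; lifting of paths (helper102, MP_3a87b6_an). -/

set_option autoImplicit false

open Set Filter Topology Metric

namespace Run7.h102

variable {c : ℂ} {K : Set ℂ}

theorem Trap.inv (h : Trap c K) (z : ℂ) : ex c z ∈ Esc c K ↔ z ∈ Esc c K := by
  constructor
  · intro hz n
    intro hn
    have h1 := hz n
    rw [← Function.iterate_succ_apply, Function.iterate_succ_apply'] at h1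
    exact h1 (interior_subset (h.map _ hn))
  · intro hz n
    rw [← Function.iterate_succ_apply]
    exact hz _

theorem Trap.inv_iter (h : Trap c K) (n : ℕ) (z : ℂ) : (ex c)^[n] z ∈ Esc c K ↔ z ∈ Esc c K := by
  induction n with
  | zero => rfl
  | succ n ih => rw [Function.iterate_succ_apply', h.inv, ih]

theorem Trap.inv_jul (hc : c ≠ 0) (h : Trap c K) (z : ℂ) : ex c z ∈ Jul c ↔ z ∈ Jul c := by
  rw [h.jul hc]; exact h.inv z

theorem Trap.K_not (_h : Trap c K) {z : ℂ} (hz : z ∈ K) : z ∉ Esc c K := fun h' => h' 0 hz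

/-- an attracting cycle of period `p` through `a`, with a trap and an absorbing disc -/
structure AC (c a : ℂ) (p : ℕ) (K : Set ℂ) (r q : ℝ) : Prop where
  hc : c ≠ 0
  hp : 0 < p
  fix : (ex c)^[p] a = a
  min : ∀ k, (ex c)^[k] a = a → p ∣ k
  trap : Trap c K
  r0 : 0 < r
  q0 : 0 ≤ q
  q1 : q < 1
  con : ∀ z ∈ closedBall a r, ‖(ex c)^[p] z - a‖ ≤ q * ‖z - a‖
  rK : closedBall a r ⊆ K
  abs : ∀ z ∈ K, ∃ n, (ex c)^[n] z ∈ ball a r

theorem exists_AC {c a : ℂ} {p : ℕ} (hc : c ≠ 0) (hp : 0 < p) (hfix : (ex c)^[p] a = a)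
    (hmin : ∀ k, (ex c)^[k] a = a → p ∣ k) (hm : ‖D c p a‖ < 1) :
    ∃ (K : Set ℂ) (r q : ℝ), AC c a p K r q := by
  obtain ⟨K, r, q, h1, h2, h3, h4, h5, h6, h7⟩ := exists_trap hc hp hfix hm
  exact ⟨K, r, q, hc, hp, hfix, hmin, h1, h2, h3, h4, h5, h6, h7⟩

namespace AC

variable {a : ℂ} {p : ℕ} {r q : ℝ}

theorem ball_iter (h : AC c a p K r q) {z : ℂ} (hz : z ∈ closedBall a r) (m : ℕ) :
    (ex c)^[p * m] z ∈ closedBall a r ∧ ‖(ex c)^[p * m] z - a‖ ≤ q ^ m * r := by
  have hq0 := h.q0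
  have hq1 := h.q1
  have hr := h.r0
  have hz' : ‖z - a‖ ≤ r := by rwa [mem_closedBall, dist_eq_norm] at hz
  suffices hs : ‖(ex c)^[p * m] z - a‖ ≤ q ^ m * r by
    refine ⟨?_, hs⟩
    rw [mem_closedBall, dist_eq_norm]
    have : q ^ m ≤ 1 := pow_le_one₀ hq0 hq1.le
    nlinarith
  induction m with
  | zero => simpa using hz'
  | succ m ih =>
    rw [Nat.mul_succ, Nat.add_comm, Function.iterate_add_apply]
    have h1 : (ex c)^[p * m] z ∈ closedBall a r := by
      rw [mem_closedBall, dist_eq_norm]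
      have : q ^ m ≤ 1 := pow_le_one₀ hq0 hq1.le
      nlinarith
    refine (h.con _ h1).trans ?_
    rw [pow_succ]
    nlinarith [mul_le_mul_of_nonneg_left ih hq0]

/-- every point of the Fatou set converges to the cycle -/
theorem conv (h : AC c a p K r q) {z : ℂ} (hz : z ∉ Esc c K) :
    ∃ i, Tendsto (fun m => (ex c)^[p * m + i] z) atTop (𝓝 a) := by
  simp only [Esc, mem_ofPred_eq, not_forall, not_not] at hz
  obtain ⟨n, hn⟩ := hz
  obtain ⟨m, hm⟩ := h.abs _ hn
  rw [← Function.iterate_add_apply] at hm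
  refine ⟨m + n, ?_⟩
  rw [tendsto_iff_norm_sub_tendsto_zero]
  have h1 : Tendsto (fun k : ℕ => q ^ k * r) atTop (𝓝 (0 * r)) :=
    (tendsto_pow_atTop_nhds_zero_of_lt_one h.q0 h.q1).mul_const r
  rw [zero_mul] at h1
  refine squeeze_zero (fun _ => norm_nonneg _) (fun k => ?_) h1
  rw [Function.iterate_add_apply]
  exact (h.ball_iter (ball_subset_closedBall hm) k).2

/-- the class of a point is locally constant -/
theorem conv_open (h : AC c a p K r q) {z : ℂ} {i : ℕ}
    (hz : Tendsto (fun m => (ex c)^[p * m + i] z) atTop (𝓝 a)) :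
    ∀ᶠ w in 𝓝 z, Tendsto (fun m => (ex c)^[p * m + i] w) atTop (𝓝 a) := by
  obtain ⟨m, hm⟩ := (hz.eventually (ball_mem_nhds a h.r0)).exists
  filter_upwards [(iter_cont c (p * m + i)).continuousAt.preimage_mem_nhds
    (isOpen_ball.mem_nhds hm)] with w hw
  have h1 : Tendsto (fun k : ℕ => (ex c)^[p * (k + m) + i] w) atTop (𝓝 a) := by
    rw [tendsto_iff_norm_sub_tendsto_zero]
    have h1 : Tendsto (fun k : ℕ => q ^ k * r) atTop (𝓝 (0 * r)) :=
      (tendsto_pow_atTop_nhds_zero_of_lt_one h.q0 h.q1).mul_const r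
    rw [zero_mul] at h1
    refine squeeze_zero (fun _ => norm_nonneg _) (fun k => ?_) h1
    have e : p * (k + m) + i = p * k + (p * m + i) := by ring
    rw [e, Function.iterate_add_apply]
    exact (h.ball_iter (ball_subset_closedBall hw) k).2
  exact (tendsto_add_atTop_iff_nat m).1 h1

theorem conv_unique (h : AC c a p K r q) {z : ℂ} {i j : ℕ} (hij : i ≤ j)
    (h1 : Tendsto (fun m => (ex c)^[p * m + i] z) atTop (𝓝 a))
    (h2 : Tendsto (fun m => (ex c)^[p * m + j] z) atTop (𝓝 a)) : p ∣ j - i := by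
  apply h.min
  have h3 : Tendsto (fun m => (ex c)^[j - i] ((ex c)^[p * m + i] z)) atTop
      (𝓝 ((ex c)^[j - i] a)) := ((iter_cont c (j - i)).tendsto a).comp h1
  refine tendsto_nhds_unique (h3.congr fun m => ?_) h2
  rw [← Function.iterate_add_apply]
  congr 1
  omega

/-- the class is constant on connected subsets of the Fatou set -/
theorem conv_const (h : AC c a p K r q) {S : Set ℂ} (hS : IsPreconnected S)
    (hSE : Disjoint S (Esc c K)) {z w : ℂ} (hz : z ∈ S) (hw : w ∈ S) {i : ℕ}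
    (h1 : Tendsto (fun m => (ex c)^[p * m + i] z) atTop (𝓝 a)) :
    Tendsto (fun m => (ex c)^[p * m + i] w) atTop (𝓝 a) := by
  set A : Set ℂ := {x | Tendsto (fun m => (ex c)^[p * m + i] x) atTop (𝓝 a)} with hA
  set B : Set ℂ := {x | ∃ j, Tendsto (fun m => (ex c)^[p * m + j] x) atTop (𝓝 a) ∧ x ∉ A} with hB
  have hAo : IsOpen A := isOpen_iff_mem_nhds.2 fun x hx => h.conv_open hx
  have hBo : IsOpen B := by
    rw [isOpen_iff_mem_nhds]
    rintro x ⟨j, hj, hjA⟩
    filter_upwards [h.conv_open hj] with y hy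
    refine ⟨j, hy, fun hyA => hjA ?_⟩
    -- x has class i as well
    have hyA' : Tendsto (fun m => (ex c)^[p * m + i] y) atTop (𝓝 a) := hyA
    rcases le_total i j with hij | hij
    · obtain ⟨d, hd⟩ := h.conv_unique hij hyA' hy
      have e : ∀ m, p * (m + d) + i = p * m + j := fun m => by
        rw [Nat.mul_add, ← hd]; omega
      have h3 : Tendsto (fun m => (ex c)^[p * (m + d) + i] x) atTop (𝓝 a) := by
        refine hj.congr fun m => ?_
        rw [e]
      exact (tendsto_add_atTop_iff_nat d).1 h3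
    · obtain ⟨d, hd⟩ := h.conv_unique hij hy hyA'
      have e : ∀ m, p * (m + d) + j = p * m + i := fun m => by
        rw [Nat.mul_add, ← hd]; omega
      show Tendsto (fun m => (ex c)^[p * m + i] x) atTop (𝓝 a)
      have h3 := (tendsto_add_atTop_iff_nat (f := fun m => (ex c)^[p * m + j] x) d).2 hj
      refine h3.congr fun m => ?_
      rw [e]
  have hsub := hS.subset_left_of_subset_union hAo hBo (by
    rw [Set.disjoint_left]
    rintro x hx ⟨j, -, hx'⟩
    exact hx' hx) (fun x hx => by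
      by_cases hxA : x ∈ A
      · exact Or.inl hxA
      · obtain ⟨j, hj⟩ := h.conv (fun hxE => hSE.le_bot ⟨hx, hxE⟩)
        exact Or.inr ⟨j, hj, hxA⟩) ⟨z, hz, h1⟩
  exact hsub hw

/-- the class lemma -/
theorem cls (h : AC c a p K r q) (b : ℂ) (k : ℕ) (_hb : b ∉ Esc c K)
    (hs : ¬ Sp (Esc c K) b ((ex c)^[k] b)) : p ∣ k := by
  obtain ⟨S, hS, hbS, hkS, hdis⟩ := not_sep_iff.1 hs
  obtain ⟨i, hi⟩ := h.conv (fun hbE => hdis.le_bot ⟨hbS, hbE⟩)
  have h1 := h.conv_const hS hdis hbS hkS hi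
  apply h.min
  have h3 : Tendsto (fun m => (ex c)^[k] ((ex c)^[p * m + i] b)) atTop
      (𝓝 ((ex c)^[k] a)) := ((iter_cont c k).tendsto a).comp hi
  refine tendsto_nhds_unique (h3.congr fun m => ?_) h1
  rw [← Function.iterate_add_apply, ← Function.iterate_add_apply, Nat.add_comm]

theorem a_not (h : AC c a p K r q) (i : ℕ) : (ex c)^[i] a ∉ Esc c K := by
  rw [h.trap.inv_iter]
  exact h.trap.K_not (h.rK (mem_closedBall_self h.r0.le))

/-- points of the Fatou set are eventually in the components of the cycle -/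
theorem near_cycle (h : AC c a p K r q) {z : ℂ} (hz : z ∉ Esc c K) :
    ∃ n, ¬ Sp (Esc c K) ((ex c)^[n] z) a := by
  simp only [Esc, mem_ofPred_eq, not_forall, not_not] at hz
  obtain ⟨n, hn⟩ := hz
  obtain ⟨m, hm⟩ := h.abs _ hn
  rw [← Function.iterate_add_apply] at hm
  refine ⟨m + n, not_sep_iff.2 ⟨ball a r, (convex_ball a r).isPreconnected, hm,
    mem_ball_self h.r0, ?_⟩⟩
  rw [Set.disjoint_left]
  exact fun x hx => h.trap.K_not (h.rK (ball_subset_closedBall hx))

/-- the data for the tree argument -/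
theorem td (h : AC c a p K r q) (hfs : FS (Esc c K)) (htwo : ∀ C, Cmp (Esc c K) C → Two C) :
    TD (ex c) (Esc c K) (fun i => (ex c)^[i] a) p := by
  refine ⟨ex_cont c, h.trap.isClosed_Esc, h.trap.inv, h.hp, h.a_not, ?_, ?_, h.cls, hfs, htwo⟩
  · intro i
    show ex c ((ex c)^[i] a) = (ex c)^[i + 1] a
    rw [Function.iterate_succ_apply']
  · intro i
    show (ex c)^[i + p] a = (ex c)^[i] a
    rw [Function.iterate_add_apply, h.fix]

end AC

/-- lifting: a component of the preimage of a connected open set containing `0` is unbounded to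
the left -/
theorem lift_left (hc : c ≠ 0) {V : Set ℂ} (hVo : IsOpen V) (hVp : IsPreconnected V)
    (h0 : (0 : ℂ) ∈ V) {b : ℂ} (hb : ex c b ∈ V) (M : ℝ) :
    ∃ w ∈ connectedComponentIn (ex c ⁻¹' V) b, w.re < M := by
  set W := connectedComponentIn (ex c ⁻¹' V) b with hW
  have hWo : IsOpen W := (hVo.preimage (ex_cont c)).connectedComponentIn
  have hWV : W ⊆ ex c ⁻¹' V := connectedComponentIn_subset _ _
  have hbW : b ∈ W := mem_connectedComponentIn hb
  have hVp' : IsPreconnected (V \ {0}) := punct hVo hVp 0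
  -- the image of W
  set I : Set ℂ := ex c '' W with hI
  have hIV : I ⊆ V \ {0} := by
    rintro _ ⟨w, hw, rfl⟩
    exact ⟨hWV hw, ex_ne_zero hc w⟩
  -- discs are evenly covered
  have hdisc : ∀ y ∈ V \ {0}, ∃ s > 0, ball y s ⊆ V ∧ ∀ w ∈ W, ex c w ∈ ball y s →
      ball y s ⊆ I := by
    rintro y ⟨hyV, hy0⟩
    have hy0' : y ≠ 0 := hy0
    obtain ⟨s1, hs1, hb1⟩ := Metric.isOpen_iff.1 hVo y hyV
    set s := min s1 ‖y‖ with hs
    have hs0 : 0 < s := lt_min hs1 (norm_pos_iff.2 hy0')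
    refine ⟨s, hs0, (ball_subset_ball (min_le_left _ _)).trans hb1, ?_⟩
    intro w hw hwb
    have hne : ∀ v ∈ ball y s, v ≠ 0 := by
      rintro v hv rfl
      rw [mem_ball, dist_zero_left] at hv
      exact absurd (min_le_right s1 ‖y‖) (not_le.2 hv)
    obtain ⟨L0, hL0⟩ : ∃ L0 : ℂ, Complex.exp L0 = y / c :=
      ⟨Complex.log (y / c), Complex.exp_log (div_ne_zero hy0' hc)⟩
    obtain ⟨L, hLd, -, hL⟩ := log_ball (g := fun v => v / c) hs0
      (differentiableOn_id.div_const c) (fun v hv => div_ne_zero (hne v hv) hc) L0 hL0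
    -- adjust the branch
    have h1 : ex c (L (ex c w)) = ex c w := by
      conv_lhs => rw [ex, hL _ hwb, mul_div_cancel₀ _ hc]
    obtain ⟨k, hk⟩ := (ex_eq_iff hc).1 h1
    set g : ℂ → ℂ := fun v => L v - k * (2 * Real.pi * Complex.I) with hg
    have hgw : g (ex c w) = w := by
      simp only [hg, hk]; ring
    have hgf : ∀ v ∈ ball y s, ex c (g v) = v := by
      intro v hv
      have e : g v = L v + ((-k : ℤ) : ℂ) * (2 * Real.pi * Complex.I) := by
        simp only [hg]; push_cast; ring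
      rw [e, ex_add_period, ex, hL v hv, mul_div_cancel₀ _ hc]
    have hgc : ContinuousOn g (ball y s) := hLd.continuousOn.sub continuousOn_const
    have hgpre : IsPreconnected (g '' ball y s) := (convex_ball y s).isPreconnected.image g hgc
    have hsub : g '' ball y s ⊆ W := by
      have h2 : connectedComponentIn (ex c ⁻¹' V) w = W := (connectedComponentIn_eq hw).symm
      rw [← h2]
      refine hgpre.subset_connectedComponentIn ⟨_, hwb, hgw⟩ ?_
      rintro _ ⟨v, hv, rfl⟩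
      rw [mem_preimage, hgf v hv]
      exact hb1 (ball_subset_ball (min_le_left _ _) hv)
    intro v hv
    exact ⟨g v, hsub ⟨v, hv, rfl⟩, hgf v hv⟩
  -- clopen argument
  have hIall : V \ {0} ⊆ I := by
    have hIo : IsOpen I := by
      rw [isOpen_iff_mem_nhds]
      rintro y hy
      obtain ⟨s, hs, hsV, hsI⟩ := hdisc y (hIV hy)
      obtain ⟨w, hw, hwy⟩ := hy
      exact mem_of_superset (ball_mem_nhds y hs) (hsI w hw (by rw [hwy]; exact mem_ball_self hs))
    set I' : Set ℂ := (V \ {0}) \ I with hI'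
    have hI'o : IsOpen I' := by
      rw [isOpen_iff_mem_nhds]
      rintro y ⟨hyV, hyI⟩
      obtain ⟨s, hs, hsV, hsI⟩ := hdisc y hyV
      have hV0 : V \ {0} ∈ 𝓝 y := (hVo.sdiff isClosed_singleton).mem_nhds hyV
      filter_upwards [ball_mem_nhds y hs, hV0] with v hv hvV
      refine ⟨hvV, ?_⟩
      rintro ⟨w, hw, rfl⟩
      exact hyI (hsI w hw hv (mem_ball_self hs))
    exact hVp'.subset_left_of_subset_union hIo hI'o (by
      rw [Set.disjoint_left]
      exact fun x hx hx' => hx'.2 hx) (fun x hx => by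
        by_cases h : x ∈ I
        · exact Or.inl h
        · exact Or.inr ⟨hx, h⟩) ⟨ex c b, hIV ⟨b, hbW, rfl⟩, ⟨b, hbW, rfl⟩⟩
  -- points near zero
  obtain ⟨ρ, hρ, hρV⟩ := Metric.isOpen_iff.1 hVo 0 h0
  have hcn : 0 < ‖c‖ := norm_pos_iff.2 hc
  set s := min (ρ / 2) (‖c‖ * Real.exp (M - 1)) with hs
  have hs0 : 0 < s := by positivity
  have hsV : (s : ℂ) ∈ V \ {0} := by
    constructor
    · apply hρV
      rw [mem_ball, dist_zero_right, Complex.norm_real, Real.norm_of_nonneg hs0.le]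
      have : s ≤ ρ / 2 := min_le_left _ _
      linarith
    · intro h
      have h1 : (s : ℂ) = 0 := h
      exact hs0.ne' (by exact_mod_cast h1)
  obtain ⟨w, hw, hwe⟩ := hIall hsV
  refine ⟨w, hw, ?_⟩
  have h1 : ‖ex c w‖ = s := by rw [hwe, Complex.norm_real, Real.norm_of_nonneg hs0.le]
  rw [norm_ex] at h1
  have h2 : s ≤ ‖c‖ * Real.exp (M - 1) := min_le_right _ _
  rw [← h1] at h2
  have h3 : Real.exp w.re ≤ Real.exp (M - 1) := le_of_mul_le_mul_left h2 hcn
  have := Real.exp_le_exp.1 h3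
  linarith

/-- the preimage of a connected open set containing zero is connected -/
theorem preim_conn (hc : c ≠ 0) {V : Set ℂ} (hVo : IsOpen V) (hVp : IsPreconnected V)
    (h0 : (0 : ℂ) ∈ V) : IsPreconnected (ex c ⁻¹' V) := by
  obtain ⟨ρ, hρ, hρV⟩ := Metric.isOpen_iff.1 hVo 0 h0
  have ht : Tendsto (fun x : ℝ => ‖c‖ * Real.exp x) atBot (𝓝 (‖c‖ * 0)) :=
    Real.tendsto_exp_atBot.const_mul _
  rw [mul_zero] at ht
  obtain ⟨M, hM⟩ := (ht.eventually (gt_mem_nhds hρ)).exists_forall_of_atBot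
  set Lh : Set ℂ := {z | z.re < M} with hLh
  have hLp : IsPreconnected Lh := (convex_halfSpace_re_lt M).isPreconnected
  have hLV : Lh ⊆ ex c ⁻¹' V := by
    intro z hz
    have hz' : z.re < M := hz
    rw [mem_preimage]
    apply hρV
    rw [mem_ball, dist_zero_right, norm_ex]
    exact hM _ hz'.le
  have hm : ((M - 1 : ℝ) : ℂ) ∈ Lh := by
    show ((M - 1 : ℝ) : ℂ).re < M
    rw [Complex.ofReal_re]; linarith
  refine isPreconnected_of_forall ((M - 1 : ℝ) : ℂ) ?_
  intro b hb
  obtain ⟨w, hw, hwM⟩ := lift_left hc hVo hVp h0 hb M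
  refine ⟨Lh ∪ connectedComponentIn (ex c ⁻¹' V) b,
    union_subset hLV (connectedComponentIn_subset _ _), Or.inl hm,
    Or.inr (mem_connectedComponentIn hb), ?_⟩
  exact hLp.union w hwM hw isPreconnected_connectedComponentIn

end Run7.h102
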