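import Mathlib
import Pool.Agent.Helper188_Cone.Index

/-! Continuous maps of the plane with bounded displacement (helper102, MP_3a87b6_an). -/

set_option autoImplicit false

open Set Filter Topology Metric
open Pool.Agent.Helper188_Cone

namespace Run7.h102

/-- a continuous self map of the plane with bounded displacement is surjective -/
theorem disp_surj {Φ : ℂ → ℂ} (hΦ : Continuous Φ) {b : ℝ} (hb : ∀ z, ‖Φ z - z‖ ≤ b) :
    Function.Surjective Φ := by
  classical
  intro y
  by_contra hcon
  push Not at hcon
  have hb0 : 0 ≤ b := (norm_nonneg _).trans (hb 0)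
  set R := b + 1 with hR
  have hR0 : 0 < R := by positivity
  have hlog := hasLog_plane (fun z => Φ z - y) (hΦ.sub continuous_const)
    (fun z => sub_ne_zero.2 (hcon z))
  set q : sphere y R → ℂ := fun z => (z : ℂ) with hq
  have hqc : Continuous q := continuous_subtype_val
  have hlogS : HasLog (fun z : sphere y R => Φ z - y) := hlog.comp hqc
  have hzy : ∀ z : sphere y R, ‖(z : ℂ) - y‖ = R := fun z => by
    have := z.2
    rwa [mem_sphere, dist_eq_norm] at this
  have hz0 : ∀ z : sphere y R, (z : ℂ) - y ≠ 0 := fun z h => by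
    have := hzy z
    rw [h, norm_zero] at this
    linarith
  have hratio : HasLog (fun z : sphere y R => (Φ z - y) / ((z : ℂ) - y)) := by
    apply HasLog.of_re_pos
    · exact ((hΦ.comp hqc).sub continuous_const).div (hqc.sub continuous_const) hz0
    · intro z
      have e : (Φ z - y) / ((z : ℂ) - y) = 1 + (Φ z - z) / ((z : ℂ) - y) := by
        field_simp [hz0 z]
        ring
      rw [e, Complex.add_re, Complex.one_re]
      have h1 : ‖(Φ z - z) / ((z : ℂ) - y)‖ < 1 := by
        rw [norm_div, hzy z, div_lt_one hR0]
        exact lt_of_le_of_lt (hb _) (by linarith)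
      have h2 := Complex.abs_re_le_norm ((Φ z - z) / ((z : ℂ) - y))
      have h3 := neg_abs_le ((Φ z - z) / ((z : ℂ) - y)).re
      linarith
  have hfin : HasLog (fun z : sphere y R => ∏ i ∈ ({0} : Finset ℕ), (q z - y) ^ ((fun _ => 1 : ℕ → ℤ) i)) := by
    refine (hlogS.mul hratio.inv).congr fun z => ?_
    simp only [Finset.prod_singleton, zpow_one, hq]
    rw [inv_div, mul_div_assoc', mul_comm, mul_div_assoc, div_self (sub_ne_zero.2 (hcon _)), mul_one]
  have hra : range q = sphere y R := Subtype.range_coe
  have hy : y ∉ range q := by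
    rw [hra, mem_sphere, dist_self]
    exact hR0.ne
  have hsub : connectedComponentIn (range q)ᶜ y ⊆ ball y R := by
    rw [hra]
    have hpre : IsPreconnected (connectedComponentIn (sphere y R)ᶜ y) :=
      isPreconnected_connectedComponentIn
    refine hpre.subset_left_of_subset_union isOpen_ball (isClosed_closedBall (x := y) (ε := R)).isOpen_compl
      ?_ ?_ ⟨y, mem_connectedComponentIn (by rwa [← hra]), mem_ball_self hR0⟩
    · rw [Set.disjoint_left]
      intro x hx hx'
      exact hx' (ball_subset_closedBall hx)
    · intro x hx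
      have hx' := connectedComponentIn_subset _ _ hx
      by_cases h : x ∈ ball y R
      · exact Or.inl h
      · refine Or.inr fun h2 => hx' ?_
        rw [mem_ball, not_lt] at h
        exact le_antisymm h2 h
  have := borsuk_index q hqc Subtype.val_injective ({0} : Finset ℕ) (fun _ => y) (fun _ => 1)
    (fun _ _ => hy) hfin hy (isBounded_ball.subset hsub)
  rw [Finset.filter_true_of_mem (fun _ _ => mem_connectedComponentIn hy), Finset.sum_singleton] at this
  exact one_ne_zero this

/-- an injective continuous self map of the plane with bounded displacement is a homeomorphism -/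
theorem disp_homeo {Φ : ℂ → ℂ} (hΦ : Continuous Φ) {b : ℝ} (hb : ∀ z, ‖Φ z - z‖ ≤ b)
    (hi : Function.Injective Φ) : ∃ H : ℂ ≃ₜ ℂ, ∀ z, H z = Φ z := by
  have hclosed : IsClosedMap Φ := by
    refine IsProperMap.isClosedMap (isProperMap_iff_tendsto_cocompact.2 ⟨hΦ, ?_⟩)
    rw [← cobounded_eq_cocompact, ← tendsto_norm_atTop_iff_cobounded]
    refine tendsto_atTop_mono (fun z => ?_)
      (tendsto_atTop_add_const_right _ (-b) (tendsto_norm_cobounded_atTop (E := ℂ)))
    have h1 := norm_sub_norm_le z (Φ z)
    rw [norm_sub_rev] at h1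
    linarith [hb z]
  refine ⟨(Equiv.ofBijective Φ ⟨hi, disp_surj hΦ hb⟩).toHomeomorphOfContinuousClosed hΦ hclosed,
    fun z => rfl⟩

end Run7.h102
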