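import Mathlib
import Pool.Agent.Run7.h102.Hyp2
import Pool.Agent.Run7.h102.Disp

/-! Local stability of hyperbolic exponential maps: an explicit homeomorphism of the plane
(helper102, MP_3a87b6_an). -/

set_option autoImplicit false

open Set Filter Topology Metric

namespace Run7.h102

/-- the weight -/
noncomputable def wt (c : ℂ) (K : Set ℂ) (κ : ℝ) (z : ℂ) : ℝ :=
  sInf {x | ∃ n : ℕ, (n = 0 ∨ (ex c)^[n] z ∉ K) ∧ x = ‖D c n z‖ / κ ^ n}

/-- the cut off function -/
noncomputable def chi (K : Set ℂ) (d0 : ℝ) (z : ℂ) : ℝ := min 1 (infDist z K / d0)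

open Classical in
/-- the displacement -/
noncomputable def psi (c : ℂ) (K : Set ℂ) (d0 : ℝ) (η : ℂ) : ℕ → ℂ → ℂ
  | 0 => fun _ => 0
  | n + 1 => fun z =>
    if ex c z ∈ K then (chi K d0 z : ℂ) * η
    else η + Complex.log (1 + psi c K d0 η n (ex c z) / ex c z)

theorem psi_pos {c : ℂ} {K : Set ℂ} {d0 : ℝ} {η : ℂ} {n : ℕ} {z : ℂ} (hz : ex c z ∈ K) :
    psi c K d0 η (n + 1) z = (chi K d0 z : ℂ) * η := by
  simp only [psi]
  exact if_pos hz

theorem psi_neg {c : ℂ} {K : Set ℂ} {d0 : ℝ} {η : ℂ} {n : ℕ} {z : ℂ} (hz : ex c z ∉ K) :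
    psi c K d0 η (n + 1) z = η + Complex.log (1 + psi c K d0 η n (ex c z) / ex c z) := by
  simp only [psi]
  exact if_neg hz

/-- the data used in the construction -/
structure SD (c : ℂ) (K : Set ℂ) (L c1 δ d0 δ' M b : ℝ) (η : ℂ) : Prop where
  hc : c ≠ 0
  trap : Trap c K
  L1 : 1 < L
  c1pos : 0 < c1
  c1le : c1 ≤ 1
  grow : ∀ n z, (n = 0 ∨ (ex c)^[n] z ∉ K) → c1 * (L ^ 2) ^ n ≤ ‖D c n z‖
  δpos : 0 < δ
  del0 : ∀ w, w ∉ interior K → δ ≤ ‖w‖
  del1 : ∀ w, w ∉ interior K → ∀ y ∈ K, δ ≤ dist w (ex c y)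
  d0pos : 0 < d0
  d0K : ∀ z, infDist z K ≤ d0 → ex c z ∈ interior K
  δ'K : ∀ z, infDist z K ≤ d0 → ∀ w, dist w (ex c z) < δ' → w ∈ K
  Mb : ∀ z, infDist z K ≤ d0 → ‖ex c z‖ ≤ M
  M0 : 0 ≤ M
  bdef : ‖η‖ = (1 - 1 / L) * c1 * b
  η1 : ‖η‖ ≤ 1
  b1 : 2 * b ≤ (1 - 1 / L) * δ
  b2 : 2 * b ≤ 1
  ηd : ‖η‖ < d0
  ηδ' : 2 * ‖η‖ * M < δ'
  bδ : b + 2 * ‖η‖ * M < δ

theorem log_lip {L : ℝ} (hL : 1 < L) {s t : ℂ} (hs : ‖s‖ ≤ 1 - 1 / L) (ht : ‖t‖ ≤ 1 - 1 / L) :
    ‖Complex.log (1 + s) - Complex.log (1 + t)‖ ≤ L * ‖s - t‖ := by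
  have hL0 : 0 < L := by linarith
  have hLi : 0 < 1 / L := by positivity
  have hre : ∀ x : ℂ, ‖x‖ ≤ 1 - 1 / L → 1 / L ≤ (1 + x).re := by
    intro x hx
    have h1 := (abs_le.1 (Complex.abs_re_le_norm x)).1
    rw [Complex.add_re, Complex.one_re]
    linarith
  have hd : ∀ x ∈ closedBall (0 : ℂ) (1 - 1 / L),
      HasDerivAt (fun x : ℂ => Complex.log (1 + x)) (1 / (1 + x)) x := by
    intro x hx
    rw [mem_closedBall_zero_iff] at hx
    exact ((hasDerivAt_id x).const_add 1).clog (Or.inl (hLi.trans_le (hre x hx)))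
  refine (convex_closedBall (0 : ℂ) (1 - 1 / L)).norm_image_sub_le_of_norm_hasDerivWithin_le
    (f := fun x : ℂ => Complex.log (1 + x)) (f' := fun x => 1 / (1 + x))
    (fun x hx => (hd x hx).hasDerivWithinAt) (fun x hx => ?_)
    (by rwa [mem_closedBall_zero_iff]) (by rwa [mem_closedBall_zero_iff])
  rw [mem_closedBall_zero_iff] at hx
  have h1 := hre x hx
  have h2 := (le_abs_self _).trans (Complex.abs_re_le_norm (1 + x))
  rw [norm_div, norm_one, div_le_iff₀ (by linarith)]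
  rw [div_le_iff₀ hL0] at h1
  nlinarith

theorem chi_nonneg {K : Set ℂ} {d0 : ℝ} (hd : 0 < d0) (z : ℂ) : 0 ≤ chi K d0 z :=
  le_min zero_le_one (div_nonneg infDist_nonneg hd.le)

theorem chi_le_one {K : Set ℂ} {d0 : ℝ} (z : ℂ) : chi K d0 z ≤ 1 := min_le_left _ _

theorem chi_of_mem {K : Set ℂ} {d0 : ℝ} {z : ℂ} (hz : z ∈ K) : chi K d0 z = 0 := by
  rw [chi, infDist_zero_of_mem hz, zero_div]
  exact min_eq_right zero_le_one

theorem chi_cont (K : Set ℂ) (d0 : ℝ) : Continuous (chi K d0) :=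
  continuous_const.min ((continuous_infDist_pt K).div_const d0)

theorem chi_lip {K : Set ℂ} {d0 : ℝ} (hd : 0 < d0) (z w : ℂ) :
    |chi K d0 z - chi K d0 w| ≤ ‖z - w‖ / d0 := by
  have h1 : |chi K d0 z - chi K d0 w| ≤ |infDist z K / d0 - infDist w K / d0| := by
    refine (abs_min_sub_min_le_max _ _ _ _).trans ?_
    rw [sub_self, abs_zero]
    exact max_le (abs_nonneg _) le_rfl
  refine h1.trans ?_
  rw [← sub_div, abs_div, abs_of_pos hd]
  refine div_le_div_of_nonneg_right ?_ hd.le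
  rw [← Real.dist_eq, ← dist_eq_norm]
  have := (lipschitz_infDist_pt K).dist_le_mul z w
  simpa using this

namespace SD

variable {c : ℂ} {K : Set ℂ} {L c1 δ d0 δ' M b : ℝ} {η : ℂ}

theorem chi_one (h : SD c K L c1 δ d0 δ' M b η) {z : ℂ} (hz : ex c z ∉ interior K) :
    chi K d0 z = 1 := by
  have h1 : d0 < infDist z K := by
    by_contra hcon
    exact hz (h.d0K z (not_lt.1 hcon))
  exact min_eq_left ((one_le_div₀ h.d0pos).2 h1.le)

theorem chi_lt (h : SD c K L c1 δ d0 δ' M b η) {z : ℂ} (hz : chi K d0 z < 1) :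
    infDist z K ≤ d0 := by
  by_contra hcon
  rw [not_le] at hcon
  have : chi K d0 z = 1 := min_eq_left ((one_le_div₀ h.d0pos).2 hcon.le)
  linarith

theorem bnn (h : SD c K L c1 δ d0 δ' M b η) : 0 ≤ b := by
  have h1 := h.bdef
  have h2 := norm_nonneg η
  have h3 : 0 < (1 - 1 / L) * c1 := by
    have : 1 / L < 1 := by rw [div_lt_one (by linarith [h.L1])]; exact h.L1
    exact mul_pos (by linarith) h.c1pos
  by_contra hcon
  rw [not_le] at hcon
  nlinarith

theorem psi_mem (h : SD c K L c1 δ d0 δ' M b η) {z : ℂ} (hz : z ∈ K) (n : ℕ) :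
    psi c K d0 η n z = 0 := by
  cases n with
  | zero => rfl
  | succ n =>
    have h1 : ex c z ∈ K := interior_subset (h.trap.map z hz)
    rw [psi_pos h1, chi_of_mem hz]
    simp

theorem wt_bdd (c : ℂ) (K : Set ℂ) {κ : ℝ} (hκ : 0 < κ) (z : ℂ) :
    BddBelow {x | ∃ n : ℕ, (n = 0 ∨ (ex c)^[n] z ∉ K) ∧ x = ‖D c n z‖ / κ ^ n} := by
  refine ⟨0, ?_⟩
  rintro x ⟨n, -, rfl⟩
  positivity

theorem wt_le_one (h : SD c K L c1 δ d0 δ' M b η) (z : ℂ) : wt c K (L ^ 2) z ≤ 1 := by
  have hκ : 0 < L ^ 2 := by have := h.L1; positivity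
  exact csInf_le (wt_bdd c K hκ z) ⟨0, Or.inl rfl, by simp [D_zero]⟩

theorem wt_ge (h : SD c K L c1 δ d0 δ' M b η) (z : ℂ) : c1 ≤ wt c K (L ^ 2) z := by
  have hκ : 0 < L ^ 2 := by have := h.L1; positivity
  refine le_csInf ⟨1, 0, Or.inl rfl, by simp [D_zero]⟩ ?_
  rintro x ⟨n, hn, rfl⟩
  rw [le_div_iff₀ (by positivity)]
  exact h.grow n z hn

theorem wt_step (h : SD c K L c1 δ d0 δ' M b η) {z : ℂ} (hz : ex c z ∉ K) :
    wt c K (L ^ 2) z ≤ (L ^ 2)⁻¹ * ‖ex c z‖ * wt c K (L ^ 2) (ex c z) := by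
  have hκ : 0 < L ^ 2 := by have := h.L1; positivity
  have hf : 0 < ‖ex c z‖ := norm_pos_iff.2 (ex_ne_zero h.hc z)
  have h1 : wt c K (L ^ 2) z / ((L ^ 2)⁻¹ * ‖ex c z‖) ≤ wt c K (L ^ 2) (ex c z) := by
    refine le_csInf ⟨1, 0, Or.inl rfl, by simp [D_zero]⟩ ?_
    rintro x ⟨n, hn, rfl⟩
    rw [div_le_iff₀ (by positivity)]
    refine csInf_le (wt_bdd c K hκ z) ⟨n + 1, Or.inr ?_, ?_⟩
    · rw [Function.iterate_succ_apply]
      rcases hn with rfl | hn
      · exact hz
      · exact hn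
    · rw [D_succ, norm_mul]
      generalize L ^ 2 = t at hκ ⊢
      have ht : t ≠ 0 := hκ.ne'
      rw [pow_succ]
      field_simp
  rw [div_le_iff₀ (by positivity)] at h1
  linarith

theorem psi_bd (h : SD c K L c1 δ d0 δ' M b η) (n : ℕ) (z : ℂ) :
    wt c K (L ^ 2) z * ‖psi c K d0 η n z‖ ≤ c1 * b ∧ ‖psi c K d0 η n z‖ ≤ b := by
  have hL := h.L1
  have hL0 : 0 < L := by linarith
  have hLi : 1 / L < 1 := by rw [div_lt_one hL0]; exact hL
  have hLp : 0 < 1 / L := by positivity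
  have hb := h.bnn
  have hc1 := h.c1pos
  suffices hs : ∀ z, wt c K (L ^ 2) z * ‖psi c K d0 η n z‖ ≤ c1 * b by
    refine ⟨hs z, ?_⟩
    have h1 := hs z
    have h2 := mul_le_mul_of_nonneg_right (h.wt_ge z) (norm_nonneg (psi c K d0 η n z))
    have h3 : c1 * ‖psi c K d0 η n z‖ ≤ c1 * b := h2.trans h1
    exact le_of_mul_le_mul_left h3 hc1
  induction n with
  | zero =>
    intro z
    simp only [psi, norm_zero, mul_zero]
    positivity
  | succ n ih =>
    intro z
    have hw0 : 0 ≤ wt c K (L ^ 2) z := hc1.le.trans (h.wt_ge z)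
    by_cases hz : ex c z ∈ K
    · rw [psi_pos hz, norm_mul, Complex.norm_real, Real.norm_of_nonneg (chi_nonneg h.d0pos z)]
      have h1 : wt c K (L ^ 2) z * (chi K d0 z * ‖η‖) ≤ 1 * (1 * ‖η‖) :=
        mul_le_mul (h.wt_le_one z) (mul_le_mul_of_nonneg_right (chi_le_one z) (norm_nonneg _))
          (mul_nonneg (chi_nonneg h.d0pos z) (norm_nonneg _)) zero_le_one
      refine h1.trans ?_
      rw [one_mul, one_mul, h.bdef]
      have : 0 ≤ c1 * b := by positivity
      nlinarith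
    · rw [psi_neg hz]
      have hf : 0 < ‖ex c z‖ := norm_pos_iff.2 (ex_ne_zero h.hc z)
      have hfδ : δ ≤ ‖ex c z‖ := h.del0 _ (fun h' => hz (interior_subset h'))
      have hpb : ‖psi c K d0 η n (ex c z)‖ ≤ b := by
        have h1 := ih (ex c z)
        have h2 := mul_le_mul_of_nonneg_right (h.wt_ge (ex c z))
          (norm_nonneg (psi c K d0 η n (ex c z)))
        exact le_of_mul_le_mul_left (h2.trans h1) hc1
      have ht : ‖psi c K d0 η n (ex c z) / ex c z‖ ≤ 1 - 1 / L := by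
        rw [norm_div, div_le_iff₀ hf]
        have := h.b1
        nlinarith
      have h1 : ‖Complex.log (1 + psi c K d0 η n (ex c z) / ex c z)‖ ≤
          L * (‖psi c K d0 η n (ex c z)‖ / ‖ex c z‖) := by
        have := log_lip hL ht (t := 0) (by rw [norm_zero]; linarith)
        rwa [add_zero, Complex.log_one, sub_zero, sub_zero, norm_div] at this
      have h2 := h.wt_step hz
      have h3 := ih (ex c z)
      have h4 : wt c K (L ^ 2) z * (L * (‖psi c K d0 η n (ex c z)‖ / ‖ex c z‖)) ≤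
          1 / L * (c1 * b) := by
        calc wt c K (L ^ 2) z * (L * (‖psi c K d0 η n (ex c z)‖ / ‖ex c z‖))
            ≤ ((L ^ 2)⁻¹ * ‖ex c z‖ * wt c K (L ^ 2) (ex c z)) *
              (L * (‖psi c K d0 η n (ex c z)‖ / ‖ex c z‖)) :=
              mul_le_mul_of_nonneg_right h2 (by positivity)
          _ = 1 / L * (wt c K (L ^ 2) (ex c z) * ‖psi c K d0 η n (ex c z)‖) := by
              field_simp
          _ ≤ 1 / L * (c1 * b) := mul_le_mul_of_nonneg_left h3 hLp.le
      calc wt c K (L ^ 2) z * ‖η + Complex.log (1 + psi c K d0 η n (ex c z) / ex c z)‖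
          ≤ wt c K (L ^ 2) z * (‖η‖ + L * (‖psi c K d0 η n (ex c z)‖ / ‖ex c z‖)) :=
            mul_le_mul_of_nonneg_left ((norm_add_le _ _).trans (by linarith)) hw0
        _ = wt c K (L ^ 2) z * ‖η‖ +
            wt c K (L ^ 2) z * (L * (‖psi c K d0 η n (ex c z)‖ / ‖ex c z‖)) := by ring
        _ ≤ 1 * ‖η‖ + 1 / L * (c1 * b) :=
            add_le_add (mul_le_mul_of_nonneg_right (h.wt_le_one z) (norm_nonneg _)) h4
        _ = c1 * b := by rw [one_mul, h.bdef]; ring

theorem psi_ratio (h : SD c K L c1 δ d0 δ' M b η) {z w : ℂ} (hz : ex c z ∉ interior K)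
    (hw : ‖w‖ ≤ b) : ‖w / ex c z‖ ≤ 1 - 1 / L := by
  have hL := h.L1
  have hL0 : 0 < L := by linarith
  have hf : 0 < ‖ex c z‖ := norm_pos_iff.2 (ex_ne_zero h.hc z)
  have hfδ : δ ≤ ‖ex c z‖ := h.del0 _ hz
  have hLi : 1 / L < 1 := by rw [div_lt_one hL0]; exact hL
  rw [norm_div, div_le_iff₀ hf]
  have := h.b1
  have := h.bnn
  nlinarith

theorem psi_diff (h : SD c K L c1 δ d0 δ' M b η) (n : ℕ) (z : ℂ) :
    wt c K (L ^ 2) z * ‖psi c K d0 η (n + 1) z - psi c K d0 η n z‖ ≤ (1 / L) ^ n * (c1 * b) := by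
  have hL := h.L1
  have hL0 : 0 < L := by linarith
  have hLp : 0 < 1 / L := by positivity
  have hb := h.bnn
  have hc1 := h.c1pos
  induction n generalizing z with
  | zero =>
    have : psi c K d0 η 0 z = 0 := rfl
    rw [this, sub_zero, pow_zero, one_mul]
    exact (h.psi_bd 1 z).1
  | succ n ih =>
    by_cases hz : ex c z ∈ K
    · have : psi c K d0 η (n + 1 + 1) z - psi c K d0 η (n + 1) z = 0 := by
        rw [psi_pos hz, psi_pos hz, sub_self]
      rw [this, norm_zero, mul_zero]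
      positivity
    · have hz' : ex c z ∉ interior K := fun h' => hz (interior_subset h')
      have e : psi c K d0 η (n + 1 + 1) z - psi c K d0 η (n + 1) z =
          Complex.log (1 + psi c K d0 η (n + 1) (ex c z) / ex c z) -
          Complex.log (1 + psi c K d0 η n (ex c z) / ex c z) := by
        rw [psi_neg hz, psi_neg hz]
        ring
      have hf : 0 < ‖ex c z‖ := norm_pos_iff.2 (ex_ne_zero h.hc z)
      have h1 := log_lip hL (h.psi_ratio hz' (h.psi_bd (n + 1) (ex c z)).2)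
        (h.psi_ratio hz' (h.psi_bd n (ex c z)).2)
      rw [← sub_div, norm_div] at h1
      rw [e]
      have hw0 : 0 ≤ wt c K (L ^ 2) z := hc1.le.trans (h.wt_ge z)
      calc wt c K (L ^ 2) z * ‖Complex.log (1 + psi c K d0 η (n + 1) (ex c z) / ex c z) -
            Complex.log (1 + psi c K d0 η n (ex c z) / ex c z)‖
          ≤ ((L ^ 2)⁻¹ * ‖ex c z‖ * wt c K (L ^ 2) (ex c z)) *
            (L * (‖psi c K d0 η (n + 1) (ex c z) - psi c K d0 η n (ex c z)‖ / ‖ex c z‖)) :=
            mul_le_mul (h.wt_step hz) h1 (norm_nonneg _)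
              (mul_nonneg (by positivity) (hc1.le.trans (h.wt_ge _)))
        _ = 1 / L * (wt c K (L ^ 2) (ex c z) *
            ‖psi c K d0 η (n + 1) (ex c z) - psi c K d0 η n (ex c z)‖) := by field_simp
        _ ≤ 1 / L * ((1 / L) ^ n * (c1 * b)) := mul_le_mul_of_nonneg_left (ih _) hLp.le
        _ = (1 / L) ^ (n + 1) * (c1 * b) := by ring

theorem psi_cont (h : SD c K L c1 δ d0 δ' M b η) (n : ℕ) : Continuous (psi c K d0 η n) := by
  classical
  induction n with
  | zero => exact continuous_const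
  | succ n ih =>
    have hKc : IsClosed K := h.trap.cpt.isClosed
    have e : psi c K d0 η (n + 1) = fun z => if ex c z ∈ K then (chi K d0 z : ℂ) * η
        else η + Complex.log (1 + psi c K d0 η n (ex c z) / ex c z) := by
      funext z
      by_cases hz : ex c z ∈ K
      · rw [psi_pos hz, if_pos hz]
      · rw [psi_neg hz, if_neg hz]
    rw [e]
    have hcl : ∀ z ∈ closure {z | ¬ ex c z ∈ K}, ex c z ∉ interior K := by
      intro z hz hcon
      have h1 : ∀ᶠ w in 𝓝 z, ex c w ∈ interior K :=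
        (ex_cont c).continuousAt.preimage_mem_nhds (isOpen_interior.mem_nhds hcon)
      obtain ⟨w, hw1, hw2⟩ := mem_closure_iff_nhds.1 hz _ h1
      exact hw2 (interior_subset hw1)
    refine continuous_if ?_ ?_ ?_
    · intro z hz
      have hzK : ex c z ∈ K := by
        have : IsClosed {z | ex c z ∈ K} := hKc.preimage (ex_cont c)
        exact this.frontier_subset hz
      have hzi : ex c z ∉ interior K := by
        apply hcl z
        rw [frontier_eq_closure_inter_closure] at hz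
        exact hz.2
      rw [h.chi_one hzi, h.psi_mem hzK]
      simp
    · exact ((Complex.continuous_ofReal.comp (chi_cont K d0)).mul continuous_const).continuousOn
    · intro z hz
      have hzi := hcl z hz
      have h1 := h.psi_ratio hzi (h.psi_bd n (ex c z)).2
      have hLi : 0 < 1 / L := by have := h.L1; positivity
      refine ContinuousAt.continuousWithinAt ?_
      refine continuousAt_const.add (ContinuousAt.clog (continuousAt_const.add
        ((ih.comp (ex_cont c)).continuousAt.div (ex_cont c).continuousAt (ex_ne_zero h.hc z))) ?_)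
      left
      rw [Complex.add_re, Complex.one_re]
      have h2 := (abs_le.1 (Complex.abs_re_le_norm (psi c K d0 η n (ex c z) / ex c z))).1
      linarith

/-- the limit displacement -/
theorem exists_psi (h : SD c K L c1 δ d0 δ' M b η) : ∃ ψ : ℂ → ℂ, Continuous ψ ∧
    (∀ z, ‖ψ z‖ ≤ b) ∧ (∀ z, ex c z ∈ K → ψ z = (chi K d0 z : ℂ) * η) ∧
    (∀ z, ex c z ∉ K → ψ z = η + Complex.log (1 + ψ (ex c z) / ex c z)) := by
  have hL := h.L1
  have hL0 : 0 < L := by linarith
  have hLp : 0 < 1 / L := by positivity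
  have hLi : 1 / L < 1 := by rw [div_lt_one hL0]; exact hL
  have hb := h.bnn
  have hc1 := h.c1pos
  have hdist : ∀ z n, dist (psi c K d0 η n z) (psi c K d0 η (n + 1) z) ≤ b * (1 / L) ^ n := by
    intro z n
    rw [dist_comm, dist_eq_norm]
    have h1 := h.psi_diff n z
    have h2 := mul_le_mul_of_nonneg_right (h.wt_ge z)
      (norm_nonneg (psi c K d0 η (n + 1) z - psi c K d0 η n z))
    have h3 : c1 * ‖psi c K d0 η (n + 1) z - psi c K d0 η n z‖ ≤ c1 * (b * (1 / L) ^ n) :=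
      (h2.trans h1).trans (le_of_eq (by ring))
    exact le_of_mul_le_mul_left h3 hc1
  have hcau : ∀ z, CauchySeq fun n => psi c K d0 η n z := fun z =>
    cauchySeq_of_le_geometric (1 / L) b hLi (hdist z)
  choose ψ hψ using fun z => cauchySeq_tendsto_of_complete (hcau z)
  have hunif : TendstoUniformly (fun n => psi c K d0 η n) ψ atTop := by
    rw [Metric.tendstoUniformly_iff]
    intro ε hε
    have h1 : Tendsto (fun n : ℕ => b * (1 / L) ^ n / (1 - 1 / L)) atTop (𝓝 (b * 0 / (1 - 1 / L))) :=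
      ((tendsto_pow_atTop_nhds_zero_of_lt_one hLp.le hLi).const_mul b).div_const _
    rw [mul_zero, zero_div] at h1
    filter_upwards [h1.eventually (gt_mem_nhds hε)] with n hn z
    rw [dist_comm]
    exact lt_of_le_of_lt (dist_le_of_le_geometric_of_tendsto (1 / L) b hLi (hdist z) (hψ z) n) hn
  have hbd : ∀ z, ‖ψ z‖ ≤ b := fun z =>
    le_of_tendsto (hψ z).norm (Eventually.of_forall fun n => (h.psi_bd n z).2)
  refine ⟨ψ, hunif.continuous (Frequently.of_forall fun n => h.psi_cont n), hbd, ?_, ?_⟩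
  · intro z hz
    refine tendsto_nhds_unique ((tendsto_add_atTop_iff_nat 1).2 (hψ z)) ?_
    refine tendsto_const_nhds.congr fun n => ?_
    rw [psi_pos hz]
  · intro z hz
    have hz' : ex c z ∉ interior K := fun h' => hz (interior_subset h')
    refine tendsto_nhds_unique ((tendsto_add_atTop_iff_nat 1).2 (hψ z)) ?_
    have h1 : Tendsto (fun n => η + Complex.log (1 + psi c K d0 η n (ex c z) / ex c z)) atTop
        (𝓝 (η + Complex.log (1 + ψ (ex c z) / ex c z))) := by
      refine tendsto_const_nhds.add (Tendsto.clog (tendsto_const_nhds.add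
        ((hψ (ex c z)).div_const _)) ?_)
      left
      rw [Complex.add_re, Complex.one_re]
      have h2 := (abs_le.1 (Complex.abs_re_le_norm (ψ (ex c z) / ex c z))).1
      have h3 := h.psi_ratio hz' (hbd (ex c z))
      linarith
    refine h1.congr fun n => ?_
    rw [psi_neg hz]

end SD

end Run7.h102
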