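import Mathlib
import Pool.Agent.Run7.h102.Stab

/-! Local stability of hyperbolic exponential maps: the homeomorphism
(helper102, MP_3a87b6_an). -/

set_option autoImplicit false

open Set Filter Topology Metric

namespace Run7.h102

theorem expand_unique {c : ℂ} {K : Set ℂ} (hc : c ≠ 0) (h : Trap c K) {L c1 δ e : ℝ}
    (hL : 1 < L) (hc1 : 0 < c1)
    (grow : ∀ n z, (n = 0 ∨ (ex c)^[n] z ∉ K) → c1 * (L ^ 2) ^ n ≤ ‖D c n z‖)
    (del0 : ∀ w, w ∉ interior K → δ ≤ ‖w‖) (he1 : e ≤ (1 - 1 / L) * δ) (he2 : e ≤ 1)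
    {z w : ℂ} (hz : ∀ n, (ex c)^[n + 1] z ∉ K)
    (hd : ∀ n, ‖(ex c)^[n] z - (ex c)^[n] w‖ ≤ e) : z = w := by
  have hL0 : 0 < L := by linarith
  have hLi : 1 / L < 1 := by rw [div_lt_one hL0]; exact hL
  have hstep : ∀ n, ‖(ex c)^[n] w - (ex c)^[n] z‖ ≤
      L * ‖(ex c)^[n + 1] w - (ex c)^[n + 1] z‖ / ‖(ex c)^[n + 1] z‖ := by
    intro n
    set u := (ex c)^[n] z with hu
    set v := (ex c)^[n] w with hv
    have e1 : (ex c)^[n + 1] z = ex c u := by rw [Function.iterate_succ_apply']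
    have e2 : (ex c)^[n + 1] w = ex c v := by rw [Function.iterate_succ_apply']
    rw [e1, e2]
    have hu0 : ex c u ≠ 0 := ex_ne_zero hc u
    have hun : 0 < ‖ex c u‖ := norm_pos_iff.2 hu0
    have hint : ex c u ∉ interior K := fun h' => hz n (by rw [e1]; exact interior_subset h')
    have h1 : ‖(ex c v - ex c u) / ex c u‖ ≤ 1 - 1 / L := by
      rw [norm_div, div_le_iff₀ hun]
      have h2 := hd (n + 1)
      rw [e1, e2, norm_sub_rev] at h2
      have h3 := del0 _ hint
      nlinarith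
    have h4 : Complex.exp (v - u) = 1 + (ex c v - ex c u) / ex c u := by
      rw [Complex.exp_sub]
      simp only [ex] at hu0 ⊢
      have h5 := left_ne_zero_of_mul hu0
      have h6 := Complex.exp_ne_zero u
      field_simp
      ring
    have h7 : ‖v - u‖ ≤ e := by rw [norm_sub_rev]; exact hd n
    have h8 : Complex.log (1 + (ex c v - ex c u) / ex c u) = v - u := by
      rw [← h4]
      have h9 := (Complex.abs_im_le_norm (v - u)).trans h7
      have hpi := Real.pi_gt_three
      apply Complex.log_exp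
      · linarith [(abs_le.1 h9).1]
      · linarith [(abs_le.1 h9).2]
    have h10 := log_lip hL h1 (t := 0) (by rw [norm_zero]; linarith)
    rw [add_zero, Complex.log_one, sub_zero, sub_zero, h8, norm_div, mul_div_assoc'] at h10
    exact h10
  have hind : ∀ n, ‖w - z‖ ≤ L ^ n * ‖(ex c)^[n] w - (ex c)^[n] z‖ / ‖D c n z‖ := by
    intro n
    induction n with
    | zero => simp [D_zero]
    | succ n ih =>
      refine ih.trans ?_
      have hD : 0 < ‖D c n z‖ := norm_pos_iff.2 (D_ne_zero hc _ _)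
      have hf : 0 < ‖(ex c)^[n + 1] z‖ := norm_pos_iff.2 (iter_ne_zero hc _ _)
      rw [D_succ', norm_mul, pow_succ, div_le_div_iff₀ hD (by positivity)]
      have h1 := hstep n
      rw [le_div_iff₀ hf] at h1
      calc L ^ n * ‖(ex c)^[n] w - (ex c)^[n] z‖ * (‖D c n z‖ * ‖(ex c)^[n + 1] z‖)
          = L ^ n * ‖D c n z‖ * (‖(ex c)^[n] w - (ex c)^[n] z‖ * ‖(ex c)^[n + 1] z‖) := by ring
        _ ≤ L ^ n * ‖D c n z‖ * (L * ‖(ex c)^[n + 1] w - (ex c)^[n + 1] z‖) :=
            mul_le_mul_of_nonneg_left h1 (by positivity)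
        _ = L ^ n * L * ‖(ex c)^[n + 1] w - (ex c)^[n + 1] z‖ * ‖D c n z‖ := by ring
  have hfin : ∀ n : ℕ, ‖w - z‖ ≤ (1 / L) ^ (n + 1) * (e / c1) := by
    intro n
    refine (hind (n + 1)).trans ?_
    have h1 := grow (n + 1) z (Or.inr (hz n))
    have h2 : ‖(ex c)^[n + 1] w - (ex c)^[n + 1] z‖ ≤ e := by rw [norm_sub_rev]; exact hd _
    have hD : 0 < ‖D c (n + 1) z‖ := norm_pos_iff.2 (D_ne_zero hc _ _)
    have he0 : 0 ≤ e := (norm_nonneg _).trans h2
    rw [div_le_iff₀ hD]
    calc L ^ (n + 1) * ‖(ex c)^[n + 1] w - (ex c)^[n + 1] z‖ ≤ L ^ (n + 1) * e :=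
          mul_le_mul_of_nonneg_left h2 (by positivity)
      _ = (1 / L) ^ (n + 1) * (e / c1) * (c1 * (L ^ 2) ^ (n + 1)) := by
          rw [← pow_mul, mul_comm 2, pow_mul, one_div, inv_pow]
          field_simp
      _ ≤ (1 / L) ^ (n + 1) * (e / c1) * ‖D c (n + 1) z‖ :=
          mul_le_mul_of_nonneg_left h1 (by positivity)
  have hlim : Tendsto (fun n : ℕ => (1 / L) ^ (n + 1) * (e / c1)) atTop (𝓝 0) := by
    have h1 : Tendsto (fun n : ℕ => (1 / L) ^ (n + 1) * (e / c1)) atTop (𝓝 (0 * (e / c1))) :=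
      ((tendsto_pow_atTop_nhds_zero_of_lt_one (by positivity) hLi).comp
        (tendsto_add_atTop_nat 1)).mul_const _
    rwa [zero_mul] at h1
  have h0 : ‖w - z‖ ≤ 0 := ge_of_tendsto' hlim hfin
  have h1 : w - z = 0 := norm_le_zero_iff.1 h0
  exact (sub_eq_zero.1 h1).symm

namespace SD

variable {c : ℂ} {K : Set ℂ} {L c1 δ d0 δ' M b : ℝ} {η : ℂ}

theorem exp_small (h : SD c K L c1 δ d0 δ' M b η) {s : ℝ} (hs : |s| ≤ 1) :
    ‖Complex.exp (s * η) - 1‖ ≤ 2 * ‖η‖ := by
  have h1 : ‖(s : ℂ) * η‖ ≤ ‖η‖ := by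
    rw [norm_mul, Complex.norm_real, Real.norm_eq_abs]
    exact mul_le_of_le_one_left (norm_nonneg _) hs
  exact (Complex.norm_exp_sub_one_le (h1.trans h.η1)).trans (by linarith)

theorem infDist_mem {z : ℂ} (h : SD c K L c1 δ d0 δ' M b η) (hz : z ∈ K) : infDist z K ≤ d0 := by
  rw [infDist_zero_of_mem hz]; exact h.d0pos.le

theorem near (h : SD c K L c1 δ d0 δ' M b η) {z : ℂ} (hz : infDist z K ≤ d0) {s : ℝ}
    (hs : |s| ≤ 1) : dist (ex c z * Complex.exp (s * η)) (ex c z) ≤ 2 * ‖η‖ * M := by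
  have h1 : ex c z * Complex.exp (s * η) - ex c z = ex c z * (Complex.exp (s * η) - 1) := by ring
  rw [dist_eq_norm, h1, norm_mul]
  have h2 := h.exp_small hs
  have h3 := h.Mb z hz
  calc ‖ex c z‖ * ‖Complex.exp (s * η) - 1‖ ≤ M * (2 * ‖η‖) :=
        mul_le_mul h3 h2 (norm_nonneg _) h.M0
    _ = 2 * ‖η‖ * M := by ring

theorem ex' (c η z : ℂ) : ex (c * Complex.exp (-η)) z = ex c z * Complex.exp (-η) := by
  simp only [ex]; ring

theorem trap' (h : SD c K L c1 δ d0 δ' M b η) : Trap (c * Complex.exp (-η)) K := by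
  refine ⟨h.trap.cpt, h.trap.zero, fun z hz => ?_⟩
  rw [ex']
  by_contra hcon
  have h1 := h.del1 _ hcon z hz
  have h2 := h.near (h.infDist_mem hz) (s := -1) (by simp)
  have e : ((-1 : ℝ) : ℂ) * η = -η := by push_cast; ring
  rw [e] at h2
  have := h.bδ
  have := h.bnn
  linarith

/-- the homeomorphism -/
theorem homeo (h : SD c K L c1 δ d0 δ' M b η) :
    ∃ H : ℂ ≃ₜ ℂ, H '' Esc c K = Esc (c * Complex.exp (-η)) K := by
  obtain ⟨ψ, hψc, hψb, hψK, hψn⟩ := h.exists_psi
  set c' := c * Complex.exp (-η) with hc'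
  set Φ : ℂ → ℂ := fun z => z + ψ z with hΦ
  have hL := h.L1
  have hL0 : 0 < L := by linarith
  have hb := h.bnn
  -- the functional equation
  have hfe : ∀ z, ex c z ∉ K → ex c' (Φ z) = Φ (ex c z) := by
    intro z hz
    have hz' : ex c z ∉ interior K := fun h' => hz (interior_subset h')
    have hfz : ex c z ≠ 0 := ex_ne_zero h.hc z
    have h1 : Complex.exp (ψ z) = Complex.exp η * (1 + ψ (ex c z) / ex c z) := by
      rw [hψn z hz, Complex.exp_add, Complex.exp_log]
      intro h0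
      have h2 := h.psi_ratio hz' (hψb (ex c z))
      have h3 : ψ (ex c z) / ex c z = -1 := by linear_combination h0
      rw [h3, norm_neg, norm_one] at h2
      have : 0 < 1 / L := by positivity
      linarith
    have h4 : ex c' (Φ z) = ex c z * Complex.exp (ψ z) * Complex.exp (-η) := by
      simp only [hc', hΦ, ex, Complex.exp_add]; ring
    rw [h4, h1]
    have h5 : Complex.exp η * Complex.exp (-η) = 1 := by
      rw [← Complex.exp_add, add_neg_cancel, Complex.exp_zero]
    calc ex c z * (Complex.exp η * (1 + ψ (ex c z) / ex c z)) * Complex.exp (-η)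
        = (Complex.exp η * Complex.exp (-η)) * (ex c z * (1 + ψ (ex c z) / ex c z)) := by ring
      _ = Φ (ex c z) := by rw [h5, one_mul, hΦ]; field_simp
  -- near the boundary
  have hin : ∀ z, ex c z ∈ K → ex c' (Φ z) ∈ K := by
    intro z hz
    have h4 : ex c' (Φ z) = ex c z * Complex.exp (((chi K d0 z - 1 : ℝ) : ℂ) * η) := by
      simp only [hc', hΦ, ex, hψK z hz]
      rw [Complex.exp_add]
      push_cast
      rw [sub_mul, one_mul, sub_eq_add_neg, Complex.exp_add]
      ring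
    have hχ0 := chi_nonneg h.d0pos (K := K) z
    have hχ1 := chi_le_one (K := K) (d0 := d0) z
    rcases hχ1.lt_or_eq with hlt | heq
    · have h5 := h.chi_lt hlt
      refine h.δ'K z h5 _ ?_
      rw [h4]
      refine lt_of_le_of_lt (h.near h5 (s := chi K d0 z - 1) ?_) h.ηδ'
      rw [abs_le]
      constructor <;> linarith
    · rw [h4, heq, sub_self]
      simpa using hz
  have hΦK : ∀ z ∈ K, Φ z = z := by
    intro z hz
    have h1 : ex c z ∈ K := interior_subset (h.trap.map z hz)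
    simp only [hΦ]
    rw [hψK z h1, chi_of_mem hz]
    simp
  -- injectivity of the cut off translation
  have hG : ∀ z w : ℂ, z + (chi K d0 z : ℂ) * η = w + (chi K d0 w : ℂ) * η → z = w := by
    intro z w hzw
    have h1 : z - w = ((chi K d0 w - chi K d0 z : ℝ) : ℂ) * η := by
      push_cast
      linear_combination hzw
    have h2 : ‖z - w‖ ≤ ‖z - w‖ / d0 * ‖η‖ := by
      conv_lhs => rw [h1]
      rw [norm_mul, Complex.norm_real, Real.norm_eq_abs, abs_sub_comm]
      exact mul_le_mul_of_nonneg_right (chi_lip h.d0pos z w) (norm_nonneg _)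
    by_contra hne
    have h3 : 0 < ‖z - w‖ := norm_pos_iff.2 (sub_ne_zero.2 hne)
    rw [div_mul_eq_mul_div, le_div_iff₀ h.d0pos] at h2
    have h4 : d0 ≤ ‖η‖ := le_of_mul_le_mul_left h2 h3
    exact absurd h.ηd (not_lt.2 h4)
  -- points outside K stay outside K
  have hout : ∀ w, w ∉ K → Φ w ∉ K := by
    intro w hw hcon
    by_cases hf : ex c w ∈ K
    · have h1 : Φ w = w + (chi K d0 w : ℂ) * η := by simp only [hΦ]; rw [hψK w hf]
      have h2 : Φ w + (chi K d0 (Φ w) : ℂ) * η = w + (chi K d0 w : ℂ) * η := by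
        rw [chi_of_mem hcon, ← h1]; simp
      have h3 := hG _ _ h2
      exact hw (h3 ▸ hcon)
    · have h1 := hfe w hf
      have h2 := h.near (h.infDist_mem hcon) (s := -1) (by simp)
      have e : ((-1 : ℝ) : ℂ) * η = -η := by push_cast; ring
      rw [e, ← ex', ← hc', h1] at h2
      have h3 := h.del1 _ (fun h' => hf (interior_subset h')) _ hcon
      have h4 := hψb (ex c w)
      have h5 : dist (ex c w) (Φ (ex c w)) ≤ b := by
        rw [dist_comm, dist_eq_norm]
        simp only [hΦ, add_sub_cancel_left]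
        exact h4
      have h6 := dist_triangle (ex c w) (Φ (ex c w)) (ex c (Φ w))
      have := h.bδ
      linarith
  -- reduction step
  have hred : ∀ z w, z ≠ w → Φ z = Φ w →
      ex c z ∉ K ∧ ex c w ∉ K ∧ ex c z ≠ ex c w ∧ Φ (ex c z) = Φ (ex c w) := by
    intro z w hne hzw
    by_cases hz : ex c z ∈ K <;> by_cases hw : ex c w ∈ K
    · exfalso
      apply hne
      apply hG
      simp only [hΦ, hψK z hz, hψK w hw] at hzw
      exact hzw
    · exfalso
      apply hout _ hw
      rw [← hfe w hw, ← hzw]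
      exact hin z hz
    · exfalso
      apply hout _ hz
      rw [← hfe z hz, hzw]
      exact hin w hw
    · refine ⟨hz, hw, fun heq => hne ?_, ?_⟩
      · have h1 : ψ z = ψ w := by rw [hψn z hz, hψn w hw, heq]
        simp only [hΦ, h1] at hzw
        exact add_right_cancel hzw
      · rw [← hfe z hz, ← hfe w hw, hzw]
  have hinj : Function.Injective Φ := by
    intro z w hzw
    by_contra hne
    have hall : ∀ n, (ex c)^[n] z ≠ (ex c)^[n] w ∧ Φ ((ex c)^[n] z) = Φ ((ex c)^[n] w) := by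
      intro n
      induction n with
      | zero => exact ⟨hne, hzw⟩
      | succ n ih =>
        obtain ⟨h1, h2, h3, h4⟩ := hred _ _ ih.1 ih.2
        rw [Function.iterate_succ_apply', Function.iterate_succ_apply']
        exact ⟨h3, h4⟩
    apply hne
    refine expand_unique h.hc h.trap hL h.c1pos h.grow h.del0 h.b1 h.b2 (fun n => ?_) (fun n => ?_)
    · rw [Function.iterate_succ_apply']
      exact (hred _ _ (hall n).1 (hall n).2).1
    · have h1 := (hall n).2
      simp only [hΦ] at h1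
      have h2 : (ex c)^[n] z - (ex c)^[n] w = ψ ((ex c)^[n] w) - ψ ((ex c)^[n] z) := by
        linear_combination h1
      rw [h2]
      refine (norm_sub_le _ _).trans ?_
      linarith [hψb ((ex c)^[n] w), hψb ((ex c)^[n] z)]
  obtain ⟨H, hH⟩ := disp_homeo (Φ := Φ) (continuous_id.add hψc) (b := b)
    (fun z => by simp only [hΦ, add_sub_cancel_left]; exact hψb z) hinj
  refine ⟨H, ?_⟩
  ext w
  constructor
  · rintro ⟨z, hz, rfl⟩ n
    rw [hH]
    have h1 : ∀ n, (ex c')^[n] (Φ z) = Φ ((ex c)^[n] z) := by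
      intro n
      induction n with
      | zero => rfl
      | succ n ih =>
        rw [Function.iterate_succ_apply', ih, Function.iterate_succ_apply']
        apply hfe
        rw [← Function.iterate_succ_apply' (ex c)]
        exact hz _
    rw [h1]
    exact hout _ (hz n)
  · intro hw
    refine ⟨H.symm w, ?_, H.apply_symm_apply w⟩
    set z := H.symm w with hz
    have hzw : Φ z = w := by rw [← hH, hz, H.apply_symm_apply]
    have h1 : ∀ n, (ex c)^[n] z ∉ K ∧ (ex c')^[n] w = Φ ((ex c)^[n] z) := by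
      intro n
      induction n with
      | zero =>
        refine ⟨fun h0 => ?_, hzw.symm⟩
        have h2 := hw 0
        rw [← hzw] at h2
        simp only [Function.iterate_zero, id_eq] at h0 h2
        rw [hΦK z h0] at h2
        exact h2 h0
      | succ n ih =>
        have h2 : ex c ((ex c)^[n] z) ∉ K := by
          intro h3
          have h4 := hin _ h3
          rw [← ih.2, ← Function.iterate_succ_apply' (ex c')] at h4
          exact hw _ h4
        rw [Function.iterate_succ_apply', Function.iterate_succ_apply']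
        exact ⟨h2, by rw [ih.2]; exact hfe _ h2⟩
    exact fun n => (h1 n).1

end SD

/-- local stability -/
theorem Trap.stable {c : ℂ} {K : Set ℂ} (hc : c ≠ 0) (h : Trap c K) :
    ∀ᶠ c' in 𝓝 c, c' ≠ 0 ∧ Trap c' K ∧ ∃ H : ℂ ≃ₜ ℂ, H '' Esc c K = Esc c' K := by
  obtain ⟨κ, c1, hκ, hc1, hc1', hgrow⟩ := h.expand hc
  obtain ⟨δ, hδ, hd⟩ := h.delta
  set L := Real.sqrt κ with hLdef
  have hL2 : L ^ 2 = κ := Real.sq_sqrt (by linarith)
  have hL : 1 < L := by
    rw [hLdef, ← Real.sqrt_one]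
    exact Real.sqrt_lt_sqrt zero_le_one hκ
  have hL0 : 0 < L := by linarith
  have hLi : 1 / L < 1 := by rw [div_lt_one hL0]; exact hL
  have hKne : K.Nonempty := ⟨0, interior_subset h.zero⟩
  obtain ⟨d0, hd0, hd0K⟩ := h.cpt.exists_cthickening_subset_open
    (isOpen_interior.preimage (ex_cont c)) (fun z hz => h.map z hz)
  have hthick : ∀ z, infDist z K ≤ d0 → z ∈ cthickening d0 K := by
    intro z hz
    obtain ⟨y, hy, hyd⟩ := h.cpt.exists_infDist_eq_dist hKne z
    exact mem_cthickening_of_dist_le z y d0 K hy (hyd ▸ hz)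
  have hcK : IsCompact (ex c '' cthickening d0 K) := h.cpt.cthickening.image (ex_cont c)
  obtain ⟨δ', hδ', hδK⟩ := hcK.exists_thickening_subset_open isOpen_interior
    (show ex c '' cthickening d0 K ⊆ interior K by
      rintro _ ⟨z, hz, rfl⟩
      exact hd0K hz)
  obtain ⟨M0, hM0⟩ := hcK.isBounded.exists_norm_le
  set M := max M0 0 with hM
  have hq : 0 < (1 - 1 / L) * c1 := mul_pos (by linarith) hc1
  -- the conditions on η
  have hη : ∀ᶠ η in 𝓝 (0 : ℂ), ‖η‖ ≤ 1 ∧ 2 * (‖η‖ / ((1 - 1 / L) * c1)) ≤ (1 - 1 / L) * δ ∧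
      2 * (‖η‖ / ((1 - 1 / L) * c1)) ≤ 1 ∧ ‖η‖ < d0 ∧ 2 * ‖η‖ * M < δ' ∧
      ‖η‖ / ((1 - 1 / L) * c1) + 2 * ‖η‖ * M < δ := by
    have hn : Tendsto (fun η : ℂ => ‖η‖) (𝓝 0) (𝓝 0) := by
      have := (continuous_norm (E := ℂ)).tendsto 0
      rwa [norm_zero] at this
    have t1 : Tendsto (fun η : ℂ => 2 * (‖η‖ / ((1 - 1 / L) * c1))) (𝓝 0) (𝓝 0) := by
      have := (hn.div_const ((1 - 1 / L) * c1)).const_mul 2
      simpa using this
    have t2 : Tendsto (fun η : ℂ => 2 * ‖η‖ * M) (𝓝 0) (𝓝 0) := by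
      have := (hn.const_mul 2).mul_const M
      simpa using this
    have t3 : Tendsto (fun η : ℂ => ‖η‖ / ((1 - 1 / L) * c1) + 2 * ‖η‖ * M) (𝓝 0) (𝓝 0) := by
      have := (hn.div_const ((1 - 1 / L) * c1)).add t2
      simpa using this
    filter_upwards [hn.eventually (ge_mem_nhds one_pos),
      t1.eventually (ge_mem_nhds (show 0 < (1 - 1 / L) * δ from mul_pos (by linarith) hδ)),
      t1.eventually (ge_mem_nhds one_pos), hn.eventually (gt_mem_nhds hd0),
      t2.eventually (gt_mem_nhds hδ'), t3.eventually (gt_mem_nhds hδ)] with η a1 a2 a3 a4 a5 a6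
    exact ⟨a1, a2, a3, a4, a5, a6⟩
  have hlog : Tendsto (fun c' : ℂ => Complex.log (c / c')) (𝓝 c) (𝓝 0) := by
    have h1 : ContinuousAt (fun c' : ℂ => Complex.log (c / c')) c := by
      refine ContinuousAt.clog (continuousAt_const.div continuousAt_id hc) ?_
      left
      simp [div_self hc]
    have h2 := h1.tendsto
    rwa [div_self hc, Complex.log_one] at h2
  filter_upwards [hlog.eventually hη, isOpen_ne.mem_nhds hc] with c' hc'η hc'0
  obtain ⟨a1, a2, a3, a4, a5, a6⟩ := hc'η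
  have hc'0 : c' ≠ 0 := hc'0
  set η := Complex.log (c / c') with hηdef
  have hce : c * Complex.exp (-η) = c' := by
    rw [Complex.exp_neg, hηdef, Complex.exp_log (div_ne_zero hc hc'0)]
    field_simp
  have hSD : SD c K L c1 δ d0 δ' M (‖η‖ / ((1 - 1 / L) * c1)) η := by
    refine ⟨hc, h, hL, hc1, hc1', ?_, hδ, ?_, ?_, hd0, ?_, ?_, ?_, le_max_right _ _, ?_, a1, a2, a3,
      a4, a5, a6⟩
    · rw [hL2]; exact hgrow
    · intro w hw
      have := (hd w hw).1
      rwa [dist_zero_right] at this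
    · intro w hw
      exact (hd w hw).2
    · exact fun z hz => hd0K (hthick z hz)
    · intro z hz w hw
      exact interior_subset (hδK (mem_thickening_iff.2 ⟨ex c z, ⟨z, hthick z hz, rfl⟩, hw⟩))
    · intro z hz
      exact (hM0 _ ⟨z, hthick z hz, rfl⟩).trans (le_max_left _ _)
    · exact (mul_div_cancel₀ _ hq.ne').symm
  have h1 := hSD.trap'
  have h2 := hSD.homeo
  rw [hce] at h1 h2
  exact ⟨hc'0, h1, h2⟩

/-- local stability of the Julia set -/
theorem Trap.stable_jul {c : ℂ} {K : Set ℂ} (hc : c ≠ 0) (h : Trap c K) :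
    ∀ᶠ c' in 𝓝 c, c' ≠ 0 ∧ Trap c' K ∧ ∃ H : ℂ ≃ₜ ℂ, H '' Jul c = Jul c' := by
  filter_upwards [h.stable hc] with c' hc'
  refine ⟨hc'.1, hc'.2.1, ?_⟩
  rw [h.jul hc, hc'.2.1.jul hc'.1]
  exact hc'.2.2

end Run7.h102
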