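import Mathlib
import Pool.Agent.Run7.h102.Stab2
import Pool.Agent.Run7.h102.Basin

/-! Connectedness of the sets of parameters with an attracting cycle of period one and two
(helper102, MP_3a87b6_an). -/

set_option autoImplicit false

open Set Filter Topology Metric

namespace Run7.h102

theorem jul_equiv {S : Set ℂ} (hS : IsPreconnected S) {γ : ℂ → ℂ} (hγ : ContinuousOn γ S)
    (h : ∀ x ∈ S, γ x ≠ 0 ∧ ∃ K, Trap (γ x) K) {x y : ℂ} (hx : x ∈ S) (hy : y ∈ S) :
    ∃ H : ℂ ≃ₜ ℂ, H '' Jul (γ x) = Jul (γ y) := by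
  refine hS.induction₂' (fun x y => ∃ H : ℂ ≃ₜ ℂ, H '' Jul (γ x) = Jul (γ y)) ?_ ?_ hx hy
  · intro x hx
    obtain ⟨h0, K, hK⟩ := h x hx
    have h1 := (hγ x hx).eventually (hK.stable_jul h0)
    filter_upwards [h1] with y hy
    obtain ⟨-, -, H, hH⟩ := hy
    refine ⟨⟨H, hH⟩, H.symm, ?_⟩
    rw [← hH, ← image_comp]
    simp
  · rintro x y z - - - ⟨H, hH⟩ ⟨H', hH'⟩
    refine ⟨H.trans H', ?_⟩
    rw [← hH', ← hH, ← image_comp]
    rfl

/-- `ex c` has an attracting cycle of exact period `p` through `a` -/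
def AttC (c a : ℂ) (p : ℕ) : Prop :=
  c ≠ 0 ∧ 0 < p ∧ (ex c)^[p] a = a ∧ (∀ k, (ex c)^[k] a = a → p ∣ k) ∧ ‖D c p a‖ < 1

theorem AttC.ac {c a : ℂ} {p : ℕ} (h : AttC c a p) : ∃ (K : Set ℂ) (r q : ℝ), AC c a p K r q :=
  exists_AC h.1 h.2.1 h.2.2.1 h.2.2.2.1 h.2.2.2.2

theorem AttC.trap {c a : ℂ} {p : ℕ} (h : AttC c a p) : ∃ K, Trap c K := by
  obtain ⟨K, r, q, hac⟩ := h.ac
  exact ⟨K, hac.trap⟩

theorem attC_one {w : ℂ} (h0 : w ≠ 0) (h1 : ‖w‖ < 1) : AttC (w * Complex.exp (-w)) w 1 := by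
  have hf : ex (w * Complex.exp (-w)) w = w := by
    rw [ex, mul_assoc, ← Complex.exp_add, neg_add_cancel, Complex.exp_zero, mul_one]
  refine ⟨mul_ne_zero h0 (Complex.exp_ne_zero _), one_pos, ?_, fun k _ => one_dvd k, ?_⟩
  · rw [Function.iterate_one, hf]
  · rw [D_succ, D_zero, mul_one, hf]
    exact h1

theorem attC_one' {c a : ℂ} (h : AttC c a 1) : a ≠ 0 ∧ ‖a‖ < 1 ∧ c = a * Complex.exp (-a) := by
  obtain ⟨hc, -, hf, -, hm⟩ := h
  rw [Function.iterate_one] at hf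
  rw [D_succ, D_zero, mul_one, hf] at hm
  refine ⟨?_, hm, ?_⟩
  · rw [← hf]; exact ex_ne_zero hc a
  · rw [Complex.exp_neg, eq_mul_inv_iff_mul_eq₀ (Complex.exp_ne_zero a)]
    exact hf

/-- all Julia sets with an attracting fixed point are equivalently embedded -/
theorem equiv_one {c c' a a' : ℂ} (h : AttC c a 1) (h' : AttC c' a' 1) :
    ∃ H : ℂ ≃ₜ ℂ, H '' Jul c = Jul c' := by
  obtain ⟨h1, h2, h3⟩ := attC_one' h
  obtain ⟨h1', h2', h3'⟩ := attC_one' h'
  have := jul_equiv (S := ball (0 : ℂ) 1 \ {0}) (γ := fun w => w * Complex.exp (-w))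
    (punct_ball 0 one_pos) (by fun_prop) (fun x hx => by
      have hx1 : ‖x‖ < 1 := by simpa using hx.1
      have := attC_one (w := x) hx.2 hx1
      exact ⟨this.1, this.trap⟩) (x := a) (y := a') ⟨by simpa using h2, h1⟩
      ⟨by simpa using h2', h1'⟩
  rw [h3, h3']
  exact this

/-! period two -/

/-- the first point of the cycle, difference of the points `2 x` -/
noncomputable def zz1 (x : ℂ) : ℂ := 2 * x / (Complex.exp (-(2 * x)) - 1)

noncomputable def zz0 (x : ℂ) : ℂ := zz1 x + 2 * x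

noncomputable def cc2 (x : ℂ) : ℂ := zz1 x * Complex.exp (-zz0 x)

def SS2 : Set ℂ := {x | 0 < x.re ∧ ‖x‖ < ‖Complex.sinh x‖}

theorem norm_sinh_sq (x : ℂ) :
    ‖Complex.sinh x‖ ^ 2 = Real.sinh x.re ^ 2 + Real.sin x.im ^ 2 := by
  have h1 : Complex.sinh x = ((Real.sinh x.re * Real.cos x.im : ℝ) : ℂ) +
      ((Real.cosh x.re * Real.sin x.im : ℝ) : ℂ) * Complex.I := by
    conv_lhs => rw [← Complex.re_add_im x]
    rw [Complex.sinh_add, Complex.sinh_mul_I, Complex.cosh_mul_I]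
    push_cast
    ring
  rw [h1, ← Complex.normSq_eq_norm_sq, Complex.normSq_add_mul_I]
  have h2 := Real.cosh_sq x.re
  have h3 := Real.sin_sq_add_cos_sq x.im
  have h4 : (Real.sinh x.re * Real.cos x.im) ^ 2 + (Real.cosh x.re * Real.sin x.im) ^ 2 =
      Real.sinh x.re ^ 2 * Real.cos x.im ^ 2 + Real.cosh x.re ^ 2 * Real.sin x.im ^ 2 := by ring
  rw [h4, h2]
  have h5 : Real.cos x.im ^ 2 = 1 - Real.sin x.im ^ 2 := by linarith
  rw [h5]
  ring

theorem ss2_iff (x : ℂ) : x ∈ SS2 ↔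
    0 < x.re ∧ x.im ^ 2 - Real.sin x.im ^ 2 < Real.sinh x.re ^ 2 - x.re ^ 2 := by
  unfold SS2
  rw [mem_ofPred_eq, ← pow_lt_pow_iff_left₀ (norm_nonneg _) (norm_nonneg _) two_ne_zero,
    norm_sinh_sq, ← Complex.normSq_eq_norm_sq, Complex.normSq_apply]
  constructor
  · rintro ⟨h1, h2⟩
    exact ⟨h1, by nlinarith⟩
  · rintro ⟨h1, h2⟩
    exact ⟨h1, by nlinarith⟩

theorem sinh_mono {s t : ℝ} (hs : 0 ≤ s) (hst : s ≤ t) :
    Real.sinh s ^ 2 - s ^ 2 ≤ Real.sinh t ^ 2 - t ^ 2 := by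
  have h1 : Real.sinh s - s ≤ Real.sinh t - t := Real.sinh_sub_id_strictMono.monotone hst
  have h2 : Real.sinh s ≤ Real.sinh t := Real.sinh_le_sinh.2 hst
  have h3 : 0 ≤ Real.sinh s := Real.sinh_nonneg_iff.2 hs
  have h4 : s ≤ Real.sinh s := Real.self_le_sinh_iff.2 hs
  have h5 : Real.sinh s ^ 2 - s ^ 2 = (Real.sinh s - s) * (Real.sinh s + s) := by ring
  have h6 : Real.sinh t ^ 2 - t ^ 2 = (Real.sinh t - t) * (Real.sinh t + t) := by ring
  rw [h5, h6]
  exact mul_le_mul h1 (by linarith) (by linarith) (by linarith)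

theorem sinh_large {t B : ℝ} (hB : 0 ≤ B) (ht : 4 + B ≤ t) : B ^ 2 < Real.sinh t ^ 2 - t ^ 2 := by
  have ht0 : 0 ≤ t := by linarith
  have h1 := Real.quadratic_le_exp_of_nonneg ht0
  have h2 : Real.exp (-t) ≤ 1 := Real.exp_le_one_iff.2 (by linarith)
  have h3 : Real.sinh t = (Real.exp t - Real.exp (-t)) / 2 := Real.sinh_eq t
  have h4 : t / 2 + t ^ 2 / 4 ≤ Real.sinh t := by rw [h3]; linarith
  have h5 : Real.sinh t ^ 2 - t ^ 2 = (Real.sinh t - t) * (Real.sinh t + t) := by ring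
  have h6 : t / 2 ≤ Real.sinh t - t := by nlinarith
  have h7 : 2 * t ≤ Real.sinh t + t := by nlinarith
  rw [h5]
  have h8 : t / 2 * (2 * t) ≤ (Real.sinh t - t) * (Real.sinh t + t) :=
    mul_le_mul h6 h7 (by linarith) (by linarith)
  nlinarith

theorem ss2_conn : IsPreconnected SS2 := by
  refine isPreconnected_of_forall_pair fun x hx y hy => ?_
  set B := max |x.im| |y.im| with hB
  set A := max (4 + B) (max x.re y.re) with hA
  have hB0 : 0 ≤ B := (abs_nonneg _).trans (le_max_left _ _)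
  have hA4 : 4 + B ≤ A := le_max_left _ _
  set R : Set ℂ := {z | A ≤ z.re} ∩ ({z | z.im ≤ B} ∩ {z | -B ≤ z.im}) with hR
  have hRc : IsPreconnected R := ((convex_halfSpace_re_ge A).inter
    ((convex_halfSpace_im_le B).inter (convex_halfSpace_im_ge (-B)))).isPreconnected
  have hRS : R ⊆ SS2 := by
    rintro z ⟨hz1, hz2, hz3⟩
    have hz1' : A ≤ z.re := hz1
    have hz2' : z.im ≤ B := hz2
    have hz3' : -B ≤ z.im := hz3
    rw [ss2_iff]
    refine ⟨by linarith, ?_⟩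
    have h1 := sinh_large hB0 (hA4.trans hz1')
    have h2 : z.im ^ 2 ≤ B ^ 2 := by
      rw [sq_le_sq, abs_of_nonneg hB0, abs_le]
      exact ⟨hz3', hz2'⟩
    have h3 := sq_nonneg (Real.sin z.im)
    linarith
  have ray : ∀ z ∈ SS2, IsPreconnected ({w : ℂ | z.re ≤ w.re} ∩ {w | w.im = z.im}) ∧
      ({w : ℂ | z.re ≤ w.re} ∩ {w | w.im = z.im}) ⊆ SS2 := by
    intro z hz
    rw [ss2_iff] at hz
    constructor
    · have : {w : ℂ | w.im = z.im} = {w | w.im ≤ z.im} ∩ {w | z.im ≤ w.im} := by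
        ext w
        exact le_antisymm_iff
      rw [this]
      exact ((convex_halfSpace_re_ge _).inter ((convex_halfSpace_im_le _).inter
        (convex_halfSpace_im_ge _))).isPreconnected
    · rintro w ⟨hw1, hw2⟩
      have hw1' : z.re ≤ w.re := hw1
      have hw2' : w.im = z.im := hw2
      rw [ss2_iff, hw2']
      exact ⟨by linarith, lt_of_lt_of_le hz.2 (sinh_mono hz.1.le hw1')⟩
  have pt : ∀ z : ℂ, z.re ≤ A → |z.im| ≤ B →
      ((A : ℂ) + z.im * Complex.I) ∈ ({w : ℂ | z.re ≤ w.re} ∩ {w | w.im = z.im}) ∩ R := by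
    intro z h1 h2
    rw [abs_le] at h2
    refine ⟨⟨?_, ?_⟩, ?_, ?_, ?_⟩
    · show z.re ≤ ((A : ℂ) + z.im * Complex.I).re
      simpa using h1
    · show ((A : ℂ) + z.im * Complex.I).im = z.im
      simp
    · show A ≤ ((A : ℂ) + z.im * Complex.I).re
      simp
    · show ((A : ℂ) + z.im * Complex.I).im ≤ B
      simpa using h2.2
    · show -B ≤ ((A : ℂ) + z.im * Complex.I).im
      simpa using h2.1
  have hxp := pt x ((le_max_left _ _).trans (le_max_right _ _)) (le_max_left _ _)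
  have hyp := pt y ((le_max_right _ _).trans (le_max_right _ _)) (le_max_right _ _)
  refine ⟨(({w : ℂ | x.re ≤ w.re} ∩ {w | w.im = x.im}) ∪ R) ∪
    ({w : ℂ | y.re ≤ w.re} ∩ {w | w.im = y.im}), ?_, Or.inl (Or.inl ⟨le_refl x.re, rfl⟩),
    Or.inr ⟨le_refl y.re, rfl⟩, ?_⟩
  · exact union_subset (union_subset (ray x hx).2 hRS) (ray y hy).2
  · exact ((ray x hx).1.union _ hxp.1 hxp.2 hRc).union _ (Or.inr hyp.2) hyp.1 (ray y hy).1

theorem ss2_ne {x : ℂ} (hx : x ∈ SS2) : x ≠ 0 ∧ Complex.exp (-(2 * x)) - 1 ≠ 0 := by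
  have h1 : x ≠ 0 := by
    rintro rfl
    have := hx.1
    simp at this
  refine ⟨h1, fun h => ?_⟩
  have h2 := hx.2
  have h3 : Complex.sinh x = 0 := by
    have h4 : Complex.exp (-(2 * x)) = 1 := by linear_combination h
    have h5 : Complex.exp (-x) = Complex.exp x := by
      have h6 : Complex.exp (-x) = Complex.exp x * Complex.exp (-(2 * x)) := by
        rw [← Complex.exp_add]; congr 1; ring
      rw [h6, h4, mul_one]
    rw [Complex.sinh, h5, sub_self, zero_div]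
  rw [h3, norm_zero] at h2
  exact absurd h2 (not_lt.2 (norm_nonneg _))

theorem cc2_cont : ContinuousOn cc2 SS2 := by
  have h1 : ContinuousOn zz1 SS2 := by
    refine ContinuousOn.div (by fun_prop) (by fun_prop) ?_
    exact fun x hx => (ss2_ne hx).2
  unfold cc2
  refine h1.mul (Complex.continuous_exp.comp_continuousOn ?_)
  unfold zz0
  exact (h1.add (by fun_prop)).neg

theorem zz_prod {x : ℂ} (h2 : Complex.exp (-(2 * x)) - 1 ≠ 0) :
    zz0 x * zz1 x * Complex.sinh x ^ 2 = x ^ 2 := by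
  have h3 : zz1 x * (Complex.exp (-(2 * x)) - 1) = 2 * x := div_mul_cancel₀ _ h2
  have h4 : zz0 x = zz1 x * Complex.exp (-(2 * x)) := by
    rw [zz0]; linear_combination -h3
  have h5 : Complex.exp (-(2 * x)) * Complex.sinh x ^ 2 * 4 = (Complex.exp (-(2 * x)) - 1) ^ 2 := by
    have e1 : Complex.exp (-(2 * x)) = Complex.exp (-x) ^ 2 := by
      rw [← Complex.exp_nat_mul]; congr 1; push_cast; ring
    have e2 : Complex.exp x * Complex.exp (-x) = 1 := by
      rw [← Complex.exp_add, add_neg_cancel, Complex.exp_zero]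
    rw [Complex.sinh, e1]
    have : Complex.exp (-x) ^ 2 * ((Complex.exp x - Complex.exp (-x)) / 2) ^ 2 * 4 =
        (Complex.exp x * Complex.exp (-x) - Complex.exp (-x) ^ 2) ^ 2 := by ring
    rw [this, e2]
    ring
  rw [h4]
  have : zz1 x * Complex.exp (-(2 * x)) * zz1 x * Complex.sinh x ^ 2 * 4 = x ^ 2 * 4 := by
    calc zz1 x * Complex.exp (-(2 * x)) * zz1 x * Complex.sinh x ^ 2 * 4
        = zz1 x ^ 2 * (Complex.exp (-(2 * x)) * Complex.sinh x ^ 2 * 4) := by ring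
      _ = (zz1 x * (Complex.exp (-(2 * x)) - 1)) ^ 2 := by rw [h5]; ring
      _ = x ^ 2 * 4 := by rw [h3]; ring
  exact mul_right_cancel₀ (by norm_num) this

theorem iter_two {c z0 z1 : ℂ} (h0 : ex c z0 = z1) (h1 : ex c z1 = z0) (hne : z0 ≠ z1) :
    (ex c)^[2] z0 = z0 ∧ (∀ k, (ex c)^[k] z0 = z0 → 2 ∣ k) ∧ D c 2 z0 = z1 * z0 := by
  have h2 : (ex c)^[2] z0 = z0 := by
    rw [Function.iterate_succ_apply, Function.iterate_one, h0, h1]
  refine ⟨h2, fun k hk => ?_, ?_⟩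
  · rcases Nat.even_or_odd' k with ⟨m, rfl | rfl⟩
    · exact ⟨m, rfl⟩
    · exfalso
      have h3 : (ex c)^[2 * m] z0 = z0 := by
        rw [Function.iterate_mul]
        exact Function.iterate_fixed h2 m
      rw [Function.iterate_succ_apply', h3, h0] at hk
      exact hne hk.symm
  · rw [D_succ, D_succ, D_zero, mul_one, h0, h1]

theorem attC_two {x : ℂ} (hx : x ∈ SS2) : AttC (cc2 x) (zz0 x) 2 := by
  obtain ⟨hx0, hx1⟩ := ss2_ne hx
  have h3 : zz1 x * (Complex.exp (-(2 * x)) - 1) = 2 * x := div_mul_cancel₀ _ hx1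
  have hz1 : zz1 x ≠ 0 := div_ne_zero (mul_ne_zero two_ne_zero hx0) hx1
  have h0 : ex (cc2 x) (zz0 x) = zz1 x := by
    rw [ex, cc2, mul_assoc, ← Complex.exp_add, neg_add_cancel, Complex.exp_zero, mul_one]
  have h1 : ex (cc2 x) (zz1 x) = zz0 x := by
    rw [ex, cc2, mul_assoc, ← Complex.exp_add]
    have : -zz0 x + zz1 x = -(2 * x) := by rw [zz0]; ring
    rw [this, zz0]
    linear_combination h3
  have hne : zz0 x ≠ zz1 x := by
    intro h
    rw [zz0] at h
    have : 2 * x = 0 := by linear_combination h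
    exact (mul_ne_zero two_ne_zero hx0) this
  obtain ⟨i1, i2, i3⟩ := iter_two h0 h1 hne
  refine ⟨mul_ne_zero hz1 (Complex.exp_ne_zero _), two_pos, i1, i2, ?_⟩
  rw [i3, mul_comm]
  have h4 := zz_prod hx1
  have h5 : ‖zz0 x * zz1 x‖ * ‖Complex.sinh x‖ ^ 2 = ‖x‖ ^ 2 := by
    rw [← norm_pow, ← norm_mul, h4, norm_pow]
  have h6 := hx.2
  have h7 : 0 ≤ ‖x‖ := norm_nonneg _
  by_contra hcon
  rw [not_lt] at hcon
  have h8 : ‖x‖ ^ 2 < ‖Complex.sinh x‖ ^ 2 := by nlinarith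
  nlinarith [sq_nonneg ‖Complex.sinh x‖]

theorem attC_two' {c a : ℂ} (h : AttC c a 2) : ∃ x ∈ SS2, c = cc2 x := by
  -- it suffices to treat a cycle whose difference has nonnegative real part
  have main : ∀ z0 z1 : ℂ, ex c z0 = z1 → ex c z1 = z0 → z0 ≠ z1 → ‖z1 * z0‖ < 1 →
      0 ≤ (z0 - z1).re → ∃ x ∈ SS2, c = cc2 x := by
    intro z0 z1 h0 h1 hne hm hre
    have hc := h.1
    set x := (z0 - z1) / 2 with hx
    have hx0 : x ≠ 0 := div_ne_zero (sub_ne_zero.2 hne) two_ne_zero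
    have hz1 : z1 ≠ 0 := by rw [← h0]; exact ex_ne_zero hc _
    have e1 : z0 = z1 * Complex.exp (-(2 * x)) := by
      have e2 : -(2 * x) = z1 - z0 := by rw [hx]; ring
      have h0' : c * Complex.exp z0 = z1 := h0
      have h1' : c * Complex.exp z1 = z0 := h1
      rw [e2, Complex.exp_sub, mul_div_assoc', eq_div_iff (Complex.exp_ne_zero z0)]
      linear_combination (-(Complex.exp z0)) * h1' + Complex.exp z1 * h0'
    have hx1 : Complex.exp (-(2 * x)) - 1 ≠ 0 := by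
      intro h2
      apply hne
      rw [e1]
      have : Complex.exp (-(2 * x)) = 1 := by linear_combination h2
      rw [this, mul_one]
    have e3 : z1 = zz1 x := by
      rw [zz1, eq_div_iff hx1]
      have e4 : 2 * x = z0 - z1 := by rw [hx]; ring
      linear_combination -e1 - e4
    have e5 : z0 = zz0 x := by
      rw [zz0, ← e3, hx]; ring
    have e6 : c = cc2 x := by
      rw [cc2, ← e3, ← e5, ← h0, ex, mul_assoc, ← Complex.exp_add, add_neg_cancel,
        Complex.exp_zero, mul_one]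
    refine ⟨x, ?_, e6⟩
    have h4 := zz_prod hx1
    rw [← e3, ← e5] at h4
    have h5 : ‖z1 * z0‖ * ‖Complex.sinh x‖ ^ 2 = ‖x‖ ^ 2 := by
      rw [← norm_pow, ← norm_mul, mul_comm z1, h4, norm_pow]
    have hxn : 0 < ‖x‖ := norm_pos_iff.2 hx0
    have hlt : ‖x‖ < ‖Complex.sinh x‖ := by
      have h6 : ‖x‖ ^ 2 < ‖Complex.sinh x‖ ^ 2 := by
        have h7 : 0 < ‖Complex.sinh x‖ ^ 2 := by
          rcases (sq_nonneg ‖Complex.sinh x‖).lt_or_eq with h8 | h8
          · exact h8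
          · rw [← h8, mul_zero] at h5
            nlinarith
        nlinarith
      exact lt_of_pow_lt_pow_left₀ 2 (norm_nonneg _) h6
    have hre' : 0 ≤ x.re := by
      have : x.re = (z0 - z1).re / 2 := by
        rw [hx]
        have : (z0 - z1) / 2 = ((1 / 2 : ℝ) : ℂ) * (z0 - z1) := by push_cast; ring
        rw [this, Complex.re_ofReal_mul]
        ring
      rw [this]; linarith
    rcases hre'.lt_or_eq with h6 | h6
    · exact ⟨h6, hlt⟩
    · exfalso
      have h7 : ‖x‖ ^ 2 < ‖Complex.sinh x‖ ^ 2 := by nlinarith [norm_nonneg x]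
      rw [norm_sinh_sq, ← Complex.normSq_eq_norm_sq, Complex.normSq_apply, ← h6, Real.sinh_zero] at h7
      have h8 : Real.sin x.im ^ 2 ≤ x.im ^ 2 := by
        rw [sq_le_sq]
        exact Real.abs_sin_le_abs
      nlinarith
  obtain ⟨hc, -, hf, hmin, hm⟩ := h
  set b := ex c a with hb
  have h0 : ex c a = b := rfl
  have h1 : ex c b = a := by
    rw [Function.iterate_succ_apply, Function.iterate_one] at hf
    exact hf
  have hne : a ≠ b := by
    intro h2
    have := hmin 1 (by rw [Function.iterate_one, h0]; exact h2.symm)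
    omega
  obtain ⟨-, -, i3⟩ := iter_two h0 h1 hne
  rw [i3] at hm
  rcases le_total 0 (a - b).re with h2 | h2
  · exact main a b h0 h1 hne hm h2
  · refine main b a h1 h0 (Ne.symm hne) (by rwa [mul_comm]) ?_
    have : (b - a).re = -(a - b).re := by simp
    rw [this]; linarith

/-- all Julia sets with an attracting cycle of exact period two are equivalently embedded -/
theorem equiv_two {c c' a a' : ℂ} (h : AttC c a 2) (h' : AttC c' a' 2) :
    ∃ H : ℂ ≃ₜ ℂ, H '' Jul c = Jul c' := by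
  obtain ⟨x, hx, rfl⟩ := attC_two' h
  obtain ⟨y, hy, rfl⟩ := attC_two' h'
  exact jul_equiv ss2_conn cc2_cont (fun x hx => ⟨(attC_two hx).1, (attC_two hx).trap⟩) hx hy

end Run7.h102
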