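import Mathlib
import Pool.Agent.Run7.h102.Basin

/-! Real negative parameters with an attracting cycle of period two: the separation properties of
the Julia set (helper102, MP_3a87b6_an). -/

set_option autoImplicit false

open Set Filter Topology Metric

namespace Run7.h102

/-- a point in the left half plane is separated from `b` by `Z` only if the image of `Z` separates
`0` from the image of `b` -/
theorem d2 {c : ℂ} {K : Set ℂ} (hc : c ≠ 0) (h : Trap c K) {Z Z' : Set ℂ} (hZ : Cmp (Esc c K) Z)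
    (hZ' : Cmp (Esc c K) Z') (hr : TD.Rl (ex c) Z Z') {M : ℝ}
    (hM : ∀ z : ℂ, z.re ≤ -M → ex c z ∈ K) {p0 b : ℂ} (hp0 : p0.re ≤ -M)
    (hs : Sp Z p0 b) : Sp Z' 0 (ex c b) := by
  by_contra hcon
  obtain ⟨D, hD, h0D, hbD, hdis⟩ := not_sep_iff.1 hcon
  set V := connectedComponentIn Z'ᶜ 0 with hV
  have hZ'c : IsClosed Z' := hZ'.closed h.isClosed_Esc
  have hDV : D ⊆ V := hD.subset_connectedComponentIn h0D
    (fun x hx hxZ => hdis.le_bot ⟨hx, hxZ⟩)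
  have hVo : IsOpen V := hZ'c.isOpen_compl.connectedComponentIn
  have hVZ : V ⊆ Z'ᶜ := connectedComponentIn_subset _ _
  obtain ⟨w, hw, hwM⟩ := lift_left hc hVo isPreconnected_connectedComponentIn (hDV h0D)
    (b := b) (hDV hbD) (-M)
  set W := connectedComponentIn (ex c ⁻¹' V) b with hW
  have hWV : W ⊆ ex c ⁻¹' V := connectedComponentIn_subset _ _
  apply not_sep_iff.2 ⟨{z : ℂ | z.re ≤ -M} ∪ W, ?_, Or.inl hp0,
    Or.inr (mem_connectedComponentIn (show b ∈ ex c ⁻¹' V from hDV hbD)), ?_⟩ hs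
  · exact (convex_halfSpace_re_le (-M)).isPreconnected.union w hwM.le hw
      isPreconnected_connectedComponentIn
  · rw [Set.disjoint_left]
    rintro z (hz | hz) hzZ
    · have hz' : z.re ≤ -M := hz
      have h1 := (h.inv z).2 (hZ.sub hzZ)
      exact h.K_not (hM z hz') h1
    · exact hVZ (hWV hz) (hr z hzZ)

/-- points off a component are not separated by it from points of the Fatou set -/
theorem rep_pt {c : ℂ} {K : Set ℂ} (hc : c ≠ 0) (h : Trap c K) {Z : Set ℂ}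
    (hZ : Cmp (Esc c K) Z) {x : ℂ} (hx : x ∉ Z) : ∃ x', x' ∉ Esc c K ∧ ¬ Sp Z x x' := by
  have h1 := near_not_sep (hZ.closed h.isClosed_Esc) hx
  by_contra hcon
  push Not at hcon
  have h2 : ∀ᶠ y in 𝓝 x, y ∈ Esc c K := by
    filter_upwards [h1] with y hy
    by_contra h3
    exact hy.2 (hcon y h3)
  have h3 : x ∈ interior (Esc c K) := mem_interior_iff_mem_nhds.2 h2
  rw [h.int_empty hc] at h3
  exact h3

/-- the data for a real negative parameter -/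
structure NG (l α a0 a1 : ℝ) (K : Set ℂ) (r q : ℝ) : Prop where
  neg : l < 0
  ac : AC (l : ℂ) (a1 : ℂ) 2 K r q
  fa1 : ex (l : ℂ) (a1 : ℂ) = (a0 : ℂ)
  fα : ex (l : ℂ) (α : ℂ) = (α : ℂ)
  o1 : a0 < α
  o2 : α < a1
  o3 : a1 < 0
  rl : ∀ x : ℝ, x ≠ α → (x : ℂ) ∉ Esc (l : ℂ) K

/-- the open strips -/
def Tj (j : ℤ) : Set ℂ := {z | 2 * Real.pi * j - Real.pi < z.im ∧ z.im < 2 * Real.pi * j + Real.pi}

/-- the inverse branches -/
noncomputable def gj (l : ℝ) (j : ℤ) (w : ℂ) : ℂ :=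
  Complex.log (w / l) + j * (2 * Real.pi * Complex.I)

theorem gj_left {l : ℝ} (hl : l < 0) {j : ℤ} {z : ℂ} (hz : z ∈ Tj j) : gj l j (ex l z) = z := by
  have hl0 : (l : ℂ) ≠ 0 := by exact_mod_cast hl.ne
  have h1 : ex l z / l = Complex.exp (z - j * (2 * Real.pi * Complex.I)) := by
    rw [ex, mul_div_cancel_left₀ _ hl0, Complex.exp_sub,
      Complex.exp_eq_one_iff.2 ⟨j, rfl⟩, div_one]
  have him : (z - j * (2 * Real.pi * Complex.I)).im = z.im - 2 * Real.pi * j := by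
    simp
    ring
  have hz1 : 2 * Real.pi * j - Real.pi < z.im := hz.1
  have hz2 : z.im < 2 * Real.pi * j + Real.pi := hz.2
  rw [gj, h1, Complex.log_exp (by rw [him]; linarith) (by rw [him]; linarith)]
  ring

theorem gj_right {l : ℝ} (hl : l < 0) (j : ℤ) {w : ℂ} (hw : w ≠ 0) : ex l (gj l j w) = w := by
  have hl0 : (l : ℂ) ≠ 0 := by exact_mod_cast hl.ne
  rw [gj, ex_add_period, ex, Complex.exp_log (div_ne_zero hw hl0), mul_div_cancel₀ _ hl0]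

theorem gj_cont {l : ℝ} (hl : l < 0) (j : ℤ) {V : Set ℂ}
    (hV : ∀ x : ℝ, 0 ≤ x → (x : ℂ) ∉ V) : ContinuousOn (gj l j) V := by
  intro w hw
  refine ContinuousAt.continuousWithinAt ?_
  refine ContinuousAt.add (ContinuousAt.clog (continuousAt_id.div_const _) ?_) continuousAt_const
  by_contra hcon
  rw [Complex.mem_slitPlane_iff, not_or, not_lt, not_not] at hcon
  obtain ⟨h1, h2⟩ := hcon
  have e1 : (w / (l : ℂ)).re = w.re / l := Complex.div_ofReal_re _ _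
  have e2 : (w / (l : ℂ)).im = w.im / l := Complex.div_ofReal_im _ _
  rw [e1] at h1
  rw [e2] at h2
  have h3 : w.im = 0 := by
    rcases div_eq_zero_iff.1 h2 with h | h
    · exact h
    · exact absurd h hl.ne
  have h4 : 0 ≤ w.re := by
    by_contra h5
    rw [not_le] at h5
    exact absurd (div_pos_of_neg_of_neg h5 hl) (not_lt.2 h1)
  apply hV w.re h4
  have : ((w.re : ℝ) : ℂ) = w := by
    apply Complex.ext
    · simp
    · simp [h3]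
  rw [this]
  exact hw

theorem tj_unique {j j' : ℤ} {z : ℂ} (h : z ∈ Tj j) (h' : z ∈ Tj j') : j = j' := by
  have h1 : 2 * Real.pi * j - Real.pi < z.im := h.1
  have h2 : z.im < 2 * Real.pi * j + Real.pi := h.2
  have h3 : 2 * Real.pi * j' - Real.pi < z.im := h'.1
  have h4 : z.im < 2 * Real.pi * j' + Real.pi := h'.2
  have hpi := Real.pi_pos
  have h5 : ((j : ℝ) - j') < 1 := by nlinarith
  have h6 : ((j' : ℝ) - j) < 1 := by nlinarith
  have h7 : j - j' < 1 := by exact_mod_cast h5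
  have h8 : j' - j < 1 := by exact_mod_cast h6
  omega

namespace NG

variable {l α a0 a1 : ℝ} {K : Set ℂ} {r q : ℝ}

theorem trap (h : NG l α a0 a1 K r q) : Trap (l : ℂ) K := h.ac.trap

theorem hc (h : NG l α a0 a1 K r q) : (l : ℂ) ≠ 0 := h.ac.hc

theorem line_not (h : NG l α a0 a1 K r q) {z : ℂ} {j : ℤ}
    (hz : z.im = 2 * Real.pi * j + Real.pi) : z ∉ Esc (l : ℂ) K := by
  rw [← h.trap.inv]
  have e : ex (l : ℂ) z = ((-l * Real.exp z.re : ℝ) : ℂ) := by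
    have e1 : z = (z.re : ℂ) + Real.pi * Complex.I + j * (2 * Real.pi * Complex.I) := by
      conv_lhs => rw [← Complex.re_add_im z, hz]
      push_cast; ring
    conv_lhs => rw [e1]
    rw [ex_add_period, ex, Complex.exp_add, Complex.exp_pi_mul_I]
    push_cast
    ring
  rw [e]
  apply h.rl
  have h1 : 0 < -l * Real.exp z.re := mul_pos (neg_pos.2 h.neg) (Real.exp_pos _)
  have h2 : α < 0 := h.o2.trans h.o3
  linarith

theorem exists_M (h : NG l α a0 a1 K r q) :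
    ∃ M : ℝ, 0 < M ∧ ∀ z : ℂ, z.re ≤ -M → ex (l : ℂ) z ∈ K := h.trap.left

/-- the base set -/
def B0 (M : ℝ) : Set ℂ := {z | z.re ≤ -M} ∪ {z | ∃ j : ℤ, z.im = 2 * Real.pi * j + Real.pi}

theorem B0_not (h : NG l α a0 a1 K r q) {M : ℝ} (hM : ∀ z : ℂ, z.re ≤ -M → ex (l : ℂ) z ∈ K)
    {z : ℂ} (hz : z ∈ B0 M) : z ∉ Esc (l : ℂ) K := by
  rcases hz with hz | ⟨j, hz⟩
  · rw [← h.trap.inv]
    exact h.trap.K_not (hM z hz)
  · exact h.line_not hz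

theorem B0_pre (M : ℝ) : IsPreconnected (B0 M) := by
  have hm : ((-M : ℝ) : ℂ) ∈ {z : ℂ | z.re ≤ -M} := by
    show ((-M : ℝ) : ℂ).re ≤ -M
    rw [Complex.ofReal_re]
  refine isPreconnected_of_forall ((-M : ℝ) : ℂ) ?_
  rintro z (hz | ⟨j, hz⟩)
  · exact ⟨_, subset_union_left, hm, hz, (convex_halfSpace_re_le (-M)).isPreconnected⟩
  · have hline : IsPreconnected {w : ℂ | w.im = z.im} := by
      have : {w : ℂ | w.im = z.im} = {w | w.im ≤ z.im} ∩ {w | z.im ≤ w.im} := by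
        ext w
        exact le_antisymm_iff
      rw [this]
      exact ((convex_halfSpace_im_le _).inter (convex_halfSpace_im_ge _)).isPreconnected
    refine ⟨{z : ℂ | z.re ≤ -M} ∪ {w : ℂ | w.im = z.im}, ?_, Or.inl hm, Or.inr rfl, ?_⟩
    · rintro w (hw | hw)
      · exact Or.inl hw
      · exact Or.inr ⟨j, by
          have hw' : w.im = z.im := hw
          rw [hw', hz]⟩
    · refine (convex_halfSpace_re_le (-M)).isPreconnected.union
        (((-M : ℝ) : ℂ) + z.im * Complex.I) ?_ ?_ hline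
      · show (((-M : ℝ) : ℂ) + z.im * Complex.I).re ≤ -M
        simp
      · show (((-M : ℝ) : ℂ) + z.im * Complex.I).im = z.im
        simp

/-- real segments in the Fatou set -/
theorem seg (h : NG l α a0 a1 K r q) {x y : ℝ} (hxy : x ≤ y) (hα : ∀ t, x ≤ t → t ≤ y → t ≠ α) :
    ¬ Sp (Esc (l : ℂ) K) (x : ℂ) (y : ℂ) := by
  refine not_sep_iff.2 ⟨(fun t : ℝ => (t : ℂ)) '' Icc x y,
    isPreconnected_Icc.image _ Complex.continuous_ofReal.continuousOn,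
    ⟨x, left_mem_Icc.2 hxy, rfl⟩, ⟨y, right_mem_Icc.2 hxy, rfl⟩, ?_⟩
  rw [Set.disjoint_left]
  rintro _ ⟨t, ht, rfl⟩
  exact h.rl t (hα t ht.1 ht.2)

theorem p0_a0 (h : NG l α a0 a1 K r q) {M : ℝ} (hM : ∀ z : ℂ, z.re ≤ -M → ex (l : ℂ) z ∈ K) :
    ¬ Sp (Esc (l : ℂ) K) ((-M : ℝ) : ℂ) (a0 : ℂ) := by
  have h1 : ¬ Sp (Esc (l : ℂ) K) ((min (-M) a0 : ℝ) : ℂ) (a0 : ℂ) :=
    h.seg (min_le_right _ _) (fun t _ ht => (ht.trans_lt h.o1).ne)
  refine not_sep_trans (not_sep_iff.2 ⟨{z : ℂ | z.re ≤ -M},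
    (convex_halfSpace_re_le (-M)).isPreconnected, ?_, ?_, ?_⟩) h1
  · show ((-M : ℝ) : ℂ).re ≤ -M
    rw [Complex.ofReal_re]
  · show ((min (-M) a0 : ℝ) : ℂ).re ≤ -M
    rw [Complex.ofReal_re]; exact min_le_left _ _
  · rw [Set.disjoint_left]
    exact fun z hz => h.B0_not hM (Or.inl hz)

theorem zero_a1 (h : NG l α a0 a1 K r q) : ¬ Sp (Esc (l : ℂ) K) (a1 : ℂ) ((0 : ℝ) : ℂ) :=
  h.seg h.o3.le (fun t ht _ => (h.o2.trans_le ht).ne')

theorem zero_pos (h : NG l α a0 a1 K r q) {x : ℝ} (hx : 0 ≤ x) :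
    ¬ Sp (Esc (l : ℂ) K) ((0 : ℝ) : ℂ) (x : ℂ) :=
  h.seg hx (fun t ht _ => ((h.o2.trans h.o3).trans_le ht).ne')

theorem sp_mono {X X' : Set ℂ} (hX : X ⊆ X') {x y : ℂ} (h : ¬ Sp X' x y) : ¬ Sp X x y := by
  intro hs
  apply h
  intro D hD hx hy
  obtain ⟨w, hw1, hw2⟩ := hs D hD hx hy
  exact ⟨w, hw1, hX hw2⟩

theorem mem_α (h : NG l α a0 a1 K r q) {Z : Set ℂ} (hZ : Cmp (Esc (l : ℂ) K) Z)
    (hs : Sp Z (a0 : ℂ) (a1 : ℂ)) : (α : ℂ) ∈ Z := by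
  have hle : a0 ≤ a1 := (h.o1.trans h.o2).le
  obtain ⟨_, ⟨t, ht, rfl⟩, hw⟩ := hs ((fun t : ℝ => (t : ℂ)) '' Icc a0 a1)
    (isPreconnected_Icc.image _ Complex.continuous_ofReal.continuousOn)
    ⟨a0, left_mem_Icc.2 hle, rfl⟩ ⟨a1, right_mem_Icc.2 hle, rfl⟩
  by_cases hta : t = α
  · rw [← hta]; exact hw
  · exact absurd (hZ.sub hw) (h.rl t hta)

/-- separating `p0` from `0` means containing `α` -/
theorem mem_α' (h : NG l α a0 a1 K r q) {M : ℝ} (hM : ∀ z : ℂ, z.re ≤ -M → ex (l : ℂ) z ∈ K)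
    {Z : Set ℂ} (hZ : Cmp (Esc (l : ℂ) K) Z) (hs : Sp Z ((-M : ℝ) : ℂ) ((0 : ℝ) : ℂ)) :
    (α : ℂ) ∈ Z := by
  apply h.mem_α hZ
  by_contra hcon
  exact not_sep_trans (sp_mono hZ.sub (h.p0_a0 hM))
    (not_sep_trans hcon (sp_mono hZ.sub h.zero_a1)) hs

theorem mem_α'' (h : NG l α a0 a1 K r q) {M : ℝ} (hM : ∀ z : ℂ, z.re ≤ -M → ex (l : ℂ) z ∈ K)
    {Z : Set ℂ} (hZ : Cmp (Esc (l : ℂ) K) Z) (hs : Sp Z ((-M : ℝ) : ℂ) (a1 : ℂ)) :
    (α : ℂ) ∈ Z := by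
  apply h.mem_α hZ
  by_contra hcon
  exact not_sep_trans (sp_mono hZ.sub (h.p0_a0 hM)) hcon hs

/-- the strip lemma -/
theorem strip (h : NG l α a0 a1 K r q) {M : ℝ} (hM : ∀ z : ℂ, z.re ≤ -M → ex (l : ℂ) z ∈ K)
    {Z : Set ℂ} (hZ : Cmp (Esc (l : ℂ) K) Z) {b : ℂ} (hs : Sp Z ((-M : ℝ) : ℂ) b) :
    ∃ j : ℤ, b ∈ Tj j ∧ Z ⊆ Tj j := by
  have hpi := Real.pi_pos
  have hB0Z : ∀ z ∈ B0 M, z ∉ Z := fun z hz hzZ => h.B0_not hM hz (hZ.sub hzZ)
  have hmB : ((-M : ℝ) : ℂ) ∈ B0 M := Or.inl (by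
    show ((-M : ℝ) : ℂ).re ≤ -M
    rw [Complex.ofReal_re])
  have hbB : b ∉ B0 M := by
    intro hb
    apply not_sep_iff.2 ⟨B0 M, B0_pre M, hmB, hb, ?_⟩ hs
    rw [Set.disjoint_left]
    exact hB0Z
  set j : ℤ := ⌊(b.im + Real.pi) / (2 * Real.pi)⌋ with hj
  have h1 : (j : ℝ) ≤ (b.im + Real.pi) / (2 * Real.pi) := Int.floor_le _
  have h2 : (b.im + Real.pi) / (2 * Real.pi) < j + 1 := Int.lt_floor_add_one _
  rw [le_div_iff₀ (by positivity)] at h1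
  rw [div_lt_iff₀ (by positivity)] at h2
  have hbT : b ∈ Tj j := by
    refine ⟨?_, by nlinarith⟩
    rcases (show 2 * Real.pi * j - Real.pi ≤ b.im by nlinarith).lt_or_eq with h3 | h3
    · exact h3
    · exfalso
      apply hbB
      refine Or.inr ⟨j - 1, ?_⟩
      rw [← h3]
      push_cast
      ring
  refine ⟨j, hbT, ?_⟩
  -- no point of Z on the lines
  have hno : ∀ z ∈ Z, z.im ≠ 2 * Real.pi * j + Real.pi ∧ z.im ≠ 2 * Real.pi * j - Real.pi := by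
    intro z hz
    refine ⟨fun h3 => hB0Z z (Or.inr ⟨j, h3⟩) hz, fun h3 => hB0Z z (Or.inr ⟨j - 1, ?_⟩) hz⟩
    rw [h3]; push_cast; ring
  have hTo : IsOpen (Tj j) := by
    have e : Tj j = {z : ℂ | 2 * Real.pi * j - Real.pi < z.im} ∩
        {z | z.im < 2 * Real.pi * j + Real.pi} := rfl
    rw [e]
    exact (isOpen_lt continuous_const Complex.continuous_im).inter
      (isOpen_lt Complex.continuous_im continuous_const)
  have hmeet : (Z ∩ Tj j).Nonempty := by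
    by_contra hcon
    rw [not_nonempty_iff_eq_empty] at hcon
    set D : Set ℂ := {z | 2 * Real.pi * j - Real.pi < z.im} ∩
      {z | z.im ≤ 2 * Real.pi * j + Real.pi} with hD
    have hDp : IsPreconnected D :=
      ((convex_halfSpace_im_gt _).inter (convex_halfSpace_im_le _)).isPreconnected
    set t : ℂ := ((2 * Real.pi * j + Real.pi : ℝ) : ℂ) * Complex.I with ht
    have htim : t.im = 2 * Real.pi * j + Real.pi := by
      rw [ht]; simp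
    have htD : t ∈ D := ⟨by show 2 * Real.pi * j - Real.pi < t.im; rw [htim]; linarith,
      by show t.im ≤ _; rw [htim]⟩
    have htB : t ∈ B0 M := Or.inr ⟨j, htim⟩
    apply not_sep_iff.2 ⟨D ∪ B0 M, hDp.union t htD htB (B0_pre M), Or.inr hmB,
      Or.inl ⟨hbT.1, hbT.2.le⟩, ?_⟩ hs
    rw [Set.disjoint_left]
    rintro z (hz | hz) hzZ
    · have hz1 : 2 * Real.pi * j - Real.pi < z.im := hz.1
      have hz2 : z.im ≤ 2 * Real.pi * j + Real.pi := hz.2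
      have : z ∈ Z ∩ Tj j := ⟨hzZ, hz1, lt_of_le_of_ne hz2 (hno z hzZ).1⟩
      rw [hcon] at this
      exact this
    · exact hB0Z z hz hzZ
  have hTo' : IsOpen ({z : ℂ | z.im < 2 * Real.pi * j - Real.pi} ∪
      {z | 2 * Real.pi * j + Real.pi < z.im}) :=
    (isOpen_lt Complex.continuous_im continuous_const).union
      (isOpen_lt continuous_const Complex.continuous_im)
  refine hZ.pre.subset_left_of_subset_union hTo hTo' ?_ ?_ hmeet
  · rw [Set.disjoint_left]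
    rintro z ⟨hz1, hz2⟩ (hz | hz)
    · exact lt_asymm hz1 hz
    · exact lt_asymm hz2 hz
  · intro z hz
    obtain ⟨h3, h4⟩ := hno z hz
    rcases lt_or_gt_of_ne h3 with h5 | h5
    · rcases lt_or_gt_of_ne h4 with h6 | h6
      · exact Or.inr (Or.inl h6)
      · exact Or.inl ⟨h6, h5⟩
    · exact Or.inr (Or.inr h5)

theorem img_exists (h : NG l α a0 a1 K r q) {Z : Set ℂ} (hZ : Cmp (Esc (l : ℂ) K) Z) :
    ∃ Z', Cmp (Esc (l : ℂ) K) Z' ∧ TD.Rl (ex (l : ℂ)) Z Z' := by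
  obtain ⟨z, hz⟩ := hZ.nonempty
  have hfz : ex (l : ℂ) z ∈ Esc (l : ℂ) K := (h.trap.inv z).2 (hZ.sub hz)
  refine ⟨_, cmp_of_mem hfz, fun w hw => ?_⟩
  have h3 := (cmp_of_mem hfz).max (hZ.pre.image (ex (l : ℂ)) (ex_cont _).continuousOn) (by
    rintro _ ⟨w, hw, rfl⟩
    exact (h.trap.inv w).2 (hZ.sub hw)) ⟨_, ⟨z, hz, rfl⟩, mem_connectedComponentIn hfz⟩
  exact h3 ⟨w, hw, rfl⟩

/-- injectivity of the image map on the components separating `b` from the left -/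
theorem img_inj (h : NG l α a0 a1 K r q) {M : ℝ} (hM : ∀ z : ℂ, z.re ≤ -M → ex (l : ℂ) z ∈ K)
    {Z1 Z2 Z' : Set ℂ} (h1 : Cmp (Esc (l : ℂ) K) Z1) (h2 : Cmp (Esc (l : ℂ) K) Z2)
    (hZ' : Cmp (Esc (l : ℂ) K) Z') (r1 : TD.Rl (ex (l : ℂ)) Z1 Z')
    (r2 : TD.Rl (ex (l : ℂ)) Z2 Z') {b : ℂ} (s1 : Sp Z1 ((-M : ℝ) : ℂ) b)
    (s2 : Sp Z2 ((-M : ℝ) : ℂ) b) : Z1 = Z2 := by
  obtain ⟨j, hbj, hZj⟩ := h.strip hM h1 s1
  obtain ⟨j', hbj', hZj'⟩ := h.strip hM h2 s2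
  have hjj := tj_unique hbj hbj'
  subst hjj
  have hZ'r : ∀ x : ℝ, 0 ≤ x → (x : ℂ) ∉ Z' := by
    intro x hx hxZ
    exact h.rl x ((h.o2.trans h.o3).trans_le hx).ne' (hZ'.sub hxZ)
  have hpre : IsPreconnected (gj l j '' Z') := hZ'.pre.image _ (gj_cont h.neg j hZ'r)
  have hsub : gj l j '' Z' ⊆ Esc (l : ℂ) K := by
    rintro _ ⟨w, hw, rfl⟩
    rw [← h.trap.inv, gj_right h.neg]
    · exact hZ'.sub hw
    · rintro rfl
      exact hZ'r 0 le_rfl (by simpa using hw)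
  obtain ⟨z1, hz1⟩ := h1.nonempty
  obtain ⟨z2, hz2⟩ := h2.nonempty
  have e1 : z1 ∈ gj l j '' Z' := ⟨_, r1 z1 hz1, gj_left h.neg (hZj hz1)⟩
  have e2 : z2 ∈ gj l j '' Z' := ⟨_, r2 z2 hz2, gj_left h.neg (hZj' hz2)⟩
  exact h1.eq h2 ⟨z2, h1.max hpre hsub ⟨z1, e1, hz1⟩ e2, hz2⟩

/-- pulling back non separation -/
theorem pullback (h : NG l α a0 a1 K r q) {Z Z' : Set ℂ}
    (hZ' : Cmp (Esc (l : ℂ) K) Z') (hr : TD.Rl (ex (l : ℂ)) Z Z') {j : ℤ}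
    {x y : ℂ} (hx : x ∈ Tj j) (hy : y ∈ Tj j)
    (h0 : Sp Z' 0 (ex (l : ℂ) x)) (hs : ¬ Sp Z' (ex (l : ℂ) x) (ex (l : ℂ) y)) : ¬ Sp Z x y := by
  obtain ⟨V, hV, hxV, hyV, hdis⟩ := not_sep_iff.1 hs
  have hVr : ∀ t : ℝ, 0 ≤ t → (t : ℂ) ∉ V := by
    intro t ht htV
    have h1 : ¬ Sp Z' (t : ℂ) (ex (l : ℂ) x) := not_sep_iff.2 ⟨V, hV, htV, hxV, hdis⟩
    have h2 : ¬ Sp Z' ((0 : ℝ) : ℂ) (t : ℂ) := sp_mono hZ'.sub (h.zero_pos ht)
    rw [Complex.ofReal_zero] at h2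
    exact not_sep_trans h2 h1 h0
  refine not_sep_iff.2 ⟨gj l j '' V, hV.image _ (gj_cont h.neg j hVr),
    ⟨_, hxV, gj_left h.neg hx⟩, ⟨_, hyV, gj_left h.neg hy⟩, ?_⟩
  rw [Set.disjoint_left]
  rintro _ ⟨v, hv, rfl⟩ hvZ
  have h1 := hr _ hvZ
  rw [gj_right h.neg] at h1
  · exact hdis.le_bot ⟨hv, h1⟩
  · rintro rfl
    exact hVr 0 le_rfl (by simpa using hv)

theorem d2' (h : NG l α a0 a1 K r q) {M : ℝ} (hM : ∀ z : ℂ, z.re ≤ -M → ex (l : ℂ) z ∈ K)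
    {Z Z' : Set ℂ} (hZ : Cmp (Esc (l : ℂ) K) Z) (hZ' : Cmp (Esc (l : ℂ) K) Z')
    (hr : TD.Rl (ex (l : ℂ)) Z Z') {b : ℂ} (hs : Sp Z ((-M : ℝ) : ℂ) b) :
    Sp Z' 0 (ex (l : ℂ) b) :=
  d2 h.hc h.trap hZ hZ' hr hM (by rw [Complex.ofReal_re]) hs

theorem fin_aux (h : NG l α a0 a1 K r q) {M : ℝ} (hM : ∀ z : ℂ, z.re ≤ -M → ex (l : ℂ) z ∈ K)
    (n : ℕ) : ∀ b, b ∉ Esc (l : ℂ) K → ¬ Sp (Esc (l : ℂ) K) ((ex (l : ℂ))^[n] b) (a1 : ℂ) →
      {Z | Cmp (Esc (l : ℂ) K) Z ∧ Sp Z ((-M : ℝ) : ℂ) b}.Finite := by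
  have hα1 : {Z | Cmp (Esc (l : ℂ) K) Z ∧ (α : ℂ) ∈ Z}.Finite := by
    refine (Set.finite_singleton (connectedComponentIn (Esc (l : ℂ) K) (α : ℂ))).subset ?_
    rintro Z ⟨hZ, hαZ⟩
    exact hZ.eq (cmp_of_mem (hZ.sub hαZ)) ⟨_, hαZ, mem_connectedComponentIn (hZ.sub hαZ)⟩
  induction n with
  | zero =>
    intro b hb hn
    refine hα1.subset ?_
    rintro Z ⟨hZ, hs⟩
    refine ⟨hZ, h.mem_α'' hM hZ ?_⟩
    by_contra hcon
    exact not_sep_trans hcon (fun h' => sp_mono hZ.sub hn (sep_symm h')) hs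
  | succ n ih =>
    intro b hb hn
    have hfb : ex (l : ℂ) b ∉ Esc (l : ℂ) K := fun h' => hb ((h.trap.inv b).1 h')
    have h1 := ih _ hfb (by rwa [← Function.iterate_succ_apply])
    have himg : ∀ Z : Set ℂ, ∃ W : Set ℂ, Cmp (Esc (l : ℂ) K) Z →
        Cmp (Esc (l : ℂ) K) W ∧ TD.Rl (ex (l : ℂ)) Z W := by
      intro Z
      by_cases hZ : Cmp (Esc (l : ℂ) K) Z
      · obtain ⟨W, hW⟩ := h.img_exists hZ
        exact ⟨W, fun _ => hW⟩
      · exact ⟨∅, fun h' => absurd h' hZ⟩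
    choose F hF using himg
    refine Set.Finite.of_finite_image (f := F) ((h1.union hα1).subset ?_) ?_
    · rintro _ ⟨Z, ⟨hZ, hs⟩, rfl⟩
      obtain ⟨hFZ, hr⟩ := hF Z hZ
      have h2 := h.d2' hM hZ hFZ hr hs
      by_cases h3 : Sp (F Z) ((-M : ℝ) : ℂ) ((0 : ℝ) : ℂ)
      · exact Or.inr ⟨hFZ, h.mem_α' hM hFZ h3⟩
      · refine Or.inl ⟨hFZ, ?_⟩
        rw [Complex.ofReal_zero] at h3
        exact by_contra fun h4 => not_sep_trans (fun h5 => h3 (sep_symm h5)) h4 h2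
    · rintro Z1 ⟨hZ1, s1⟩ Z2 ⟨hZ2, s2⟩ heq
      have r2 := (hF Z2 hZ2).2
      rw [← heq] at r2
      exact h.img_inj hM hZ1 hZ2 (hF Z1 hZ1).1 (hF Z1 hZ1).2 r2 s1 s2

/-- finitely many separating components -/
theorem fs (h : NG l α a0 a1 K r q) : FS (Esc (l : ℂ) K) := by
  intro x y hx hy
  obtain ⟨M, -, hM⟩ := h.exists_M
  obtain ⟨n, hn⟩ := h.ac.near_cycle hx
  obtain ⟨m, hm⟩ := h.ac.near_cycle hy
  refine ((h.fin_aux hM n x hx hn).union (h.fin_aux hM m y hy hm)).subset ?_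
  rintro Z ⟨hZ, hs⟩
  by_cases h1 : Sp Z ((-M : ℝ) : ℂ) x
  · exact Or.inl ⟨hZ, h1⟩
  · refine Or.inr ⟨hZ, ?_⟩
    exact by_contra fun h2 => not_sep_trans (fun h3 => h1 (sep_symm h3)) h2 hs

/-- the component of `α` has only the sides of `a0` and `a1` -/
theorem two_α (h : NG l α a0 a1 K r q) {Z : Set ℂ} (hZ : Cmp (Esc (l : ℂ) K) Z)
    (hα : (α : ℂ) ∈ Z) {x : ℂ} (hx : x ∉ Esc (l : ℂ) K) :
    ¬ Sp Z x (a0 : ℂ) ∨ ¬ Sp Z x (a1 : ℂ) := by
  obtain ⟨M, -, hM⟩ := h.exists_M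
  have hr : TD.Rl (ex (l : ℂ)) Z Z := by
    obtain ⟨W, hW, hrW⟩ := h.img_exists hZ
    have h1 := hrW _ hα
    rw [h.fα] at h1
    rwa [hW.eq hZ ⟨_, h1, hα⟩] at hrW
  have hπ := Real.pi_pos
  have ha1T : (a1 : ℂ) ∈ Tj 0 := by
    constructor
    · show 2 * Real.pi * ((0 : ℤ) : ℝ) - Real.pi < (a1 : ℂ).im
      rw [Complex.ofReal_im]; push_cast; linarith
    · show (a1 : ℂ).im < 2 * Real.pi * ((0 : ℤ) : ℝ) + Real.pi
      rw [Complex.ofReal_im]; push_cast; linarith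
  have hαT : (α : ℂ) ∈ Tj 0 := by
    constructor
    · show 2 * Real.pi * ((0 : ℤ) : ℝ) - Real.pi < (α : ℂ).im
      rw [Complex.ofReal_im]; push_cast; linarith
    · show (α : ℂ).im < 2 * Real.pi * ((0 : ℤ) : ℝ) + Real.pi
      rw [Complex.ofReal_im]; push_cast; linarith
  have hstep : ∀ x, x ∉ Esc (l : ℂ) K → Sp Z x (a0 : ℂ) → Sp Z x (a1 : ℂ) →
      Sp Z (ex (l : ℂ) x) (a0 : ℂ) ∧ Sp Z (ex (l : ℂ) x) (a1 : ℂ) := by
    intro x hx s0 s1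
    have hp : Sp Z ((-M : ℝ) : ℂ) x := by
      by_contra hcon
      exact not_sep_trans (fun h' => hcon (sep_symm h')) (sp_mono hZ.sub (h.p0_a0 hM)) s0
    have h0 := h.d2' hM hZ hZ hr hp
    constructor
    · by_contra hcon
      obtain ⟨j, hxj, hZj⟩ := h.strip hM hZ hp
      have hj : j = 0 := tj_unique (hZj hα) hαT
      subst hj
      rw [← h.fa1] at hcon
      exact h.pullback hZ hr hxj ha1T h0 hcon s1
    · by_contra hcon
      have h1 := sp_mono hZ.sub h.zero_a1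
      rw [Complex.ofReal_zero] at h1
      exact not_sep_trans (not_sep_trans hcon h1) (sep_irrefl (fun h' => h.rl 0
        (h.o2.trans h.o3).ne' (by simpa using hZ.sub h'))) (sep_symm h0)
  by_contra hcon
  rw [not_or, not_not, not_not] at hcon
  have hall : ∀ n, (ex (l : ℂ))^[n] x ∉ Esc (l : ℂ) K ∧ Sp Z ((ex (l : ℂ))^[n] x) (a0 : ℂ) ∧
      Sp Z ((ex (l : ℂ))^[n] x) (a1 : ℂ) := by
    intro n
    induction n with
    | zero => exact ⟨hx, hcon⟩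
    | succ n ih =>
      rw [Function.iterate_succ_apply']
      exact ⟨fun h' => ih.1 ((h.trap.inv _).1 h'), hstep _ ih.1 ih.2.1 ih.2.2⟩
  obtain ⟨n, hn⟩ := h.ac.near_cycle hx
  exact sp_mono hZ.sub hn (hall n).2.2

theorem two_α' (h : NG l α a0 a1 K r q) {Z : Set ℂ} (hZ : Cmp (Esc (l : ℂ) K) Z)
    (hα : (α : ℂ) ∈ Z) : Two Z := by
  intro x y z hx hy hz hxy hyz hxz
  have key : ∀ x, x ∉ Z → ¬ Sp Z x (a0 : ℂ) ∨ ¬ Sp Z x (a1 : ℂ) := by
    intro x hx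
    obtain ⟨x', hx', hs⟩ := rep_pt h.hc h.trap hZ hx
    rcases h.two_α hZ hα hx' with h1 | h1
    · exact Or.inl (not_sep_trans hs h1)
    · exact Or.inr (not_sep_trans hs h1)
  have tr : ∀ {u v w : ℂ}, ¬ Sp Z u w → ¬ Sp Z v w → ¬ Sp Z u v := fun h1 h2 =>
    not_sep_trans h1 (fun h3 => h2 (sep_symm h3))
  rcases key x hx with h1 | h1 <;> rcases key y hy with h2 | h2 <;> rcases key z hz with h3 | h3
  · exact tr h1 h2 hxy
  · exact tr h1 h2 hxy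
  · exact tr h1 h3 hxz
  · exact tr h2 h3 hyz
  · exact tr h2 h3 hyz
  · exact tr h1 h3 hxz
  · exact tr h1 h2 hxy
  · exact tr h1 h2 hxy

theorem two_aux (h : NG l α a0 a1 K r q) {M : ℝ} (hM : ∀ z : ℂ, z.re ≤ -M → ex (l : ℂ) z ∈ K)
    (n : ℕ) : ∀ Z, Cmp (Esc (l : ℂ) K) Z → ∀ x y, x ∉ Esc (l : ℂ) K → y ∉ Esc (l : ℂ) K →
      Sp Z ((-M : ℝ) : ℂ) x → Sp Z ((-M : ℝ) : ℂ) y →
      ¬ Sp (Esc (l : ℂ) K) ((ex (l : ℂ))^[n] x) (a1 : ℂ) → ¬ Sp Z x y := by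
  induction n with
  | zero =>
    intro Z hZ x y hx hy sx sy hn
    have hα : (α : ℂ) ∈ Z := by
      apply h.mem_α'' hM hZ
      by_contra hcon
      exact not_sep_trans hcon (fun h' => sp_mono hZ.sub hn (sep_symm h')) sx
    have hp : ((-M : ℝ) : ℂ) ∉ Z := fun h' => h.B0_not hM (Or.inl (by
      show ((-M : ℝ) : ℂ).re ≤ -M
      rw [Complex.ofReal_re])) (hZ.sub h')
    exact h.two_α' hZ hα x _ y (fun h' => hx (hZ.sub h')) hp (fun h' => hy (hZ.sub h'))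
      (sep_symm sx) sy
  | succ n ih =>
    intro Z hZ x y hx hy sx sy hn
    obtain ⟨Z', hZ', hr⟩ := h.img_exists hZ
    obtain ⟨j, hxj, hZj⟩ := h.strip hM hZ sx
    obtain ⟨j', hyj, hZj'⟩ := h.strip hM hZ sy
    obtain ⟨z, hz⟩ := hZ.nonempty
    have hjj := tj_unique (hZj hz) (hZj' hz)
    subst hjj
    have hfx : ex (l : ℂ) x ∉ Esc (l : ℂ) K := fun h' => hx ((h.trap.inv x).1 h')
    have hfy : ex (l : ℂ) y ∉ Esc (l : ℂ) K := fun h' => hy ((h.trap.inv y).1 h')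
    have h1 := h.d2' hM hZ hZ' hr sx
    have h2 := h.d2' hM hZ hZ' hr sy
    refine h.pullback hZ' hr hxj hyj h1 ?_
    by_cases h3 : Sp Z' ((-M : ℝ) : ℂ) ((0 : ℝ) : ℂ)
    · have hα := h.mem_α' hM hZ' h3
      have h0 : (0 : ℂ) ∉ Z' := fun h' => h.rl 0 (h.o2.trans h.o3).ne' (by simpa using hZ'.sub h')
      exact h.two_α' hZ' hα _ 0 _ (fun h' => hfx (hZ'.sub h')) h0 (fun h' => hfy (hZ'.sub h'))
        (sep_symm h1) h2
    · rw [Complex.ofReal_zero] at h3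
      refine ih Z' hZ' _ _ hfx hfy ?_ ?_ (by rwa [← Function.iterate_succ_apply])
      · exact by_contra fun h4 => not_sep_trans (fun h5 => h3 (sep_symm h5)) h4 h1
      · exact by_contra fun h4 => not_sep_trans (fun h5 => h3 (sep_symm h5)) h4 h2

/-- every component has at most two sides -/
theorem two (h : NG l α a0 a1 K r q) : ∀ Z, Cmp (Esc (l : ℂ) K) Z → Two Z := by
  intro Z hZ x y z hx hy hz hxy hyz hxz
  obtain ⟨M, -, hM⟩ := h.exists_M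
  obtain ⟨x', hx', ex'⟩ := rep_pt h.hc h.trap hZ hx
  obtain ⟨y', hy', ey'⟩ := rep_pt h.hc h.trap hZ hy
  obtain ⟨z', hz', ez'⟩ := rep_pt h.hc h.trap hZ hz
  have key : ∀ u v, u ∉ Esc (l : ℂ) K → v ∉ Esc (l : ℂ) K → Sp Z ((-M : ℝ) : ℂ) u →
      Sp Z ((-M : ℝ) : ℂ) v → ¬ Sp Z u v := by
    intro u v hu hv su sv
    obtain ⟨n, hn⟩ := h.ac.near_cycle hu
    exact h.two_aux hM n Z hZ u v hu hv su sv hn
  have sxy : Sp Z x' y' := (sp_congr ex' y').1 (sep_symm ((sp_congr ey' x).1 (sep_symm hxy)))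
  have syz : Sp Z y' z' := (sp_congr ey' z').1 (sep_symm ((sp_congr ez' y).1 (sep_symm hyz)))
  have sxz : Sp Z x' z' := (sp_congr ex' z').1 (sep_symm ((sp_congr ez' x).1 (sep_symm hxz)))
  by_cases h1 : Sp Z ((-M : ℝ) : ℂ) x'
  · by_cases h2 : Sp Z ((-M : ℝ) : ℂ) y'
    · exact key _ _ hx' hy' h1 h2 sxy
    · have h3 : Sp Z ((-M : ℝ) : ℂ) z' := by
        by_contra h3
        exact not_sep_trans (fun h4 => h2 (sep_symm h4)) h3 syz
      exact key _ _ hx' hz' h1 h3 sxz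
  · have h2 : Sp Z ((-M : ℝ) : ℂ) y' := by
      by_contra h2
      exact not_sep_trans (fun h4 => h1 (sep_symm h4)) h2 sxy
    have h3 : Sp Z ((-M : ℝ) : ℂ) z' := by
      by_contra h3
      exact not_sep_trans (fun h4 => h1 (sep_symm h4)) h3 sxz
    exact key _ _ hy' hz' h2 h3 syz

end NG

end Run7.h102
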