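import Mathlib
import Pool.Agent.Run7.h102.Neg
import Pool.Agent.Run7.h102.Conn

/-! The real parameter `-2 e^2` (helper102, MP_3a87b6_an). -/

set_option autoImplicit false

open Set Filter Topology Metric

namespace Run7.h102

/-- the real map -/
noncomputable def Fr (x : ℝ) : ℝ := -2 * Real.exp (2 + x)

theorem ex_real (x : ℝ) : ex ((-2 * Real.exp 2 : ℝ) : ℂ) (x : ℂ) = ((Fr x : ℝ) : ℂ) := by
  rw [ex, Fr, Real.exp_add]
  push_cast
  ring

theorem Fr_anti : StrictAnti Fr := by
  intro x y hxy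
  unfold Fr
  have := Real.exp_lt_exp.2 (show 2 + x < 2 + y by linarith)
  linarith

theorem Fr_cont : Continuous Fr := by unfold Fr; fun_prop

theorem Fr_neg (x : ℝ) : Fr x < 0 := by
  unfold Fr
  have := Real.exp_pos (2 + x)
  linarith

theorem Fr_fix : Fr (-2) = -2 := by
  unfold Fr
  norm_num

theorem g_mono : Monotone (fun x => Fr (Fr x)) := by
  intro x y hxy
  exact Fr_anti.antitone (Fr_anti.antitone hxy)

noncomputable def ur (x : ℝ) : ℝ := Real.log 2 + 2 + Fr x - Real.log (-x)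

theorem ur_deriv {x : ℝ} (hx : x < 0) : HasDerivAt ur ((x * Fr x - 1) / x) x := by
  have h1 : HasDerivAt Fr (-2 * (Real.exp (2 + x) * 1)) x := by
    unfold Fr
    exact (((hasDerivAt_id x).const_add 2).exp).const_mul (-2)
  have h2 : HasDerivAt (fun x : ℝ => Real.log (-x)) ((-1) / (-x)) x :=
    (hasDerivAt_neg x).log (by linarith)
  have h3 : HasDerivAt ur (-2 * (Real.exp (2 + x) * 1) - (-1) / (-x)) x :=
    (h1.const_add (Real.log 2 + 2)).sub h2
  have hx0 : x ≠ 0 := hx.ne
  have e : (x * Fr x - 1) / x = -2 * (Real.exp (2 + x) * 1) - (-1) / (-x) := by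
    simp only [Fr]
    field_simp
  rw [e]
  exact h3

theorem ur_neg_iff {x : ℝ} (hx : x < 0) : ur x < 0 ↔ x < Fr (Fr x) := by
  unfold ur
  rw [show Fr (Fr x) = -2 * Real.exp (2 + Fr x) from rfl]
  have h1 : x < -2 * Real.exp (2 + Fr x) ↔ 2 * Real.exp (2 + Fr x) < -x := by
    constructor <;> intro h <;> linarith
  have h2 : 2 * Real.exp (2 + Fr x) < -x ↔ Real.log (2 * Real.exp (2 + Fr x)) < Real.log (-x) :=
    (Real.log_lt_log_iff (by positivity) (by linarith)).symm
  rw [h1, h2, Real.log_mul two_ne_zero (Real.exp_pos _).ne', Real.log_exp]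
  constructor <;> intro h <;> linarith

theorem ur_pos_iff {x : ℝ} (hx : x < 0) : 0 < ur x ↔ Fr (Fr x) < x := by
  unfold ur
  rw [show Fr (Fr x) = -2 * Real.exp (2 + Fr x) from rfl]
  have h1 : -2 * Real.exp (2 + Fr x) < x ↔ -x < 2 * Real.exp (2 + Fr x) := by
    constructor <;> intro h <;> linarith
  have h2 : -x < 2 * Real.exp (2 + Fr x) ↔ Real.log (-x) < Real.log (2 * Real.exp (2 + Fr x)) :=
    (Real.log_lt_log_iff (by linarith) (by positivity)).symm
  rw [h1, h2, Real.log_mul two_ne_zero (Real.exp_pos _).ne', Real.log_exp]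
  constructor <;> intro h <;> linarith

theorem exists_a1 : ∃ a1 : ℝ, -2 < a1 ∧ a1 < 0 ∧ Fr (Fr a1) = a1 ∧ a1 * Fr a1 < 1 ∧
    (∀ x, -2 < x → x < a1 → x < Fr (Fr x)) ∧ (∀ x, a1 < x → Fr (Fr x) < x) := by
  set v : ℝ → ℝ := fun x => x * Fr x with hv
  have hvc : Continuous v := continuous_id.mul Fr_cont
  have hvd : ∀ x, HasDerivAt v (-2 * (1 + x) * Real.exp (2 + x)) x := by
    intro x
    have h1 : HasDerivAt Fr (-2 * (Real.exp (2 + x) * 1)) x := by
      unfold Fr
      exact (((hasDerivAt_id x).const_add 2).exp).const_mul (-2)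
    have h2 : HasDerivAt v (1 * Fr x + x * (-2 * (Real.exp (2 + x) * 1))) x :=
      (hasDerivAt_id x).mul h1
    have e : -2 * (1 + x) * Real.exp (2 + x) =
        1 * Fr x + x * (-2 * (Real.exp (2 + x) * 1)) := by
      simp only [Fr]
      ring
    rw [e]
    exact h2
  have hvanti : StrictAntiOn v (Icc (-1) 0) := by
    refine strictAntiOn_of_deriv_neg (convex_Icc _ _) hvc.continuousOn fun x hx => ?_
    rw [interior_Icc] at hx
    rw [(hvd x).deriv]
    have := Real.exp_pos (2 + x)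
    have h3 : 0 < 1 + x := by linarith [hx.1]
    have : 0 < (1 + x) * Real.exp (2 + x) := mul_pos h3 this
    linarith
  have hv0 : v 0 = 0 := by simp [hv]
  have hv1 : 1 < v (-1) := by
    simp only [hv, Fr]
    have := Real.add_one_le_exp (2 + (-1) : ℝ)
    linarith
  obtain ⟨x2, hx2, hvx2⟩ : ∃ x ∈ Icc (-1 : ℝ) 0, v x = 1 := by
    have := intermediate_value_Icc' (show (-1 : ℝ) ≤ 0 by norm_num) hvc.continuousOn
    exact this ⟨by rw [hv0]; norm_num, hv1.le⟩
  have hx2a : -1 < x2 := by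
    rcases hx2.1.lt_or_eq with h | h
    · exact h
    · rw [← h] at hvx2; linarith
  have hx2b : x2 < 0 := by
    rcases hx2.2.lt_or_eq with h | h
    · exact h
    · rw [h, hv0] at hvx2; norm_num at hvx2
  have hvlt : ∀ x, x2 < x → x < 0 → v x < 1 := by
    intro x h1 h2
    rw [← hvx2]
    exact hvanti hx2 ⟨by linarith, h2.le⟩ h1
  have hvgt : ∀ x, -2 ≤ x → x < x2 → 1 < v x := by
    intro x h1 h2
    by_cases h3 : x ≤ -1
    · have h4 : 1 ≤ Real.exp (2 + x) := Real.one_le_exp (by linarith)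
      simp only [hv, Fr]
      nlinarith
    · rw [← hvx2]
      exact hvanti ⟨by linarith, by linarith⟩ hx2 h2
  -- monotonicity of u
  have huc : ∀ x, x < 0 → ContinuousAt ur x := fun x hx => (ur_deriv hx).continuousAt
  have hu2 : ur (-2) = 0 := by
    unfold ur
    rw [Fr_fix]
    norm_num
  have huanti : StrictAntiOn ur (Icc (-2) x2) := by
    refine strictAntiOn_of_deriv_neg (convex_Icc _ _)
      (fun x hx => (huc x (by linarith [hx.2])).continuousWithinAt) fun x hx => ?_
    rw [interior_Icc] at hx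
    have hx0 : x < 0 := by linarith [hx.2]
    rw [(ur_deriv hx0).deriv]
    have : 1 < v x := hvgt x hx.1.le hx.2
    exact div_neg_of_pos_of_neg (by simp only [hv] at this; linarith) hx0
  have humono : StrictMonoOn ur (Ico x2 0) := by
    refine strictMonoOn_of_deriv_pos (convex_Ico _ _)
      (fun x hx => (huc x hx.2).continuousWithinAt) fun x hx => ?_
    rw [interior_Ico] at hx
    rw [(ur_deriv hx.2).deriv]
    have : v x < 1 := hvlt x hx.1 hx.2
    exact div_pos_of_neg_of_neg (by simp only [hv] at this; linarith) hx.2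
  have huneg : ∀ x, -2 < x → x ≤ x2 → ur x < 0 := by
    intro x h1 h2
    rw [← hu2]
    exact huanti ⟨le_rfl, by linarith⟩ ⟨h1.le, h2⟩ h1
  -- the point x3
  set x3 : ℝ := -Real.exp (2 - 2 * Real.exp 2) with hx3
  have he2 : 3 < Real.exp 2 := by
    have := Real.add_one_lt_exp (show (2 : ℝ) ≠ 0 by norm_num)
    linarith
  have hx3a : -2 < x3 := by
    have : Real.exp (2 - 2 * Real.exp 2) ≤ 1 := Real.exp_le_one_iff.2 (by linarith)
    rw [hx3]; linarith
  have hx3b : x3 < 0 := by rw [hx3]; exact neg_neg_of_pos (Real.exp_pos _)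
  have hux3 : 0 < ur x3 := by
    unfold ur
    rw [hx3, neg_neg, Real.log_exp, ← hx3]
    have h1 : Real.exp (2 + x3) ≤ Real.exp 2 := Real.exp_le_exp.2 (by linarith)
    have h2 : 0 < Real.log 2 := Real.log_pos (by norm_num)
    unfold Fr
    linarith
  have hx23 : x2 < x3 := by
    by_contra hcon
    exact absurd (huneg x3 hx3a (not_lt.1 hcon)) (not_lt.2 hux3.le)
  obtain ⟨a1, ha1, hua1⟩ : ∃ x ∈ Icc x2 x3, ur x = 0 := by
    have := intermediate_value_Icc hx23.le (f := ur)
      (fun x hx => (huc x (by linarith [hx.2])).continuousWithinAt)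
    exact this ⟨(huneg x2 (by linarith) le_rfl).le, hux3.le⟩
  have ha1a : x2 < a1 := by
    rcases ha1.1.lt_or_eq with h | h
    · exact h
    · rw [← h] at hua1
      exact absurd (huneg x2 (by linarith) le_rfl) (by rw [hua1]; exact lt_irrefl _)
  have ha1b : a1 < 0 := by linarith [ha1.2]
  refine ⟨a1, by linarith, ha1b, ?_, hvlt a1 ha1a ha1b, ?_, ?_⟩
  · have h1 := mt (ur_neg_iff ha1b).2 (by rw [hua1]; exact lt_irrefl _)
    have h2 := mt (ur_pos_iff ha1b).2 (by rw [hua1]; exact lt_irrefl _)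
    exact le_antisymm (not_lt.1 h1) (not_lt.1 h2)
  · intro x h1 h2
    rw [← ur_neg_iff (by linarith)]
    by_cases h3 : x ≤ x2
    · exact huneg x h1 h3
    · rw [← hua1]
      exact humono ⟨(not_le.1 h3).le, by linarith⟩ ⟨ha1a.le, ha1b⟩ h2
  · intro x h1
    by_cases h2 : x < 0
    · rw [← ur_pos_iff h2, ← hua1]
      exact humono ⟨ha1a.le, ha1b⟩ ⟨by linarith, h2⟩ h1
    · exact lt_of_lt_of_le (Fr_neg _) (not_lt.1 h2)

theorem conv_real {a1 : ℝ} (h1 : -2 < a1) (hfix : Fr (Fr a1) = a1)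
    (hlt : ∀ x, -2 < x → x < a1 → x < Fr (Fr x)) (hgt : ∀ x, a1 < x → Fr (Fr x) < x)
    {x : ℝ} (hx : -2 < x) : Tendsto (fun m : ℕ => (fun x => Fr (Fr x))^[m] x) atTop (𝓝 a1) := by
  set g : ℝ → ℝ := fun x => Fr (Fr x) with hg
  have hgc : Continuous g := Fr_cont.comp Fr_cont
  have hfixL : ∀ L, Tendsto (fun m : ℕ => g^[m] x) atTop (𝓝 L) → g L = L := by
    intro L hL
    have h2 : Tendsto (fun m : ℕ => g^[m + 1] x) atTop (𝓝 L) := (tendsto_add_atTop_iff_nat 1).2 hL
    have h3 : Tendsto (fun m : ℕ => g (g^[m] x)) atTop (𝓝 (g L)) := (hgc.tendsto L).comp hL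
    refine tendsto_nhds_unique h3 (h2.congr fun m => ?_)
    rw [Function.iterate_succ_apply']
  rcases le_or_gt x a1 with hxa | hxa
  · have hle : x ≤ g x := by
      rcases hxa.lt_or_eq with h | h
      · exact (hlt x hx h).le
      · rw [h]; exact hfix.ge
    have hm := g_mono.monotone_iterate_of_le_map hle
    have hbd : ∀ m : ℕ, g^[m] x ≤ a1 := by
      intro m
      induction m with
      | zero => exact hxa
      | succ m ih =>
        rw [Function.iterate_succ_apply']
        exact (g_mono ih).trans hfix.le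
    have hL := tendsto_atTop_ciSup hm ⟨a1, by rintro _ ⟨m, rfl⟩; exact hbd m⟩
    set L := ⨆ m : ℕ, g^[m] x with hLdef
    have hLa : L ≤ a1 := le_of_tendsto' hL hbd
    have hxL : x ≤ L := le_ciSup (f := fun m : ℕ => g^[m] x)
      ⟨a1, by rintro _ ⟨m, rfl⟩; exact hbd m⟩ 0
    have hfL := hfixL L hL
    rcases hLa.lt_or_eq with h | h
    · have := hlt L (lt_of_lt_of_le hx hxL) h
      exact absurd hfL this.ne'
    · rwa [h] at hL
  · have hle : g x ≤ x := (hgt x hxa).le
    have hm := g_mono.antitone_iterate_of_map_le hle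
    have hbd : ∀ m : ℕ, a1 ≤ g^[m] x := by
      intro m
      induction m with
      | zero => exact hxa.le
      | succ m ih =>
        rw [Function.iterate_succ_apply']
        exact hfix.ge.trans (g_mono ih)
    have hL := tendsto_atTop_ciInf hm ⟨a1, by rintro _ ⟨m, rfl⟩; exact hbd m⟩
    set L := ⨅ m : ℕ, g^[m] x with hLdef
    have hLa : a1 ≤ L := ge_of_tendsto' hL hbd
    have hfL := hfixL L hL
    rcases hLa.lt_or_eq with h | h
    · have := hgt L h
      exact absurd hfL this.ne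
    · rwa [← h] at hL

/-- the data for the parameter `-2 e^2` -/
theorem exists_NG : ∃ (a0 a1 : ℝ) (K : Set ℂ) (r q : ℝ),
    NG (-2 * Real.exp 2) (-2) a0 a1 K r q ∧ AttC ((-2 * Real.exp 2 : ℝ) : ℂ) (a1 : ℂ) 2 := by
  obtain ⟨a1, h1, h2, hfix, hm, hlt, hgt⟩ := exists_a1
  set c : ℂ := ((-2 * Real.exp 2 : ℝ) : ℂ) with hc
  have hl : -2 * Real.exp 2 < 0 := by have := Real.exp_pos 2; linarith
  have hc0 : c ≠ 0 := by rw [hc]; exact_mod_cast hl.ne
  have e0 : ex c (a1 : ℂ) = ((Fr a1 : ℝ) : ℂ) := ex_real a1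
  have e1 : ex c ((Fr a1 : ℝ) : ℂ) = (a1 : ℂ) := by rw [hc, ex_real, hfix]
  have ha0 : Fr a1 < -2 := by
    have := Fr_anti h1
    rwa [Fr_fix] at this
  have hne : (a1 : ℂ) ≠ ((Fr a1 : ℝ) : ℂ) := by
    intro h
    have : a1 = Fr a1 := by exact_mod_cast h
    linarith
  obtain ⟨i1, i2, i3⟩ := iter_two e0 e1 hne
  have hmul : ‖D c 2 (a1 : ℂ)‖ < 1 := by
    rw [i3, ← Complex.ofReal_mul, Complex.norm_real, Real.norm_eq_abs, mul_comm]
    rw [abs_of_pos (mul_pos_of_neg_of_neg h2 (Fr_neg a1))]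
    exact hm
  have hA : AttC c (a1 : ℂ) 2 := ⟨hc0, two_pos, i1, i2, hmul⟩
  obtain ⟨K, r, q, hac⟩ := hA.ac
  refine ⟨Fr a1, a1, K, r, q, ⟨hl, hac, e0, ?_, ha0, h1, h2, ?_⟩, hA⟩
  · rw [ex_real, Fr_fix]
  · -- the real line
    have hright : ∀ x : ℝ, -2 < x → (x : ℂ) ∉ Esc c K := by
      intro x hx
      have h3 := conv_real h1 hfix hlt hgt hx
      have h4 : ∀ m : ℕ, (ex c)^[2 * m] (x : ℂ) = (((fun x => Fr (Fr x))^[m] x : ℝ) : ℂ) := by
        intro m
        induction m with
        | zero => simp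
        | succ m ih =>
          rw [Nat.mul_succ, Nat.add_comm, Function.iterate_add_apply, ih]
          show ex c (ex c _) = _
          rw [hc, ex_real, ex_real, Function.iterate_succ_apply']
      have h5 : Tendsto (fun m : ℕ => (ex c)^[2 * m] (x : ℂ)) atTop (𝓝 (a1 : ℂ)) :=
        ((Complex.continuous_ofReal.tendsto a1).comp h3).congr fun m => (h4 m).symm
      obtain ⟨m, hm'⟩ := (h5.eventually (closedBall_mem_nhds _ hac.r0)).exists
      intro hx'
      exact hx' _ (hac.rK hm')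
    intro x hx
    rcases lt_or_gt_of_ne hx with h3 | h3
    · rw [← hac.trap.inv]
      have h4 : -2 < Fr x := by
        have := Fr_anti h3
        rwa [Fr_fix] at this
      rw [hc, ex_real]
      exact hright _ h4
    · exact hright x h3

end Run7.h102
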