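import Mathlib
import Pool.Agent.Run7.h102.RealPar

/-! Homeomorphic Julia sets of hyperbolic exponential maps, one of them with an attracting cycle of
period at most two (helper102, MP_3a87b6_an). -/

set_option autoImplicit false

open Set Filter Topology Metric

namespace Run7.h102

theorem half_ne : ((1 / 2 : ℝ) : ℂ) ≠ 0 := by norm_num

/-- the parameter `e^{-1/2} / 2` -/
theorem small_par : AttC (((1 / 2 : ℝ) : ℂ) * Complex.exp (-((1 / 2 : ℝ) : ℂ)))
    ((1 / 2 : ℝ) : ℂ) 1 :=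
  attC_one half_ne (by rw [Complex.norm_real]; norm_num)

theorem small_norm : ‖((1 / 2 : ℝ) : ℂ) * Complex.exp (-((1 / 2 : ℝ) : ℂ))‖ * Real.exp 1 < 1 := by
  rw [norm_mul, Complex.norm_exp, Complex.norm_real, Real.norm_of_nonneg (by norm_num), mul_assoc,
    ← Real.exp_add]
  have e : (-((1 / 2 : ℝ) : ℂ)).re + 1 = 1 / 2 := by
    rw [← Complex.ofReal_neg, Complex.ofReal_re]; norm_num
  rw [e]
  have h1 : Real.exp (1 / 2) < 2 := by
    have h2 : Real.exp (1 / 2) ^ 2 < 2 ^ 2 := by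
      rw [← Real.exp_nat_mul]
      norm_num
      have := Real.exp_one_lt_d9
      linarith
    exact lt_of_pow_lt_pow_left₀ 2 (by norm_num) h2
  linarith

theorem small_conn {c : ℂ} (hc : c ≠ 0) (h : ‖c‖ * Real.exp 1 < 1) :
    Trap c (closedBall 0 1) ∧ IsPreconnected (Esc c (closedBall 0 1))ᶜ := by
  have hmap : ∀ z : ℂ, ‖z‖ ≤ 1 → ‖ex c z‖ < 1 := by
    intro z hz
    rw [norm_ex]
    have h1 : Real.exp z.re ≤ Real.exp 1 :=
      Real.exp_le_exp.2 ((le_abs_self _).trans ((Complex.abs_re_le_norm z).trans hz))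
    exact lt_of_le_of_lt (mul_le_mul_of_nonneg_left h1 (norm_nonneg _)) h
  have hint : ball (0 : ℂ) 1 ⊆ interior (closedBall 0 1) :=
    interior_maximal ball_subset_closedBall isOpen_ball
  have htrap : Trap c (closedBall 0 1) := by
    refine ⟨isCompact_closedBall _ _, hint (mem_ball_self one_pos), fun z hz => hint ?_⟩
    rw [mem_ball_zero_iff]
    exact hmap z (by rwa [mem_closedBall_zero_iff] at hz)
  refine ⟨htrap, ?_⟩
  set V : ℕ → Set ℂ := fun n => (ex c)^[n] ⁻¹' ball 0 1 with hV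
  have hV0 : ∀ n, (0 : ℂ) ∈ V n := by
    intro n
    show (ex c)^[n] 0 ∈ ball (0 : ℂ) 1
    induction n with
    | zero => exact mem_ball_self one_pos
    | succ n ih =>
      rw [Function.iterate_succ_apply', mem_ball_zero_iff]
      exact hmap _ (by rw [mem_ball_zero_iff] at ih; exact ih.le)
  have hVo : ∀ n, IsOpen (V n) := fun n => isOpen_ball.preimage (iter_cont c n)
  have hVp : ∀ n, IsPreconnected (V n) := by
    intro n
    induction n with
    | zero => exact (convex_ball (0 : ℂ) 1).isPreconnected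
    | succ n ih =>
      have e : V (n + 1) = ex c ⁻¹' V n := by
        ext z
        show (ex c)^[n + 1] z ∈ ball (0 : ℂ) 1 ↔ (ex c)^[n] (ex c z) ∈ ball (0 : ℂ) 1
        rw [Function.iterate_succ_apply]
      rw [e]
      exact preim_conn hc (hVo n) ih (hV0 n)
  have e : (Esc c (closedBall 0 1))ᶜ = ⋃ n, V n := by
    ext z
    simp only [Esc, mem_compl_iff, mem_ofPred_eq, not_forall, not_not, mem_iUnion]
    constructor
    · rintro ⟨n, hn⟩
      refine ⟨n + 1, ?_⟩
      show (ex c)^[n + 1] z ∈ ball (0 : ℂ) 1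
      rw [Function.iterate_succ_apply', mem_ball_zero_iff]
      exact hmap _ (by rwa [mem_closedBall_zero_iff] at hn)
    · rintro ⟨n, hn⟩
      exact ⟨n, ball_subset_closedBall hn⟩
  rw [e]
  exact isPreconnected_iUnion ⟨0, mem_iInter.2 hV0⟩ hVp

theorem sp_of_homeo {X Y : Set ℂ} (H : ℂ ≃ₜ ℂ) (hH : H '' X = Y) {x y : ℂ}
    (h : ¬ Sp X x y) : ¬ Sp Y (H x) (H y) := by
  obtain ⟨D, hD, hx, hy, hdis⟩ := not_sep_iff.1 h
  refine not_sep_iff.2 ⟨H '' D, hD.image _ H.continuous.continuousOn, ⟨x, hx, rfl⟩,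
    ⟨y, hy, rfl⟩, ?_⟩
  rw [← hH, Set.disjoint_image_iff H.injective]
  exact hdis

/-- the Fatou set is connected for an attracting fixed point -/
theorem conn_one {c a : ℂ} (h : AttC c a 1) : ∀ u, u ∉ Jul c → ∀ v, v ∉ Jul c → ¬ Sp (Jul c) u v := by
  obtain ⟨H, hH⟩ := equiv_one small_par h
  obtain ⟨ht, hp⟩ := small_conn small_par.1 small_norm
  rw [← ht.jul small_par.1] at hp
  intro u hu v hv
  have hmem : ∀ w, w ∉ Jul c → H.symm w ∉ Jul (((1 / 2 : ℝ) : ℂ) *
      Complex.exp (-((1 / 2 : ℝ) : ℂ))) := by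
    intro w hw hw'
    apply hw
    rw [← hH]
    exact ⟨_, hw', H.apply_symm_apply w⟩
  have h1 := sp_of_homeo H hH (x := H.symm u) (y := H.symm v) (not_sep_iff.2
    ⟨_, hp, hmem u hu, hmem v hv, disjoint_compl_left⟩)
  rwa [H.apply_symm_apply, H.apply_symm_apply] at h1

theorem AttC.closed {c a : ℂ} {p : ℕ} (h : AttC c a p) : IsClosed (Jul c) := by
  obtain ⟨K, hK⟩ := h.trap
  rw [hK.jul h.1]
  exact hK.isClosed_Esc

theorem AttC.not_mem {c a : ℂ} {p : ℕ} (h : AttC c a p) : a ∉ Jul c := by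
  obtain ⟨K, r, q, hac⟩ := h.ac
  rw [hac.trap.jul h.1]
  exact hac.a_not 0

theorem AttC.period_one {c a : ℂ} {p : ℕ} (h : AttC c a p)
    (hs : ∀ u, u ∉ Jul c → ∀ v, v ∉ Jul c → ¬ Sp (Jul c) u v) : p = 1 := by
  obtain ⟨K, r, q, hac⟩ := h.ac
  rw [hac.trap.jul h.1] at hs
  exact Nat.dvd_one.1 (hac.cls a 1 (hac.a_not 0) (hs _ (hac.a_not 0) _ (hac.a_not 1)))

/-- Main theorem B: homeomorphic Julia sets of two hyperbolic exponential maps, one of them of
period at most two, are equivalently embedded -/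
theorem mainB {c c' a a' : ℂ} {p p' : ℕ} (h : AttC c a p) (hp : p ≤ 2) (h' : AttC c' a' p')
    (φ : Jul c ≃ₜ Jul c') : ∃ H : ℂ ≃ₜ ℂ, H '' Jul c = Jul c' := by
  have hp0 := h.2.1
  have hp12 : p = 1 ∨ p = 2 := by omega
  rcases hp12 with rfl | rfl
  · have h1 := tr0 h.closed h'.closed φ h.not_mem (conn_one h)
    have h2 := h'.period_one h1
    subst h2
    exact equiv_one h h'
  · obtain ⟨a0, a1, K, r, q, hNG, hA⟩ := exists_NG
    obtain ⟨H0, hH0⟩ := equiv_two hA h
    set l : ℂ := ((-2 * Real.exp 2 : ℝ) : ℂ) with hl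
    have hJ : Jul l = Esc l K := hNG.trap.jul hA.1
    have ψ : Jul l ≃ₜ Jul c' :=
      ((H0.image (Jul l)).trans (Homeomorph.setCongr hH0)).trans φ
    have hfs : FS (Jul l) := by rw [hJ]; exact hNG.fs
    have htwo : ∀ C, Cmp (Jul l) C → Two C := by rw [hJ]; exact hNG.two
    have hfs' := tr1 hA.closed h'.closed ψ hA.not_mem hfs
    have htwo' := tr2' hA.closed h'.closed ψ hA.not_mem htwo
    obtain ⟨K', r', q', hac'⟩ := h'.ac
    rw [hac'.trap.jul h'.1] at hfs' htwo'
    have hdvd := (hac'.td hfs' htwo').dvd_two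
    have hp0' := h'.2.1
    have hle := Nat.le_of_dvd two_pos hdvd
    have hp12' : p' = 1 ∨ p' = 2 := by omega
    rcases hp12' with rfl | rfl
    · exfalso
      have h1 := tr0 h'.closed h.closed φ.symm h'.not_mem (conn_one h')
      have h2 := h.period_one h1
      omega
    · exact equiv_two h h'

end Run7.h102
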