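import Mathlib
import Pool.Agent.Run7.h102.MainB

/-! The form of the statement with the explicit definition of the Julia set
(helper102, MP_3a87b6_an). -/

set_option autoImplicit false

open Set Filter Topology Metric

namespace Run7.h102

theorem exists_attC {c z : ℂ} {p : ℕ} (hc : c ≠ 0) (hp : 0 < p) (hfix : (ex c)^[p] z = z)
    (hm : ‖deriv (ex c)^[p] z‖ < 1) : ∃ p0, 0 < p0 ∧ p0 ≤ p ∧ AttC c z p0 := by
  rw [deriv_iter] at hm
  have hper : Function.IsPeriodicPt (ex c) p z := hfix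
  have h0 : 0 < Function.minimalPeriod (ex c) z := hper.minimalPeriod_pos hp
  have hdvd := hper.minimalPeriod_dvd
  have hfix0 : (ex c)^[Function.minimalPeriod (ex c) z] z = z := Function.iterate_minimalPeriod
  refine ⟨_, h0, Nat.le_of_dvd hp hdvd, hc, h0, hfix0, fun k hk => ?_, ?_⟩
  · exact Function.IsPeriodicPt.minimalPeriod_dvd hk
  · obtain ⟨m, hm'⟩ := hdvd
    have h1 := (iter_mul hfix0 m).2
    rw [← hm'] at h1
    rw [h1, norm_pow] at hm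
    by_contra hcon
    rw [not_lt] at hcon
    exact absurd (one_le_pow₀ hcon) (not_le.2 hm)

theorem mainB_form (J : ℂ → Set ℂ)
    (hJ : ∀ c z : ℂ, z ∈ J c ↔
      ¬ ∃ U ∈ nhds z, ∀ φ : ℕ → ℕ, StrictMono φ → ∃ ψ : ℕ → ℕ, StrictMono ψ ∧
        ((∃ g : ℂ → ℂ, TendstoLocallyUniformlyOn
            (fun k : ℕ => (fun w : ℂ => c * Complex.exp w)^[φ (ψ k)]) g Filter.atTop U) ∨
         (∀ K : Set ℂ, K ⊆ U → IsCompact K → ∀ R : ℝ, ∀ᶠ k in Filter.atTop,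
            ∀ x ∈ K, R < ‖(fun w : ℂ => c * Complex.exp w)^[φ (ψ k)] x‖)))
    (a b : ℂ) (ha : a ≠ 0) (hb : b ≠ 0)
    (h1 : ∃ (p : ℕ) (z : ℂ), 0 < p ∧ p ≤ 2 ∧ (fun w : ℂ => a * Complex.exp w)^[p] z = z ∧
      ‖deriv ((fun w : ℂ => a * Complex.exp w)^[p]) z‖ < 1)
    (h2 : ∃ (q : ℕ) (z : ℂ), 0 < q ∧ (fun w : ℂ => b * Complex.exp w)^[q] z = z ∧
      ‖deriv ((fun w : ℂ => b * Complex.exp w)^[q]) z‖ < 1)
    (h3 : Nonempty (↥(J a) ≃ₜ ↥(J b))) : ∃ h : ℂ ≃ₜ ℂ, h '' J a = J b := by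
  have hJJ : ∀ c, J c = Jul c := by
    intro c
    ext z
    exact hJ c z
  rw [hJJ, hJJ] at h3 ⊢
  obtain ⟨p, z, hp, hp2, hz, hzm⟩ := h1
  obtain ⟨q, w, hq, hw, hwm⟩ := h2
  obtain ⟨p0, -, hpp, hA⟩ := exists_attC ha hp hz hzm
  obtain ⟨q0, -, -, hB⟩ := exists_attC hb hq hw hwm
  obtain ⟨φ⟩ := h3
  exact mainB hA (hpp.trans hp2) hB φ

end Run7.h102
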