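import Pool.Agent.Run7.h442.BA.Stm

/-!
# Project BA, part A (`S_APX`): approximation by trigonometric polynomials
-/

set_option autoImplicit false
set_option linter.all false

namespace Pool.Agent.Run7.h102.BA_A

open Pool.Agent.W792.LL Pool.Agent.Run7.h442.BA

noncomputable section

/-- the function `cos² (π s)` -/
def hh (s : UnitAddCircle) : ℝ := (1 + (fourier 1 s : ℂ).re) / 2

theorem f_norm (b : ℤ) (s : UnitAddCircle) : ‖(fourier b s : ℂ)‖ = 1 := by
  rw [fourier_apply]
  exact Circle.norm_coe _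

theorem hh_nonneg (s : UnitAddCircle) : 0 ≤ hh s := by
  unfold hh
  have h1 := Complex.abs_re_le_norm (fourier 1 s : ℂ)
  rw [f_norm] at h1
  have := (abs_le.1 h1).1
  linarith

theorem f_pow (b : ℤ) (s : UnitAddCircle) : (fourier b s : ℂ) = (fourier 1 s : ℂ) ^ b := by
  rw [fourier_apply, fourier_apply, one_zsmul, AddCircle.toCircle_zsmul, Circle.coe_zpow]

theorem hh_pow (n : ℕ) (s : UnitAddCircle) : ((hh s ^ n : ℝ) : ℂ) =
    ∑ a ∈ Finset.range (2 * n + 1), ((4 : ℂ) ^ n)⁻¹ * ((2 * n).choose a : ℂ)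
      * fourier ((a : ℤ) - n) s := by
  have h2 := fun b => f_pow b s
  set z : ℂ := fourier 1 s with hz
  have hz1 : ‖z‖ = 1 := f_norm 1 s
  have hz0 : z ≠ 0 := by
    intro h
    rw [h] at hz1
    simp at hz1
  have hzc : (starRingEnd ℂ) z = z⁻¹ := (Complex.inv_eq_conj hz1).symm
  have h1 : ((hh s : ℝ) : ℂ) = (z + 1) ^ 2 / (4 * z) := by
    unfold hh
    push_cast
    rw [← hz, Complex.re_eq_add_conj, hzc]
    field_simp
    ring
  rw [Complex.ofReal_pow, h1, div_pow, ← pow_mul, add_pow, Finset.sum_div]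
  refine Finset.sum_congr rfl fun a ha => ?_
  rw [h2, zpow_sub₀ hz0, mul_pow, zpow_natCast, zpow_natCast, one_pow]
  field_simp

theorem quad (N : ℕ) [NeZero N] (b : ℤ) (hb : |b| < N) (k : UnitAddCircle) :
    ∑ t : ZMod N, (fourier b (k - ZMod.toAddCircle t) : ℂ) = if b = 0 then (N : ℂ) else 0 := by
  have h1 : ∀ t : ZMod N, (fourier b (k - ZMod.toAddCircle t) : ℂ) =
      fourier b k * ZMod.stdAddChar (t * (-(b : ZMod N))) := by
    intro t
    rw [fourier_apply, fourier_apply, smul_sub, sub_eq_add_neg, AddCircle.toCircle_add,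
      Circle.coe_mul, ZMod.stdAddChar_apply]
    congr 2
    have h2 : t * (-(b : ZMod N)) = -(b • t) := by rw [zsmul_eq_mul]; ring
    rw [h2, ← map_zsmul, ← map_neg]
    rfl
  simp only [h1]
  rw [← Finset.mul_sum, AddChar.sum_mulShift _ (ZMod.isPrimitive_stdAddChar N)]
  have h3 : (-(b : ZMod N) = 0) ↔ b = 0 := by
    rw [neg_eq_zero, ZMod.intCast_zmod_eq_zero_iff_dvd]
    constructor
    · intro h
      exact Int.eq_zero_of_abs_lt_dvd h hb
    · rintro rfl
      exact dvd_zero _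
  by_cases h : b = 0
  · rw [if_pos (h3.2 h), if_pos h, h, fourier_zero, ZMod.card, one_mul]
  · rw [if_neg (fun h' => h (h3.1 h')), if_neg h]
    simp

/-- the normalization -/
def AN (N m : ℕ) : ℝ := N * ((4 : ℝ) ^ m)⁻¹ * (Nat.centralBinom m : ℝ)

theorem AN_pos (N m : ℕ) [NeZero N] : 0 < AN N m := by
  unfold AN
  have h1 : (0 : ℝ) < N := by exact_mod_cast Nat.pos_of_ne_zero (NeZero.ne N)
  have h2 : (0 : ℝ) < Nat.centralBinom m := by exact_mod_cast Nat.centralBinom_pos m
  positivity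

theorem AN_succ (N m : ℕ) : AN N (m + 1) = AN N m * ((2 * m + 1) / (2 * m + 2)) := by
  unfold AN
  have h := Nat.succ_mul_centralBinom_succ m
  have h' : ((m : ℝ) + 1) * (Nat.centralBinom (m + 1) : ℝ) = 2 * (2 * m + 1) * Nat.centralBinom m := by
    exact_mod_cast h
  have h1 : ((m : ℝ) + 1) ≠ 0 := by positivity
  have h2 : (Nat.centralBinom (m + 1) : ℝ) = 2 * (2 * m + 1) * Nat.centralBinom m / (m + 1) := by
    rw [eq_div_iff h1, ← h', mul_comm]
  rw [h2, pow_succ]
  field_simp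
  ring

theorem quad_h (N m : ℕ) [NeZero N] (hm : m < N) (k : UnitAddCircle) :
    ∑ t : ZMod N, hh (k - ZMod.toAddCircle t) ^ m = AN N m := by
  have h : ((∑ t : ZMod N, hh (k - ZMod.toAddCircle t) ^ m : ℝ) : ℂ) = ((AN N m : ℝ) : ℂ) := by
    rw [Complex.ofReal_sum]
    simp only [hh_pow]
    rw [Finset.sum_comm]
    simp only [← Finset.mul_sum]
    rw [Finset.sum_eq_single m]
    · rw [quad N _ (by simpa using Nat.pos_of_ne_zero (NeZero.ne N)), if_pos (sub_self _)]
      unfold AN Nat.centralBinom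
      push_cast
      ring
    · intro a ha ham
      have ha' := Finset.mem_range.1 ha
      rw [quad N _ (by rw [abs_lt]; constructor <;> omega), if_neg, mul_zero]
      intro h0
      apply ham
      omega
    · intro h0
      exact absurd (Finset.mem_range.2 (by omega)) h0
  exact_mod_cast h

/-- the weights -/
def Wt (N n : ℕ) (k : UnitAddCircle) (t : ZMod N) [NeZero N] : ℝ :=
  hh (k - ZMod.toAddCircle t) ^ n / AN N n

section weights

variable (N n : ℕ) [NeZero N] (k : UnitAddCircle)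

theorem Wt_nonneg (t : ZMod N) : 0 ≤ Wt N n k t :=
  div_nonneg (pow_nonneg (hh_nonneg _) _) (AN_pos N n).le

theorem Wt_sum (hn : n < N) : ∑ t, Wt N n k t = 1 := by
  unfold Wt
  rw [← Finset.sum_div, quad_h N n hn, div_self (AN_pos N n).ne']

theorem Wt_sin (hn : n + 1 < N) :
    ∑ t, Wt N n k t * (1 - hh (k - ZMod.toAddCircle t)) = 1 / (2 * n + 2) := by
  have h1 : ∀ t, Wt N n k t * (1 - hh (k - ZMod.toAddCircle t)) =
      Wt N n k t - hh (k - ZMod.toAddCircle t) ^ (n + 1) / AN N n := by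
    intro t
    unfold Wt
    rw [pow_succ]
    ring
  simp only [h1]
  rw [Finset.sum_sub_distrib, Wt_sum N n k (by omega), ← Finset.sum_div, quad_h N (n + 1) hn,
    AN_succ, mul_div_cancel_left₀ _ (AN_pos N n).ne']
  have : (2 * (n : ℝ) + 2) ≠ 0 := by positivity
  field_simp
  ring

end weights

theorem rep (s : UnitAddCircle) : ∃ h : ℝ, (h : UnitAddCircle) = s ∧ |h| = ‖s‖ ∧ |h| ≤ 1 / 2 := by
  induction s using QuotientAddGroup.induction_on with
  | H r =>
    refine ⟨r - round r, ?_, ?_, abs_sub_round r⟩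
    · rw [AddCircle.coe_sub]
      have : ((round r : ℝ) : UnitAddCircle) = 0 := by
        have h := AddCircle.coe_eq_zero_iff (p := (1 : ℝ)) (x := ((round r : ℤ) : ℝ))
        rw [h]
        exact ⟨round r, by simp⟩
      rw [this, sub_zero]
    · exact (UnitAddCircle.norm_eq).symm

theorem norm_le_hh (s : UnitAddCircle) : ‖s‖ ^ 2 ≤ (1 - hh s) / 4 := by
  obtain ⟨h, rfl, h2, h3⟩ := rep s
  rw [← h2]
  have h4 : (fourier 1 (h : UnitAddCircle) : ℂ).re = Real.cos (2 * Real.pi * h) := by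
    rw [fourier_coe_apply]
    have : (2 * Real.pi * Complex.I * (1 : ℤ) * h / (1 : ℝ) : ℂ) =
      ((2 * Real.pi * h : ℝ) : ℂ) * Complex.I := by
      push_cast
      ring
    rw [this, Complex.exp_ofReal_mul_I_re]
  have h5 : 1 - hh (h : UnitAddCircle) = Real.sin (Real.pi * |h|) ^ 2 := by
    unfold hh
    rw [h4]
    have h6 : Real.cos (2 * Real.pi * h) = Real.cos (2 * (Real.pi * |h|)) := by
      rcases abs_cases h with ⟨ha, _⟩ | ⟨ha, _⟩
      · rw [ha]
        congr 1
        ring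
      · rw [ha, ← Real.cos_neg]
        congr 1
        ring
    rw [h6, Real.cos_two_mul]
    have := Real.sin_sq_add_cos_sq (Real.pi * |h|)
    linarith
  rw [h5]
  have hpi := Real.pi_pos
  have h7 := Real.mul_le_sin (x := Real.pi * |h|) (by positivity) (by nlinarith)
  have h8 : 2 / Real.pi * (Real.pi * |h|) = 2 * |h| := by field_simp
  rw [h8] at h7
  have h9 : 0 ≤ |h| := abs_nonneg h
  nlinarith

theorem amgm (n : ℕ) (hn : 1 ≤ n) (x : ℝ) : x ≤ √n / 2 * x ^ 2 + 1 / (2 * √n) := by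
  have h0 : (0 : ℝ) < √n := Real.sqrt_pos.2 (by exact_mod_cast hn)
  have h1 : √n / 2 * x ^ 2 + 1 / (2 * √n) - x = (√n * x - 1) ^ 2 / (2 * √n) := by
    field_simp
    ring
  have h2 : 0 ≤ (√n * x - 1) ^ 2 / (2 * √n) := by positivity
  linarith

theorem Wt_norm (N n : ℕ) [NeZero N] (hn1 : 1 ≤ n) (hn : n + 1 < N) (k : UnitAddCircle) :
    ∑ t, Wt N n k t * ‖k - ZMod.toAddCircle t‖ ≤ 1 / √n := by
  have h0 : (0 : ℝ) < √n := Real.sqrt_pos.2 (by exact_mod_cast hn1)
  have h1 : ∀ t, Wt N n k t * ‖k - ZMod.toAddCircle t‖ ≤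
      √n / 8 * (Wt N n k t * (1 - hh (k - ZMod.toAddCircle t))) + 1 / (2 * √n) * Wt N n k t := by
    intro t
    have h2 := amgm n hn1 ‖k - ZMod.toAddCircle t‖
    have h3 := norm_le_hh (k - ZMod.toAddCircle t)
    have h4 := Wt_nonneg N n k t
    have h5 : ‖k - ZMod.toAddCircle t‖ ≤ √n / 8 * (1 - hh (k - ZMod.toAddCircle t)) +
        1 / (2 * √n) := by nlinarith
    calc Wt N n k t * ‖k - ZMod.toAddCircle t‖ ≤ Wt N n k t *
          (√n / 8 * (1 - hh (k - ZMod.toAddCircle t)) + 1 / (2 * √n)) :=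
          mul_le_mul_of_nonneg_left h5 h4
      _ = _ := by ring
  refine (Finset.sum_le_sum fun t _ => h1 t).trans ?_
  rw [Finset.sum_add_distrib, ← Finset.mul_sum, ← Finset.mul_sum, Wt_sin N n k hn,
    Wt_sum N n k (by omega), mul_one]
  have h6 : √n * √n = n := Real.mul_self_sqrt (by positivity)
  have h7 : √n / 8 * (1 / (2 * n + 2)) ≤ 1 / (2 * √n) := by
    rw [div_mul_div_comm, mul_one, div_le_div_iff₀ (by positivity) (by positivity)]
    nlinarith
  have h8 : 1 / (2 * √n) + 1 / (2 * √n) = 1 / √n := by field_simp; ring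
  linarith

/-- the coefficients -/
def gc (N n : ℕ) [NeZero N] (t : ZMod N) (a : Fin (2 * n + 1)) : ℂ :=
  ((AN N n : ℝ) : ℂ)⁻¹ * (((4 : ℂ) ^ n)⁻¹ * ((2 * n).choose a : ℂ)
    * fourier (((a : ℕ) : ℤ) - n) (-(ZMod.toAddCircle t)))

theorem Wt_eq (N n : ℕ) [NeZero N] (k : UnitAddCircle) (t : ZMod N) :
    ((Wt N n k t : ℝ) : ℂ) = ∑ a : Fin (2 * n + 1), gc N n t a
      * fourier (((a : ℕ) : ℤ) - n) k := by
  unfold Wt
  rw [Complex.ofReal_div, hh_pow, ← Fin.sum_univ_eq_sum_range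
    (fun a => ((4 : ℂ) ^ n)⁻¹ * ((2 * n).choose a : ℂ) *
      fourier ((a : ℤ) - n) (k - ZMod.toAddCircle t)) (2 * n + 1), Finset.sum_div]
  refine Finset.sum_congr rfl fun a _ => ?_
  unfold gc
  have h1 : (fourier (((a : ℕ) : ℤ) - n) (k - ZMod.toAddCircle t) : ℂ) =
      fourier (((a : ℕ) : ℤ) - n) k * fourier (((a : ℕ) : ℤ) - n) (-(ZMod.toAddCircle t)) := by
    rw [fourier_apply, fourier_apply, fourier_apply, sub_eq_add_neg k, smul_add,
      AddCircle.toCircle_add, Circle.coe_mul]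
  rw [h1, div_eq_mul_inv]
  ring

theorem main : S_APX := by
  intro d m q Λ n hn hq hΛ hLip
  have hq0 : 0 ≤ q := (norm_nonneg _).trans hq
  set N : ℕ := n + 2 with hN
  haveI : NeZero N := ⟨by omega⟩
  set pt : (Fin d → ZMod N) → UnitAddTorus (Fin d) := fun t i => ZMod.toAddCircle (t i) with hpt
  set g : C(UnitAddTorus (Fin d), ℂ) := ∑ t : Fin d → ZMod N, ∑ A : Fin d → Fin (2 * n + 1),
    (m (pt t) * ∏ i, gc N n (t i) (A i)) •
      UnitAddTorus.mFourier (fun i => ((A i : ℕ) : ℤ) - n) with hg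
  have hgk : ∀ k, g k = ∑ t : Fin d → ZMod N, m (pt t) * ((∏ i, Wt N n (k i) (t i) : ℝ) : ℂ) := by
    intro k
    rw [hg, ContinuousMap.sum_apply]
    refine Finset.sum_congr rfl fun t _ => ?_
    rw [ContinuousMap.sum_apply, Complex.ofReal_prod]
    simp only [Wt_eq]
    rw [Fintype.prod_sum, Finset.mul_sum]
    refine Finset.sum_congr rfl fun A _ => ?_
    rw [ContinuousMap.smul_apply, smul_eq_mul, mul_assoc, Finset.prod_mul_distrib]
    rfl
  have hW0 : ∀ (k : UnitAddTorus (Fin d)) (t : Fin d → ZMod N), 0 ≤ ∏ i, Wt N n (k i) (t i) :=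
    fun k t => Finset.prod_nonneg fun i _ => Wt_nonneg N n (k i) (t i)
  have hW1 : ∀ k : UnitAddTorus (Fin d), ∑ t : Fin d → ZMod N, ∏ i, Wt N n (k i) (t i) = 1 := by
    intro k
    have h := Fintype.prod_sum (fun (i : Fin d) (t : ZMod N) => Wt N n (k i) t)
    rw [← h]
    exact Finset.prod_eq_one fun i _ => Wt_sum N n (k i) (by omega)
  have hW2 : ∀ (k : UnitAddTorus (Fin d)) (l : Fin d), ∑ t : Fin d → ZMod N,
      (∏ i, Wt N n (k i) (t i)) * ‖k l - ZMod.toAddCircle (t l)‖ ≤ 1 / √n := by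
    intro k l
    have h := Fintype.prod_sum (fun (i : Fin d) (t : ZMod N) => Wt N n (k i) t *
      (if i = l then ‖k l - ZMod.toAddCircle t‖ else 1))
    have h2 : ∀ t : Fin d → ZMod N, (∏ i, Wt N n (k i) (t i)) * ‖k l - ZMod.toAddCircle (t l)‖ =
        ∏ i, (Wt N n (k i) (t i) * (if i = l then ‖k l - ZMod.toAddCircle (t i)‖ else 1)) := by
      intro t
      rw [Finset.prod_mul_distrib, Finset.prod_ite_eq' Finset.univ l
        (fun i => ‖k l - ZMod.toAddCircle (t i)‖), if_pos (Finset.mem_univ l)]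
    simp only [h2]
    rw [← h]
    rw [Finset.prod_eq_single l]
    · simp only [if_true]
      exact Wt_norm N n hn (by omega) (k l)
    · intro i _ hi
      simp only [if_neg hi, mul_one]
      exact Wt_sum N n (k i) (by omega)
    · intro h'
      exact absurd (Finset.mem_univ l) h'
  have hmem : g ∈ Submodule.span ℂ
      ((UnitAddTorus.mFourier : (Fin d → ℤ) → C(UnitAddTorus (Fin d), ℂ)) ''
        {x | ∀ i, |x i| ≤ n}) := by
    rw [hg]
    refine Submodule.sum_mem _ fun t _ => Submodule.sum_mem _ fun A _ => Submodule.smul_mem _ _ ?_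
    refine Submodule.subset_span ⟨_, ?_, rfl⟩
    intro i
    have := (A i).2
    change |(((A i : ℕ) : ℤ) - n)| ≤ n
    rw [abs_le]
    constructor <;> omega
  obtain ⟨f, hf, hfg⟩ := (Finsupp.mem_span_image_iff_linearCombination ℂ).1 hmem
  have htf : trig f = g := hfg
  refine ⟨f, fun x hx i => (Finsupp.mem_supported ℂ f).1 hf hx i, ?_, ?_⟩
  · rw [htf, ContinuousMap.norm_le _ hq0]
    intro k
    rw [hgk]
    refine (norm_sum_le _ _).trans ?_
    calc ∑ t : Fin d → ZMod N, ‖m (pt t) * ((∏ i, Wt N n (k i) (t i) : ℝ) : ℂ)‖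
        ≤ ∑ t : Fin d → ZMod N, q * ∏ i, Wt N n (k i) (t i) := by
          refine Finset.sum_le_sum fun t _ => ?_
          rw [norm_mul, Complex.norm_real, Real.norm_of_nonneg (hW0 k t)]
          exact mul_le_mul_of_nonneg_right ((m.norm_coe_le_norm _).trans hq) (hW0 k t)
      _ = q := by rw [← Finset.mul_sum, hW1, mul_one]
  · rw [htf, ContinuousMap.norm_le _ (by positivity)]
    intro k
    have h1 : (m - g) k = ∑ t : Fin d → ZMod N, (m k - m (pt t)) *
        ((∏ i, Wt N n (k i) (t i) : ℝ) : ℂ) := by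
      simp only [sub_mul]
      rw [Finset.sum_sub_distrib, ← Finset.mul_sum, ← Complex.ofReal_sum, hW1, Complex.ofReal_one,
        mul_one, ContinuousMap.sub_apply, hgk]
    have h2 : ∀ t : Fin d → ZMod N, ‖m k - m (pt t)‖ ≤
        Λ * ∑ l, ‖k l - ZMod.toAddCircle (t l)‖ := by
      intro t
      choose h hh1 hh2 hh3 using fun l => rep (k l - ZMod.toAddCircle (t l))
      have h3 := hLip h (pt t)
      have h4 : sft h (pt t) = k := by
        funext l
        unfold sft
        rw [hh1 l]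
        simp only [hpt]
        abel
      rw [h4] at h3
      unfold n1 at h3
      simpa only [hh2] using h3
    rw [h1]
    refine (norm_sum_le _ _).trans ?_
    calc ∑ t : Fin d → ZMod N, ‖(m k - m (pt t)) * ((∏ i, Wt N n (k i) (t i) : ℝ) : ℂ)‖
        ≤ ∑ t : Fin d → ZMod N, ∑ l, Λ * ((∏ i, Wt N n (k i) (t i)) *
            ‖k l - ZMod.toAddCircle (t l)‖) := by
          refine Finset.sum_le_sum fun t _ => ?_
          rw [norm_mul, Complex.norm_real, Real.norm_of_nonneg (hW0 k t)]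
          refine (mul_le_mul_of_nonneg_right (h2 t) (hW0 k t)).trans (le_of_eq ?_)
          rw [mul_assoc, Finset.sum_mul, Finset.mul_sum]
          refine Finset.sum_congr rfl fun l _ => ?_
          ring
      _ = ∑ l : Fin d, Λ * ∑ t : Fin d → ZMod N, (∏ i, Wt N n (k i) (t i)) *
            ‖k l - ZMod.toAddCircle (t l)‖ := by
          rw [Finset.sum_comm]
          simp only [Finset.mul_sum]
      _ ≤ ∑ l : Fin d, Λ * (1 / √n) :=
          Finset.sum_le_sum fun l _ => mul_le_mul_of_nonneg_left (hW2 k l) hΛ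
      _ = d * Λ / √n := by
          rw [Finset.sum_const, Finset.card_univ, Fintype.card_fin, nsmul_eq_mul]
          ring

end

end Pool.Agent.Run7.h102.BA_A
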