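import Pool.Agent.Run7.h102.BA_P3

/-!
# Project BA, part P (`S_PER`): from the lattice to the torus, symbols of finite range
-/

set_option autoImplicit false
set_option linter.all false

namespace Pool.Agent.Run7.h102.BA_P

open MeasureTheory Filter Pool.Agent.W792.LL Pool.Agent.W792.WA
open Pool.Agent.Run7.h442.BA
open Pool.Agent.W298.WA.Csym (cay_norm cay_cont)
open Pool.Agent.W788.BK (PP nsq nsq_nonneg nsq_eq nsq_smul nsq_eq_zero)
open Pool.Agent.W788.MFP.Four (T e NN adj e_comm e_add_left e_add e_zero e_neg e_neg_left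
  e_normSq sum_e NN_pos card_T)
open scoped Topology Matrix

noncomputable section

variable {d L : ℕ} [NeZero L]

/-- norm of a vector -/
def nm (u : T d L → ℂ) : ℝ := ‖(WithLp.toLp 2 u : EuclideanSpace ℂ (T d L))‖

theorem nm_nonneg (u : T d L → ℂ) : 0 ≤ nm u := norm_nonneg _

theorem nm_sq (u : T d L → ℂ) : nm u ^ 2 = nsq u := by
  unfold nm nsq
  rw [EuclideanSpace.norm_sq_eq]

theorem nm_add (u w : T d L → ℂ) : nm (u + w) ≤ nm u + nm w := by
  unfold nm
  rw [WithLp.toLp_add]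
  exact norm_add_le _ _

theorem nm_le_of (u w : T d L → ℂ) (q : ℝ) (hq : 0 ≤ q) (h : nsq u ≤ q ^ 2 * nsq w) :
    nm u ≤ q * nm w := by
  refine le_of_sq_le_sq ?_ (mul_nonneg hq (nm_nonneg w))
  rw [mul_pow, nm_sq, nm_sq]
  exact h

theorem abs_le_nm (u : T d L → ℂ) (k : T d L) : ‖u k‖ ≤ nm u := by
  refine le_of_sq_le_sq ?_ (nm_nonneg u)
  rw [nm_sq]
  unfold nsq
  exact Finset.single_le_sum (f := fun i => ‖u i‖ ^ 2) (fun i _ => by positivity)
    (Finset.mem_univ k)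

theorem nm_CL (V : T d L → ℝ) (u : T d L → ℂ) : nm (CL V *ᵥ u) ≤ nm u := by
  have := nm_le_of (CL V *ᵥ u) u 1 zero_le_one (by rw [nsq_CL, one_pow, one_mul])
  rwa [one_mul] at this

theorem nm_diag (m : T d L → ℂ) (q : ℝ) (hq : 0 ≤ q) (hm : ∀ k, ‖m k‖ ≤ q) (u : T d L → ℂ) :
    nm (Matrix.diagonal m *ᵥ u) ≤ q * nm u := by
  refine nm_le_of _ _ q hq ?_
  unfold nsq
  rw [Finset.mul_sum]
  refine Finset.sum_le_sum fun k _ => ?_
  rw [Matrix.mulVec_diagonal, norm_mul, mul_pow]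
  exact mul_le_mul_of_nonneg_right (pow_le_pow_left₀ (norm_nonneg _) (hm k) 2) (by positivity)

theorem nm_A (m : T d L → ℂ) (q : ℝ) (hq : 0 ≤ q) (hm : ∀ k, ‖m k‖ ≤ q) (V : T d L → ℝ)
    (u : T d L → ℂ) : nm ((Matrix.diagonal m * CL V) *ᵥ u) ≤ q * nm u := by
  rw [← Matrix.mulVec_mulVec]
  exact (nm_diag m q hq hm _).trans (mul_le_mul_of_nonneg_left (nm_CL V u) hq)

theorem nm_Tk (m : T d L → ℂ) (q : ℝ) (hq : 0 ≤ q) (hm : ∀ k, ‖m k‖ ≤ q) (V : T d L → ℝ) (i : ℕ)
    (u : T d L → ℂ) : nm (Tk m V i *ᵥ u) ≤ q ^ i * nm u := by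
  unfold Tk
  rw [← Matrix.mulVec_mulVec]
  refine (nm_CL V _).trans ?_
  induction i with
  | zero => simp
  | succ i ih =>
    rw [pow_succ', ← Matrix.mulVec_mulVec]
    refine (nm_A m q hq hm V _).trans ?_
    rw [pow_succ', mul_assoc]
    exact mul_le_mul_of_nonneg_left ih hq

theorem isU (m : T d L → ℂ) (q : ℝ) (hq : 0 ≤ q) (hq1 : q < 1) (hm : ∀ k, ‖m k‖ ≤ q)
    (V : T d L → ℝ) : IsUnit (1 - Matrix.diagonal m * CL V) := by
  rw [← Matrix.mulVec_injective_iff_isUnit]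
  intro u w huw
  have h1 : (1 - Matrix.diagonal m * CL V) *ᵥ (u - w) = 0 := by
    rw [Matrix.mulVec_sub]
    exact sub_eq_zero.2 huw
  rw [Matrix.sub_mulVec, Matrix.one_mulVec, sub_eq_zero] at h1
  have h2 := nm_A m q hq hm V (u - w)
  rw [← h1] at h2
  have h3 := nm_nonneg (u - w)
  have h4 : nm (u - w) = 0 := by nlinarith
  have h5 : nsq (u - w) = 0 := by rw [← nm_sq, h4]; norm_num
  exact sub_eq_zero.1 (nsq_eq_zero _ h5)

theorem mul_R (m : T d L → ℂ) (q : ℝ) (hq : 0 ≤ q) (hq1 : q < 1) (hm : ∀ k, ‖m k‖ ≤ q)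
    (V : T d L → ℝ) : (1 - Matrix.diagonal m * CL V) * (1 - Matrix.diagonal m * CL V)⁻¹ = 1 :=
  Matrix.mul_nonsing_inv _ ((Matrix.isUnit_iff_isUnit_det _).1 (isU m q hq hq1 hm V))

theorem nm_R (m : T d L → ℂ) (q : ℝ) (hq : 0 ≤ q) (hq1 : q < 1) (hm : ∀ k, ‖m k‖ ≤ q)
    (V : T d L → ℝ) (w : T d L → ℂ) :
    nm ((1 - Matrix.diagonal m * CL V)⁻¹ *ᵥ w) ≤ nm w / (1 - q) := by
  set x := (1 - Matrix.diagonal m * CL V)⁻¹ *ᵥ w with hx
  have h1 : (1 - Matrix.diagonal m * CL V) *ᵥ x = w := by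
    rw [hx, Matrix.mulVec_mulVec, mul_R m q hq hq1 hm, Matrix.one_mulVec]
  have h2 : x = w + (Matrix.diagonal m * CL V) *ᵥ x := by
    conv_rhs => rw [← h1, Matrix.sub_mulVec, Matrix.one_mulVec]
    abel
  have h3 : nm x ≤ nm w + q * nm x := by
    conv_lhs => rw [h2]
    exact (nm_add _ _).trans (add_le_add_right (nm_A m q hq hm V x) _)
  rw [le_div_iff₀ (by linarith)]
  linarith

theorem nm_single (j : T d L) : nm (Pi.single j 1) = 1 := by
  have h : nm (Pi.single j 1 : T d L → ℂ) ^ 2 = 1 := by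
    rw [nm_sq]
    unfold nsq
    rw [Finset.sum_eq_single j]
    · simp
    · intro k _ hk
      rw [Pi.single_eq_of_ne hk]
      simp
    · intro h
      exact absurd (Finset.mem_univ j) h
  have h2 := nm_nonneg (Pi.single j 1 : T d L → ℂ)
  nlinarith

/-- the resolvent on the torus -/
def RL (m : T d L → ℂ) (V : T d L → ℝ) : Matrix (T d L) (T d L) ℂ :=
  CL V * (1 - Matrix.diagonal m * CL V)⁻¹

theorem entry (A : Matrix (T d L) (T d L) ℂ) (j : T d L) : A j j = (A *ᵥ Pi.single j 1) j := by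
  rw [Matrix.mulVec_single_one]
  rfl

theorem tor (m : T d L → ℂ) (q : ℝ) (hq : 0 ≤ q) (hq1 : q < 1) (hm : ∀ k, ‖m k‖ ≤ q)
    (V : T d L → ℝ) (j : T d L) (n : ℕ) :
    ‖RL m V j j - ∑ i ∈ Finset.range n, Tk m V i j j‖ ≤ q ^ n / (1 - q) := by
  have h1 := neu (Matrix.diagonal m * CL V) _ (mul_R m q hq hq1 hm V) n
  have h2 : RL m V = ∑ i ∈ Finset.range n, Tk m V i +
      Tk m V n * (1 - Matrix.diagonal m * CL V)⁻¹ := by
    unfold RL
    conv_lhs => rw [h1]
    rw [mul_add, Finset.mul_sum]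
    unfold Tk
    rw [mul_assoc]
  have h3 : RL m V j j - ∑ i ∈ Finset.range n, Tk m V i j j =
      (Tk m V n * (1 - Matrix.diagonal m * CL V)⁻¹) j j := by
    rw [h2, Matrix.add_apply, Matrix.sum_apply, add_sub_cancel_left]
  rw [h3, entry (Tk m V n * (1 - Matrix.diagonal m * CL V)⁻¹) j, ← Matrix.mulVec_mulVec]
  refine (abs_le_nm _ j).trans ((nm_Tk m q hq hm V n _).trans ?_)
  have h4 := nm_R m q hq hq1 hm V (Pi.single j 1)
  rw [nm_single] at h4
  calc q ^ n * nm ((1 - Matrix.diagonal m * CL V)⁻¹ *ᵥ Pi.single j 1) ≤ q ^ n * (1 / (1 - q)) :=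
        mul_le_mul_of_nonneg_left h4 (by positivity)
    _ = _ := by ring

theorem RL_cont (m : T d L → ℂ) (q : ℝ) (hq : 0 ≤ q) (hq1 : q < 1) (hm : ∀ k, ‖m k‖ ≤ q)
    (j : T d L) : Continuous fun V : T d L → ℝ => RL m V j j := by
  have h1 : Continuous fun V : T d L → ℝ => CL V := by
    unfold CL
    exact continuous_finset_sum _ fun y _ => (cay_cont.comp (continuous_apply y)).smul
      continuous_const
  have h2 : Continuous fun V : T d L → ℝ => 1 - Matrix.diagonal m * CL V :=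
    continuous_const.sub (continuous_const.matrix_mul h1)
  have h3 : Continuous fun V : T d L → ℝ => (1 - Matrix.diagonal m * CL V)⁻¹ := by
    have h4 : ∀ V : T d L → ℝ, (1 - Matrix.diagonal m * CL V)⁻¹ =
        ((1 - Matrix.diagonal m * CL V).det)⁻¹ • (1 - Matrix.diagonal m * CL V).adjugate := by
      intro V
      rw [Matrix.inv_def, Ring.inverse_eq_inv']
    simp only [h4]
    refine (h2.matrix_det.inv₀ fun V => ?_).smul h2.matrix_adjugate
    exact ((Matrix.isUnit_iff_isUnit_det _).1 (isU m q hq hq1 hm V)).ne_zero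
  exact (h1.matrix_mul h3).matrix_elem j j

theorem RL_bd (m : T d L → ℂ) (q : ℝ) (hq : 0 ≤ q) (hq1 : q < 1) (hm : ∀ k, ‖m k‖ ≤ q)
    (V : T d L → ℝ) (j : T d L) : ‖RL m V j j‖ ≤ 1 / (1 - q) := by
  have h := tor m q hq hq1 hm V j 0
  simpa using h

theorem PP_eq (ν : Measure ℝ) [IsProbabilityMeasure ν] : PP (T d L) ν = Pn ν (T d L) := by
  unfold PP Pn
  rw [Measure.infinitePi_eq_pi]

theorem csL_eq (ν : Measure ℝ) (m : T d L → ℂ) (j : T d L) :
    csL ν m j = ∫ V, RL m V j j ∂(PP (T d L) ν) := rfl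

theorem Tk_mean (ν : Measure ℝ) [IsProbabilityMeasure ν] (f : (Fin d → ℤ) →₀ ℂ)
    (k₀ : UnitAddTorus (Fin d)) (j : T d L) (i : ℕ) :
    Integrable (fun V => Tk (fib (trig f) k₀) V i j j) (Pn ν (T d L)) ∧
    ∫ V, Tk (fib (trig f) k₀) V i j j ∂(Pn ν (T d L))
      = Em ν f.support (bk f (kk k₀ j)) (rd L) i := by
  simp only [diag_rc]
  have h1 : ∀ y : T d L, Integrable (fun V : T d L → ℝ =>
      rc f.support (bk f (kk k₀ j)) (rd L) (fun z => cay (V z)) i y) (Pn ν (T d L)) := fun y =>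
    rc_int ν _ _ _ i y
  refine ⟨(integrable_finsetSum _ fun y _ => h1 y).const_mul _, ?_⟩
  rw [integral_const_mul, integral_finsetSum _ (fun y _ => h1 y)]
  simp only [Em_x]
  rw [Finset.sum_const, Finset.card_univ, nsmul_eq_mul, ← mul_assoc]
  have h2 : ((Fintype.card (T d L) : ℕ) : ℂ) = ((NN d L : ℝ) : ℂ) := by
    rw [← card_T (d := d) (L := L)]
    push_cast
    rfl
  rw [h2, ← Complex.ofReal_mul, inv_mul_cancel₀ (NN_pos (d := d) (L := L)).ne',
    Complex.ofReal_one, one_mul]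

open Classical in
theorem Em_tr (ν : Measure ℝ) [IsProbabilityMeasure ν] (W : Finset (Fin d → ℤ)) (n i : ℕ)
    (hW : ∀ w ∈ W, ∀ l, |w l| ≤ n) (b : (Fin d → ℤ) → ℂ) (hL : 2 * n * i < L) :
    Em ν W b (rd L : (Fin d → ℤ) → T d L) i = Em ν W b (id : (Fin d → ℤ) → (Fin d → ℤ)) i := by
  set B : Type := {x : Fin d → ℤ // ∀ l, |x l| ≤ n * i} with hB
  set cc : (B → ℝ) → (Fin d → ℤ) → ℂ := fun g x =>
    if h : ∀ l, |x l| ≤ n * i then cay (g ⟨x, h⟩) else 0 with hcc
  set G : (B → ℝ) → ℂ := fun g => rc W b id (cc g) i 0 with hG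
  have hsm : StronglyMeasurable G := by
    refine rc_meas W b id cc (fun x => ?_) i 0
    simp only [hcc]
    by_cases h : ∀ l, |x l| ≤ n * i
    · simp only [dif_pos h]
      exact cay_cont.measurable.comp (measurable_pi_apply _)
    · simp only [dif_neg h]
      exact measurable_const
  have h1 : ∀ v : (Fin d → ℤ) → ℝ, rc W b id (fun z => cay (v z)) i 0 = G fun y => v y.1 := by
    intro v
    rw [hG]
    refine rc_local W b n hW _ _ i 0 fun y hy => ?_
    have hy' : ∀ l, |y l| ≤ n * i := by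
      intro l
      have := hy l
      rwa [Pi.zero_apply, sub_zero] at this
    simp only [hcc]
    rw [dif_pos hy']
  let θ : (Fin d → ℤ) →+ T d L :=
    { toFun := rd L
      map_zero' := by
        funext l
        simp [rd]
      map_add' := fun x y => by
        funext l
        simp [rd] }
  have h2 : ∀ V : T d L → ℝ, rc W b (rd L) (fun z => cay (V z)) i 0 =
      G fun y => V (rd L y.1) := by
    intro V
    rw [← h1 (fun y => V (rd L y))]
    have h3 := rc_comp W b (rd L) θ id (fun w => rfl) (fun z => cay (V z)) i 0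
    rw [map_zero] at h3
    exact h3
  have hinj : Function.Injective fun y : B => (rd L y.1 : T d L) := by
    intro y y' h
    apply Subtype.ext
    funext l
    have h4 : ((y.1 l : ℤ) : ZMod L) = (y'.1 l : ℤ) := congrFun h l
    rw [ZMod.intCast_eq_intCast_iff_dvd_sub] at h4
    have h5 : |y'.1 l - y.1 l| < (L : ℤ) := by
      have h6 := y.2 l
      have h7 := y'.2 l
      have h8 : |y'.1 l - y.1 l| ≤ |y'.1 l| + |y.1 l| := abs_sub _ _
      have h9 : ((2 * n * i : ℕ) : ℤ) < (L : ℤ) := by exact_mod_cast hL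
      push_cast at h9
      linarith
    have h10 := Int.eq_zero_of_abs_lt_dvd h4 h5
    linarith
  unfold Em
  simp only [h1, h2]
  rw [mp_int (mpi ν (fun y : B => y.1) Subtype.val_injective) hsm,
    mp_int (mpi ν (fun y : B => (rd L y.1 : T d L)) hinj) hsm]

theorem Em_eval (ν : Measure ℝ) [IsProbabilityMeasure ν] (f : (Fin d → ℤ) →₀ ℂ)
    (k : UnitAddTorus (Fin d)) (i : ℕ) :
    (Em ν f.support (mb f) (id : (Fin d → ℤ) → (Fin d → ℤ)) i) k
      = Em ν f.support (bk f k) (id : (Fin d → ℤ) → (Fin d → ℤ)) i := by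
  unfold Em
  have h1 := ContinuousLinearMap.integral_comp_comm (ContinuousMap.evalCLM ℂ k)
    (rc_int ν f.support (mb f) (id : (Fin d → ℤ) → (Fin d → ℤ)) i 0)
  have h2 : ∀ g : C(UnitAddTorus (Fin d), ℂ), ContinuousMap.evalCLM ℂ k g = g k := fun g => rfl
  rw [h2] at h1
  rw [← h1]
  refine integral_congr_ae (Eventually.of_forall fun v => ?_)
  simp only
  rw [h2]
  exact rc_map f.support (mb f) id (ContinuousMap.evalAlgHom ℂ ℂ k) (fun z => cay (v z)) i 0

theorem main : S_SYMB → S_CSYM → S_PER := by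
  intro hS hC d L _ ν _ f q n J k₀ j hf hq hq1 hL
  have h0 : 0 ≤ q := (norm_nonneg _).trans hq
  have hm : ∀ k : T d L, ‖fib (trig f) k₀ k‖ ≤ q := fun k =>
    ((trig f).norm_coe_le_norm _).trans hq
  have h1 := lat hS hC ν f q J hq hq1
  have h2 := (ContinuousMap.norm_coe_le_norm (csym ν (trig f) -
    ∑ i ∈ Finset.range (J + 1), Em ν f.support (mb f) id i) (kk k₀ j)).trans h1
  rw [ContinuousMap.sub_apply, ContinuousMap.sum_apply] at h2
  have h3 : csL ν (fib (trig f) k₀) j - ∑ i ∈ Finset.range (J + 1),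
      Em ν f.support (bk f (kk k₀ j)) (rd L : (Fin d → ℤ) → T d L) i =
      ∫ V, (RL (fib (trig f) k₀) V j j - ∑ i ∈ Finset.range (J + 1),
        Tk (fib (trig f) k₀) V i j j) ∂(Pn ν (T d L)) := by
    have hR : Integrable (fun V => RL (fib (trig f) k₀) V j j) (Pn ν (T d L)) :=
      Integrable.of_bound (RL_cont _ q h0 hq1 hm j).measurable.aestronglyMeasurable _
        (Eventually.of_forall fun V => RL_bd _ q h0 hq1 hm V j)
    rw [integral_sub hR (integrable_finsetSum _ fun i _ => (Tk_mean ν f k₀ j i).1),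
      integral_finsetSum _ (fun i _ => (Tk_mean ν f k₀ j i).1), csL_eq, PP_eq]
    simp only [(Tk_mean ν f k₀ j _).2]
  have h4 : ‖csL ν (fib (trig f) k₀) j - ∑ i ∈ Finset.range (J + 1),
      Em ν f.support (bk f (kk k₀ j)) (rd L : (Fin d → ℤ) → T d L) i‖ ≤ q ^ (J + 1) / (1 - q) := by
    rw [h3]
    have := norm_integral_le_of_norm_le_const (μ := Pn ν (T d L))
      (Eventually.of_forall fun V => tor (fib (trig f) k₀) q h0 hq1 hm V j (J + 1))
    simpa using this
  have h5 : ∑ i ∈ Finset.range (J + 1),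
      Em ν f.support (bk f (kk k₀ j)) (rd L : (Fin d → ℤ) → T d L) i =
      ∑ i ∈ Finset.range (J + 1),
        (Em ν f.support (mb f) (id : (Fin d → ℤ) → (Fin d → ℤ)) i) (kk k₀ j) := by
    refine Finset.sum_congr rfl fun i hi => ?_
    rw [Em_eval]
    refine Em_tr ν f.support n i hf _ ?_
    have hi' := Finset.mem_range.1 hi
    calc 2 * n * i ≤ 2 * n * (J + 1) := Nat.mul_le_mul_left _ hi'.le
      _ < L := hL
  rw [h5] at h4
  change ‖csym ν (trig f) (kk k₀ j) - csL ν (fib (trig f) k₀) j‖ ≤ _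
  have h6 : csym ν (trig f) (kk k₀ j) - csL ν (fib (trig f) k₀) j =
      (csym ν (trig f) (kk k₀ j) - ∑ i ∈ Finset.range (J + 1),
        (Em ν f.support (mb f) (id : (Fin d → ℤ) → (Fin d → ℤ)) i) (kk k₀ j)) -
      (csL ν (fib (trig f) k₀) j - ∑ i ∈ Finset.range (J + 1),
        (Em ν f.support (mb f) (id : (Fin d → ℤ) → (Fin d → ℤ)) i) (kk k₀ j)) := by ring
  rw [h6]
  refine (norm_sub_le _ _).trans ((add_le_add h2 h4).trans (le_of_eq ?_))
  ring

end

end Pool.Agent.Run7.h102.BA_P
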