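import Pool.Agent.Run7.h442.BA.Stm
import Pool.Agent.N916.HB.SE3
import Pool.Agent.W298.WA.CsymA

/-!
# Project BA, part P: the path expansion
-/

set_option autoImplicit false
set_option linter.all false

namespace Pool.Agent.Run7.h102.BA_P

open MeasureTheory Filter Pool.Agent.W792.LL Pool.Agent.W792.WA
open Pool.Agent.Run7.h442.BA
open Pool.Agent.W298.WA.Csym
open scoped Topology

noncomputable section

/-! ### algebra -/

theorem neu {A : Type*} [Ring A] (x R : A) (h : (1 - x) * R = 1) (n : ℕ) :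
    R = ∑ i ∈ Finset.range n, x ^ i + x ^ n * R := by
  have h1 : (∑ i ∈ Finset.range n, x ^ i) * (1 - x) = 1 - x ^ n := geom_sum_mul_neg x n
  have h2 : (∑ i ∈ Finset.range n, x ^ i) = R - x ^ n * R := by
    calc _ = (∑ i ∈ Finset.range n, x ^ i) * ((1 - x) * R) := by rw [h, mul_one]
      _ = (1 - x ^ n) * R := by rw [← mul_assoc, h1]
      _ = _ := by rw [sub_mul, one_mul]
  rw [h2]; abel

/-- the path expansion -/
def rc {Γ 𝓐 : Type*} [AddCommGroup Γ] [Ring 𝓐] [Algebra ℂ 𝓐] {d : ℕ}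
    (W : Finset (Fin d → ℤ)) (b : (Fin d → ℤ) → 𝓐) (φ : (Fin d → ℤ) → Γ) (c : Γ → ℂ) :
    ℕ → Γ → 𝓐
  | 0, x => c x • 1
  | (i + 1), x => c x • ∑ w ∈ W, b w * rc W b φ c i (x - φ w)

section rc

variable {Γ Γ' 𝓐 𝓑 : Type*} [AddCommGroup Γ] [AddCommGroup Γ'] [Ring 𝓐] [Algebra ℂ 𝓐] [Ring 𝓑]
  [Algebra ℂ 𝓑] {d : ℕ} (W : Finset (Fin d → ℤ)) (b : (Fin d → ℤ) → 𝓐) (φ : (Fin d → ℤ) → Γ)

theorem rc_map (g : 𝓐 →ₐ[ℂ] 𝓑) (c : Γ → ℂ) (i : ℕ) (x : Γ) :
    g (rc W b φ c i x) = rc W (fun w => g (b w)) φ c i x := by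
  induction i generalizing x with
  | zero => simp only [rc, map_smul, map_one]
  | succ i ih => simp only [rc, map_smul, map_sum, map_mul, ih]

theorem rc_comp (θ : Γ' →+ Γ) (φ' : (Fin d → ℤ) → Γ') (h : ∀ w, θ (φ' w) = φ w) (c : Γ → ℂ)
    (i : ℕ) (x : Γ') : rc W b φ c i (θ x) = rc W b φ' (fun y => c (θ y)) i x := by
  induction i generalizing x with
  | zero => simp only [rc]
  | succ i ih => simp only [rc, ← ih, map_sub, h]

theorem rc_shift (c : Γ → ℂ) (a : Γ) (i : ℕ) (x : Γ) :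
    rc W b φ (fun z => c (z + a)) i x = rc W b φ c i (x + a) := by
  induction i generalizing x with
  | zero => simp only [rc]
  | succ i ih =>
    simp only [rc, ih]
    congr 1
    refine Finset.sum_congr rfl fun w _ => ?_
    rw [sub_add_eq_add_sub]

theorem rc_local (n : ℕ) (hW : ∀ w ∈ W, ∀ i, |w i| ≤ n) (c c' : (Fin d → ℤ) → ℂ) (i : ℕ)
    (x : Fin d → ℤ) (h : ∀ y : Fin d → ℤ, (∀ l, |y l - x l| ≤ n * i) → c y = c' y) :
    rc W b id c i x = rc W b id c' i x := by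
  induction i generalizing x with
  | zero => simp only [rc, h x (by simp)]
  | succ i ih =>
    simp only [rc]
    rw [h x (by intro l; simp)]
    congr 1
    refine Finset.sum_congr rfl fun w hw => ?_
    rw [ih]
    intro y hy
    apply h
    intro l
    have h1 := hy l
    have h2 := hW w hw l
    have h3 : y l - x l = (y l - (x - id w) l) + (-w l) := by simp; ring
    rw [h3]
    refine (abs_add_le _ _).trans ?_
    rw [abs_neg]
    push_cast
    linarith

end rc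

section meas

variable {Ω Γ 𝓐 : Type*} [MeasurableSpace Ω] [AddCommGroup Γ] [NormedRing 𝓐] [NormedAlgebra ℂ 𝓐]
  {d : ℕ} (W : Finset (Fin d → ℤ)) (b : (Fin d → ℤ) → 𝓐) (φ : (Fin d → ℤ) → Γ)

theorem rc_meas (c : Ω → Γ → ℂ) (hc : ∀ x, Measurable fun ω => c ω x) (i : ℕ) (x : Γ) :
    StronglyMeasurable fun ω => rc W b φ (c ω) i x := by
  induction i generalizing x with
  | zero => exact (hc x).stronglyMeasurable.smul_const _
  | succ i ih =>
    simp only [rc]
    refine (hc x).stronglyMeasurable.smul ?_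
    refine Finset.stronglyMeasurable_fun_sum _ fun w _ => ?_
    exact stronglyMeasurable_const.mul (ih _)

theorem rc_bd (c : Γ → ℂ) (hc : ∀ x, ‖c x‖ ≤ 1) (i : ℕ) (x : Γ) :
    ‖rc W b φ c i x‖ ≤ (∑ w ∈ W, ‖b w‖) ^ i * ‖(1 : 𝓐)‖ := by
  induction i generalizing x with
  | zero =>
    simp only [rc, pow_zero, one_mul]
    rw [norm_smul]
    exact mul_le_of_le_one_left (norm_nonneg _) (hc x)
  | succ i ih =>
    simp only [rc]
    rw [norm_smul, pow_succ', mul_assoc, Finset.sum_mul]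
    have h1 : ‖∑ w ∈ W, b w * rc W b φ c i (x - φ w)‖ ≤
        ∑ w ∈ W, ‖b w‖ * ((∑ w ∈ W, ‖b w‖) ^ i * ‖(1 : 𝓐)‖) :=
      (norm_sum_le _ _).trans (Finset.sum_le_sum fun w _ =>
        (norm_mul_le _ _).trans (mul_le_mul_of_nonneg_left (ih _) (norm_nonneg _)))
    exact (mul_le_of_le_one_left (norm_nonneg _) (hc x)).trans h1

end meas

/-! ### the path expansion on the lattice -/

section lattice

variable {d : ℕ}

theorem opr_mono (w : Fin d → ℤ) (u : l2 (Fin d → ℤ)) (x : Fin d → ℤ) :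
    opr (UnitAddTorus.mFourier w) u x = u (x - w) := by
  have e : (UnitAddTorus.mFourier w : C(UnitAddTorus (Fin d), ℂ)) =
      trig (Finsupp.single w 1) := by
    unfold trig
    have h0 : (Finsupp.single w (1 : ℂ)).sum (fun n c => c • UnitAddTorus.mFourier n) =
        (1 : ℂ) • (UnitAddTorus.mFourier w : C(UnitAddTorus (Fin d), ℂ)) :=
      Finsupp.sum_single_index (by ext k; rw [ContinuousMap.smul_apply, zero_smul]; rfl)
    rw [h0, one_smul]
  have h1 := opr_apply (trig (Finsupp.single w 1)) u x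
  have h2 : HasSum (fun y => UnitAddTorus.mFourierCoeff (trig (Finsupp.single w (1 : ℂ))) (x - y)
      * u y) (u (x - w)) := by
    have h3 := hasSum_single (f := fun y => UnitAddTorus.mFourierCoeff
      (trig (Finsupp.single w (1 : ℂ))) (x - y) * u y) (x - w) (fun y hy => by
        rw [trig_coeff, Finsupp.single_apply, if_neg, zero_mul]
        intro h
        exact hy (by rw [h]; abel))
    simpa [trig_coeff] using h3
  rw [e]
  exact h1.unique h2

theorem opr_sum {ι : Type*} (s : Finset ι) (a : ι → C(UnitAddTorus (Fin d), ℂ)) :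
    opr (∑ i ∈ s, a i) = ∑ i ∈ s, opr (a i) := by
  exact map_sum (Pool.Agent.N916.HB.OA Pool.Agent.W918.LL.main d) a s

theorem opr_one : opr (1 : C(UnitAddTorus (Fin d), ℂ)) = 1 :=
  (Pool.Agent.W918.LL.main d 1 1).2.2.2.2.2.1

/-- the monomials of a trigonometric polynomial -/
def mb (f : (Fin d → ℤ) →₀ ℂ) (w : Fin d → ℤ) : C(UnitAddTorus (Fin d), ℂ) :=
  f w • UnitAddTorus.mFourier w

theorem opr_mb (f : (Fin d → ℤ) →₀ ℂ) (w : Fin d → ℤ) (a : C(UnitAddTorus (Fin d), ℂ))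
    (u : l2 (Fin d → ℤ)) (x : Fin d → ℤ) : opr (mb f w * a) u x = f w * opr a u (x - w) := by
  unfold mb
  rw [opr_mul, opr_smul]
  have : ((f w • opr (UnitAddTorus.mFourier w)) * opr a) u x =
    f w * opr (UnitAddTorus.mFourier w) (opr a u) x := rfl
  rw [this, opr_mono]

theorem trig_eq (f : (Fin d → ℤ) →₀ ℂ) : trig f = ∑ w ∈ f.support, mb f w := rfl

theorem sum_app {ι : Type*} (s : Finset ι) (A : ι → l2 (Fin d → ℤ) →L[ℂ] l2 (Fin d → ℤ))
    (u : l2 (Fin d → ℤ)) (x : Fin d → ℤ) : (∑ i ∈ s, A i) u x = ∑ i ∈ s, A i u x := by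
  rw [ContinuousLinearMap.sum_apply, lp.coeFn_sum, Finset.sum_apply]

theorem opr_trig (f : (Fin d → ℤ) →₀ ℂ) (u : l2 (Fin d → ℤ)) (x : Fin d → ℤ) :
    opr (trig f) u x = ∑ w ∈ f.support, f w * u (x - w) := by
  rw [trig_eq, opr_sum, sum_app]
  refine Finset.sum_congr rfl fun w _ => ?_
  have h := opr_mb f w 1 u x
  rw [mul_one, opr_one] at h
  exact h

/-- the terms of the Neumann series -/
def Pk (f : (Fin d → ℤ) →₀ ℂ) (v : (Fin d → ℤ) → ℝ) (i : ℕ) :
    l2 (Fin d → ℤ) →L[ℂ] l2 (Fin d → ℤ) := dc v * (opr (trig f) * dc v) ^ i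

theorem Pk_rc (f : (Fin d → ℤ) →₀ ℂ) (v : (Fin d → ℤ) → ℝ) (i : ℕ) (u : l2 (Fin d → ℤ))
    (x : Fin d → ℤ) :
    Pk f v i u x = opr (rc f.support (mb f) id (fun z => cay (v z)) i x) u x := by
  induction i generalizing x with
  | zero =>
    unfold Pk
    simp only [rc, pow_zero, mul_one]
    rw [dc_apply, opr_smul, opr_one]
    rfl
  | succ i ih =>
    have h1 : Pk f v (i + 1) u x = dc v (opr (trig f) (Pk f v i u)) x := by
      unfold Pk
      rw [pow_succ']
      rfl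
    rw [h1, dc_apply, opr_trig]
    simp only [rc, ih]
    rw [opr_smul, opr_sum]
    have h2 : ∀ (c : ℂ) (A : l2 (Fin d → ℤ) →L[ℂ] l2 (Fin d → ℤ)), (c • A) u x = c * A u x :=
      fun c A => rfl
    rw [h2, sum_app]
    congr 1
    refine Finset.sum_congr rfl fun w _ => ?_
    rw [opr_mb]
    rfl

end lattice

end

end Pool.Agent.Run7.h102.BA_P
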