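import Pool.Agent.Run7.h102.BA_P1

/-!
# Project BA, part P: averages on the lattice
-/

set_option autoImplicit false
set_option linter.all false

namespace Pool.Agent.Run7.h102.BA_P

open MeasureTheory Filter Pool.Agent.W792.LL Pool.Agent.W792.WA
open Pool.Agent.Run7.h442.BA
open Pool.Agent.W298.WA.Csym
open Pool.Agent.N916.HB (sm_of int_apply)
open scoped Topology

noncomputable section

theorem mpi (ν : Measure ℝ) [IsProbabilityMeasure ν] {Γ Γ' : Type} (θ : Γ' → Γ)
    (h : Function.Injective θ) :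
    MeasurePreserving (fun (v : Γ → ℝ) (y : Γ') => v (θ y)) (Pn ν Γ) (Pn ν Γ') := by
  classical
  have hm : Measurable (fun (v : Γ → ℝ) (y : Γ') => v (θ y)) :=
    measurable_pi_lambda _ fun y => measurable_pi_apply _
  refine ⟨hm, ?_⟩
  unfold Pn
  apply Measure.eq_infinitePi
  intro s t ht
  rw [Measure.map_apply hm (MeasurableSet.pi s.countable_toSet fun i _ => ht i)]
  have e : (fun (v : Γ → ℝ) (y : Γ') => v (θ y)) ⁻¹' (Set.pi s t) =
      Set.pi (s.map ⟨θ, h⟩ : Finset Γ) (Function.extend θ t fun _ => Set.univ) := by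
    ext v
    simp only [Set.mem_preimage, Set.mem_pi, Finset.mem_coe, Finset.mem_map,
      Function.Embedding.coeFn_mk]
    constructor
    · rintro h' _ ⟨y, hy, rfl⟩
      rw [h.extend_apply]
      exact h' y hy
    · intro h' y hy
      have := h' (θ y) ⟨y, hy, rfl⟩
      rwa [h.extend_apply] at this
  rw [e, Measure.infinitePi_pi]
  · rw [Finset.prod_map]
    refine Finset.prod_congr rfl fun y _ => ?_
    simp only [Function.Embedding.coeFn_mk]
    rw [h.extend_apply]
  · intro y hy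
    rw [Finset.mem_map] at hy
    obtain ⟨y', hy', rfl⟩ := hy
    simp only [Function.Embedding.coeFn_mk]
    rw [h.extend_apply]
    exact ht _

theorem mp_int {α β E : Type*} [MeasurableSpace α] [MeasurableSpace β] [NormedAddCommGroup E]
    [NormedSpace ℝ E] {μ : Measure α} {ν : Measure β} {φ : α → β} (h : MeasurePreserving φ μ ν)
    {G : β → E} (hG : StronglyMeasurable G) : ∫ x, G (φ x) ∂μ = ∫ x, G x ∂ν := by
  rw [← h.map_eq, integral_map h.measurable.aemeasurable hG.aestronglyMeasurable]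

section mean

variable {d : ℕ} {Γ : Type} [AddCommGroup Γ] {𝓐 : Type*} [NormedRing 𝓐] [NormedAlgebra ℂ 𝓐]
  (ν : Measure ℝ) [IsProbabilityMeasure ν] (W : Finset (Fin d → ℤ)) (b : (Fin d → ℤ) → 𝓐)
  (φ : (Fin d → ℤ) → Γ)

theorem cay_meas (x : Γ) : Measurable fun v : Γ → ℝ => cay (v x) :=
  cay_cont.measurable.comp (measurable_pi_apply x)

theorem rc_sm (i : ℕ) (x : Γ) :
    StronglyMeasurable fun v : Γ → ℝ => rc W b φ (fun z => cay (v z)) i x :=
  rc_meas W b φ (fun (v : Γ → ℝ) z => cay (v z)) (fun x => cay_meas x) i x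

theorem rc_int (i : ℕ) (x : Γ) :
    Integrable (fun v : Γ → ℝ => rc W b φ (fun z => cay (v z)) i x) (Pn ν Γ) :=
  Integrable.of_bound (rc_sm W b φ i x).aestronglyMeasurable _
    (Eventually.of_forall fun v => rc_bd W b φ _ (fun x => (cay_norm _).le) i x)

/-- mean of the path expansion -/
def Em (i : ℕ) : 𝓐 := ∫ v, rc W b φ (fun z => cay (v z)) i 0 ∂(Pn ν Γ)

theorem Em_x (i : ℕ) (x : Γ) :
    ∫ v, rc W b φ (fun z => cay (v z)) i x ∂(Pn ν Γ) = Em ν W b φ i := by
  unfold Em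
  have h := mp_int (mpi ν (fun z : Γ => z + x) (add_left_injective x)) (rc_sm W b φ i 0)
  rw [← h]
  refine integral_congr_ae (Eventually.of_forall fun v => ?_)
  simp only
  have h2 := rc_shift W b φ (fun z => cay (v z)) x i 0
  rw [zero_add] at h2
  rw [← h2]

end mean

section lattice

variable {d : ℕ}

/-- evaluation of operators -/
def La (u : l2 (Fin d → ℤ)) (x : Fin d → ℤ) : C(UnitAddTorus (Fin d), ℂ) →L[ℂ] ℂ :=
  LinearMap.mkContinuous
    { toFun := fun a => opr a u x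
      map_add' := fun a b => by rw [opr_add]; rfl
      map_smul' := fun c a => by rw [opr_smul]; rfl } ‖u‖ (fun a => by
        have h1 := apply_le (opr a u) x
        have h2 := (opr a).le_opNorm u
        have h3 := mul_le_mul_of_nonneg_right (opr_norm_le a) (norm_nonneg u)
        change ‖opr a u x‖ ≤ _
        linarith [mul_comm ‖a‖ ‖u‖])

theorem La_apply (u : l2 (Fin d → ℤ)) (x : Fin d → ℤ) (a : C(UnitAddTorus (Fin d), ℂ)) :
    La u x a = opr a u x := rfl

theorem Pk_meas (f : (Fin d → ℤ) →₀ ℂ) (i : ℕ) (u : l2 (Fin d → ℤ)) (x : Fin d → ℤ) :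
    Measurable fun v : (Fin d → ℤ) → ℝ => Pk f v i u x := by
  simp only [Pk_rc, ← La_apply]
  exact ((La u x).continuous.comp_stronglyMeasurable (rc_sm _ _ _ i x)).measurable

theorem Pk_int (ν : Measure ℝ) [IsProbabilityMeasure ν] (f : (Fin d → ℤ) →₀ ℂ) (i : ℕ)
    (u : l2 (Fin d → ℤ)) (x : Fin d → ℤ) :
    Integrable (fun v => Pk f v i u x) (Pn ν (Fin d → ℤ)) ∧
    ∫ v, Pk f v i u x ∂(Pn ν (Fin d → ℤ)) = opr (Em ν f.support (mb f) id i) u x := by
  simp only [Pk_rc, ← La_apply]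
  refine ⟨(La u x).integrable_comp (rc_int ν _ _ _ i x), ?_⟩
  rw [ContinuousLinearMap.integral_comp_comm _ (rc_int ν _ _ _ i x), Em_x]

theorem Pk_norm (f : (Fin d → ℤ) →₀ ℂ) (q : ℝ) (hq : ‖trig f‖ ≤ q) (v : (Fin d → ℤ) → ℝ) (i : ℕ) :
    ‖Pk f v i‖ ≤ q ^ i := by
  have h0 : 0 ≤ q := (norm_nonneg _).trans hq
  have hMD : ‖opr (trig f) * dc v‖ ≤ q := by
    refine (nmul _ _).trans ?_
    calc ‖opr (trig f)‖ * ‖dc v‖ ≤ q * 1 :=
          mul_le_mul ((opr_norm_le _).trans hq) (dc_norm v) (norm_nonneg _) h0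
      _ = q := mul_one q
  unfold Pk
  refine (nmul _ _).trans ?_
  have h2 : ‖(opr (trig f) * dc v) ^ i‖ ≤ q ^ i := by
    induction i with
    | zero =>
      rw [pow_zero, pow_zero]
      exact ContinuousLinearMap.norm_id_le
    | succ i ih =>
      rw [pow_succ, pow_succ]
      exact (nmul _ _).trans (mul_le_mul ih hMD (norm_nonneg _) (by positivity))
  calc ‖dc v‖ * ‖(opr (trig f) * dc v) ^ i‖ ≤ 1 * q ^ i :=
        mul_le_mul (dc_norm v) h2 (norm_nonneg _) zero_le_one
    _ = q ^ i := one_mul _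

/-- the truncated expansion on the lattice -/
theorem lat (hS : S_SYMB) (hC : S_CSYM) (ν : Measure ℝ) [IsProbabilityMeasure ν]
    (f : (Fin d → ℤ) →₀ ℂ) (q : ℝ) (J : ℕ) (hq : ‖trig f‖ ≤ q) (hq1 : q < 1) :
    ‖csym ν (trig f) - ∑ i ∈ Finset.range (J + 1), Em ν f.support (mb f) id i‖
      ≤ q ^ (J + 1) / (1 - q) := by
  have h0 : 0 ≤ q := (norm_nonneg _).trans hq
  obtain ⟨hC1, hC2, hC3⟩ := hC ν d (trig f) (hq.trans_lt hq1)
  rw [← (hS d).2.1]
  refine ContinuousLinearMap.opNorm_le_bound _ (div_nonneg (by positivity) (by linarith))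
    fun u => ?_
  have hid : ∀ v : (Fin d → ℤ) → ℝ, dc v (rsv (trig f) v u) -
      ∑ i ∈ Finset.range (J + 1), Pk f v i u = Pk f v (J + 1) (rsv (trig f) v u) := by
    intro v
    have h1 := neu (opr (trig f) * dc v) (rsv (trig f) v) (hC1 v).2.1 (J + 1)
    have h2 : dc v * rsv (trig f) v = ∑ i ∈ Finset.range (J + 1), Pk f v i +
        Pk f v (J + 1) * rsv (trig f) v := by
      conv_lhs => rw [h1]
      rw [mul_add, Finset.mul_sum]
      unfold Pk
      rw [mul_assoc]
    have h3 : dc v (rsv (trig f) v u) = (dc v * rsv (trig f) v) u := rfl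
    rw [h3, h2, ContinuousLinearMap.add_apply, ContinuousLinearMap.sum_apply, add_sub_cancel_left]
    rfl
  have hb : ∀ v : (Fin d → ℤ) → ℝ, ‖dc v (rsv (trig f) v u) -
      ∑ i ∈ Finset.range (J + 1), Pk f v i u‖ ≤ q ^ (J + 1) / (1 - q) * ‖u‖ := by
    intro v
    rw [hid]
    refine ((Pk f v (J + 1)).le_of_opNorm_le (Pk_norm f q hq v (J + 1)) _).trans ?_
    have h4 : ‖rsv (trig f) v u‖ ≤ 1 / (1 - q) * ‖u‖ := by
      refine ((rsv (trig f) v).le_of_opNorm_le ((hC1 v).1.trans ?_) u)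
      apply one_div_le_one_div_of_le <;> linarith
    calc q ^ (J + 1) * ‖rsv (trig f) v u‖ ≤ q ^ (J + 1) * (1 / (1 - q) * ‖u‖) :=
          mul_le_mul_of_nonneg_left h4 (by positivity)
      _ = _ := by ring
  have hco : ∀ (v : (Fin d → ℤ) → ℝ) x, (dc v (rsv (trig f) v u) -
      ∑ i ∈ Finset.range (J + 1), Pk f v i u : l2 (Fin d → ℤ)) x =
      (dc v (rsv (trig f) v u)) x - ∑ i ∈ Finset.range (J + 1), Pk f v i u x := by
    intro v x
    rw [lp.coeFn_sub, Pi.sub_apply, lp.coeFn_sum, Finset.sum_apply]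
  have hsm : StronglyMeasurable fun v : (Fin d → ℤ) → ℝ => dc v (rsv (trig f) v u) -
      ∑ i ∈ Finset.range (J + 1), Pk f v i u := by
    refine sm_of _ fun x => ?_
    simp only [hco]
    exact ((hC2 u x).2.1).sub (Finset.measurable_fun_sum _ fun i _ => Pk_meas f i u x)
  have hint : Integrable (fun v : (Fin d → ℤ) → ℝ => dc v (rsv (trig f) v u) -
      ∑ i ∈ Finset.range (J + 1), Pk f v i u) (Pn ν (Fin d → ℤ)) :=
    Integrable.of_bound hsm.aestronglyMeasurable _ (Eventually.of_forall hb)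
  have hD : ∀ x, Integrable (fun v => (dc v (rsv (trig f) v u)) x) (Pn ν (Fin d → ℤ)) := by
    intro x
    refine Integrable.of_bound (hC2 u x).2.1.aestronglyMeasurable (1 / (1 - q) * ‖u‖)
      (Eventually.of_forall fun v => ?_)
    refine (apply_le _ x).trans ?_
    refine ((dc v).le_of_opNorm_le (dc_norm v) _).trans ?_
    rw [one_mul]
    refine ((rsv (trig f) v).le_of_opNorm_le ((hC1 v).1.trans ?_) u)
    apply one_div_le_one_div_of_le <;> linarith
  have heq : opr (csym ν (trig f) - ∑ i ∈ Finset.range (J + 1), Em ν f.support (mb f) id i) u =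
      ∫ v, (dc v (rsv (trig f) v u) - ∑ i ∈ Finset.range (J + 1), Pk f v i u)
        ∂(Pn ν (Fin d → ℤ)) := by
    ext x
    rw [int_apply _ hint]
    simp only [hco]
    rw [integral_sub (hD x) (integrable_finsetSum _ fun i _ => (Pk_int ν f i u x).1),
      integral_finsetSum _ (fun i _ => (Pk_int ν f i u x).1), (hC2 u x).2.2.1, opr_sub, opr_sum]
    simp only [(Pk_int ν f _ u x).2]
    rw [← sum_app]
    rfl
  rw [heq]
  have := norm_integral_le_of_norm_le_const (μ := Pn ν (Fin d → ℤ)) (Eventually.of_forall hb)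
  simpa using this

end lattice

end

end Pool.Agent.Run7.h102.BA_P
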