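import Pool.Agent.Run7.h102.BA_P2
import Pool.Agent.Run7.h442.BA.Alg

/-!
# Project BA, part P: the torus
-/

set_option autoImplicit false
set_option linter.all false

namespace Pool.Agent.Run7.h102.BA_P

open MeasureTheory Filter Pool.Agent.W792.LL Pool.Agent.W792.WA
open Pool.Agent.Run7.h442.BA
open Pool.Agent.W298.WA.Csym (cay_norm cay_cont)
open Pool.Agent.W788.BK (PP nsq nsq_nonneg nsq_eq nsq_smul nsq_eq_zero)
open Pool.Agent.W788.MFP.Four (T e NN adj e_comm e_add_left e_add e_zero e_neg e_neg_left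
  e_normSq sum_e NN_pos card_T)
open scoped Topology Matrix

noncomputable section

variable {d L : ℕ} [NeZero L]

/-- reduction modulo `L` -/
def rd (L : ℕ) {d : ℕ} (w : Fin d → ℤ) : T d L := fun i => (w i : ZMod L)

/-- the momentum `k₀ + p / L` -/
def kk (k₀ : UnitAddTorus (Fin d)) (p : T d L) : UnitAddTorus (Fin d) :=
  fun i => k₀ i + ZMod.toAddCircle (p i)

theorem achar_sum {A : Type*} [AddCommGroup A] (ψ : AddChar A ℂ) {ι : Type*} (s : Finset ι)
    (g : ι → A) : ψ (∑ i ∈ s, g i) = ∏ i ∈ s, ψ (g i) := by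
  classical
  induction s using Finset.induction_on with
  | empty => simp
  | insert a s ha ih => rw [Finset.sum_insert ha, Finset.prod_insert ha, AddChar.map_add_eq_mul, ih]

theorem mF_kk (k₀ : UnitAddTorus (Fin d)) (p : T d L) (w : Fin d → ℤ) :
    UnitAddTorus.mFourier w (kk k₀ p) = UnitAddTorus.mFourier w k₀ * e p (rd L w) := by
  have h1 : e p (rd L w) = ∏ i, (ZMod.stdAddChar (p i * (w i : ZMod L)) : ℂ) := by
    unfold e rd
    exact achar_sum _ _ _
  rw [h1]
  simp only [UnitAddTorus.mFourier, ContinuousMap.coe_mk]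
  rw [← Finset.prod_mul_distrib]
  refine Finset.prod_congr rfl fun i _ => ?_
  rw [fourier_apply, fourier_apply]
  unfold kk
  rw [smul_add, AddCircle.toCircle_add, Circle.coe_mul]
  congr 1
  rw [ZMod.stdAddChar_apply]
  congr 1
  have h2 : p i * (w i : ZMod L) = w i • p i := by rw [zsmul_eq_mul, mul_comm]
  rw [h2, ← map_zsmul]
  rfl

theorem pv_av (y y' : T d L) : pv (av y) y' = if y = y' then 1 else 0 := by
  have h1 : pv (av y) y' = (((NN d L)⁻¹ : ℝ) : ℂ) * ∑ k, e k (y - y') := by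
    unfold pv av dotProduct
    rw [Finset.mul_sum]
    refine Finset.sum_congr rfl fun k _ => ?_
    rw [Pi.star_apply, ← sq_inv, sub_eq_add_neg, e_add, e_neg, star_mul']
    simp only [RCLike.star_def, Complex.conj_ofReal]
    ring
  have hN : (NN d L : ℂ) ≠ 0 := by exact_mod_cast (NN_pos (d := d) (L := L)).ne'
  rw [h1, sum_e]
  by_cases h : y = y'
  · rw [if_pos (sub_eq_zero.2 h), if_pos h]
    push_cast
    exact inv_mul_cancel₀ hN
  · rw [if_neg (sub_ne_zero.2 h), if_neg h, mul_zero]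

theorem CL_mulVec (V : T d L → ℝ) (u : T d L → ℂ) :
    CL V *ᵥ u = ∑ y, (cay (V y) * pv u y) • av y := by
  unfold CL
  rw [Matrix.sum_mulVec]
  refine Finset.sum_congr rfl fun y _ => ?_
  rw [Matrix.smul_mulVec, AY_mulVec, smul_smul]

theorem pv_sum {ι : Type*} (s : Finset ι) (g : ι → T d L → ℂ) (y : T d L) :
    pv (∑ i ∈ s, g i) y = ∑ i ∈ s, pv (g i) y := by
  unfold pv
  rw [dotProduct_sum]

theorem pv_smul (c : ℂ) (u : T d L → ℂ) (y : T d L) : pv (c • u) y = c * pv u y := by
  unfold pv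
  rw [dotProduct_smul, smul_eq_mul]

theorem pv_CL (V : T d L → ℝ) (u : T d L → ℂ) (y : T d L) :
    pv (CL V *ᵥ u) y = cay (V y) * pv u y := by
  rw [CL_mulVec, pv_sum, Finset.sum_eq_single y]
  · rw [pv_smul, pv_av, if_pos rfl, mul_one]
  · intro z _ hz
    rw [pv_smul, pv_av, if_neg hz, mul_zero]
  · intro h
    exact absurd (Finset.mem_univ y) h

theorem nsq_CL (V : T d L → ℝ) (u : T d L → ℂ) : nsq (CL V *ᵥ u) = nsq u := by
  rw [← parseval_sq, ← parseval_sq]
  refine Finset.sum_congr rfl fun y _ => ?_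
  rw [pv_CL, norm_mul, cay_norm, one_mul]

theorem av_shift (k : T d L) (y z : T d L) :
    star (av (y - z)) k = star (av y) k * e k z := by
  unfold av
  rw [Pi.star_apply, Pi.star_apply, sub_eq_add_neg, e_add, e_neg, star_mul', star_mul', star_mul']
  simp only [RCLike.star_def, Complex.conj_ofReal, Complex.conj_conj]
  ring

theorem pv_diag (f : (Fin d → ℤ) →₀ ℂ) (k₀ : UnitAddTorus (Fin d)) (u : T d L → ℂ) (y : T d L) :
    pv (Matrix.diagonal (fib (trig f) k₀) *ᵥ u) y
      = ∑ w ∈ f.support, (f w * UnitAddTorus.mFourier w k₀) * pv u (y - rd L w) := by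
  have h1 : ∀ p : T d L, fib (trig f) k₀ p = ∑ w ∈ f.support,
      (f w * UnitAddTorus.mFourier w k₀) * e p (rd L w) := by
    intro p
    have : fib (trig f) k₀ p = trig f (kk k₀ p) := rfl
    rw [this, trig_eq, ContinuousMap.sum_apply]
    refine Finset.sum_congr rfl fun w _ => ?_
    unfold mb
    rw [ContinuousMap.smul_apply, smul_eq_mul, mF_kk, mul_assoc]
  unfold pv dotProduct
  simp only [Matrix.mulVec_diagonal, h1, Finset.sum_mul, Finset.mul_sum]
  rw [Finset.sum_comm]
  refine Finset.sum_congr rfl fun w _ => Finset.sum_congr rfl fun p _ => ?_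
  rw [av_shift]
  ring

/-- the values of the monomials at a momentum -/
def bk (f : (Fin d → ℤ) →₀ ℂ) (k : UnitAddTorus (Fin d)) (w : Fin d → ℤ) : ℂ :=
  f w * UnitAddTorus.mFourier w k

/-- the terms of the Neumann series -/
def Tk (m : T d L → ℂ) (V : T d L → ℝ) (i : ℕ) : Matrix (T d L) (T d L) ℂ :=
  CL V * (Matrix.diagonal m * CL V) ^ i

theorem pv_rc (f : (Fin d → ℤ) →₀ ℂ) (k₀ : UnitAddTorus (Fin d)) (j : T d L) (V : T d L → ℝ)
    (i : ℕ) (y : T d L) :
    pv (Tk (fib (trig f) k₀) V i *ᵥ Pi.single j 1) y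
      = star (av y) j * rc f.support (bk f (kk k₀ j)) (rd L) (fun z => cay (V z)) i y := by
  induction i generalizing y with
  | zero =>
    unfold Tk
    rw [pow_zero, mul_one, pv_CL]
    simp only [rc]
    have h1 : pv (Pi.single j 1) y = star (av y) j := by
      unfold pv
      rw [dotProduct_single, mul_one]
    rw [h1, smul_eq_mul, mul_one, mul_comm]
  | succ i ih =>
    have h1 : Tk (fib (trig f) k₀) V (i + 1) =
        CL V * (Matrix.diagonal (fib (trig f) k₀) * Tk (fib (trig f) k₀) V i) := by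
      unfold Tk
      rw [pow_succ']
      simp only [Matrix.mul_assoc]
    rw [h1, ← Matrix.mulVec_mulVec, pv_CL, ← Matrix.mulVec_mulVec, pv_diag]
    simp only [rc, ih, av_shift]
    rw [smul_eq_mul, Finset.mul_sum, Finset.mul_sum, Finset.mul_sum]
    refine Finset.sum_congr rfl fun w _ => ?_
    unfold bk
    rw [mF_kk]
    ring

theorem diag_rc (f : (Fin d → ℤ) →₀ ℂ) (k₀ : UnitAddTorus (Fin d)) (j : T d L) (V : T d L → ℝ)
    (i : ℕ) :
    Tk (fib (trig f) k₀) V i j j
      = (((NN d L)⁻¹ : ℝ) : ℂ) *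
        ∑ y, rc f.support (bk f (kk k₀ j)) (rd L) (fun z => cay (V z)) i y := by
  have h1 : Tk (fib (trig f) k₀) V i j j =
      (Tk (fib (trig f) k₀) V i *ᵥ Pi.single j 1) j := by
    rw [Matrix.mulVec_single_one]
    rfl
  rw [h1, ← expand (Tk (fib (trig f) k₀) V i *ᵥ Pi.single j 1) j, Finset.mul_sum]
  refine Finset.sum_congr rfl fun y _ => ?_
  rw [pv_rc]
  have h2 : star (av y) j * av y j = (((NN d L)⁻¹ : ℝ) : ℂ) := by
    unfold av
    rw [Pi.star_apply, star_mul', ← sq_inv]
    simp only [RCLike.star_def, Complex.conj_ofReal]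
    have := e_normSq j y
    linear_combination (((√(NN d L))⁻¹ : ℝ) : ℂ) * (((√(NN d L))⁻¹ : ℝ) : ℂ) * this
  linear_combination (rc f.support (bk f (kk k₀ j)) (rd L) (fun z => cay (V z)) i y) * h2

end

end Pool.Agent.Run7.h102.BA_P
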